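import Pool.Agent.H71.DG.MPairs
import Pool.Agent.H66.SP.Rec

/-!
# DG-33: from the sums over `F` to the number of bad graphs (M12)

PROOF `bad_le`.  For a bad `G` (some `U` with `Ob p G U`, `finrank U = d`) with `KryOK p G m₀ d`, `pairs_ge` gives at
least `p^(d²)/2` pairs.  `∑_G #pairs(G) = ∑_Θ ∑_{F : Quad, Dir} cnt F (F * Θ) ≤ p^(d²) * card * A`
(exchange of sums, `card (Matrix (Fin d) (Fin d) (ZMod p)) = p^(d²)`).  So there are at most
`2 * card * A` of them.  The others fail `KryOK`: either not `MultOK t₁ (m₁ + 1)`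
(`card_not_multOK_le`), or all `mult ≤ m₁ + 1` and `kry_all` applies with `s = m₁ + 1`.
-/

set_option autoImplicit false

namespace Pool.Agent.H71.DG

open Matrix Classical Pool.Agent.H66.SP Pool.Agent.H10.DG

/-- the pairs of one graph -/
noncomputable def mbadP (p : ℕ) [Fact p.Prime] {V : Type*} [Fintype V] (d m₀ : ℕ)
    (G : SimpleGraph V) (x : Matrix V (Fin d) (ZMod p) × Matrix (Fin d) (Fin d) (ZMod p)) : Prop :=
  (Quad x.1 ∧ Dir x.1 m₀) ∧ adj (ZMod p) G * x.1 = x.1 * x.2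

theorem mbad_cnt {N r : ℕ} [NeZero N] {V : Type*} [Fintype V] [DecidableEq V]
    (F g : Matrix V (Fin r) (ZMod N)) :
    cnt F g = ∑ G : SimpleGraph V, if adj (ZMod N) G * F = g then 1 else 0 := by
  unfold cnt
  rw [Finset.card_filter]
  refine Finset.sum_congr (by ext x; simp) fun G _ => ?_
  by_cases h : adj (ZMod N) G * F = g
  · rw [if_pos h]
  · rw [if_neg h]

theorem mbad_sum (p : ℕ) [Fact p.Prime] {V : Type*} [Fintype V] [DecidableEq V] (d m₀ : ℕ) :
    ∑ G : SimpleGraph V, ((Finset.univ :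
      Finset (Matrix V (Fin d) (ZMod p) × Matrix (Fin d) (Fin d) (ZMod p))).filter
        (fun x => mbadP p d m₀ G x)).card =
    ∑ Θ : Matrix (Fin d) (Fin d) (ZMod p),
      ∑ F ∈ (Finset.univ : Finset (Matrix V (Fin d) (ZMod p))).filter
        (fun F => Quad F ∧ Dir F m₀), cnt F (F * Θ) := by
  have h1 : ∀ G : SimpleGraph V, ((Finset.univ :
      Finset (Matrix V (Fin d) (ZMod p) × Matrix (Fin d) (Fin d) (ZMod p))).filter
        (fun x => mbadP p d m₀ G x)).card =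
      ∑ Θ : Matrix (Fin d) (Fin d) (ZMod p), ∑ F : Matrix V (Fin d) (ZMod p),
        if (Quad F ∧ Dir F m₀) ∧ adj (ZMod p) G * F = F * Θ then 1 else 0 := by
    intro G
    rw [Finset.card_filter, Fintype.sum_prod_type_right]
    refine Finset.sum_congr rfl fun Θ _ => Finset.sum_congr rfl fun F _ => ?_
    by_cases h : mbadP p d m₀ G (F, Θ)
    · rw [if_pos h]
      exact (if_pos h).symm
    · rw [if_neg h]
      exact (if_neg h).symm
  simp only [h1]
  rw [Finset.sum_comm]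
  refine Finset.sum_congr rfl fun Θ _ => ?_
  rw [Finset.sum_comm, Finset.sum_filter]
  refine Finset.sum_congr rfl fun F _ => ?_
  by_cases hF : Quad F ∧ Dir F m₀
  · rw [if_pos hF]
    rw [mbad_cnt]
    refine Finset.sum_congr rfl fun G _ => ?_
    by_cases h : adj (ZMod p) G * F = F * Θ
    · rw [if_pos h, if_pos ⟨hF, h⟩]
    · rw [if_neg h, if_neg (fun h' => h h'.2)]
  · rw [if_neg hF]
    refine Finset.sum_eq_zero fun G _ => ?_
    rw [if_neg]
    exact fun h => hF h.1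

theorem mbad_card (p d : ℕ) [Fact p.Prime] :
    Fintype.card (Matrix (Fin d) (Fin d) (ZMod p)) = p ^ (d * d) := by
  have h : Fintype.card (Fin d → Fin d → ZMod p) = p ^ (d * d) := by
    rw [Fintype.card_fun, Fintype.card_fun, ZMod.card, Fintype.card_fin, pow_mul]
  rw [← h]
  rfl

theorem mbad_aux (b P N A : ℝ) (hP : 0 < P) (h : b * (P / 2) ≤ P * (N * A)) :
    b ≤ N * (2 * A) := by
  have h5 : b * (P / 2) ≤ (N * (2 * A)) * (P / 2) := by
    refine h.trans (le_of_eq ?_)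
    ring
  exact le_of_mul_le_mul_right h5 (by positivity)

theorem mbad_first {p d n : ℕ} [Fact p.Prime] (hp : p ≠ 2) (m₀ : ℕ) (A : ℝ)
    (hA : ∀ Θ : Matrix (Fin d) (Fin d) (ZMod p),
      ∑ F ∈ (Finset.univ : Finset (Matrix (Fin n) (Fin d) (ZMod p))).filter
        (fun F => Quad F ∧ Dir F m₀), (cnt F (F * Θ) : ℝ) ≤
        (Fintype.card (SimpleGraph (Fin n)) : ℝ) * A) :
    (((Finset.univ : Finset (SimpleGraph (Fin n))).filter (fun G =>
      (∃ U : Submodule (ZMod p) (Fin n → ZMod p), Ob p G U ∧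
        Module.finrank (ZMod p) U = d) ∧ KryOK p G m₀ d)).card : ℝ) ≤
      (Fintype.card (SimpleGraph (Fin n)) : ℝ) * (2 * A) := by
  set B : Finset (SimpleGraph (Fin n)) := (Finset.univ : Finset (SimpleGraph (Fin n))).filter
    (fun G => (∃ U : Submodule (ZMod p) (Fin n → ZMod p), Ob p G U ∧
        Module.finrank (ZMod p) U = d) ∧ KryOK p G m₀ d) with hB
  have hp0 : (0 : ℝ) < (p : ℝ) ^ (d * d) := by
    have : 0 < p := (Fact.out : p.Prime).pos
    positivity
  have h1 : (B.card : ℝ) * ((p : ℝ) ^ (d * d) / 2) ≤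
      ∑ G ∈ B, (((Finset.univ :
      Finset (Matrix (Fin n) (Fin d) (ZMod p) × Matrix (Fin d) (Fin d) (ZMod p))).filter
        (fun x => mbadP p d m₀ G x)).card : ℝ) := by
    rw [← nsmul_eq_mul, ← Finset.sum_const]
    refine Finset.sum_le_sum fun G hG => ?_
    rw [hB, Finset.mem_filter] at hG
    obtain ⟨-, ⟨U, hU, hd⟩, hK⟩ := hG
    have h := pairs_ge hp G U hU hd m₀ d le_rfl hK
    refine h.trans (le_of_eq ?_)
    have e : ((Finset.univ :
        Finset (Matrix (Fin n) (Fin d) (ZMod p) × Matrix (Fin d) (Fin d) (ZMod p))).filter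
        (fun x => (Quad x.1 ∧ Dir x.1 m₀) ∧ adj (ZMod p) G * x.1 = x.1 * x.2)) =
      ((Finset.univ :
        Finset (Matrix (Fin n) (Fin d) (ZMod p) × Matrix (Fin d) (Fin d) (ZMod p))).filter
        (fun x => mbadP p d m₀ G x)) := by
      ext x
      simp only [Finset.mem_filter, Finset.mem_univ, true_and]
      rfl
    rw [e]
  have h2 : ∑ G ∈ B, (((Finset.univ :
      Finset (Matrix (Fin n) (Fin d) (ZMod p) × Matrix (Fin d) (Fin d) (ZMod p))).filter
        (fun x => mbadP p d m₀ G x)).card : ℝ) ≤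
      ∑ G : SimpleGraph (Fin n), (((Finset.univ :
      Finset (Matrix (Fin n) (Fin d) (ZMod p) × Matrix (Fin d) (Fin d) (ZMod p))).filter
        (fun x => mbadP p d m₀ G x)).card : ℝ) :=
    Finset.sum_le_sum_of_subset_of_nonneg (Finset.subset_univ _)
      (fun G _ _ => Nat.cast_nonneg _)
  have h3 : ∑ G : SimpleGraph (Fin n), (((Finset.univ :
      Finset (Matrix (Fin n) (Fin d) (ZMod p) × Matrix (Fin d) (Fin d) (ZMod p))).filter
        (fun x => mbadP p d m₀ G x)).card : ℝ) =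
      ∑ Θ : Matrix (Fin d) (Fin d) (ZMod p),
      ∑ F ∈ (Finset.univ : Finset (Matrix (Fin n) (Fin d) (ZMod p))).filter
        (fun F => Quad F ∧ Dir F m₀), (cnt F (F * Θ) : ℝ) := by
    exact_mod_cast mbad_sum (V := Fin n) p d m₀
  have h4 : ∑ Θ : Matrix (Fin d) (Fin d) (ZMod p),
      ∑ F ∈ (Finset.univ : Finset (Matrix (Fin n) (Fin d) (ZMod p))).filter
        (fun F => Quad F ∧ Dir F m₀), (cnt F (F * Θ) : ℝ) ≤
      (p : ℝ) ^ (d * d) * ((Fintype.card (SimpleGraph (Fin n)) : ℝ) * A) := by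
    refine (Finset.sum_le_sum fun Θ _ => hA Θ).trans (le_of_eq ?_)
    rw [Finset.sum_const, Finset.card_univ, mbad_card, nsmul_eq_mul, Nat.cast_pow]
  exact mbad_aux _ _ _ _ hp0 (h1.trans (h2.trans (h3.le.trans h4)))

theorem bad_le {p d n : ℕ} [Fact p.Prime] (hp : p ≠ 2) (hd : 1 ≤ d) (hn : 1 ≤ n)
    (m₀ t₁ m₁ : ℕ) (ht₁ : 1 ≤ t₁) (hm₁ : n * (2 ^ m₁ * 3 ^ t₁) < 3 ^ m₁) (A : ℝ)
    (hA : ∀ Θ : Matrix (Fin d) (Fin d) (ZMod p),
      ∑ F ∈ (Finset.univ : Finset (Matrix (Fin n) (Fin d) (ZMod p))).filter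
        (fun F => Quad F ∧ Dir F m₀), (cnt F (F * Θ) : ℝ) ≤
        (Fintype.card (SimpleGraph (Fin n)) : ℝ) * A) :
    (((Finset.univ : Finset (SimpleGraph (Fin n))).filter (fun G =>
      ∃ U : Submodule (ZMod p) (Fin n → ZMod p), Ob p G U ∧
        Module.finrank (ZMod p) U = d)).card : ℝ) ≤
      (Fintype.card (SimpleGraph (Fin n)) : ℝ) *
        (2 * A + n * ((n : ℝ) / 2 ^ t₁ + 2 * (n : ℝ) ^ 4 / 2 ^ (m₁ + 1)) +
          ((n : ℝ) * p) ^ m₀ *
            (d * (p : ℝ) ^ (2 * d) * 2 ^ ((d - 1) * (m₁ + 2)) / 2 ^ (n - 1))) := by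
  have : Nonempty (Fin n) := ⟨⟨0, hn⟩⟩
  have hf := mbad_first hp m₀ A hA
  have hm := card_not_multOK_le n t₁ m₁ ht₁ hm₁
  have hk := kry_all (V := Fin n) p m₀ (m₁ + 1) d hd
  rw [Fintype.card_fin] at hk
  have hsub : (Finset.univ : Finset (SimpleGraph (Fin n))).filter (fun G =>
      ∃ U : Submodule (ZMod p) (Fin n → ZMod p), Ob p G U ∧
        Module.finrank (ZMod p) U = d) ⊆
      ((Finset.univ : Finset (SimpleGraph (Fin n))).filter (fun G =>
      (∃ U : Submodule (ZMod p) (Fin n → ZMod p), Ob p G U ∧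
        Module.finrank (ZMod p) U = d) ∧ KryOK p G m₀ d) ∪
      (Finset.univ : Finset (SimpleGraph (Fin n))).filter (fun G => ¬ MultOK t₁ (m₁ + 1) G)) ∪
      (Finset.univ : Finset (SimpleGraph (Fin n))).filter (fun G =>
      (∀ μ : KK p, mult (adj (KK p) G) μ ≤ m₁ + 1) ∧ ¬ KryOK p G m₀ d) := by
    intro G hG
    rw [Finset.mem_filter] at hG
    rw [Finset.mem_union, Finset.mem_union, Finset.mem_filter, Finset.mem_filter,
      Finset.mem_filter]
    by_cases h1 : KryOK p G m₀ d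
    · exact Or.inl (Or.inl ⟨Finset.mem_univ _, hG.2, h1⟩)
    · by_cases h2 : MultOK t₁ (m₁ + 1) G
      · exact Or.inr ⟨Finset.mem_univ _, fun μ => h2.2 p μ, h1⟩
      · exact Or.inl (Or.inr ⟨Finset.mem_univ _, h2⟩)
  have hc := (Finset.card_le_card hsub).trans ((Finset.card_union_le _ _).trans
    (Nat.add_le_add_right (Finset.card_union_le _ _) _))
  have hc' : (((Finset.univ : Finset (SimpleGraph (Fin n))).filter (fun G =>
      ∃ U : Submodule (ZMod p) (Fin n → ZMod p), Ob p G U ∧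
        Module.finrank (ZMod p) U = d)).card : ℝ) ≤ _ := Nat.cast_le.2 hc
  refine hc'.trans ?_
  push_cast
  have e1 : (m₁ + 1 + 1) = m₁ + 2 := rfl
  rw [e1] at hk
  calc _ ≤ (Fintype.card (SimpleGraph (Fin n)) : ℝ) * (2 * A) +
        n * ((n : ℝ) / 2 ^ t₁ + 2 * (n : ℝ) ^ 4 / 2 ^ (m₁ + 1)) *
        (Fintype.card (SimpleGraph (Fin n)) : ℝ) +
        (Fintype.card (SimpleGraph (Fin n)) : ℝ) * (((n : ℝ) * p) ^ m₀ *
        (d * (p : ℝ) ^ (2 * d) * 2 ^ ((d - 1) * (m₁ + 2)) / 2 ^ (n - 1))) :=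
        add_le_add (add_le_add hf hm) hk
    _ = _ := by ring

end Pool.Agent.H71.DG
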