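import Pool.Agent.H71.DG.Num0

/-!
# DG-35: numerics for part M, exponential conditions

PROOFS.  `hq`: `4 t² / t^80 ≤ exp (-1)` (crude), so the left side is at most `exp (-t)`, and
`p^d ≤ exp (t/100)`.  `hD`: `2^t ≥ exp (t/2)`.  `hx`: with `q = p^d`, `τ ≥ t^10/q`: `1/q ≤ τ/t^10`,
`(8τ + 2/q)/t^30 ≤ 10 τ/t^30`, and `exp (-2t) ≤ (1/q) exp (-t) ≤ τ/t^10`; the sum is at most
`12 τ/t^10 ≤ τ/t^9`.  Others: `exp` of a negative number.
-/

set_option autoImplicit false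

namespace Pool.Agent.H71.DG

theorem Par.inv_q {t n p d : ℕ} (h : Par t n p d) :
    Real.exp (-((t : ℝ) / 100)) ≤ 1 / (p : ℝ) ^ d := by
  rw [Real.exp_neg, ← one_div]
  exact one_div_le_one_div_of_le h.q_pos h.q_le

theorem Par.hq {t n p d : ℕ} (h : Par t n p d) :
    (4 * (t : ℝ) ^ 2 / ((t ^ 80 : ℕ) : ℝ)) ^ t ≤ 1 / (p : ℝ) ^ d := by
  have ht := h.tR
  refine le_trans ?_ h.inv_q
  have h1 : 4 * (t : ℝ) ^ 2 / ((t ^ 80 : ℕ) : ℝ) ≤ Real.exp (-1) := by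
    have h2 := h.powR (a := 2) (b := 80) (c := 12) (by norm_num) (by norm_num)
    have h3 : Real.exp 1 ≤ 3 := by
      have := Real.exp_one_lt_d9
      linarith
    rw [Real.exp_neg, ← one_div]
    have h5 : (0 : ℝ) < (t : ℝ) ^ 80 := by positivity
    push_cast
    rw [div_le_div_iff₀ h5 (Real.exp_pos 1), one_mul]
    calc 4 * (t : ℝ) ^ 2 * Real.exp 1 ≤ 4 * (t : ℝ) ^ 2 * 3 :=
          mul_le_mul_of_nonneg_left h3 (by positivity)
      _ = 12 * (t : ℝ) ^ 2 := by ring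
      _ ≤ _ := h2
  calc (4 * (t : ℝ) ^ 2 / ((t ^ 80 : ℕ) : ℝ)) ^ t ≤ (Real.exp (-1)) ^ t :=
        pow_le_pow_left₀ (by positivity) h1 _
    _ = Real.exp (-(t : ℝ)) := by
        rw [← Real.exp_nat_mul]
        congr 1
        ring
    _ ≤ _ := Real.exp_le_exp.mpr (by linarith)

theorem Par.hD {t n p d : ℕ} (h : Par t n p d) :
    1 ≤ ((t : ℝ) ^ 10 / (p : ℝ) ^ d) * 2 ^ t := by
  have ht := h.tR
  have hq := h.q_pos
  have h1 : (1 : ℝ) ≤ (t : ℝ) ^ 10 := one_le_pow₀ (by linarith)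
  have h2 : (p : ℝ) ^ d ≤ 2 ^ t := by
    refine le_trans h.q_le ?_
    calc Real.exp ((t : ℝ) / 100) = (Real.exp (1 / 100)) ^ t := by
          rw [← Real.exp_nat_mul]
          congr 1
          ring
      _ ≤ 2 ^ t := by
          apply pow_le_pow_left₀ (Real.exp_pos _).le
          have h3 := Real.exp_bound_div_one_sub_of_interval' (x := 1 / 100) (by norm_num)
            (by norm_num)
          exact le_of_lt (lt_of_lt_of_le h3 (by norm_num))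
  rw [div_mul_eq_mul_div, le_div_iff₀ hq, one_mul]
  calc (p : ℝ) ^ d ≤ 2 ^ t := h2
    _ = 1 * 2 ^ t := (one_mul _).symm
    _ ≤ (t : ℝ) ^ 10 * 2 ^ t := mul_le_mul_of_nonneg_right h1 (by positivity)

theorem Par.hx {t n p d : ℕ} (h : Par t n p d) (τ : ℝ) (hτ : (t : ℝ) ^ 10 / (p : ℝ) ^ d ≤ τ) :
    max (1 / (p : ℝ) ^ d) ((8 * τ + 2 / (p : ℝ) ^ d) / ((t ^ 30 : ℕ) : ℝ)) +
      Real.exp (-2 * (t : ℝ)) ≤ (1 / (t : ℝ) ^ 9) * τ := by
  have ht := h.tR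
  have hq := h.q_pos
  have h10 : (0 : ℝ) < (t : ℝ) ^ 10 := by positivity
  have h9 : (0 : ℝ) < (t : ℝ) ^ 9 := by positivity
  have h30 : (0 : ℝ) < (t : ℝ) ^ 30 := by positivity
  have hτ0 : 0 < τ := lt_of_lt_of_le (by positivity) hτ
  have e1 : 1 / (p : ℝ) ^ d ≤ τ / (t : ℝ) ^ 10 := by
    rw [le_div_iff₀ h10]
    calc 1 / (p : ℝ) ^ d * (t : ℝ) ^ 10 = (t : ℝ) ^ 10 / (p : ℝ) ^ d := by ring
      _ ≤ τ := hτ
  have e0 : τ / (t : ℝ) ^ 10 ≤ τ := by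
    rw [div_le_iff₀ h10]
    have : (1 : ℝ) ≤ (t : ℝ) ^ 10 := one_le_pow₀ (by linarith)
    nlinarith
  have e2 : (8 * τ + 2 / (p : ℝ) ^ d) / ((t ^ 30 : ℕ) : ℝ) ≤ 10 * (τ / (t : ℝ) ^ 10) := by
    have e3 : 2 / (p : ℝ) ^ d ≤ 2 * τ := by
      calc 2 / (p : ℝ) ^ d = 2 * (1 / (p : ℝ) ^ d) := by ring
        _ ≤ 2 * τ := by linarith
    push_cast
    calc (8 * τ + 2 / (p : ℝ) ^ d) / (t : ℝ) ^ 30 ≤ (10 * τ) / (t : ℝ) ^ 30 :=
          div_le_div_of_nonneg_right (by linarith) h30.le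
      _ ≤ (10 * τ) / (t : ℝ) ^ 10 := by
          apply div_le_div_of_nonneg_left (by linarith) h10
          exact pow_le_pow_right₀ (by linarith) (by norm_num)
      _ = _ := by ring
  have e4 : Real.exp (-2 * (t : ℝ)) ≤ τ / (t : ℝ) ^ 10 := by
    refine le_trans (le_trans ?_ h.inv_q) e1
    exact Real.exp_le_exp.mpr (by linarith)
  have e5 : max (1 / (p : ℝ) ^ d) ((8 * τ + 2 / (p : ℝ) ^ d) / ((t ^ 30 : ℕ) : ℝ)) ≤
      10 * (τ / (t : ℝ) ^ 10) := by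
    apply max_le _ e2
    have : 0 < τ / (t : ℝ) ^ 10 := by positivity
    linarith
  have e6 : 11 * (τ / (t : ℝ) ^ 10) ≤ (1 / (t : ℝ) ^ 9) * τ := by
    rw [show (1 / (t : ℝ) ^ 9) * τ = (t : ℝ) * (τ / (t : ℝ) ^ 10) by
      field_simp]
    have : 0 < τ / (t : ℝ) ^ 10 := by positivity
    nlinarith
  linarith

theorem Par.t_le_pow {t n p d : ℕ} (h : Par t n p d) {k : ℕ} (hk : 1 ≤ k) :
    (t : ℝ) ≤ (t : ℝ) ^ k := by
  have ht := h.tR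
  calc (t : ℝ) = (t : ℝ) ^ 1 := (pow_one _).symm
    _ ≤ _ := pow_le_pow_right₀ (by linarith) hk

theorem Par.hqM {t n p d : ℕ} (h : Par t n p d) :
    (p : ℝ) ^ d * Real.exp (-2 * (t : ℝ) ^ 30) ≤ 1 := by
  have ht := h.tR
  have h1 := h.t_le_pow (k := 30) (by norm_num)
  calc (p : ℝ) ^ d * Real.exp (-2 * (t : ℝ) ^ 30) ≤
        Real.exp ((t : ℝ) / 100) * Real.exp (-2 * (t : ℝ) ^ 30) :=
        mul_le_mul_of_nonneg_right h.q_le (Real.exp_pos _).le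
    _ = Real.exp ((t : ℝ) / 100 + -2 * (t : ℝ) ^ 30) := (Real.exp_add _ _).symm
    _ ≤ Real.exp 0 := Real.exp_le_exp.mpr (by linarith)
    _ = 1 := Real.exp_zero

theorem Par.nq_le {t n p d : ℕ} (h : Par t n p d) :
    (n : ℝ) * (p : ℝ) ^ d ≤ Real.exp ((t : ℝ) / 50) := by
  calc (n : ℝ) * (p : ℝ) ^ d ≤ Real.exp ((t : ℝ) / 100) * Real.exp ((t : ℝ) / 100) :=
        mul_le_mul h.hnn h.q_le h.q_pos.le (Real.exp_pos _).le
    _ = Real.exp ((t : ℝ) / 50) := by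
        rw [← Real.exp_add]
        congr 1
        ring

theorem Par.n_pos {t n p d : ℕ} (h : Par t n p d) : (0 : ℝ) < (n : ℝ) := by
  have h1 : 0 < t ^ 100 := by
    have := h.ht
    positivity
  have := h.hn1
  exact_mod_cast (show 0 < n by omega)

theorem Par.hxx {t n p d : ℕ} (h : Par t n p d) :
    (p : ℝ) ^ d * Real.exp (-2 * (t : ℝ)) ≤ 1 / (n : ℝ) := by
  have ht := h.tR
  rw [le_div_iff₀ h.n_pos]
  calc (p : ℝ) ^ d * Real.exp (-2 * (t : ℝ)) * (n : ℝ) =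
        ((n : ℝ) * (p : ℝ) ^ d) * Real.exp (-2 * (t : ℝ)) := by ring
    _ ≤ Real.exp ((t : ℝ) / 50) * Real.exp (-2 * (t : ℝ)) :=
        mul_le_mul_of_nonneg_right h.nq_le (Real.exp_pos _).le
    _ = Real.exp ((t : ℝ) / 50 + -2 * (t : ℝ)) := (Real.exp_add _ _).symm
    _ ≤ Real.exp 0 := Real.exp_le_exp.mpr (by linarith)
    _ = 1 := Real.exp_zero

theorem Par.hxx' {t n p d : ℕ} (h : Par t n p d) :
    (n : ℝ) * (p : ℝ) ^ d * Real.exp (-2 * (t : ℝ) ^ 30 + ((t ^ 10 : ℕ) : ℝ)) ≤ 1 := by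
  have ht := h.tR
  have h1 := h.t_le_pow (k := 30) (by norm_num)
  have h2 : (t : ℝ) ^ 10 ≤ (t : ℝ) ^ 30 := pow_le_pow_right₀ (by linarith) (by norm_num)
  calc (n : ℝ) * (p : ℝ) ^ d * Real.exp (-2 * (t : ℝ) ^ 30 + ((t ^ 10 : ℕ) : ℝ)) ≤
        Real.exp ((t : ℝ) / 50) * Real.exp (-2 * (t : ℝ) ^ 30 + ((t ^ 10 : ℕ) : ℝ)) :=
        mul_le_mul_of_nonneg_right h.nq_le (Real.exp_pos _).le
    _ = Real.exp ((t : ℝ) / 50 + (-2 * (t : ℝ) ^ 30 + ((t ^ 10 : ℕ) : ℝ))) :=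
        (Real.exp_add _ _).symm
    _ ≤ Real.exp 0 := by
        apply Real.exp_le_exp.mpr
        push_cast
        linarith
    _ = 1 := Real.exp_zero

end Pool.Agent.H71.DG
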