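import Pool.Agent.H71.DG.Num0

/-!
# DG-36: numerics for part M, the two main terms

PROOFS.  `w := ww t d ≤ t^86`, `n - w - t^95 ≥ n/2`, `(p^d)^(3 w) ≤ exp (t/100 * 3 t^86) ≤ exp n`
(`2 t^80 + w ≤ 3 w`).  `1/t^9 ≤ exp (-100)` (`t ≥ 10^6`, `exp 1 < 2.7182818286`, e.g.
`t^9 ≥ 10^54 ≥ 3^100 ≥ exp 100`), so `(1/t^9)^(n-w) ≤ exp (-50 n)`.  `1/t^4 ≤ 10^(-24) ≤ exp (-50)`,
`(1/t^4)^(n - w - t^95) ≤ exp (-25 n)`.  `t ≤ n ≤ exp n`, `2^n ≤ exp n`, `8^n ≤ exp (3 n)`.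
-/

set_option autoImplicit false

namespace Pool.Agent.H71.DG

theorem Num2_pow {t a b c : ℕ} (hc : c ≤ t) (ht : 1 ≤ t) (hab : a + 1 ≤ b) :
    c * t ^ a ≤ t ^ b := by
  calc c * t ^ a ≤ t * t ^ a := Nat.mul_le_mul_right _ hc
    _ = t ^ (a + 1) := by ring
    _ ≤ t ^ b := Nat.pow_le_pow_right ht hab

theorem Num2_two : (2 : ℝ) ≤ Real.exp 1 := by
  have := Real.exp_one_gt_d9
  linarith

theorem Num2_three : Real.exp 1 ≤ 3 := by
  have := Real.exp_one_lt_d9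
  linarith

theorem Num2_two_pow (n : ℕ) : (2 : ℝ) ^ n ≤ Real.exp n := by
  have h := pow_le_pow_left₀ (by norm_num : (0 : ℝ) ≤ 2) Num2_two n
  rw [← Real.exp_nat_mul, mul_one] at h
  exact h

/-- the bound for the small factor -/
theorem Num2_inv {T : ℝ} (hT : 1000000 ≤ T) {a k : ℕ} (hk : (3 : ℝ) ^ k ≤ 1000000 ^ a) (N : ℕ) :
    (1 / T ^ a) ^ N ≤ Real.exp (-(k : ℝ) * N) := by
  have h0 : (0 : ℝ) < T := by linarith
  have h1 : Real.exp k ≤ T ^ a := by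
    calc Real.exp k = Real.exp 1 ^ k := by rw [← Real.exp_nat_mul, mul_one]
      _ ≤ 3 ^ k := pow_le_pow_left₀ (Real.exp_pos _).le Num2_three k
      _ ≤ 1000000 ^ a := hk
      _ ≤ T ^ a := pow_le_pow_left₀ (by norm_num) hT a
  have h2 : 1 / T ^ a ≤ Real.exp (-(k : ℝ)) := by
    rw [Real.exp_neg, one_div]
    exact inv_anti₀ (Real.exp_pos _) h1
  have h3 := pow_le_pow_left₀ (by positivity) h2 N
  rw [← Real.exp_nat_mul] at h3
  rw [mul_comm (-(k : ℝ)) (N : ℝ)]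
  exact h3

/-- the bound for the power of the group order -/
theorem Num2_q {t n p d : ℕ} (h : Par t n p d) {N : ℕ} (hN : N ≤ 3 * t ^ 86) :
    ((p : ℝ) ^ d) ^ N ≤ Real.exp n := by
  have h1 := pow_le_pow_left₀ (by positivity) h.q_le N
  rw [← Real.exp_nat_mul] at h1
  refine h1.trans (Real.exp_le_exp.2 ?_)
  have ht := h.ht
  have h2 : 3 * t ^ 87 ≤ t ^ 100 := Num2_pow (by omega) (by omega) (by norm_num)
  have h3 : 3 * t ^ 87 ≤ n := h2.trans h.hn1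
  have h4 : N * t ≤ n := by
    calc N * t ≤ 3 * t ^ 86 * t := Nat.mul_le_mul_right _ hN
      _ = 3 * t ^ 87 := by ring
      _ ≤ n := h3
  have h5 : (N : ℝ) * t ≤ n := by exact_mod_cast h4
  have h6 : (0 : ℝ) ≤ (N : ℝ) * t := by positivity
  have h7 : (N : ℝ) * ((t : ℝ) / 100) = (N : ℝ) * t / 100 := by ring
  rw [h7]
  linarith

theorem Num2_tn {t n p d : ℕ} (h : Par t n p d) : t ≤ n := by
  have ht := h.ht
  have h1 : 1 * t ^ 1 ≤ t ^ 100 := Num2_pow (by omega) (by omega) (by norm_num)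
  have h2 := h.hn1
  rw [one_mul, pow_one] at h1
  omega

theorem Par.A1 {t n p d : ℕ} (h : Par t n p d) :
    (t : ℝ) * 2 ^ n * ((p : ℝ) ^ d) ^ (2 * t ^ 80 + ww t d) * (1 / (t : ℝ) ^ 9) ^ (n - ww t d) ≤
      Real.exp (-(t : ℝ)) := by
  have ht := h.ht
  have hT : (1000000 : ℝ) ≤ (t : ℝ) := by exact_mod_cast ht
  have hw := h.ww_le
  have htn := Num2_tn h
  have htn' : (t : ℝ) ≤ n := by exact_mod_cast htn
  have b1 : (t : ℝ) ≤ Real.exp n := by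
    have h1 := Real.add_one_le_exp (n : ℝ)
    linarith
  have b2 := Num2_two_pow n
  have h80 : 1 * t ^ 80 ≤ t ^ 86 := Num2_pow (by omega) (by omega) (by norm_num)
  have b3 : ((p : ℝ) ^ d) ^ (2 * t ^ 80 + ww t d) ≤ Real.exp n := Num2_q h (by omega)
  have h86 : 2 * t ^ 86 ≤ t ^ 100 := Num2_pow (by omega) (by omega) (by norm_num)
  have hn1 := h.hn1
  have h2 : n ≤ 2 * (n - ww t d) := by omega
  have h2' : (n : ℝ) ≤ 2 * ((n - ww t d : ℕ) : ℝ) := by exact_mod_cast h2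
  have b4 : (1 / (t : ℝ) ^ 9) ^ (n - ww t d) ≤ Real.exp (-(50 * (n : ℝ))) := by
    refine (Num2_inv (k := 100) hT (by norm_num) _).trans (Real.exp_le_exp.2 ?_)
    push_cast at h2' ⊢
    linarith
  calc (t : ℝ) * 2 ^ n * ((p : ℝ) ^ d) ^ (2 * t ^ 80 + ww t d) * (1 / (t : ℝ) ^ 9) ^ (n - ww t d)
      ≤ Real.exp n * Real.exp n * Real.exp n * Real.exp (-(50 * (n : ℝ))) := by gcongr
    _ = Real.exp (-(47 * (n : ℝ))) := by
        rw [← Real.exp_add, ← Real.exp_add, ← Real.exp_add]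
        congr 1
        ring
    _ ≤ Real.exp (-(t : ℝ)) := by
        apply Real.exp_le_exp.2
        have h0 : (0 : ℝ) ≤ n := Nat.cast_nonneg n
        linarith

theorem Par.A2 {t n p d : ℕ} (h : Par t n p d) :
    (8 : ℝ) ^ n * ((p : ℝ) ^ d) ^ (2 * ww t d) * (1 / (t : ℝ) ^ 4) ^ (n - ww t d - t ^ 95) ≤
      Real.exp (-(t : ℝ)) := by
  have ht := h.ht
  have hT : (1000000 : ℝ) ≤ (t : ℝ) := by exact_mod_cast ht
  have hw := h.ww_le
  have htn := Num2_tn h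
  have htn' : (t : ℝ) ≤ n := by exact_mod_cast htn
  have b1 : (8 : ℝ) ^ n ≤ Real.exp (3 * (n : ℝ)) := by
    have h1 := Num2_two_pow (3 * n)
    rw [pow_mul] at h1
    push_cast at h1
    norm_num at h1
    exact h1
  have b3 : ((p : ℝ) ^ d) ^ (2 * ww t d) ≤ Real.exp n := Num2_q h (by omega)
  have h86 : 1 * t ^ 86 ≤ t ^ 95 := Num2_pow (by omega) (by omega) (by norm_num)
  have h95 : 4 * t ^ 95 ≤ t ^ 100 := Num2_pow (by omega) (by omega) (by norm_num)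
  have hn1 := h.hn1
  have h2 : n ≤ 2 * (n - ww t d - t ^ 95) := by omega
  have h2' : (n : ℝ) ≤ 2 * ((n - ww t d - t ^ 95 : ℕ) : ℝ) := by exact_mod_cast h2
  have b4 : (1 / (t : ℝ) ^ 4) ^ (n - ww t d - t ^ 95) ≤ Real.exp (-(25 * (n : ℝ))) := by
    refine (Num2_inv (k := 50) hT (by norm_num) _).trans (Real.exp_le_exp.2 ?_)
    push_cast at h2' ⊢
    linarith
  calc (8 : ℝ) ^ n * ((p : ℝ) ^ d) ^ (2 * ww t d) * (1 / (t : ℝ) ^ 4) ^ (n - ww t d - t ^ 95)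
      ≤ Real.exp (3 * (n : ℝ)) * Real.exp n * Real.exp (-(25 * (n : ℝ))) := by gcongr
    _ = Real.exp (-(21 * (n : ℝ))) := by
        rw [← Real.exp_add, ← Real.exp_add]
        congr 1
        ring
    _ ≤ Real.exp (-(t : ℝ)) := by
        apply Real.exp_le_exp.2
        have h0 : (0 : ℝ) ≤ n := Nat.cast_nonneg n
        linarith

end Pool.Agent.H71.DG
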