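import Pool.Agent.H71.DG.Num0

/-!
# DG-37: numerics for part M, the error term of Theorem E

PROOFS.  `eta`: with `q = p^d ≤ exp (t/100)`, `w := ww t d ≤ t^86`, `m = t`, `M = t^30`, `E = t^95`, `rho = t^10`:
first term `3 q^w (q exp (-2t))^(t^95) ≤ 3 exp (t^87/100) exp (-t^96)`; second
`p^(d²) (w q + 1)^(t^10) 8 exp (-2 t^30)`, `w q + 1 ≤ n q ≤ exp (t/50)`; third `p^(d²) (2 n q + 3) exp (-2 t^30)`.
Each is at most `exp (-t)/3`.
`A3`: `d(d+1)/2 + d = d(d-1)/2 + 2d`; `Real.sqrt p ^ n ≥ Real.sqrt 2 ^ n ≥ exp (n/4)`,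
`p^(d(d-1)/2) ≤ p^(d²) ≤ exp (t/100)`.
-/

set_option autoImplicit false

namespace Pool.Agent.H71.DG

theorem Par.small {T : ℝ} (hT : 1000000 ≤ T) {c a : ℝ} (_hc0 : 0 ≤ c) (hc : c ≤ 100)
    (ha : a ≤ -(2 * T)) : c * Real.exp a ≤ Real.exp (-T) / 3 := by
  have h1 : Real.exp a ≤ Real.exp (-T) * Real.exp (-T) := by
    rw [← Real.exp_add]
    exact Real.exp_le_exp.mpr (by linarith)
  have h2 : Real.exp (-T) ≤ 1 / 1000000 := by
    rw [Real.exp_neg, inv_eq_one_div]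
    apply one_div_le_one_div_of_le (by norm_num)
    have := Real.add_one_le_exp T
    linarith
  have h3 : 0 < Real.exp (-T) := Real.exp_pos _
  calc c * Real.exp a ≤ 100 * (Real.exp (-T) * Real.exp (-T)) := by
        apply mul_le_mul hc h1 (Real.exp_pos _).le (by norm_num)
    _ ≤ 100 * (Real.exp (-T) * (1 / 1000000)) := by
        apply mul_le_mul_of_nonneg_left _ (by norm_num)
        exact mul_le_mul_of_nonneg_left h2 h3.le
    _ ≤ Real.exp (-T) / 3 := by nlinarith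

theorem Par.eta {t n p d : ℕ} (h : Par t n p d) :
    DG.eta p d n (ww t d) (t ^ 95) (t ^ 10) (t : ℝ) ((t : ℝ) ^ 30) ≤ Real.exp (-(t : ℝ)) := by
  have hT : (1000000 : ℝ) ≤ (t : ℝ) := by exact_mod_cast h.ht
  have hT1 : (1 : ℝ) ≤ (t : ℝ) := by linarith
  have hq := h.q_le
  have hp1 : (1 : ℝ) ≤ (p : ℝ) := by
    have := h.hp
    exact_mod_cast (by omega : 1 ≤ p)
  have hq1 : (1 : ℝ) ≤ (p : ℝ) ^ d := one_le_pow₀ hp1
  have hq0 : (0 : ℝ) ≤ (p : ℝ) ^ d := by linarith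
  have hpd : (p : ℝ) ^ (d ^ 2) ≤ Real.exp ((t : ℝ) / 100) := by
    rw [pow_two]
    exact h.hpd
  have hpd0 : (0 : ℝ) ≤ (p : ℝ) ^ (d ^ 2) := by positivity
  have hw := h.ww_le
  -- powers of T
  have e87 : (t : ℝ) ≤ (t : ℝ) ^ 87 := le_self_pow₀ hT1 (by norm_num)
  have e11 : (t : ℝ) ≤ (t : ℝ) ^ 11 := le_self_pow₀ hT1 (by norm_num)
  have e9 : (t : ℝ) ≤ (t : ℝ) ^ 9 := le_self_pow₀ hT1 (by norm_num)
  have e19 : (t : ℝ) ≤ (t : ℝ) ^ 19 := le_self_pow₀ hT1 (by norm_num)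
  have e96 : 3 * (t : ℝ) ^ 87 ≤ (t : ℝ) ^ 96 := by
    have : (t : ℝ) ^ 96 = (t : ℝ) ^ 9 * (t : ℝ) ^ 87 := by ring
    rw [this]
    apply mul_le_mul_of_nonneg_right _ (by positivity)
    linarith
  have e30 : 3 * (t : ℝ) ^ 11 ≤ (t : ℝ) ^ 30 := by
    have : (t : ℝ) ^ 30 = (t : ℝ) ^ 19 * (t : ℝ) ^ 11 := by ring
    rw [this]
    apply mul_le_mul_of_nonneg_right _ (by positivity)
    linarith
  -- first term
  have t1 : 3 * ((p : ℝ) ^ d) ^ (ww t d) * ((p : ℝ) ^ d * Real.exp (-2 * (t : ℝ))) ^ (t ^ 95) ≤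
      Real.exp (-(t : ℝ)) / 3 := by
    have a1 : ((p : ℝ) ^ d) ^ (ww t d) ≤ Real.exp ((t : ℝ) ^ 87 / 100) := by
      calc ((p : ℝ) ^ d) ^ (ww t d) ≤ ((p : ℝ) ^ d) ^ (t ^ 86) := pow_le_pow_right₀ hq1 hw
        _ ≤ (Real.exp ((t : ℝ) / 100)) ^ (t ^ 86) := pow_le_pow_left₀ hq0 hq _
        _ = Real.exp ((t : ℝ) ^ 87 / 100) := by
            rw [← Real.exp_nat_mul]
            congr 1
            push_cast
            ring
    have a2 : ((p : ℝ) ^ d * Real.exp (-2 * (t : ℝ))) ^ (t ^ 95) ≤ Real.exp (-(t : ℝ) ^ 96) := by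
      have : (p : ℝ) ^ d * Real.exp (-2 * (t : ℝ)) ≤ Real.exp (-(t : ℝ)) := by
        calc (p : ℝ) ^ d * Real.exp (-2 * (t : ℝ)) ≤
            Real.exp ((t : ℝ) / 100) * Real.exp (-2 * (t : ℝ)) :=
              mul_le_mul_of_nonneg_right hq (Real.exp_pos _).le
          _ = Real.exp ((t : ℝ) / 100 + -2 * (t : ℝ)) := by rw [Real.exp_add]
          _ ≤ Real.exp (-(t : ℝ)) := Real.exp_le_exp.mpr (by linarith)
      calc ((p : ℝ) ^ d * Real.exp (-2 * (t : ℝ))) ^ (t ^ 95) ≤ (Real.exp (-(t : ℝ))) ^ (t ^ 95) :=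
            pow_le_pow_left₀ (by positivity) this _
        _ = Real.exp (-(t : ℝ) ^ 96) := by
            rw [← Real.exp_nat_mul]
            congr 1
            push_cast
            ring
    calc 3 * ((p : ℝ) ^ d) ^ (ww t d) * ((p : ℝ) ^ d * Real.exp (-2 * (t : ℝ))) ^ (t ^ 95) ≤
        3 * Real.exp ((t : ℝ) ^ 87 / 100) * Real.exp (-(t : ℝ) ^ 96) := by
          apply mul_le_mul _ a2 (by positivity) (by positivity)
          exact mul_le_mul_of_nonneg_left a1 (by norm_num)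
      _ = 3 * Real.exp ((t : ℝ) ^ 87 / 100 + -(t : ℝ) ^ 96) := by
          rw [Real.exp_add]
          ring
      _ ≤ Real.exp (-(t : ℝ)) / 3 := by
          apply Par.small hT (by norm_num) (by norm_num)
          linarith
  -- the number n q
  have hn0 : (0 : ℝ) ≤ (n : ℝ) := Nat.cast_nonneg n
  have hnq : (n : ℝ) * (p : ℝ) ^ d ≤ Real.exp ((t : ℝ) / 50) := by
    calc (n : ℝ) * (p : ℝ) ^ d ≤ Real.exp ((t : ℝ) / 100) * Real.exp ((t : ℝ) / 100) :=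
          mul_le_mul h.hnn hq hq0 (Real.exp_pos _).le
      _ = Real.exp ((t : ℝ) / 50) := by
          rw [← Real.exp_add]
          congr 1
          ring
  have hwn1 : ww t d + 1 ≤ n := by
    have b1 : t ^ 86 + 1 ≤ t ^ 100 := by
      have : t ^ 86 < t ^ 100 := by
        apply Nat.pow_lt_pow_right _ (by norm_num)
        have := h.ht
        omega
      omega
    have b2 := h.hn1
    omega
  have hwq : (ww t d : ℝ) * (p : ℝ) ^ d + 1 ≤ Real.exp ((t : ℝ) / 50) := by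
    have b3 : (ww t d : ℝ) + 1 ≤ (n : ℝ) := by exact_mod_cast hwn1
    calc (ww t d : ℝ) * (p : ℝ) ^ d + 1 ≤ ((ww t d : ℝ) + 1) * (p : ℝ) ^ d := by
          rw [add_mul, one_mul]
          linarith
      _ ≤ (n : ℝ) * (p : ℝ) ^ d := mul_le_mul_of_nonneg_right b3 hq0
      _ ≤ Real.exp ((t : ℝ) / 50) := hnq
  -- second term
  have t2 : (p : ℝ) ^ (d ^ 2) * ((ww t d : ℝ) * (p : ℝ) ^ d + 1) ^ (t ^ 10) *
      (8 * Real.exp (-2 * (t : ℝ) ^ 30)) ≤ Real.exp (-(t : ℝ)) / 3 := by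
    have a1 : ((ww t d : ℝ) * (p : ℝ) ^ d + 1) ^ (t ^ 10) ≤ Real.exp ((t : ℝ) ^ 11 / 50) := by
      calc ((ww t d : ℝ) * (p : ℝ) ^ d + 1) ^ (t ^ 10) ≤ (Real.exp ((t : ℝ) / 50)) ^ (t ^ 10) :=
            pow_le_pow_left₀ (by positivity) hwq _
        _ = Real.exp ((t : ℝ) ^ 11 / 50) := by
            rw [← Real.exp_nat_mul]
            congr 1
            push_cast
            ring
    calc (p : ℝ) ^ (d ^ 2) * ((ww t d : ℝ) * (p : ℝ) ^ d + 1) ^ (t ^ 10) *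
        (8 * Real.exp (-2 * (t : ℝ) ^ 30)) ≤
        Real.exp ((t : ℝ) / 100) * Real.exp ((t : ℝ) ^ 11 / 50) *
          (8 * Real.exp (-2 * (t : ℝ) ^ 30)) := by
          apply mul_le_mul_of_nonneg_right _ (by positivity)
          exact mul_le_mul hpd a1 (by positivity) (Real.exp_pos _).le
      _ = 8 * Real.exp ((t : ℝ) / 100 + (t : ℝ) ^ 11 / 50 + -2 * (t : ℝ) ^ 30) := by
          rw [Real.exp_add, Real.exp_add]
          ring
      _ ≤ Real.exp (-(t : ℝ)) / 3 := by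
          apply Par.small hT (by norm_num) (by norm_num)
          linarith
  -- third term
  have t3 : (p : ℝ) ^ (d ^ 2) * (2 * (n : ℝ) * (p : ℝ) ^ d * Real.exp (-2 * (t : ℝ) ^ 30) +
      3 * Real.exp (-2 * (t : ℝ) ^ 30)) ≤ Real.exp (-(t : ℝ)) / 3 := by
    have b1 : (1 : ℝ) ≤ Real.exp ((t : ℝ) / 50) := by
      rw [← Real.exp_zero]
      exact Real.exp_le_exp.mpr (by positivity)
    have b2 : 2 * (n : ℝ) * (p : ℝ) ^ d + 3 ≤ 5 * Real.exp ((t : ℝ) / 50) := by nlinarith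
    calc (p : ℝ) ^ (d ^ 2) * (2 * (n : ℝ) * (p : ℝ) ^ d * Real.exp (-2 * (t : ℝ) ^ 30) +
        3 * Real.exp (-2 * (t : ℝ) ^ 30)) =
        (p : ℝ) ^ (d ^ 2) * (2 * (n : ℝ) * (p : ℝ) ^ d + 3) * Real.exp (-2 * (t : ℝ) ^ 30) := by
          ring
      _ ≤ Real.exp ((t : ℝ) / 100) * (5 * Real.exp ((t : ℝ) / 50)) *
          Real.exp (-2 * (t : ℝ) ^ 30) := by
          apply mul_le_mul_of_nonneg_right _ (Real.exp_pos _).le
          exact mul_le_mul hpd b2 (by positivity) (Real.exp_pos _).le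
      _ = 5 * Real.exp ((t : ℝ) / 100 + (t : ℝ) / 50 + -2 * (t : ℝ) ^ 30) := by
          rw [Real.exp_add, Real.exp_add]
          ring
      _ ≤ Real.exp (-(t : ℝ)) / 3 := by
          apply Par.small hT (by norm_num) (by norm_num)
          linarith
  unfold DG.eta
  have := add_le_add (add_le_add t1 t2) t3
  calc _ ≤ Real.exp (-(t : ℝ)) / 3 + Real.exp (-(t : ℝ)) / 3 + Real.exp (-(t : ℝ)) / 3 := this
    _ = Real.exp (-(t : ℝ)) := by ring

theorem Par.A3 {t n p d : ℕ} (h : Par t n p d) :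
    (1 / (p : ℝ) ^ (d * (d + 1) / 2 + d) + 1 / Real.sqrt p ^ n) *
      ((p : ℝ) ^ (d * (d - 1) / 2) + Real.exp (-(t : ℝ))) ≤
      1 / (p : ℝ) ^ (2 * d) + 3 * Real.exp (-(t : ℝ)) := by
  have hT : (1000000 : ℝ) ≤ (t : ℝ) := by exact_mod_cast h.ht
  have hT1 : (1 : ℝ) ≤ (t : ℝ) := by linarith
  have hp2 : (2 : ℝ) ≤ (p : ℝ) := by exact_mod_cast h.hp
  have hp1 : (1 : ℝ) ≤ (p : ℝ) := by linarith
  have hp0 : (0 : ℝ) < (p : ℝ) := by linarith
  have hd := h.hd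
  -- the exponents
  have hab : d * (d + 1) / 2 = d * (d - 1) / 2 + d := by
    obtain ⟨e, rfl⟩ : ∃ e, d = e + 1 := ⟨d - 1, by omega⟩
    have : (e + 1) * (e + 1 + 1) = (e + 1) * (e + 1 - 1) + (e + 1) * 2 := by
      simp only [Nat.add_sub_cancel]
      ring
    rw [this, Nat.add_mul_div_right _ _ (by norm_num)]
  set b := d * (d - 1) / 2 with hb
  have hbd : b ≤ d * d := by
    have h1 : b ≤ d * (d - 1) := Nat.div_le_self _ _
    have h2 : d * (d - 1) ≤ d * d := Nat.mul_le_mul_left _ (Nat.sub_le _ _)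
    omega
  have hpb : (p : ℝ) ^ b ≤ Real.exp ((t : ℝ) / 100) :=
    (pow_le_pow_right₀ hp1 hbd).trans h.hpd
  have hpb0 : (0 : ℝ) < (p : ℝ) ^ b := by positivity
  -- the square root
  have hs : Real.exp (1 / 4) ≤ Real.sqrt p := by
    apply Real.le_sqrt_of_sq_le
    have h1 : Real.exp (1 / 4) ^ 2 = Real.exp (1 / 2) := by
      rw [← Real.exp_nat_mul]
      congr 1
      norm_num
    have h2 : Real.exp (1 / 2) ^ 2 = Real.exp 1 := by
      rw [← Real.exp_nat_mul]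
      congr 1
      norm_num
    have h3 := Real.exp_one_lt_d9
    have h4 : Real.exp (1 / 2) ≤ 2 := by
      by_contra hc
      push Not at hc
      nlinarith
    rw [h1]
    linarith
  have hs0 : 0 < Real.sqrt p := lt_of_lt_of_le (Real.exp_pos _) hs
  have hsn : 1 / Real.sqrt p ^ n ≤ Real.exp (-((n : ℝ) / 4)) := by
    have h1 : Real.exp ((n : ℝ) / 4) ≤ Real.sqrt p ^ n := by
      calc Real.exp ((n : ℝ) / 4) = Real.exp (1 / 4) ^ n := by
            rw [← Real.exp_nat_mul]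
            congr 1
            ring
        _ ≤ Real.sqrt p ^ n := pow_le_pow_left₀ (Real.exp_pos _).le hs _
    rw [Real.exp_neg, inv_eq_one_div]
    exact one_div_le_one_div_of_le (Real.exp_pos _) h1
  have hn : (t : ℝ) ^ 2 ≤ (n : ℝ) := by
    have h1 : ((t ^ 100 : ℕ) : ℝ) ≤ (n : ℝ) := by exact_mod_cast h.hn1
    have h2 : (t : ℝ) ^ 2 ≤ (t : ℝ) ^ 100 := pow_le_pow_right₀ hT1 (by norm_num)
    push_cast at h1
    linarith
  have hn4 : 2 * (t : ℝ) ≤ (n : ℝ) / 4 := by nlinarith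
  have c1 : 1 / (p : ℝ) ^ (d * (d + 1) / 2 + d) * (p : ℝ) ^ b = 1 / (p : ℝ) ^ (2 * d) := by
    rw [hab, show b + d + d = b + 2 * d by ring, pow_add]
    field_simp
  have c2 : 1 / (p : ℝ) ^ (d * (d + 1) / 2 + d) * Real.exp (-(t : ℝ)) ≤ Real.exp (-(t : ℝ)) := by
    have : 1 / (p : ℝ) ^ (d * (d + 1) / 2 + d) ≤ 1 := by
      rw [div_le_one (by positivity)]
      exact one_le_pow₀ hp1
    have h3 : 0 < Real.exp (-(t : ℝ)) := Real.exp_pos _
    nlinarith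
  have hsn0 : 0 ≤ 1 / Real.sqrt p ^ n := by positivity
  have c3 : 1 / Real.sqrt p ^ n * (p : ℝ) ^ b ≤ Real.exp (-(t : ℝ)) := by
    calc 1 / Real.sqrt p ^ n * (p : ℝ) ^ b ≤
        Real.exp (-((n : ℝ) / 4)) * Real.exp ((t : ℝ) / 100) :=
          mul_le_mul hsn hpb hpb0.le (Real.exp_pos _).le
      _ = Real.exp (-((n : ℝ) / 4) + (t : ℝ) / 100) := by rw [Real.exp_add]
      _ ≤ Real.exp (-(t : ℝ)) := Real.exp_le_exp.mpr (by linarith)
  have c4 : 1 / Real.sqrt p ^ n * Real.exp (-(t : ℝ)) ≤ Real.exp (-(t : ℝ)) := by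
    have h5 : 1 / Real.sqrt p ^ n ≤ 1 := by
      refine hsn.trans ?_
      rw [← Real.exp_zero]
      exact Real.exp_le_exp.mpr (by linarith)
    have h3 : 0 < Real.exp (-(t : ℝ)) := Real.exp_pos _
    nlinarith
  calc (1 / (p : ℝ) ^ (d * (d + 1) / 2 + d) + 1 / Real.sqrt p ^ n) *
      ((p : ℝ) ^ b + Real.exp (-(t : ℝ))) =
      1 / (p : ℝ) ^ (d * (d + 1) / 2 + d) * (p : ℝ) ^ b +
      1 / (p : ℝ) ^ (d * (d + 1) / 2 + d) * Real.exp (-(t : ℝ)) +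
      (1 / Real.sqrt p ^ n * (p : ℝ) ^ b + 1 / Real.sqrt p ^ n * Real.exp (-(t : ℝ))) := by ring
    _ ≤ 1 / (p : ℝ) ^ (2 * d) + 3 * Real.exp (-(t : ℝ)) := by
      rw [c1]
      linarith

end Pool.Agent.H71.DG
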