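import Pool.Agent.H71.DG.Num0

/-!
# DG-38: numerics for part M, the Krylov terms

PROOFS.  `K0`: `n 3^(t^98) ≤ exp (t/100 + 2 t^98) < (3/2)^(t^99)` (`3/2 ≥ exp (1/3)`).  `K1`: `2 ≥ exp (1/2)`,
`n ≤ exp (t/100)`.  `K2`: `n p ≤ exp (t/50)`, so `(n p)^(t^99) ≤ exp (t^100/50) ≤ exp (n/50)`;
`d p^(2d) ≤ exp (t)`; `(d-1)(t^99 + 2) ≤ n/50`, `2^.. ≤ exp (n/50)`; `2^(n-1) ≥ exp (n/2)/2`.
`K3`: `n^5 ≤ exp (t/20)`, `12 ≤ exp 3`.
-/

set_option autoImplicit false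

namespace Pool.Agent.H71.DG

theorem num4_exp_one : Real.exp 1 ≤ 2.7182818286 := Real.exp_one_lt_d9.le

theorem num4_half (m : ℕ) : Real.exp ((m : ℝ) / 2) ≤ 2 ^ m := by
  have h1 : Real.exp (1 / 2) ≤ 2 := by
    have h2 : Real.exp (1 / 2) ^ 2 = Real.exp 1 := by
      rw [← Real.exp_nat_mul]; norm_num
    have h3 := num4_exp_one
    nlinarith [Real.exp_pos (1 / 2 : ℝ)]
  calc Real.exp ((m : ℝ) / 2) = Real.exp (1 / 2) ^ m := by
        rw [← Real.exp_nat_mul]; congr 1; ring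
    _ ≤ 2 ^ m := pow_le_pow_left₀ (Real.exp_pos _).le h1 m

theorem num4_two (m : ℕ) : (2 : ℝ) ^ m ≤ Real.exp (m : ℝ) := by
  have h1 : (2 : ℝ) ≤ Real.exp 1 := by
    have := Real.add_one_le_exp (1 : ℝ)
    linarith
  calc (2 : ℝ) ^ m ≤ Real.exp 1 ^ m := pow_le_pow_left₀ (by norm_num) h1 m
    _ = Real.exp (m : ℝ) := by rw [← Real.exp_nat_mul]; congr 1; ring

theorem num4_three (m : ℕ) : Real.exp ((m : ℝ) / 3) ≤ (3 / 2) ^ m := by
  have h1 : Real.exp (1 / 3) ≤ 3 / 2 := by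
    have h2 : Real.exp (1 / 3) ^ 3 = Real.exp 1 := by
      rw [← Real.exp_nat_mul]; norm_num
    have h3 := num4_exp_one
    by_contra h4
    rw [not_le] at h4
    have h5 : (3 / 2 : ℝ) ^ 3 < Real.exp (1 / 3) ^ 3 :=
      pow_lt_pow_left₀ h4 (by norm_num) (by norm_num)
    rw [h2] at h5
    norm_num at h5
    linarith
  calc Real.exp ((m : ℝ) / 3) = Real.exp (1 / 3) ^ m := by
        rw [← Real.exp_nat_mul]; congr 1; ring
    _ ≤ (3 / 2) ^ m := pow_le_pow_left₀ (Real.exp_pos _).le h1 m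

theorem num4_npow {t n p d : ℕ} (h : Par t n p d) (k : ℕ) :
    (n : ℝ) ^ k ≤ Real.exp (k * ((t : ℝ) / 100)) := by
  rw [Real.exp_nat_mul]
  exact pow_le_pow_left₀ (Nat.cast_nonneg _) h.hnn k

theorem num4_t {t n p d : ℕ} (h : Par t n p d) : (1000000 : ℝ) ≤ t := by
  exact_mod_cast h.ht

theorem num4_npos {t n p d : ℕ} (h : Par t n p d) : 1 ≤ n := by
  have h1 : 1 ≤ t ^ 100 := Nat.one_le_pow _ _ (by have := h.ht; omega)
  exact le_trans h1 h.hn1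

theorem num4_pow {t n p d : ℕ} (h : Par t n p d) (k : ℕ) : 8 * t ≤ t ^ (k + 2) := by
  have ht := h.ht
  have h1 : 1 ≤ t ^ k := Nat.one_le_pow _ _ (by omega)
  calc 8 * t ≤ t * t := Nat.mul_le_mul (by omega) le_rfl
    _ = 1 * (t * t) := by ring
    _ ≤ t ^ k * (t * t) := Nat.mul_le_mul h1 le_rfl
    _ = t ^ (k + 2) := by ring

theorem Par.K0 {t n p d : ℕ} (h : Par t n p d) :
    n * (2 ^ (t ^ 99) * 3 ^ (t ^ 98)) < 3 ^ (t ^ 99) := by
  have ht := num4_t h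
  have h0 := num4_npos h
  have h1 : (n : ℝ) * (2 ^ t * 3) < 3 ^ t := by
    have h2 := num4_three t
    have h3 : (n : ℝ) * 3 < (3 / 2) ^ t := by
      have h4 : (3 : ℝ) ≤ Real.exp 2 := by
        have := Real.add_one_le_exp (2 : ℝ)
        linarith
      calc (n : ℝ) * 3 ≤ Real.exp ((t : ℝ) / 100) * Real.exp 2 :=
            mul_le_mul h.hnn h4 (by norm_num) (Real.exp_pos _).le
        _ = Real.exp ((t : ℝ) / 100 + 2) := by rw [Real.exp_add]
        _ < Real.exp ((t : ℝ) / 3) := by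
            apply Real.exp_lt_exp.mpr
            linarith
        _ ≤ (3 / 2) ^ t := h2
    calc (n : ℝ) * (2 ^ t * 3) = (n * 3) * 2 ^ t := by ring
      _ < (3 / 2) ^ t * 2 ^ t := by
          apply mul_lt_mul_of_pos_right h3
          positivity
      _ = 3 ^ t := by
          rw [← mul_pow]
          norm_num
  have h2 : n * (2 ^ t * 3) < 3 ^ t := by exact_mod_cast h1
  have h3 : t ^ 98 ≠ 0 := by
    have : 0 < t := by have := h.ht; omega
    positivity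
  have h4 : t ^ 99 = t * t ^ 98 := by ring
  calc n * (2 ^ (t ^ 99) * 3 ^ (t ^ 98)) ≤ n ^ (t ^ 98) * (2 ^ (t ^ 99) * 3 ^ (t ^ 98)) := by
        apply Nat.mul_le_mul _ le_rfl
        exact Nat.le_self_pow h3 n
    _ = (n * (2 ^ t * 3)) ^ (t ^ 98) := by
        rw [h4, pow_mul, mul_pow, mul_pow]
    _ < (3 ^ t) ^ (t ^ 98) := Nat.pow_lt_pow_left h2 h3
    _ = 3 ^ (t ^ 99) := by rw [h4, pow_mul]

theorem Par.K1 {t n p d : ℕ} (h : Par t n p d) :
    (n : ℝ) * ((n : ℝ) / 2 ^ (t ^ 98) + 2 * (n : ℝ) ^ 4 / 2 ^ (t ^ 99 + 1)) ≤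
      Real.exp (-(t : ℝ)) := by
  have ht := num4_t h
  have h0 : (1 : ℝ) ≤ n := by exact_mod_cast num4_npos h
  have hb : ∀ m : ℕ, 8 * t ≤ m → Real.exp (4 * (t : ℝ)) ≤ 2 ^ m := by
    intro m hm
    refine le_trans ?_ (num4_half m)
    apply Real.exp_le_exp.mpr
    have : (8 * t : ℝ) ≤ m := by exact_mod_cast hm
    linarith
  have h1 := hb (t ^ 98) (num4_pow h 96)
  have h2 := hb (t ^ 99 + 1) (le_trans (num4_pow h 97) (Nat.le_succ _))
  have hE : 0 < Real.exp (4 * (t : ℝ)) := Real.exp_pos _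
  have h5 := num4_npow h 5
  have hn2 : (n : ℝ) ≤ (n : ℝ) ^ 4 := by
    calc (n : ℝ) = (n : ℝ) ^ 1 := by ring
      _ ≤ (n : ℝ) ^ 4 := pow_le_pow_right₀ h0 (by norm_num)
  have h6 : (n : ℝ) / 2 ^ (t ^ 98) ≤ (n : ℝ) ^ 4 / Real.exp (4 * (t : ℝ)) :=
    div_le_div₀ (by positivity) hn2 hE h1
  have h7 : 2 * (n : ℝ) ^ 4 / 2 ^ (t ^ 99 + 1) ≤ 2 * (n : ℝ) ^ 4 / Real.exp (4 * (t : ℝ)) :=
    div_le_div_of_nonneg_left (by positivity) hE h2
  calc (n : ℝ) * ((n : ℝ) / 2 ^ (t ^ 98) + 2 * (n : ℝ) ^ 4 / 2 ^ (t ^ 99 + 1))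
      ≤ (n : ℝ) * ((n : ℝ) ^ 4 / Real.exp (4 * (t : ℝ)) +
          2 * (n : ℝ) ^ 4 / Real.exp (4 * (t : ℝ))) :=
        mul_le_mul_of_nonneg_left (add_le_add h6 h7) (by positivity)
    _ = 3 * (n : ℝ) ^ 5 * Real.exp (-(4 * (t : ℝ))) := by
        rw [Real.exp_neg]
        field_simp
        ring
    _ ≤ Real.exp 2 * Real.exp ((5 : ℕ) * ((t : ℝ) / 100)) * Real.exp (-(4 * (t : ℝ))) := by
        apply mul_le_mul_of_nonneg_right _ (Real.exp_pos _).le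
        apply mul_le_mul _ h5 (by positivity) (Real.exp_pos _).le
        have := Real.add_one_le_exp (2 : ℝ)
        linarith
    _ = Real.exp (2 + (5 : ℕ) * ((t : ℝ) / 100) + (-(4 * (t : ℝ)))) := by
        rw [Real.exp_add, Real.exp_add]
    _ ≤ Real.exp (-(t : ℝ)) := by
        apply Real.exp_le_exp.mpr
        push_cast
        linarith

theorem Par.K2 {t n p d : ℕ} (h : Par t n p d) :
    ((n : ℝ) * p) ^ (t ^ 99) *
      (d * (p : ℝ) ^ (2 * d) * 2 ^ ((d - 1) * (t ^ 99 + 2)) / 2 ^ (n - 1)) ≤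
      Real.exp (-(t : ℝ)) := by
  have ht := num4_t h
  have h0 := num4_npos h
  have hn1 : (t : ℝ) ^ 100 ≤ n := by exact_mod_cast h.hn1
  have hd2 : 100 * (d : ℝ) ≤ t := by exact_mod_cast h.hd2
  -- first factor
  have e1 : ((n : ℝ) * p) ^ (t ^ 99) ≤ Real.exp ((n : ℝ) / 50) := by
    calc ((n : ℝ) * p) ^ (t ^ 99) ≤ (Real.exp ((t : ℝ) / 100) * Real.exp ((t : ℝ) / 100)) ^ (t ^ 99) := by
          apply pow_le_pow_left₀ (by positivity)
          exact mul_le_mul h.hnn h.p_le (Nat.cast_nonneg _) (Real.exp_pos _).le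
      _ = Real.exp ((t : ℝ) ^ 100 / 50) := by
          rw [← Real.exp_add, ← Real.exp_nat_mul]
          congr 1
          push_cast
          ring
      _ ≤ Real.exp ((n : ℝ) / 50) := by
          apply Real.exp_le_exp.mpr
          linarith
  have e2 : (d : ℝ) ≤ Real.exp (t : ℝ) := by
    have := Real.add_one_le_exp (t : ℝ)
    have : (0 : ℝ) ≤ d := Nat.cast_nonneg _
    linarith
  have e3 : (p : ℝ) ^ (2 * d) ≤ Real.exp (t : ℝ) := by
    calc (p : ℝ) ^ (2 * d) = ((p : ℝ) ^ d) ^ 2 := by rw [← pow_mul, mul_comm]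
      _ ≤ Real.exp ((t : ℝ) / 100) ^ 2 := pow_le_pow_left₀ (by positivity) h.q_le 2
      _ = Real.exp (2 * ((t : ℝ) / 100)) := by
          rw [← Real.exp_nat_mul]
          norm_num
      _ ≤ Real.exp (t : ℝ) := by
          apply Real.exp_le_exp.mpr
          linarith
  have e4 : (2 : ℝ) ^ ((d - 1) * (t ^ 99 + 2)) ≤ Real.exp ((n : ℝ) / 50) := by
    refine le_trans (num4_two _) (Real.exp_le_exp.mpr ?_)
    have h1 : (((d - 1) * (t ^ 99 + 2) : ℕ) : ℝ) ≤ (d : ℝ) * (2 * (t : ℝ) ^ 99) := by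
      have h2 : (d - 1) * (t ^ 99 + 2) ≤ d * (2 * t ^ 99) := by
        apply Nat.mul_le_mul (Nat.sub_le _ _)
        have h3 : 8 * t ≤ t ^ 99 := num4_pow h 97
        have h4 := h.ht
        omega
      exact_mod_cast h2
    calc (((d - 1) * (t ^ 99 + 2) : ℕ) : ℝ) ≤ (d : ℝ) * (2 * (t : ℝ) ^ 99) := h1
      _ ≤ ((t : ℝ) / 100) * (2 * (t : ℝ) ^ 99) := by
          apply mul_le_mul_of_nonneg_right _ (by positivity)
          linarith
      _ = (t : ℝ) ^ 100 / 50 := by ring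
      _ ≤ (n : ℝ) / 50 := by linarith
  have e5 : Real.exp (((n : ℝ) - 1) / 2) ≤ 2 ^ (n - 1) := by
    have h1 := num4_half (n - 1)
    rw [Nat.cast_sub h0, Nat.cast_one] at h1
    exact h1
  have hbig : 100 * (t : ℝ) ≤ (n : ℝ) := by
    have h1 : 100 * (t : ℝ) ≤ (t : ℝ) ^ 100 := by
      calc 100 * (t : ℝ) ≤ (t : ℝ) * t := by nlinarith
        _ = (t : ℝ) ^ 2 := by ring
        _ ≤ (t : ℝ) ^ 100 := pow_le_pow_right₀ (by linarith) (by norm_num)
    linarith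
  have e6 : (d : ℝ) * (p : ℝ) ^ (2 * d) * 2 ^ ((d - 1) * (t ^ 99 + 2)) / 2 ^ (n - 1) ≤
      Real.exp (t : ℝ) * Real.exp (t : ℝ) * Real.exp ((n : ℝ) / 50) /
        Real.exp (((n : ℝ) - 1) / 2) := by
    apply div_le_div₀ (by positivity) _ (Real.exp_pos _) e5
    apply mul_le_mul _ e4 (by positivity) (by positivity)
    exact mul_le_mul e2 e3 (by positivity) (Real.exp_pos _).le
  calc ((n : ℝ) * p) ^ (t ^ 99) *
      (d * (p : ℝ) ^ (2 * d) * 2 ^ ((d - 1) * (t ^ 99 + 2)) / 2 ^ (n - 1))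
      ≤ Real.exp ((n : ℝ) / 50) * (Real.exp (t : ℝ) * Real.exp (t : ℝ) *
          Real.exp ((n : ℝ) / 50) / Real.exp (((n : ℝ) - 1) / 2)) :=
        mul_le_mul e1 e6 (by positivity) (Real.exp_pos _).le
    _ = Real.exp ((n : ℝ) / 50 + ((t : ℝ) + t + (n : ℝ) / 50 - ((n : ℝ) - 1) / 2)) := by
        rw [Real.exp_add, Real.exp_sub, Real.exp_add, Real.exp_add]
    _ ≤ Real.exp (-(t : ℝ)) := by
        apply Real.exp_le_exp.mpr
        linarith

theorem Par.K3 {t n p d : ℕ} (h : Par t n p d) :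
    12 * Real.exp (-(t : ℝ)) ≤ 1 / (n : ℝ) ^ 5 := by
  have ht := num4_t h
  have h0 : (1 : ℝ) ≤ n := by exact_mod_cast num4_npos h
  have h5 := num4_npow h 5
  have h12 : (12 : ℝ) ≤ Real.exp 11 := by
    have := Real.add_one_le_exp (11 : ℝ)
    linarith
  rw [le_div_iff₀ (by positivity)]
  calc 12 * Real.exp (-(t : ℝ)) * (n : ℝ) ^ 5
      ≤ Real.exp 11 * Real.exp (-(t : ℝ)) * Real.exp ((5 : ℕ) * ((t : ℝ) / 100)) := by
        apply mul_le_mul _ h5 (by positivity) (by positivity)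
        exact mul_le_mul_of_nonneg_right h12 (Real.exp_pos _).le
    _ = Real.exp (11 + (-(t : ℝ)) + (5 : ℕ) * ((t : ℝ) / 100)) := by
        rw [Real.exp_add, Real.exp_add]
    _ ≤ Real.exp 0 := by
        apply Real.exp_le_exp.mpr
        push_cast
        linarith
    _ = 1 := Real.exp_zero

end Pool.Agent.H71.DG
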