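import Pool.Agent.H71.DG.Num0

/-!
# DG-39: numerics for part M, the parameters exist

PROOF.  For `n` take the largest `t` with `t^100 ≤ n` (`Nat.nthRoot` or `Nat.findGreatest`), so
`n < (t+1)^100 ≤ 2 t^100` for `t ≥ 10^6`; `t → ∞` with `n`.  With `L = Real.log n ≤ 100 log (t + 1)`,
`Nat.log 2 n ≤ 2 L`, `d ≤ 14 L`, `log p ≤ 3 L`: all of `100 d`, `100 L`, `100 d² log p ≤ 10^5 L³`
are at most `10^5 (100 log (t+1))^3 ≤ t` for large `t`
(`isLittleO_log_id_atTop`, or `Real.isLittleO_pow_log_id_atTop`).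
-/

set_option autoImplicit false

namespace Pool.Agent.H71.DG

theorem Num5_ev : ∃ T : ℕ, ∀ t : ℕ, T ≤ t → 1000000 ≤ t ∧ 1 ≤ Real.log ((t : ℝ) + 1) ∧
    10 ^ 11 * Real.log ((t : ℝ) + 1) ^ 3 ≤ (t : ℝ) := by
  have h1 := (Real.isLittleO_pow_log_id_atTop (n := 3)).bound
    (show (0 : ℝ) < 1 / (2 * 10 ^ 11) by norm_num)
  rw [Filter.eventually_atTop] at h1
  obtain ⟨a, ha⟩ := h1
  obtain ⟨T, hT⟩ := exists_nat_ge a
  refine ⟨max T 1000000, fun t ht => ?_⟩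
  have ht1 : T ≤ t := le_trans (le_max_left _ _) ht
  have ht2 : 1000000 ≤ t := le_trans (le_max_right _ _) ht
  have ht1' : (T : ℝ) ≤ t := by exact_mod_cast ht1
  have ht2' : (1000000 : ℝ) ≤ t := by exact_mod_cast ht2
  have h2 := ha ((t : ℝ) + 1) (by linarith)
  have h3 : 1 ≤ Real.log ((t : ℝ) + 1) := by
    rw [Real.le_log_iff_exp_le (by linarith)]
    have := Real.exp_one_lt_d9
    linarith
  refine ⟨ht2, h3, ?_⟩
  rw [Real.norm_of_nonneg (by positivity), id_eq, Real.norm_of_nonneg (by linarith)] at h2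
  norm_num at h2 ⊢
  linarith

theorem Num5_root (n : ℕ) : ∃ t : ℕ, t ^ 100 ≤ n ∧ n < (t + 1) ^ 100 := by
  refine ⟨Nat.findGreatest (fun t => t ^ 100 ≤ n) n, ?_, ?_⟩
  · have h := @Nat.findGreatest_spec 0 (fun t => t ^ 100 ≤ n) _ n (Nat.zero_le _)
      (by simp)
    exact h
  · by_contra hcon
    rw [not_lt] at hcon
    have h1 : Nat.findGreatest (fun t => t ^ 100 ≤ n) n + 1 ≤ n := by
      refine le_trans ?_ hcon
      exact Nat.le_self_pow (by norm_num) _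
    have h2 := @Nat.le_findGreatest _ (fun t => t ^ 100 ≤ n) _ _ h1 hcon
    exact absurd h2 (Nat.not_succ_le_self _)

theorem Num5_a (t n : ℕ) (hn : 0 < n) (h : n < (t + 1) ^ 100) :
    Real.log n ≤ 100 * Real.log ((t : ℝ) + 1) := by
  have h1 : (n : ℝ) ≤ ((t : ℝ) + 1) ^ 100 := by exact_mod_cast h.le
  have h2 := Real.log_le_log (by exact_mod_cast hn) h1
  rw [Real.log_pow] at h2
  exact_mod_cast h2

theorem Num5_b1 (t : ℝ) (h6 : 1000000 ≤ t) : (t + 1) ≤ t * Real.exp (1 / t) := by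
  have h3 := Real.add_one_le_exp (1 / t)
  have h4 : t * (1 / t + 1) ≤ t * Real.exp (1 / t) :=
    mul_le_mul_of_nonneg_left h3 (by linarith)
  have h5 : t * (1 / t + 1) = t + 1 := by
    field_simp
    ring
  linarith

theorem Num5_b2 (t : ℝ) (h6 : 1000000 ≤ t) : Real.exp (100 * (1 / t)) ≤ 2 := by
  have h3 : 100 * (1 / t) ≤ Real.log 2 := by
    have h4 : 1 / t ≤ 1 / 1000000 := by
      apply one_div_le_one_div_of_le (by norm_num) h6
    have h5 := Real.log_two_gt_d9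
    linarith
  calc Real.exp (100 * (1 / t)) ≤ Real.exp (Real.log 2) := Real.exp_le_exp.mpr h3
    _ = 2 := Real.exp_log (by norm_num)

theorem Num5_b (t n : ℕ) (h6 : 1000000 ≤ t) (h : n < (t + 1) ^ 100) : n ≤ 2 * t ^ 100 := by
  have h6' : (1000000 : ℝ) ≤ t := by exact_mod_cast h6
  have h1 : ((t : ℝ) + 1) ^ 100 ≤ 2 * (t : ℝ) ^ 100 := by
    have h2 := Num5_b1 t h6'
    have h3 : Real.exp (1 / (t : ℝ)) ^ 100 = Real.exp (100 * (1 / (t : ℝ))) := by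
      rw [← Real.exp_nat_mul]
      norm_num
    refine (pow_le_pow_left₀ (by positivity) h2 100).trans ?_
    rw [mul_pow, h3, mul_comm]
    exact mul_le_mul_of_nonneg_right (Num5_b2 t h6') (by positivity)
  have h2 : (((t + 1) ^ 100 : ℕ) : ℝ) ≤ ((2 * t ^ 100 : ℕ) : ℝ) := by
    rw [Nat.cast_pow, Nat.cast_mul, Nat.cast_pow, Nat.cast_add, Nat.cast_one, Nat.cast_two]
    exact h1
  have h3 : (t + 1) ^ 100 ≤ 2 * t ^ 100 := Nat.cast_le.mp h2
  exact h.le.trans h3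

theorem Num5_c (n : ℕ) (hn : 0 < n) : (Nat.log 2 n : ℝ) ≤ 2 * Real.log n := by
  have h1 : 2 ^ Nat.log 2 n ≤ n := Nat.pow_log_le_self 2 hn.ne'
  have h2 : ((2 : ℝ)) ^ Nat.log 2 n ≤ n := by exact_mod_cast h1
  have h3 := Real.log_le_log (by positivity) h2
  rw [Real.log_pow] at h3
  have h4 := Real.log_two_gt_d9
  have h5 : (0 : ℝ) ≤ Nat.log 2 n := Nat.cast_nonneg _
  nlinarith

theorem Num5_main (t n p d : ℕ) (L' : ℝ) (hlog1 : 1 ≤ L') (hlog : 10 ^ 11 * L' ^ 3 ≤ (t : ℝ))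
    (hLn : Real.log n ≤ 100 * L') (hn : 0 < n) (hp : 2 ≤ p) (hpn : p ≤ n ^ 3)
    (hdn : d ≤ 7 * Nat.log 2 n) :
    100 * d ≤ t ∧ (n : ℝ) ≤ Real.exp ((t : ℝ) / 100) ∧
      (p : ℝ) ^ (d * d) ≤ Real.exp ((t : ℝ) / 100) := by
  have hL'3 : L' ≤ L' ^ 3 := le_self_pow₀ hlog1 (by norm_num)
  have hnpos' : (0 : ℝ) < n := by exact_mod_cast hn
  have hlog2 := Num5_c n hn
  have hdL : (d : ℝ) ≤ 1400 * L' := by
    have h1 : (d : ℝ) ≤ 7 * (Nat.log 2 n : ℝ) := by exact_mod_cast hdn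
    linarith
  have hp' : (2 : ℝ) ≤ p := by exact_mod_cast hp
  have hlp : Real.log p ≤ 300 * L' := by
    have h1 : (p : ℝ) ≤ (n : ℝ) ^ 3 := by exact_mod_cast hpn
    have h2 := Real.log_le_log (by linarith) h1
    rw [Real.log_pow] at h2
    push_cast at h2
    linarith
  have hlp0 : 0 ≤ Real.log p := Real.log_natCast_nonneg p
  refine ⟨?_, ?_, ?_⟩
  · have h1 : 100 * (d : ℝ) ≤ t := by linarith
    exact_mod_cast h1
  · rw [← Real.log_le_iff_le_exp hnpos']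
    linarith
  · rw [← Real.log_le_iff_le_exp (by positivity), Real.log_pow]
    have hd0 : (0 : ℝ) ≤ d := Nat.cast_nonneg d
    have h1 : (d : ℝ) * d ≤ (1400 * L') * (1400 * L') := mul_le_mul hdL hdL hd0 (by linarith)
    have h2 : (d : ℝ) * d * Real.log p ≤ (1400 * L') * (1400 * L') * (300 * L') :=
      mul_le_mul h1 hlp hlp0 (by positivity)
    push_cast
    have h3 : (1400 * L') * (1400 * L') * (300 * L') = 588000000 * L' ^ 3 := by ring
    rw [h3] at h2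
    have h4 : (0 : ℝ) ≤ L' ^ 3 := by positivity
    linarith

theorem par_eventually : ∀ᶠ n : ℕ in Filter.atTop, ∃ t : ℕ, ∀ p d : ℕ, 2 ≤ p → p ≤ n ^ 3 →
    1 ≤ d → d ≤ 7 * Nat.log 2 n → Par t n p d := by
  obtain ⟨T, hT⟩ := Num5_ev
  rw [Filter.eventually_atTop]
  refine ⟨(T + 1) ^ 100, fun n hn => ?_⟩
  obtain ⟨t, ht1, ht2⟩ := Num5_root n
  have hTt : T ≤ t := by
    by_contra hcon
    rw [not_le] at hcon
    have h1 : (t + 1) ^ 100 ≤ (T + 1) ^ 100 := Nat.pow_le_pow_left (Nat.succ_le_succ hcon.le) 100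
    exact absurd (lt_of_lt_of_le ht2 (h1.trans hn)) (lt_irrefl _)
  obtain ⟨h6, hlog1, hlog⟩ := hT t hTt
  refine ⟨t, fun p d hp hpn hd hdn => ?_⟩
  have hnpos : 0 < n := lt_of_lt_of_le (pow_pos (Nat.succ_pos T) 100) hn
  obtain ⟨a1, a2, a3⟩ := Num5_main t n p d _ hlog1 hlog (Num5_a t n hnpos ht2) hnpos hp hpn hdn
  exact ⟨h6, ht1, Num5_b t n h6 ht2, hp, hd, a1, a2, a3⟩

end Pool.Agent.H71.DG
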