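import Pool.Agent.H71.DG.MAll
import Pool.Agent.H71.DG.MBad
import Pool.Agent.H71.DG.Num1
import Pool.Agent.H71.DG.Num2
import Pool.Agent.H71.DG.Num3
import Pool.Agent.H71.DG.Num4
import Pool.Agent.H71.DG.Num5

/-!
# Part M: the interface theorem I-M
-/

set_option autoImplicit false

namespace Pool.Agent.H71.DG

open Matrix Classical Pool.Agent.H66.SP Pool.Agent.H10.DG

theorem part_M_aux {t n p d : ℕ} [Fact p.Prime] (hp : p ≠ 2) (h : Par t n p d) :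
    (((Finset.univ : Finset (SimpleGraph (Fin n))).filter (fun G =>
      ∃ U : Submodule (ZMod p) (Fin n → ZMod p), Ob p G U ∧
        Module.finrank (ZMod p) U = d)).card : ℝ) ≤
      (Fintype.card (SimpleGraph (Fin n)) : ℝ) * (2 / (p : ℝ) ^ (2 * d) + 1 / (n : ℝ) ^ 5) := by
  have ht := h.ht
  have hn : 1 ≤ n := le_trans (Nat.one_le_pow _ _ (by omega)) h.hn1
  have hp0 : (0 : ℝ) < (p : ℝ) ^ d := by
    have : 0 < p := (Fact.out : p.Prime).pos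
    positivity
  have ht0 : (0 : ℝ) < (t : ℝ) := by
    have : 0 < t := by omega
    exact_mod_cast this
  have key := bad_le (n := n) hp h.hd hn (t ^ 99) (t ^ 98) (t ^ 99)
    (Nat.one_le_pow _ _ (by omega)) h.K0
    (t * 2 ^ n * ((p : ℝ) ^ d) ^ (2 * t ^ 80 + ww t d) * (1 / (t : ℝ) ^ 9) ^ (n - ww t d) +
      8 ^ n * ((p : ℝ) ^ d) ^ (2 * ww t d) * (1 / (t : ℝ) ^ 4) ^ (n - ww t d - t ^ 95) +
      (1 / (p : ℝ) ^ (d * (d + 1) / 2 + d) + 1 / Real.sqrt p ^ n) *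
        ((p : ℝ) ^ (d * (d - 1) / 2) + eta p d n (ww t d) (t ^ 95) (t ^ 10) (t : ℝ)
          ((t : ℝ) ^ 30)))
    (by
      intro Θ
      have hs := sum_all hp (V := Fin n) Θ (t ^ 80) t (t ^ 30) (5 * t ^ 10) (t ^ 85) (t ^ 99)
        (ww t d) t (t ^ 95) (t ^ 4) (t ^ 10) (t : ℝ) ((t : ℝ) ^ 30) ((t : ℝ) ^ 78)
        ((t : ℝ) ^ 10 / (p : ℝ) ^ d) (1 / (t : ℝ) ^ 9) (t : ℝ) (1 / (t : ℝ) ^ 4)
        (by omega) h.hks (by rw [Fintype.card_fin]; exact h.hs) (Nat.one_le_pow _ _ (by omega))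
        ht0.le (by positivity) h.hM₀ h.hMM₁ h.hMM₂ h.hq h.h80 h.hm₀ rfl h.hm₀' h.hm₀''
        (by rw [Fintype.card_fin]; exact h.hwn) h.hτ₀ h.hD (by positivity) h.hx1
        (fun τ hτ => h.hx τ hτ) h.hk₂ (by positivity) h.hδ1 h.hqM ht0 h.hmM h.hrho h.hδ
        (by rw [Fintype.card_fin]; exact hn) (by rw [Fintype.card_fin]; exact h.hxx)
        (by rw [Fintype.card_fin]; exact h.hxx')
      rw [Fintype.card_fin] at hs
      exact hs)
  refine key.trans (mul_le_mul_of_nonneg_left ?_ (Nat.cast_nonneg _))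
  have h1 := h.A1
  have h2 := h.A2
  have h3 : (1 / (p : ℝ) ^ (d * (d + 1) / 2 + d) + 1 / Real.sqrt p ^ n) *
        ((p : ℝ) ^ (d * (d - 1) / 2) + eta p d n (ww t d) (t ^ 95) (t ^ 10) (t : ℝ)
          ((t : ℝ) ^ 30)) ≤ 1 / (p : ℝ) ^ (2 * d) + 3 * Real.exp (-(t : ℝ)) := by
    refine le_trans (mul_le_mul_of_nonneg_left ?_ (by positivity)) h.A3
    linarith [h.eta]
  have h4 := h.K1
  have h5 := h.K2
  have h6 := h.K3
  have h7 : (2 : ℝ) / (p : ℝ) ^ (2 * d) = 2 * (1 / (p : ℝ) ^ (2 * d)) := by ring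
  rw [h7]
  linarith

/-- interface theorem I-M -/
theorem part_M : ∀ᶠ n : ℕ in Filter.atTop, ∀ (p : ℕ) [Fact p.Prime], p ≠ 2 → p ≤ n ^ 3 →
    ∀ d : ℕ, 1 ≤ d → d ≤ 7 * Nat.log 2 n →
    (((Finset.univ : Finset (SimpleGraph (Fin n))).filter (fun G =>
      ∃ U : Submodule (ZMod p) (Fin n → ZMod p), Ob p G U ∧
        Module.finrank (ZMod p) U = d)).card : ℝ) ≤
      (Fintype.card (SimpleGraph (Fin n)) : ℝ) *
        (2 / (p : ℝ) ^ (2 * d) + 1 / (n : ℝ) ^ 5) := by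
  filter_upwards [par_eventually] with n hn p _ hp hpn d hd1 hd2
  obtain ⟨t, ht⟩ := hn
  exact part_M_aux hp (ht p d (Fact.out : p.Prime).two_le hpn hd1 hd2)

end Pool.Agent.H71.DG
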