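import Pool.Agent.H71.DG.GrSum

/-!
# DG-4: Fourier bound for the number of graphs with `A F = g`

PROOF.  For `z : Matrix V (Fin r) (ZMod N)`: `∑_y e(∑_v y_v . z_v) = N^(r card V)` if `z = 0` and
`0` otherwise (product over the entries, `ZMod.stdAddChar`, `AddChar.sum_mulShift` ...).  Hence
`cnt F g * N^(r card V) = ∑_G ∑_y e(∑_v y_v . ((A F)_v - g_v)) =
∑_y e(-∑ y_v . g_v) ∑_G ∏_{e ∈ edg G} e(pr F y e)` by `edge_sum`, and by `sum_graph_prod` the inner sum is
`∏_{e ∈ nd V} (1 + e(pr F y e))`, of norm at most `∏ 2 exp (-2 nn (pr F y e)) =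
card (SimpleGraph V) * ∏ exp (...)` (`norm_one_add_le`, `card_graph`).
-/

set_option autoImplicit false

namespace Pool.Agent.H71.DG

open Matrix Classical Pool.Agent.H66.SP

/-- the pairing with a matrix as an additive map -/
noncomputable def Four_phi {N r : ℕ} {V : Type*} [Fintype V] (z : Matrix V (Fin r) (ZMod N)) :
    Matrix V (Fin r) (ZMod N) →+ ZMod N where
  toFun y := ∑ v, y v ⬝ᵥ z v
  map_zero' := by
    refine Finset.sum_eq_zero fun v _ => ?_
    exact zero_dotProduct (z v)
  map_add' y y' := by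
    rw [← Finset.sum_add_distrib]
    refine Finset.sum_congr rfl fun v _ => ?_
    exact add_dotProduct (y v) (y' v) (z v)

theorem Four_phi_apply {N r : ℕ} {V : Type*} [Fintype V] (z y : Matrix V (Fin r) (ZMod N)) :
    Four_phi z y = ∑ v, y v ⬝ᵥ z v := rfl

theorem Four_orth {N r : ℕ} [NeZero N] {V : Type*} [Fintype V] [DecidableEq V]
    (z : Matrix V (Fin r) (ZMod N)) :
    ∑ y : Matrix V (Fin r) (ZMod N), (ZMod.stdAddChar (Four_phi z y) : ℂ) =
      if z = 0 then (((N : ℂ) ^ r) ^ Fintype.card V) else 0 := by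
  have h1 := AddChar.sum_eq_ite (R := ℂ)
    ((ZMod.stdAddChar (N := N)).compAddMonoidHom (Four_phi z))
  have h2 : ∀ y, ((ZMod.stdAddChar (N := N)).compAddMonoidHom (Four_phi z)) y =
      (ZMod.stdAddChar (Four_phi z y) : ℂ) := fun y => rfl
  simp only [h2] at h1
  rw [h1]
  have h3 : ((ZMod.stdAddChar (N := N)).compAddMonoidHom (Four_phi z) = 0) ↔ z = 0 := by
    constructor
    · intro h
      funext v k
      have h4 := DFunLike.congr_fun h (Matrix.single v k (1 : ZMod N))
      have h5 : (ZMod.stdAddChar (Four_phi z (Matrix.single v k (1 : ZMod N))) : ℂ) =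
          ZMod.stdAddChar (0 : ZMod N) := by
        rw [AddChar.map_zero_eq_one]
        exact h4
      have h6 := ZMod.injective_stdAddChar h5
      rw [Four_phi_apply, Finset.sum_eq_single v] at h6
      · have h7 : (Matrix.single v k (1 : ZMod N)) v = Pi.single k 1 := by
          funext j
          by_cases hj : j = k
          · subst hj
            simp
          · rw [Pi.single_eq_of_ne hj, Matrix.single_apply_of_ne]
            rintro ⟨-, h8⟩
            exact hj h8.symm
        rw [h7, single_one_dotProduct] at h6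
        exact h6
      · intro w _ hw
        have h7 : (Matrix.single v k (1 : ZMod N)) w = 0 := by
          funext j
          rw [Matrix.single_apply_of_ne]
          · rfl
          · rintro ⟨h8, -⟩
            exact hw h8.symm
        rw [h7, zero_dotProduct]
      · intro hv
        exact absurd (Finset.mem_univ v) hv
    · rintro rfl
      ext y
      rw [h2, Four_phi_apply]
      have h4 : ∑ v, y v ⬝ᵥ (0 : Matrix V (Fin r) (ZMod N)) v = 0 :=
        Finset.sum_eq_zero fun v _ => dotProduct_zero (y v)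
      rw [h4, AddChar.map_zero_eq_one]
      rfl
  have h8 : Fintype.card (Matrix V (Fin r) (ZMod N)) = (N ^ r) ^ Fintype.card V := by
    show Fintype.card (V → Fin r → ZMod N) = _
    rw [Fintype.card_fun, Fintype.card_fun, ZMod.card, Fintype.card_fin]
  by_cases hz : z = 0
  · rw [if_pos hz, if_pos (h3.2 hz), h8]
    push_cast
    rfl
  · rw [if_neg hz, if_neg (fun h => hz (h3.1 h))]

theorem Four_map_sum {N : ℕ} [NeZero N] {ι : Type*} (s : Finset ι) (x : ι → ZMod N) :
    (ZMod.stdAddChar (∑ i ∈ s, x i) : ℂ) = ∏ i ∈ s, (ZMod.stdAddChar (x i) : ℂ) := by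
  induction s using Finset.induction_on with
  | empty => rw [Finset.sum_empty, Finset.prod_empty, AddChar.map_zero_eq_one]
  | insert a s ha ih =>
    rw [Finset.sum_insert ha, Finset.prod_insert ha, AddChar.map_add_eq_mul, ih]

theorem Four_sum_inst {T : Type*} (i1 i2 : Fintype T) (f g : T → ℂ) (h : ∀ x, f x = g x) :
    (@Finset.sum T ℂ _ (@Finset.univ T i1) f) = (@Finset.sum T ℂ _ (@Finset.univ T i2) g) := by
  have h1 : i1 = i2 := Subsingleton.elim i1 i2
  subst h1
  exact Finset.sum_congr rfl fun x _ => h x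

theorem Four_eq {N r : ℕ} [NeZero N] {V : Type*} [Fintype V] [DecidableEq V]
    (F g : Matrix V (Fin r) (ZMod N)) :
    (cnt F g : ℂ) * ((N : ℂ) ^ r) ^ Fintype.card V =
      ∑ y : Matrix V (Fin r) (ZMod N), (ZMod.stdAddChar (-Four_phi g y) : ℂ) *
        ∏ e ∈ nd V, (1 + (ZMod.stdAddChar (pr F y e) : ℂ)) := by
  have h1 : ∀ G : SimpleGraph V,
      (if adj (ZMod N) G * F = g then ((N : ℂ) ^ r) ^ Fintype.card V else 0) =
      ∑ y : Matrix V (Fin r) (ZMod N),
        (ZMod.stdAddChar (-Four_phi g y) : ℂ) * ∏ e ∈ edg G, (ZMod.stdAddChar (pr F y e) : ℂ) := by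
    intro G
    have h2 := Four_orth (adj (ZMod N) G * F - g)
    rw [if_congr sub_eq_zero rfl rfl] at h2
    rw [← h2]
    refine Finset.sum_congr rfl fun y _ => ?_
    rw [← Four_map_sum, ← edge_sum, ← AddChar.map_add_eq_mul]
    refine congrArg _ ?_
    rw [Four_phi_apply, Four_phi_apply, neg_add_eq_sub, ← Finset.sum_sub_distrib]
    refine Finset.sum_congr rfl fun v _ => ?_
    exact dotProduct_sub (y v) _ _
  have h3 : (cnt F g : ℂ) * ((N : ℂ) ^ r) ^ Fintype.card V =
      ∑ G : SimpleGraph V,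
        (if adj (ZMod N) G * F = g then ((N : ℂ) ^ r) ^ Fintype.card V else 0) := by
    unfold cnt
    rw [Finset.card_filter]
    push_cast
    rw [Finset.sum_mul]
    refine Four_sum_inst _ _ _ _ fun G => ?_
    by_cases h : adj (ZMod N) G * F = g
    · simp only [h, if_true, one_mul]
    · simp only [h, if_false, zero_mul]
  rw [h3]
  simp only [h1]
  rw [Finset.sum_comm]
  refine Finset.sum_congr rfl fun y _ => ?_
  rw [← Finset.mul_sum, sum_graph_prod]

theorem four_le {N r : ℕ} [NeZero N] {V : Type*} [Fintype V] [DecidableEq V]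
    (F g : Matrix V (Fin r) (ZMod N)) :
    (cnt F g : ℝ) * ((N : ℝ) ^ r) ^ Fintype.card V ≤
      (Fintype.card (SimpleGraph V) : ℝ) *
        ∑ y : Matrix V (Fin r) (ZMod N), ∏ e ∈ nd V, Real.exp (-2 * nn (pr F y e)) := by
  have h1 := Four_eq F g
  have h2 : ‖(cnt F g : ℂ) * ((N : ℂ) ^ r) ^ Fintype.card V‖ =
      (cnt F g : ℝ) * ((N : ℝ) ^ r) ^ Fintype.card V := by
    rw [norm_mul, norm_pow, norm_pow, Complex.norm_natCast, Complex.norm_natCast]
  rw [← h2, h1, card_graph, Finset.mul_sum]
  refine (norm_sum_le _ _).trans (Finset.sum_le_sum fun y _ => ?_)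
  rw [norm_mul]
  have h3 : ‖(ZMod.stdAddChar (-Four_phi g y) : ℂ)‖ = 1 := by
    rw [ZMod.stdAddChar_apply]
    exact Circle.norm_coe _
  rw [h3, one_mul, norm_prod]
  push_cast
  rw [← Finset.prod_const, ← Finset.prod_mul_distrib]
  exact Finset.prod_le_prod (fun e _ => norm_nonneg _) (fun e _ => norm_one_add_le _)

end Pool.Agent.H71.DG
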