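import Pool.Agent.H71.DG.Kry2
import Pool.Agent.H66.SP.Trans
import Pool.Agent.H95.SQ.NsA

/-!
# DG-29: Krylov lemma, all sparse vectors (M11)

PROOF `kry_one`: choose `r` with `v r ≠ 0`, an equivalence `V ≃ W ⊕ Unit` (`W = {x // x ≠ r}`) sending
`r` to `inr ()`; count graphs as pairs `(G₀, b)` (`card_filter_glue` with `R = Unit`, compare
`rec_card_step` in `Pool/Agent/H66/SP/Rec.lean`, `NsA_transport`).  If `mult (adj G) ≤ s` for all `μ` then
`mult (adj G₀) ≤ s + 1` (deleting a row and column: an eigenspace of `G₀`, extended by `0`, and intersected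
with the hyperplane `bv b . x = 0`, is contained in the eigenspace of `G`).  Then `kry_ext`.
`kry_all`: union over the vectors `v ≠ 0` with at most `m₀` nonzero entries; there are at most
`(n p)^m₀` of them (`card V = n ≥ 1`; list the support with repetitions allowed: a map
`Fin m₀ → V × ZMod p`; `v = 0` entries allowed as padding).
-/

set_option autoImplicit false

namespace Pool.Agent.H71.DG

open Matrix Classical Pool.Agent.H66.SP

/-- deleting a vertex raises a multiplicity by at most one -/
theorem kry3_mult_ext {K : Type*} [Field K] {V : Type*} [Fintype V] (G : SimpleGraph V)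
    (b : V → Bool) (μ : K) : mult (adj K G) μ ≤ mult (adj K (ext G b)) μ + 1 := by
  set f : eig (adj K G) μ →ₗ[K] K :=
    { toFun := fun x => bv K b ⬝ᵥ (x : V → K)
      map_add' := fun x y => by simp [dotProduct_add]
      map_smul' := fun c x => by simp [dotProduct_smul] } with hf
  have h1 := LinearMap.finrank_range_add_finrank_ker f
  have h2 : Module.finrank K (LinearMap.range f) ≤ 1 := by
    have := Submodule.finrank_le (LinearMap.range f)
    rwa [Module.finrank_self] at this
  have hk : ∀ x : LinearMap.ker f, bv K b ⬝ᵥ ((x : eig (adj K G) μ) : V → K) = 0 :=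
    fun z => LinearMap.mem_ker.1 z.2
  have hm : ∀ x : LinearMap.ker f,
      (Sum.elim ((x : eig (adj K G) μ) : V → K) (fun _ : Unit => (0 : K))) ∈
        eig (adj K (ext G b)) μ := by
    intro x
    rw [mem_eig]
    have hx := (mem_eig _ _ _).1 x.1.2
    ext w
    rcases w with u | ⟨⟩
    · rw [ext_mulVec_inl]
      simp only [Sum.elim_inl, Sum.elim_inr, mul_zero, add_zero, Pi.smul_apply, smul_eq_mul]
      exact congrFun hx u
    · rw [ext_mulVec_inr]
      simp only [Sum.elim_inl, Sum.elim_inr, mul_zero, Pi.smul_apply, smul_eq_mul]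
      exact hk x
  set g : LinearMap.ker f →ₗ[K] eig (adj K (ext G b)) μ :=
    { toFun := fun x => ⟨_, hm x⟩
      map_add' := fun x y => by
        ext w
        rcases w with u | ⟨⟩ <;> simp
      map_smul' := fun c x => by
        ext w
        rcases w with u | ⟨⟩ <;> simp } with hg
  have hginj : Function.Injective g := by
    intro x y hxy
    apply Subtype.ext
    apply Subtype.ext
    funext u
    exact congrFun (congrArg Subtype.val hxy) (Sum.inl u)
  have h3 : Module.finrank K (LinearMap.ker f) ≤ Module.finrank K (eig (adj K (ext G b)) μ) :=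
    LinearMap.finrank_le_finrank_of_injective hginj
  unfold mult
  omega

/-- polynomials of the adjacency matrix and isomorphisms -/
theorem kry3_aeval_iso {K : Type*} [CommRing K] {V W : Type*} [Fintype V] [Fintype W]
    [DecidableEq V] [DecidableEq W] {G : SimpleGraph V} {H : SimpleGraph W} (φ : G ≃g H)
    (q : Polynomial K) (x : V → K) :
    Polynomial.aeval (adj K H) q *ᵥ (x ∘ φ.symm) =
      (Polynomial.aeval (adj K G) q *ᵥ x) ∘ φ.symm := by
  induction q using Polynomial.induction_on' with
  | add p q hp hq =>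
    rw [map_add, map_add, Matrix.add_mulVec, Matrix.add_mulVec, hp, hq]
    rfl
  | monomial k a =>
    rw [Polynomial.aeval_monomial, Polynomial.aeval_monomial, ← Algebra.smul_def,
      ← Algebra.smul_def, Matrix.smul_mulVec, Matrix.smul_mulVec, gequiv_pow]
    rfl

/-- polynomials and intertwining matrices -/
theorem kry3_aeval_mul {K : Type*} [CommRing K] {V W : Type*} [Fintype V] [Fintype W]
    [DecidableEq V] [DecidableEq W] (A : Matrix V V K) (F : Matrix V W K) (Θ : Matrix W W K)
    (h : A * F = F * Θ) (q : Polynomial K) :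
    Polynomial.aeval A q * F = F * Polynomial.aeval Θ q := by
  have hpow : ∀ k : ℕ, A ^ k * F = F * Θ ^ k := by
    intro k
    induction k with
    | zero => rw [pow_zero, pow_zero, Matrix.one_mul, Matrix.mul_one]
    | succ k ih =>
      rw [pow_succ, Matrix.mul_assoc, h, ← Matrix.mul_assoc, ih, Matrix.mul_assoc, ← pow_succ]
  induction q using Polynomial.induction_on' with
  | add p q hp hq => rw [map_add, map_add, Matrix.add_mul, Matrix.mul_add, hp, hq]
  | monomial k a =>
    rw [Polynomial.aeval_monomial, Polynomial.aeval_monomial, ← Algebra.smul_def,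
      ← Algebra.smul_def, Matrix.smul_mul, Matrix.mul_smul, hpow]

/-- all the vertices but `r`, and `r` -/
def kry3_e {V : Type*} [DecidableEq V] (r : V) : ({x : V // x ≠ r} ⊕ Unit) ≃ V where
  toFun := Sum.elim Subtype.val (fun _ => r)
  invFun x := if h : x ≠ r then Sum.inl ⟨x, h⟩ else Sum.inr ()
  left_inv x := by
    rcases x with ⟨x, hx⟩ | ⟨⟩
    · simp [hx]
    · simp
  right_inv x := by
    by_cases h : x ≠ r
    · simp [h]
    · have h' : x = r := not_not.1 h
      subst h'
      simp

theorem kry3_unit (H : SimpleGraph Unit) : H = ⊥ := by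
  ext a b
  have hab : a = b := Subsingleton.elim a b
  subst hab
  simp

theorem kry3_card_unit : Fintype.card (SimpleGraph Unit) = 1 := by
  rw [Fintype.card_eq_one_iff]
  exact ⟨⊥, kry3_unit⟩

theorem kry3_glue {W : Type*} (G₀ : SimpleGraph W) (b : Unit → W → Bool) (H : SimpleGraph Unit) :
    glue G₀ b H = ext G₀ (b ()) := by
  rw [kry3_unit H]
  rfl

theorem kry_one (p : ℕ) [Fact p.Prime] {V : Type*} [Fintype V] [DecidableEq V]
    (v : V → ZMod p) (hv : v ≠ 0) (s d : ℕ) (hd : 1 ≤ d) :
    (((Finset.univ : Finset (SimpleGraph V)).filter (fun G =>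
      (∀ μ : KK p, mult (adj (KK p) G) μ ≤ s) ∧
      ∃ h : Polynomial (ZMod p), h.Monic ∧ h.natDegree ≤ d ∧
        Polynomial.aeval (adj (ZMod p) G) h *ᵥ v = 0)).card : ℝ) ≤
      (Fintype.card (SimpleGraph V) : ℝ) *
        (d * (p : ℝ) ^ (2 * d) * 2 ^ ((d - 1) * (s + 1)) / 2 ^ (Fintype.card V - 1)) := by
  obtain ⟨r, hr⟩ : ∃ r, v r ≠ 0 := by
    by_contra hc
    push Not at hc
    exact hv (funext hc)
  have hcW : Fintype.card {x : V // x ≠ r} = Fintype.card V - 1 := by
    rw [Fintype.card_subtype_compl]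
    simp
  have hcard : Fintype.card (SimpleGraph V) =
      Fintype.card (SimpleGraph {x : V // x ≠ r}) * 2 ^ (Fintype.card V - 1) := by
    rw [Fintype.card_congr (kry3_e r).symm.simpleGraph, card_graph_sum, kry3_card_unit, hcW]
    simp
  set P : SimpleGraph V → Prop := fun G =>
      (∀ μ : KK p, mult (adj (KK p) G) μ ≤ s) ∧
      ∃ h : Polynomial (ZMod p), h.Monic ∧ h.natDegree ≤ d ∧
        Polynomial.aeval (adj (ZMod p) G) h *ᵥ v = 0 with hP
  have key : ∀ G₀ : SimpleGraph {x : V // x ≠ r}, ∀ H : SimpleGraph Unit,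
      ((Finset.univ : Finset (Unit → {x : V // x ≠ r} → Bool)).filter (fun b =>
        P ((kry3_e r).simpleGraph (glue G₀ b H)))).card ≤
          d * p ^ (2 * d) * 2 ^ ((d - 1) * (s + 1)) := by
    intro G₀ H
    by_cases hG₀ : ∀ μ : KK p, mult (adj (KK p) G₀) μ ≤ s + 1
    · refine le_trans ?_ (kry_ext p G₀ (s + 1) d hd hG₀ (v ∘ kry3_e r) hr)
      refine Finset.card_le_card_of_injOn (fun b => b ()) ?_ ?_
      · intro b hb
        rw [Finset.mem_coe, Finset.mem_filter] at hb ⊢
        refine ⟨Finset.mem_univ _, ?_⟩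
        obtain ⟨-, -, h, h1, h2, h3⟩ := hb
        refine ⟨h, h1, h2, ?_⟩
        have h4 := kry3_aeval_iso (SimpleGraph.Iso.comap (kry3_e r).symm (glue G₀ b H)) h v
        have h5 : Polynomial.aeval (adj (ZMod p)
            ((glue G₀ b H).comap (kry3_e r).symm)) h *ᵥ v = 0 := h3
        rw [h5, kry3_glue] at h4
        exact h4
      · intro b _ b' _ hbb
        funext u
        exact hbb
    · push Not at hG₀
      obtain ⟨μ, hμ⟩ := hG₀
      rw [Finset.card_eq_zero.2]
      · exact Nat.zero_le _
      · rw [Finset.filter_eq_empty_iff]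
        intro b _ hb
        have h1 := hb.1 μ
        have h2 := mult_iso (K := KK p)
          (SimpleGraph.Iso.comap (kry3_e r).symm (glue G₀ b H)) μ
        have h3 := kry3_mult_ext G₀ (b ()) μ
        rw [kry3_glue] at h2
        have h4 : mult (adj (KK p) ((kry3_e r).simpleGraph (glue G₀ b H))) μ =
          mult (adj (KK p) ((ext G₀ (b ())).comap (kry3_e r).symm)) μ := by
            rw [kry3_glue]
            rfl
        omega
  have h1 : ((Finset.univ : Finset (SimpleGraph V)).filter P).card ≤
      Fintype.card (SimpleGraph {x : V // x ≠ r}) *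
        (d * p ^ (2 * d) * 2 ^ ((d - 1) * (s + 1))) := by
    have e1 := Pool.Agent.H95.SQ.NsA_transport (kry3_e r) P
    rw [card_filter_glue] at e1
    have e2 : ((Finset.univ : Finset (SimpleGraph V)).filter P).card =
        ∑ G₀ : SimpleGraph {x : V // x ≠ r}, ∑ H : SimpleGraph Unit,
          ((Finset.univ : Finset (Unit → {x : V // x ≠ r} → Bool)).filter (fun b =>
            P ((kry3_e r).simpleGraph (glue G₀ b H)))).card := by
      convert e1
    rw [e2]
    refine (Finset.sum_le_sum fun G₀ _ => Finset.sum_le_sum fun H _ => key G₀ H).trans ?_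
    rw [Finset.sum_const, Finset.sum_const, Finset.card_univ, Finset.card_univ, kry3_card_unit,
      smul_eq_mul, smul_eq_mul, one_mul]
  have h2 : (((Finset.univ : Finset (SimpleGraph V)).filter P).card : ℝ) ≤
      (Fintype.card (SimpleGraph {x : V // x ≠ r}) : ℝ) *
        (d * p ^ (2 * d) * 2 ^ ((d - 1) * (s + 1))) := by
    exact_mod_cast h1
  refine h2.trans (le_of_eq ?_)
  rw [hcard]
  push_cast
  have h3 : (2 : ℝ) ^ (Fintype.card V - 1) ≠ 0 := by positivity
  field_simp

/-- no nonzero vector with at most `m₀` nonzero entries is killed by a monic polynomial in `A` of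
degree at most `d` -/
def KryOK (p : ℕ) [Fact p.Prime] {V : Type*} [Fintype V] [DecidableEq V] (G : SimpleGraph V)
    (m₀ d : ℕ) : Prop :=
  ∀ v : V → ZMod p, v ≠ 0 →
    ((Finset.univ : Finset V).filter (fun x => v x ≠ 0)).card ≤ m₀ →
    ∀ h : Polynomial (ZMod p), h.Monic → h.natDegree ≤ d →
      Polynomial.aeval (adj (ZMod p) G) h *ᵥ v ≠ 0

/-- a sparse vector is a short sum of multiples of unit vectors -/
theorem kry3_sparse {K : Type*} [AddCommGroup K] {V : Type*} [Fintype V] [DecidableEq V]
    [Nonempty V] (m : ℕ) : ∀ v : V → K,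
    ((Finset.univ : Finset V).filter (fun x => v x ≠ 0)).card ≤ m →
    ∃ f : Fin m → V × K, v = ∑ i, Pi.single (f i).1 (f i).2 := by
  induction m with
  | zero =>
    intro v hv
    refine ⟨Fin.elim0, ?_⟩
    rw [Nat.le_zero, Finset.card_eq_zero, Finset.filter_eq_empty_iff] at hv
    funext x
    have := hv (Finset.mem_univ x)
    rw [not_not] at this
    rw [this]
    simp
  | succ m ih =>
    intro v hv
    by_cases h0 : v = 0
    · refine ⟨fun _ => (Classical.arbitrary V, 0), ?_⟩
      rw [h0]
      simp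
    · obtain ⟨x, hx⟩ : ∃ x, v x ≠ 0 := by
        by_contra hc
        push Not at hc
        exact h0 (funext hc)
      obtain ⟨f, hf⟩ := ih (v - Pi.single x (v x)) (by
        have hsub : (Finset.univ : Finset V).filter
            (fun y => (v - (Pi.single x (v x) : V → K)) y ≠ 0) ⊆
            ((Finset.univ : Finset V).filter (fun y => v y ≠ 0)).erase x := by
          intro y hy
          rw [Finset.mem_filter] at hy
          have hyx : y ≠ x := by
            intro h
            apply hy.2
            rw [h]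
            simp
          rw [Finset.mem_erase, Finset.mem_filter]
          refine ⟨hyx, Finset.mem_univ _, ?_⟩
          have h2 := hy.2
          rw [Pi.sub_apply, Pi.single_eq_of_ne hyx, sub_zero] at h2
          exact h2
        have h3 := Finset.card_le_card hsub
        rw [Finset.card_erase_of_mem (by simp [hx])] at h3
        omega)
      refine ⟨Fin.cons (x, v x) f, ?_⟩
      rw [Fin.sum_univ_succ]
      simp only [Fin.cons_zero, Fin.cons_succ]
      rw [← hf]
      abel

theorem kry_all (p : ℕ) [Fact p.Prime] {V : Type*} [Fintype V] [DecidableEq V] [Nonempty V]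
    (m₀ s d : ℕ) (hd : 1 ≤ d) :
    (((Finset.univ : Finset (SimpleGraph V)).filter (fun G =>
      (∀ μ : KK p, mult (adj (KK p) G) μ ≤ s) ∧ ¬ KryOK p G m₀ d)).card : ℝ) ≤
      (Fintype.card (SimpleGraph V) : ℝ) * (((Fintype.card V : ℝ) * p) ^ m₀ *
        (d * (p : ℝ) ^ (2 * d) * 2 ^ ((d - 1) * (s + 1)) / 2 ^ (Fintype.card V - 1))) := by
  set δ : ℝ := d * (p : ℝ) ^ (2 * d) * 2 ^ ((d - 1) * (s + 1)) / 2 ^ (Fintype.card V - 1) with hδ
  have hδ0 : 0 ≤ δ := by rw [hδ]; positivity
  set S : Finset (V → ZMod p) := (Finset.univ : Finset (V → ZMod p)).filter (fun v => v ≠ 0 ∧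
    ((Finset.univ : Finset V).filter (fun x => v x ≠ 0)).card ≤ m₀) with hS
  set B : (V → ZMod p) → Finset (SimpleGraph V) := fun v =>
    (Finset.univ : Finset (SimpleGraph V)).filter (fun G =>
      (∀ μ : KK p, mult (adj (KK p) G) μ ≤ s) ∧
      ∃ h : Polynomial (ZMod p), h.Monic ∧ h.natDegree ≤ d ∧
        Polynomial.aeval (adj (ZMod p) G) h *ᵥ v = 0) with hB
  have hsub : (Finset.univ : Finset (SimpleGraph V)).filter (fun G =>
      (∀ μ : KK p, mult (adj (KK p) G) μ ≤ s) ∧ ¬ KryOK p G m₀ d) ⊆ S.biUnion B := by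
    intro G hG
    rw [Finset.mem_filter] at hG
    obtain ⟨-, h1, h2⟩ := hG
    unfold KryOK at h2
    push Not at h2
    obtain ⟨v, hv0, hv, h, hm, hn, hz⟩ := h2
    rw [Finset.mem_biUnion]
    refine ⟨v, ?_, ?_⟩
    · rw [hS, Finset.mem_filter]
      exact ⟨Finset.mem_univ _, hv0, hv⟩
    · rw [hB, Finset.mem_filter]
      exact ⟨Finset.mem_univ _, h1, h, hm, hn, hz⟩
  have hSc : S.card ≤ (Fintype.card V * p) ^ m₀ := by
    have hsub2 : S ⊆ Finset.image (fun f : Fin m₀ → V × ZMod p =>
        (∑ i, Pi.single (f i).1 (f i).2 : V → ZMod p)) Finset.univ := by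
      intro v hv
      rw [hS, Finset.mem_filter] at hv
      obtain ⟨f, hf⟩ := kry3_sparse m₀ v (by convert hv.2.2)
      rw [Finset.mem_image]
      exact ⟨f, Finset.mem_univ _, hf.symm⟩
    refine (Finset.card_le_card hsub2).trans (Finset.card_image_le.trans (le_of_eq ?_))
    rw [Finset.card_univ, Fintype.card_fun, Fintype.card_prod, Fintype.card_fin, ZMod.card]
  have h1 : (((Finset.univ : Finset (SimpleGraph V)).filter (fun G =>
      (∀ μ : KK p, mult (adj (KK p) G) μ ≤ s) ∧ ¬ KryOK p G m₀ d)).card : ℝ) ≤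
      ∑ v ∈ S, ((B v).card : ℝ) := by
    exact_mod_cast (Finset.card_le_card hsub).trans Finset.card_biUnion_le
  refine h1.trans ?_
  have h2 : ∑ v ∈ S, ((B v).card : ℝ) ≤
      ∑ _v ∈ S, (Fintype.card (SimpleGraph V) : ℝ) * δ := by
    refine Finset.sum_le_sum (fun v hv => ?_)
    rw [hS, Finset.mem_filter] at hv
    exact kry_one p v hv.2.1 s d hd
  refine h2.trans ?_
  rw [Finset.sum_const, nsmul_eq_mul]
  have h3 : (S.card : ℝ) ≤ ((Fintype.card V : ℝ) * p) ^ m₀ := by
    exact_mod_cast hSc
  calc (S.card : ℝ) * ((Fintype.card (SimpleGraph V) : ℝ) * δ) ≤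
        ((Fintype.card V : ℝ) * p) ^ m₀ * ((Fintype.card (SimpleGraph V) : ℝ) * δ) :=
        mul_le_mul_of_nonneg_right h3 (by positivity)
    _ = _ := by ring

/-- if the columns of `F` are independent and span an invariant space then `Dir F m₀` -/
theorem dir_of_kry (p : ℕ) [Fact p.Prime] {V : Type*} [Fintype V] [DecidableEq V]
    (G : SimpleGraph V) (m₀ d d' : ℕ) (hd : d' ≤ d) (hG : KryOK p G m₀ d)
    (F : Matrix V (Fin d') (ZMod p)) (Θ : Matrix (Fin d') (Fin d') (ZMod p))
    (hF : ∀ lam : Fin d' → ZMod p, lam ≠ 0 → F *ᵥ lam ≠ 0)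
    (h : adj (ZMod p) G * F = F * Θ) : Dir F m₀ := by
  intro lam hlam
  by_contra hc
  rw [not_lt] at hc
  have h1 : ∀ v, lam ⬝ᵥ F v = (F *ᵥ lam) v := fun v => dotProduct_comm _ _
  simp only [h1] at hc
  refine hG (F *ᵥ lam) (hF lam hlam) (by convert hc) Θ.charpoly (Matrix.charpoly_monic Θ) ?_ ?_
  · rw [Matrix.charpoly_natDegree_eq_dim, Fintype.card_fin]
    exact hd
  · rw [Matrix.mulVec_mulVec, kry3_aeval_mul _ F Θ h, Matrix.aeval_self_charpoly, Matrix.mul_zero,
      Matrix.zero_mulVec]

end Pool.Agent.H71.DG
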