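import Pool.Agent.H71.DG.MDefs
import Pool.Agent.H95.SQ.HalA

/-!
# DG-21: a small set of rows on which all directions are dense (M4)

PROOF.  `d = 0`: take `R = ∅` (no `lam ≠ 0`).  The columns of `F` are linearly independent by `Dir`
(`lam . F_v = 0` for all `v` would contradict `m₀ < 0 `); let `W` be the span of the columns
(`W ≤ (V → ZMod p)`, basis `w` indexed by `Fin d`); `Dense W m₀` (every nonzero element of `W` is
`v ↦ lam . F_v`, `lam ≠ 0`).  `Pool.Agent.H95.SQ.exists_bases_aux` gives injective `c : Fin N₁ × Fin d → V`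
with values outside `U`, such that for every `l` the matrix `(w_a (c (l, a')))` is invertible, so for
`lam ≠ 0` some `a'` has `lam . F_(c (l, a')) ≠ 0`.  `R` = image of `c`.
-/

set_option autoImplicit false

namespace Pool.Agent.H71.DG

open Matrix Classical Pool.Agent.H66.SP

theorem exists_R {p d : ℕ} [Fact p.Prime] {V : Type*} [Fintype V] [DecidableEq V]
    (F : Matrix V (Fin d) (ZMod p)) (m₀ N₁ : ℕ) (hF : Dir F m₀) (U : Finset V)
    (hU : U.card + N₁ * d ≤ m₀) :
    ∃ R : Finset V, Disjoint R U ∧ R.card ≤ N₁ * d ∧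
      ∀ lam : Fin d → ZMod p, lam ≠ 0 → N₁ ≤ (R.filter (fun j => lam ⬝ᵥ F j ≠ 0)).card := by
  obtain ⟨fam, hfam⟩ : ∃ fam : Fin d → V → ZMod p, fam = fun a v => F v a := ⟨_, rfl⟩
  have hsum : ∀ (lam : Fin d → ZMod p) (v : V), (∑ a, lam a • fam a) v = lam ⬝ᵥ F v := by
    intro lam v
    rw [Finset.sum_apply, hfam]
    rfl
  have hli : LinearIndependent (ZMod p) fam := by
    rw [Fintype.linearIndependent_iff]
    intro lam h a
    by_contra ha
    have h1 := hF lam (fun h0 => ha (by rw [h0]; rfl))
    have h2 : ((Finset.univ : Finset V).filter (fun v => lam ⬝ᵥ F v ≠ 0)) = ∅ := by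
      rw [Finset.filter_eq_empty_iff]
      intro v _ hv
      apply hv
      rw [← hsum, h]
      rfl
    rw [h2, Finset.card_empty] at h1
    omega
  have hD : Pool.Agent.H95.SQ.Dense (Submodule.span (ZMod p) (Set.range fam)) m₀ := by
    intro x hx hx0
    obtain ⟨lam, rfl⟩ := (Submodule.mem_span_range_iff_exists_fun (ZMod p)).1 hx
    have hlam : lam ≠ 0 := by
      intro h0
      apply hx0
      rw [h0]
      simp
    refine lt_of_lt_of_le (hF lam hlam) ?_
    unfold Pool.Agent.H95.SQ.nz
    refine Finset.card_le_card fun v hv => ?_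
    have hv2 := (Finset.mem_filter.1 hv).2
    simp only [Finset.mem_filter, Finset.mem_univ, true_and]
    intro h0
    rw [hsum] at h0
    exact hv2 h0
  obtain ⟨c, hc1, hc2, hc3⟩ := Pool.Agent.H95.SQ.exists_bases_aux
    (Submodule.span (ZMod p) (Set.range fam)) (Module.Basis.span hli) m₀ hD N₁ U hU
  have hex : ∀ lam : Fin d → ZMod p, lam ≠ 0 → ∀ l : Fin N₁, ∃ a' : Fin d,
      lam ⬝ᵥ F (c (l, a')) ≠ 0 := by
    intro lam hlam l
    by_contra hcon
    push Not at hcon
    apply hlam
    refine Matrix.eq_zero_of_vecMul_eq_zero (hc3 l).ne_zero ?_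
    funext a'
    rw [Pi.zero_apply, ← hcon a', ← hsum, Finset.sum_apply]
    show ∑ a, lam a * ((Module.Basis.span hli a : Submodule.span (ZMod p) (Set.range fam)) :
      V → ZMod p) (c (l, a')) = _
    refine Finset.sum_congr rfl fun a _ => ?_
    rw [Module.Basis.span_apply]
    rfl
  refine ⟨Finset.univ.image c, ?_, ?_, ?_⟩
  · rw [Finset.disjoint_left]
    intro v hv
    obtain ⟨x, -, rfl⟩ := Finset.mem_image.1 hv
    exact hc2 x
  · refine Finset.card_image_le.trans ?_
    rw [Finset.card_univ, Fintype.card_prod, Fintype.card_fin, Fintype.card_fin]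
  · intro lam hlam
    choose f hf using hex lam hlam
    have h1 : (Finset.univ.image (fun l : Fin N₁ => c (l, f l))).card = N₁ := by
      rw [Finset.card_image_of_injective, Finset.card_univ, Fintype.card_fin]
      intro l l' h
      exact congrArg Prod.fst (hc1 h)
    conv_lhs => rw [← h1]
    refine Finset.card_le_card fun v hv => ?_
    obtain ⟨l, -, rfl⟩ := Finset.mem_image.1 hv
    exact Finset.mem_filter.2 ⟨Finset.mem_image_of_mem _ (Finset.mem_univ _), hf l⟩

end Pool.Agent.H71.DG
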