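import Pool.Agent.H71.DG.MDefs

/-!
# DG-22: the counting lemma (M5)

PROOF.  `relD_erase`: every injective tuple with values in `C` avoids exactly `|C| - 2k` elements `c` of
`C`; double counting.  `kap_ge`: by induction on `|C|` (from `s`): for `|C| > s ≥ 2k`,
`kap F C k` is the mean of `kap F (C.erase c) k` over `c ∈ C`:
`relD F C k (|C| - 2k) = ∑_c relD F (C.erase c) k` and
`|C|.descFactorial (2k) (|C| - 2k) = |C| (|C|-1).descFactorial (2k)`.
`count_hered`: induction on `|W|`.  `|W| = s`: at most `(N^r)^s` functions.  `|W| > s`: let `X` be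
the set of `F` for `W`.  For `F ∈ X`, `relD F W k ≥ τ |W|.descFactorial (2k) 2^(2k)` (`kap_ge`).  So
`τ D |X| ≤ ∑_F relD F W k = ∑_{(a,e), a injective in W} #{F ∈ X : ssum F a e = 0}` with
`D = |W|.descFactorial (2k) 2^(2k)` = the number of `(a,e)`.  For given `(a,e)` (`2k ≥ 1`) the map
`F ↦ Function.update F (a 0) 0` is injective on `{F ∈ X : ssum F a e = 0}` (the relation expresses
`F (a 0)` by the other values) with image in the set for `W.erase (a 0)`
(`kap F B k` depends only on `F` on `B`).
-/

set_option autoImplicit false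

namespace Pool.Agent.H71.DG

open Matrix Classical Pool.Agent.H66.SP

theorem relD_erase {N r : ℕ} {V : Type*} [Fintype V] (F : Matrix V (Fin r) (ZMod N))
    (C : Finset V) (k : ℕ) (hC : 2 * k ≤ C.card) :
    relD F C k * (C.card - 2 * k) = ∑ c ∈ C, relD F (C.erase c) k := by
  set S := (Finset.univ : Finset ((Fin (2 * k) → V) × (Fin (2 * k) → Bool))).filter
    (fun x => (∀ i, x.1 i ∈ C) ∧ Function.Injective x.1 ∧ ssum F x.1 x.2 = 0) with hS
  have h1 : ∀ c ∈ C, relD F (C.erase c) k =
      (S.filter (fun x => c ∉ Finset.univ.image x.1)).card := by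
    intro c _
    unfold relD
    congr 1
    ext x
    simp only [hS, Finset.mem_filter, Finset.mem_univ, true_and, Finset.mem_erase,
      Finset.mem_image, not_exists]
    constructor
    · rintro ⟨h, hi, hs⟩
      exact ⟨⟨fun i => (h i).2, hi, hs⟩, fun i hi' => (h i).1 hi'⟩
    · rintro ⟨⟨h, hi, hs⟩, h'⟩
      exact ⟨fun i => ⟨fun hh => h' i hh, h i⟩, hi, hs⟩
  rw [Finset.sum_congr rfl h1]
  have h2 : ∑ c ∈ C, (S.filter (fun x => c ∉ Finset.univ.image x.1)).card =
      ∑ x ∈ S, (C.filter (fun c => c ∉ Finset.univ.image x.1)).card := by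
    simp only [Finset.card_filter]
    exact Finset.sum_comm
  rw [h2]
  have h3 : ∀ x ∈ S, (C.filter (fun c => c ∉ Finset.univ.image x.1)).card =
      C.card - 2 * k := by
    intro x hx
    rw [hS, Finset.mem_filter] at hx
    have h4 : C.filter (fun c => c ∉ Finset.univ.image x.1) = C \ Finset.univ.image x.1 := by
      ext c
      simp
    rw [h4, Finset.card_sdiff_of_subset, Finset.card_image_of_injective _ hx.2.2.1,
      Finset.card_univ, Fintype.card_fin]
    intro c hc
    obtain ⟨i, _, rfl⟩ := Finset.mem_image.mp hc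
    exact hx.2.1 i
  rw [Finset.sum_congr rfl h3, Finset.sum_const, smul_eq_mul]
  rfl

theorem kap_ge {N r : ℕ} {V : Type*} [Fintype V] (F : Matrix V (Fin r) (ZMod N))
    (C : Finset V) (s k : ℕ) (hs : 2 * k ≤ s) (hC : s ≤ C.card) (τ : ℝ)
    (h : ∀ B ⊆ C, B.card = s → τ ≤ kap F B k) : τ ≤ kap F C k := by
  obtain ⟨t, ht⟩ := Nat.exists_eq_add_of_le hC
  induction t generalizing C with
  | zero => exact h C (Finset.Subset.refl C) (by omega)
  | succ t ih =>
    have h1 := relD_erase F C k (by omega)
    have hcard : C.card = s + t + 1 := by omega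
    have h2 : ∀ c ∈ C, τ ≤ kap F (C.erase c) k := by
      intro c hc
      have hcc : (C.erase c).card = s + t := by
        rw [Finset.card_erase_of_mem hc]
        omega
      exact ih (C.erase c) (by omega)
        (fun B hB hBs => h B (hB.trans (Finset.erase_subset _ _)) hBs) hcc
    have hD : (s + t + 1 - 2 * k) * (s + t + 1).descFactorial (2 * k) =
        (s + t + 1) * (s + t).descFactorial (2 * k) := Nat.succ_descFactorial _ _
    have hDpos : 0 < (s + t).descFactorial (2 * k) := Nat.descFactorial_pos.mpr (by omega)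
    have hDpos' : 0 < (s + t + 1).descFactorial (2 * k) := Nat.descFactorial_pos.mpr (by omega)
    have hDp : (0 : ℝ) < ((s + t).descFactorial (2 * k) : ℝ) * 2 ^ (2 * k) := by
      have : (0 : ℝ) < ((s + t).descFactorial (2 * k) : ℝ) := by exact_mod_cast hDpos
      positivity
    have hDp' : (0 : ℝ) < ((s + t + 1).descFactorial (2 * k) : ℝ) * 2 ^ (2 * k) := by
      have : (0 : ℝ) < ((s + t + 1).descFactorial (2 * k) : ℝ) := by exact_mod_cast hDpos'
      positivity
    have h3 : ∀ c ∈ C, τ * (((s + t).descFactorial (2 * k) : ℝ) * 2 ^ (2 * k)) ≤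
        (relD F (C.erase c) k : ℝ) := by
      intro c hc
      have h5 := h2 c hc
      have hcc : (C.erase c).card = s + t := by
        rw [Finset.card_erase_of_mem hc]
        omega
      unfold kap at h5
      rw [hcc, le_div_iff₀ hDp] at h5
      exact h5
    have h4 : ((s + t + 1 : ℕ) : ℝ) *
        (τ * (((s + t).descFactorial (2 * k) : ℝ) * 2 ^ (2 * k))) ≤
        ((relD F C k * (C.card - 2 * k) : ℕ) : ℝ) := by
      rw [h1]
      push_cast
      have h6 := Finset.sum_le_sum h3
      rw [Finset.sum_const, nsmul_eq_mul, hcard] at h6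
      push_cast at h6
      exact h6
    have hpos : (0 : ℝ) < ((s + t + 1 - 2 * k : ℕ) : ℝ) := by
      have : 0 < s + t + 1 - 2 * k := by omega
      exact_mod_cast this
    have hD' : ((s + t + 1 - 2 * k : ℕ) : ℝ) * ((s + t + 1).descFactorial (2 * k) : ℝ) =
        ((s + t + 1 : ℕ) : ℝ) * ((s + t).descFactorial (2 * k) : ℝ) := by exact_mod_cast hD
    unfold kap
    rw [hcard] at h4 ⊢
    rw [le_div_iff₀ hDp']
    rw [Nat.cast_mul] at h4
    have h7 : ((s + t + 1 - 2 * k : ℕ) : ℝ) *
        (τ * (((s + t + 1).descFactorial (2 * k) : ℝ) * 2 ^ (2 * k))) ≤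
        ((s + t + 1 - 2 * k : ℕ) : ℝ) * (relD F C k : ℝ) := by
      calc ((s + t + 1 - 2 * k : ℕ) : ℝ) *
          (τ * (((s + t + 1).descFactorial (2 * k) : ℝ) * 2 ^ (2 * k)))
          = (((s + t + 1 - 2 * k : ℕ) : ℝ) * ((s + t + 1).descFactorial (2 * k) : ℝ)) *
            (τ * 2 ^ (2 * k)) := by ring
        _ = ((s + t + 1 : ℕ) : ℝ) *
            (τ * (((s + t).descFactorial (2 * k) : ℝ) * 2 ^ (2 * k))) := by
            rw [hD']
            ring
        _ ≤ (relD F C k : ℝ) * ((s + t + 1 - 2 * k : ℕ) : ℝ) := h4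
        _ = _ := by ring
    exact le_of_mul_le_mul_left h7 hpos

theorem ssum_congr {N r : ℕ} {V : Type*} (F F' : Matrix V (Fin r) (ZMod N)) {k : ℕ}
    (a : Fin k → V) (e : Fin k → Bool) (h : ∀ i, F (a i) = F' (a i)) :
    ssum F a e = ssum F' a e := by
  unfold ssum
  exact Finset.sum_congr rfl (fun i _ => by rw [h i])

theorem relD_congr {N r : ℕ} {V : Type*} [Fintype V] (F F' : Matrix V (Fin r) (ZMod N))
    (B : Finset V) (k : ℕ) (h : ∀ v ∈ B, F v = F' v) : relD F B k = relD F' B k := by
  unfold relD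
  congr 1
  ext x
  simp only [Finset.mem_filter, Finset.mem_univ, true_and]
  constructor
  · rintro ⟨h1, h2, h3⟩
    exact ⟨h1, h2, by rw [← ssum_congr F F' x.1 x.2 (fun i => h _ (h1 i))]; exact h3⟩
  · rintro ⟨h1, h2, h3⟩
    exact ⟨h1, h2, by rw [ssum_congr F F' x.1 x.2 (fun i => h _ (h1 i))]; exact h3⟩

theorem kap_congr {N r : ℕ} {V : Type*} [Fintype V] (F F' : Matrix V (Fin r) (ZMod N))
    (B : Finset V) (k : ℕ) (h : ∀ v ∈ B, F v = F' v) : kap F B k = kap F' B k := by
  unfold kap
  rw [relD_congr F F' B k h]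

/-- the number of injective signed tuples -/
theorem card_tuples {V : Type*} [Fintype V] (W : Finset V) (k : ℕ) :
    ((Finset.univ : Finset ((Fin (2 * k) → V) × (Fin (2 * k) → Bool))).filter
      (fun x => (∀ i, x.1 i ∈ W) ∧ Function.Injective x.1)).card ≤
      W.card.descFactorial (2 * k) * 2 ^ (2 * k) := by
  have h1 : Fintype.card ((Fin (2 * k) ↪ {v // v ∈ W}) × (Fin (2 * k) → Bool)) =
      W.card.descFactorial (2 * k) * 2 ^ (2 * k) := by
    rw [Fintype.card_prod, Fintype.card_embedding_eq, Fintype.card_coe, Fintype.card_fin,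
      Fintype.card_fun, Fintype.card_bool, Fintype.card_fin]
  rw [← h1, ← Finset.card_univ]
  refine Finset.card_le_card_of_surjOn
    (fun y : (Fin (2 * k) ↪ {v // v ∈ W}) × (Fin (2 * k) → Bool) =>
      ((fun i => ((y.1 i : {v // v ∈ W}) : V)), y.2)) ?_
  rintro ⟨a, e⟩ hx
  rw [Finset.mem_coe, Finset.mem_filter] at hx
  obtain ⟨-, h2, h3⟩ := hx
  refine ⟨(⟨fun i => ⟨a i, h2 i⟩, fun i j hij => h3 (Subtype.mk.inj hij)⟩, e), ?_, ?_⟩
  · simp
  · rfl

/-- `F` with the row `v0` replaced by `0` -/
noncomputable def zrow {N r : ℕ} {V : Type*} (v0 : V) (F : Matrix V (Fin r) (ZMod N)) :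
    Matrix V (Fin r) (ZMod N) := fun v => if v = v0 then 0 else F v

theorem zrow_self {N r : ℕ} {V : Type*} (v0 : V) (F : Matrix V (Fin r) (ZMod N)) :
    zrow v0 F v0 = 0 := if_pos rfl

theorem zrow_ne {N r : ℕ} {V : Type*} (v0 : V) (F : Matrix V (Fin r) (ZMod N)) {v : V}
    (hv : v ≠ v0) : zrow v0 F v = F v := if_neg hv

theorem count_hered {N r : ℕ} [NeZero N] {V : Type*} [Fintype V] (W : Finset V) (s k : ℕ)
    (hk : 1 ≤ k) (hs : 2 * k ≤ s) (hW : s ≤ W.card) (τ : ℝ) (hτ : 0 < τ) :
    (((Finset.univ : Finset (Matrix V (Fin r) (ZMod N))).filter (fun F =>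
      (∀ v, v ∉ W → F v = 0) ∧ ∀ B ⊆ W, B.card = s → τ ≤ kap F B k)).card : ℝ) ≤
      ((N : ℝ) ^ r) ^ s * (1 / τ) ^ (W.card - s) := by
  obtain ⟨t, ht⟩ := Nat.exists_eq_add_of_le hW
  induction t generalizing W with
  | zero =>
    have hWs : W.card = s := by omega
    rw [hWs, Nat.sub_self, pow_zero, mul_one]
    have h1 : Fintype.card ({v // v ∈ W} → Fin r → ZMod N) = (N ^ r) ^ s := by
      rw [Fintype.card_fun, Fintype.card_fun, ZMod.card, Fintype.card_fin, Fintype.card_coe, hWs]
    have h2 : ((Finset.univ : Finset (Matrix V (Fin r) (ZMod N))).filter (fun F =>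
      (∀ v, v ∉ W → F v = 0) ∧ ∀ B ⊆ W, B.card = s → τ ≤ kap F B k)).card ≤ (N ^ r) ^ s := by
      rw [← h1, ← Finset.card_univ]
      refine Finset.card_le_card_of_injOn (fun F v => F v.1) (fun _ _ => Finset.mem_univ _) ?_
      intro F hF F' hF' hEq
      rw [Finset.mem_coe, Finset.mem_filter] at hF hF'
      funext v
      by_cases hv : v ∈ W
      · exact congrFun hEq ⟨v, hv⟩
      · rw [hF.2.1 v hv, hF'.2.1 v hv]
    exact_mod_cast h2
  | succ t ih =>
    set X := (Finset.univ : Finset (Matrix V (Fin r) (ZMod N))).filter (fun F =>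
      (∀ v, v ∉ W → F v = 0) ∧ ∀ B ⊆ W, B.card = s → τ ≤ kap F B k) with hX
    set A := (Finset.univ : Finset ((Fin (2 * k) → V) × (Fin (2 * k) → Bool))).filter
      (fun x => (∀ i, x.1 i ∈ W) ∧ Function.Injective x.1) with hA
    set D : ℝ := (W.card.descFactorial (2 * k) : ℝ) * 2 ^ (2 * k) with hD
    have hDpos : 0 < D := by
      have h1 : 0 < W.card.descFactorial (2 * k) := Nat.descFactorial_pos.mpr (by omega)
      have h2 : (0 : ℝ) < (W.card.descFactorial (2 * k) : ℝ) := by exact_mod_cast h1
      positivity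
    set b : ℝ := ((N : ℝ) ^ r) ^ s * (1 / τ) ^ t with hb
    have hbn : 0 ≤ b := by positivity
    have h1 : ∀ F ∈ X, τ * D ≤ (relD F W k : ℝ) := by
      intro F hF
      rw [hX, Finset.mem_filter] at hF
      have h2 := kap_ge F W s k hs hW τ hF.2.2
      unfold kap at h2
      rwa [le_div_iff₀ hDpos] at h2
    have h2 : (X.card : ℝ) * (τ * D) ≤ ∑ F ∈ X, (relD F W k : ℝ) := by
      have h3 := Finset.sum_le_sum h1
      rwa [Finset.sum_const, nsmul_eq_mul] at h3
    have h3 : ∀ F : Matrix V (Fin r) (ZMod N), relD F W k =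
        (A.filter (fun x => ssum F x.1 x.2 = 0)).card := by
      intro F
      unfold relD
      rw [hA, Finset.filter_filter]
      congr 1
      ext x
      simp only [Finset.mem_filter, Finset.mem_univ, true_and, and_assoc]
    have h4 : ∑ F ∈ X, relD F W k =
        ∑ x ∈ A, (X.filter (fun F => ssum F x.1 x.2 = 0)).card := by
      rw [Finset.sum_congr rfl (fun F _ => h3 F)]
      simp only [Finset.card_filter]
      exact Finset.sum_comm
    have hk2 : 0 < 2 * k := by omega
    have h5 : ∀ x ∈ A, ((X.filter (fun F => ssum F x.1 x.2 = 0)).card : ℝ) ≤ b := by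
      intro x hx
      rw [hA, Finset.mem_filter] at hx
      obtain ⟨-, hxW, hinj⟩ := hx
      set i0 : Fin (2 * k) := ⟨0, hk2⟩ with hi0
      set v0 := x.1 i0 with hv0
      have hv0W : v0 ∈ W := hxW i0
      have hcc : (W.erase v0).card = s + t := by
        rw [Finset.card_erase_of_mem hv0W]
        omega
      have h6 := ih (W.erase v0) (by omega) hcc
      have h7 : (W.erase v0).card - s = t := by omega
      rw [h7] at h6
      refine le_trans ?_ h6
      have h8 : (X.filter (fun F => ssum F x.1 x.2 = 0)).card ≤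
          ((Finset.univ : Finset (Matrix V (Fin r) (ZMod N))).filter (fun F =>
            (∀ v, v ∉ W.erase v0 → F v = 0) ∧
              ∀ B ⊆ W.erase v0, B.card = s → τ ≤ kap F B k)).card := by
        refine Finset.card_le_card_of_injOn (zrow v0) ?_ ?_
        · intro F hF
          rw [Finset.mem_coe, Finset.mem_filter, hX, Finset.mem_filter] at hF
          refine Finset.mem_coe.mpr (Finset.mem_filter.mpr ⟨Finset.mem_univ _, ?_, ?_⟩)
          · intro v hv
            by_cases hvv : v = v0
            · rw [hvv]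
              exact zrow_self _ _
            · have : v ∉ W := fun hvW => hv (Finset.mem_erase.mpr ⟨hvv, hvW⟩)
              rw [zrow_ne _ _ hvv]
              exact hF.1.2.1 v this
          · intro B hB hBs
            have h9 : kap (zrow v0 F) B k = kap F B k := by
              refine kap_congr _ _ B k (fun v hv => ?_)
              have : v ≠ v0 := (Finset.mem_erase.mp (hB hv)).1
              exact zrow_ne _ _ this
            rw [h9]
            exact hF.1.2.2 B (hB.trans (Finset.erase_subset _ _)) hBs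
        · intro F hF F' hF' hEq
          rw [Finset.mem_coe, Finset.mem_filter] at hF hF'
          have h10 : ∀ v, v ≠ v0 → F v = F' v := by
            intro v hv
            have h11 := congrFun hEq v
            rwa [zrow_ne _ _ hv, zrow_ne _ _ hv] at h11
          have h12 : F v0 = F' v0 := by
            have h13 : ssum F x.1 x.2 = ssum F' x.1 x.2 := by rw [hF.2, hF'.2]
            unfold ssum at h13
            rw [← Finset.add_sum_erase _ _ (Finset.mem_univ i0),
              ← Finset.add_sum_erase (Finset.univ) (fun i => if x.2 i then -F' (x.1 i)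
                else F' (x.1 i)) (Finset.mem_univ i0)] at h13
            have h14 : ∑ i ∈ Finset.univ.erase i0, (if x.2 i then -F (x.1 i) else F (x.1 i)) =
                ∑ i ∈ Finset.univ.erase i0, (if x.2 i then -F' (x.1 i) else F' (x.1 i)) := by
              refine Finset.sum_congr rfl (fun i hi => ?_)
              have hne : x.1 i ≠ v0 := fun hh => (Finset.mem_erase.mp hi).1 (hinj hh)
              rw [h10 _ hne]
            rw [h14] at h13
            have h15 := add_right_cancel h13
            cases hxi : x.2 i0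
            · simpa [hxi, hv0] using h15
            · simpa [hxi, hv0] using h15
          funext v
          by_cases hv : v = v0
          · rw [hv, h12]
          · rw [h10 v hv]
      exact_mod_cast h8
    have h6 : (X.card : ℝ) * (τ * D) ≤ D * b := by
      calc (X.card : ℝ) * (τ * D) ≤ ∑ F ∈ X, (relD F W k : ℝ) := h2
        _ = ((∑ F ∈ X, relD F W k : ℕ) : ℝ) := by push_cast; rfl
        _ = ∑ x ∈ A, ((X.filter (fun F => ssum F x.1 x.2 = 0)).card : ℝ) := by
            rw [h4]
            push_cast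
            rfl
        _ ≤ ∑ _x ∈ A, b := Finset.sum_le_sum h5
        _ = (A.card : ℝ) * b := by rw [Finset.sum_const, nsmul_eq_mul]
        _ ≤ D * b := by
            refine mul_le_mul_of_nonneg_right ?_ hbn
            have h7 := card_tuples W k
            have h8 : (A.card : ℝ) ≤ ((W.card.descFactorial (2 * k) * 2 ^ (2 * k) : ℕ) : ℝ) := by
              exact_mod_cast h7
            rw [hD]
            push_cast at h8
            exact h8
    have h7 : W.card - s = t + 1 := by omega
    rw [h7, pow_succ]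
    have h8 : (X.card : ℝ) * τ ≤ b := by
      have h9 : D * ((X.card : ℝ) * τ) ≤ D * b := by
        calc D * ((X.card : ℝ) * τ) = (X.card : ℝ) * (τ * D) := by ring
          _ ≤ D * b := h6
      exact le_of_mul_le_mul_left h9 hDpos
    have h9 : (X.card : ℝ) ≤ b / τ := by rwa [le_div_iff₀ hτ]
    calc (X.card : ℝ) ≤ b / τ := h9
      _ = ((N : ℝ) ^ r) ^ s * ((1 / τ) ^ t * (1 / τ)) := by
          rw [hb]
          ring

end Pool.Agent.H71.DG
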