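import Pool.Agent.H71.DG.Defs

/-!
# DG-1: elementary facts about `nn`

`nn x = (valMinAbs x / N)²`.  PROOFS.
`nn_le`: `|valMinAbs x| ≤ N / 2` (`ZMod.natAbs_valMinAbs_le`).
`nn_add_le`: `valMinAbs (x + y)` has the smallest absolute value among all integers congruent to
`x + y`, and `valMinAbs x + valMinAbs y` is one of them (`ZMod.natAbs_valMinAbs_add_le`), then
`(s + t)² ≤ 2 s² + 2 t²`.  `nn_sum_le`: the same for a sum, `|valMinAbs (∑ x_i)| ≤ ∑ |valMinAbs x_i|`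
by induction, then Cauchy-Schwarz (`sq_sum_le_card_mul_sum_sq`).
`norm_one_add_le`: `‖1 + e(x)‖ = 2 |cos (π x.val / N)|` (`Pool.Agent.H95.SQ.halB_norm`, or directly) and
`|cos (π x / N)| = cos (π t)` with `t = |valMinAbs x| / N ≤ 1/2`, `cos (π t) ≤ exp (-2 t²)`
(`Pool.Agent.H95.SQ.cos_pow_le` with `N = 1`, or `cos u ≤ exp (-u²/2)` on `[0, π/2]`).
`re_ge`: `re e(x) = cos (2 π v / N)` with `v = valMinAbs x`, and `cos u ≥ 1 - u²/2`
(`Real.one_sub_sq_div_two_le_cos`), `2 π² ≤ 20`.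
-/

set_option autoImplicit false

namespace Pool.Agent.H71.DG

open Matrix Classical Pool.Agent.H66.SP

theorem nn_eq_natAbs {N : ℕ} (x : ZMod N) : nn x = ((x.valMinAbs.natAbs : ℝ) / N) ^ 2 := by
  unfold nn
  rw [div_pow, div_pow, Nat.cast_natAbs, Int.cast_abs, sq_abs]

theorem nn_nonneg {N : ℕ} (x : ZMod N) : 0 ≤ nn x := by
  unfold nn
  positivity

theorem nn_zero {N : ℕ} : nn (0 : ZMod N) = 0 := by
  unfold nn
  simp [ZMod.valMinAbs_zero]

theorem nn_neg {N : ℕ} [NeZero N] (x : ZMod N) : nn (-x) = nn x := by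
  rw [nn_eq_natAbs, nn_eq_natAbs, ZMod.natAbs_valMinAbs_neg]

theorem nn_aux_half {N : ℕ} [NeZero N] (x : ZMod N) :
    (x.valMinAbs.natAbs : ℝ) / N ≤ 1 / 2 := by
  have h := ZMod.natAbs_valMinAbs_le x
  have hN : (0 : ℝ) < N := by exact_mod_cast Nat.pos_of_ne_zero (NeZero.ne N)
  have h2 : 2 * x.valMinAbs.natAbs ≤ N := by omega
  have h3 : (2 : ℝ) * x.valMinAbs.natAbs ≤ N := by exact_mod_cast h2
  rw [div_le_div_iff₀ hN (by norm_num)]
  linarith

theorem nn_le {N : ℕ} [NeZero N] (x : ZMod N) : nn x ≤ 1 / 4 := by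
  rw [nn_eq_natAbs]
  have h := nn_aux_half x
  have h0 : (0 : ℝ) ≤ (x.valMinAbs.natAbs : ℝ) / N := by positivity
  nlinarith

theorem nn_add_le {N : ℕ} [NeZero N] (x y : ZMod N) : nn (x + y) ≤ 2 * nn x + 2 * nn y := by
  rw [nn_eq_natAbs, nn_eq_natAbs, nn_eq_natAbs]
  have h : (x + y).valMinAbs.natAbs ≤ x.valMinAbs.natAbs + y.valMinAbs.natAbs :=
    (ZMod.natAbs_valMinAbs_add_le x y).trans (Int.natAbs_add_le _ _)
  have hN : (0 : ℝ) < N := by exact_mod_cast Nat.pos_of_ne_zero (NeZero.ne N)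
  have h2 : ((x + y).valMinAbs.natAbs : ℝ) / N ≤
      (x.valMinAbs.natAbs : ℝ) / N + (y.valMinAbs.natAbs : ℝ) / N := by
    rw [← add_div]
    gcongr
    exact_mod_cast h
  have h0 : (0 : ℝ) ≤ ((x + y).valMinAbs.natAbs : ℝ) / N := by positivity
  have h3 : (((x + y).valMinAbs.natAbs : ℝ) / N) ^ 2 ≤
      ((x.valMinAbs.natAbs : ℝ) / N + (y.valMinAbs.natAbs : ℝ) / N) ^ 2 := by
    gcongr
  nlinarith [sq_nonneg ((x.valMinAbs.natAbs : ℝ) / N - (y.valMinAbs.natAbs : ℝ) / N)]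

theorem nn_aux_sum {N : ℕ} [NeZero N] {ι : Type*} (s : Finset ι) (x : ι → ZMod N) :
    (∑ i ∈ s, x i).valMinAbs.natAbs ≤ ∑ i ∈ s, (x i).valMinAbs.natAbs := by
  classical
  induction s using Finset.induction_on with
  | empty => simp [ZMod.valMinAbs_zero]
  | insert a s ha ih =>
    rw [Finset.sum_insert ha, Finset.sum_insert ha]
    exact ((ZMod.natAbs_valMinAbs_add_le _ _).trans (Int.natAbs_add_le _ _)).trans
      (Nat.add_le_add_left ih _)

theorem nn_sum_le {N : ℕ} [NeZero N] {ι : Type*} (s : Finset ι) (x : ι → ZMod N) :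
    nn (∑ i ∈ s, x i) ≤ s.card * ∑ i ∈ s, nn (x i) := by
  have h := nn_aux_sum s x
  have hN : (0 : ℝ) < N := by exact_mod_cast Nat.pos_of_ne_zero (NeZero.ne N)
  have h1 : ∑ i ∈ s, nn (x i) = ∑ i ∈ s, ((x i).valMinAbs.natAbs / (N : ℝ)) ^ 2 :=
    Finset.sum_congr rfl fun i _ => nn_eq_natAbs _
  rw [h1, nn_eq_natAbs]
  have h2 : ((∑ i ∈ s, x i).valMinAbs.natAbs : ℝ) / N ≤
      ∑ i ∈ s, ((x i).valMinAbs.natAbs : ℝ) / N := by
    rw [← Finset.sum_div]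
    gcongr
    exact_mod_cast h
  have h0 : (0 : ℝ) ≤ ((∑ i ∈ s, x i).valMinAbs.natAbs : ℝ) / N := by positivity
  calc (((∑ i ∈ s, x i).valMinAbs.natAbs : ℝ) / N) ^ 2
      ≤ (∑ i ∈ s, ((x i).valMinAbs.natAbs : ℝ) / N) ^ 2 := by gcongr
    _ ≤ _ := sq_sum_le_card_mul_sum_sq

theorem norm_one_add_le {N : ℕ} [NeZero N] (x : ZMod N) :
    ‖(1 : ℂ) + ZMod.stdAddChar x‖ ≤ 2 * Real.exp (-2 * nn x) := by
  have hN : (0 : ℝ) < N := by exact_mod_cast Nat.pos_of_ne_zero (NeZero.ne N)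
  have hx : ZMod.stdAddChar x = Complex.exp (2 * Real.pi * Complex.I * (x.valMinAbs : ℂ) / N) := by
    rw [← ZMod.stdAddChar_coe, ZMod.coe_valMinAbs]
  set θ : ℝ := Real.pi * (x.valMinAbs : ℝ) / N with hθ
  have e1 : (2 * (Real.pi : ℂ) * Complex.I * (x.valMinAbs : ℂ) / (N : ℂ)) = ((θ : ℂ) * Complex.I) +
      ((θ : ℂ) * Complex.I) := by
    rw [hθ]
    push_cast
    ring
  have e2 : (1 : ℂ) + Complex.exp ((θ : ℂ) * Complex.I) * Complex.exp ((θ : ℂ) * Complex.I) =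
      Complex.exp ((θ : ℂ) * Complex.I) * (2 * Complex.cos (θ : ℂ)) := by
    rw [Complex.two_cos]
    rw [mul_add, ← Complex.exp_add, ← Complex.exp_add]
    rw [show (θ : ℂ) * Complex.I + -(θ : ℂ) * Complex.I = 0 by ring, Complex.exp_zero]
    rw [add_comm]
  have e3 : ‖(1 : ℂ) + ZMod.stdAddChar x‖ = 2 * |Real.cos θ| := by
    rw [hx, e1, Complex.exp_add, e2, norm_mul, Complex.norm_exp_ofReal_mul_I, one_mul, norm_mul]
    rw [← Complex.ofReal_cos, Complex.norm_real, Real.norm_eq_abs]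
    simp
  rw [e3]
  have hpi := Real.pi_pos
  have hab : |θ| ≤ Real.pi / 2 := by
    rw [hθ, abs_div, abs_mul, abs_of_pos hpi, abs_of_pos hN]
    have h := nn_aux_half x
    rw [Nat.cast_natAbs, Int.cast_abs] at h
    rw [mul_div_assoc]
    nlinarith
  have hc : 0 ≤ Real.cos θ := Real.cos_nonneg_of_neg_pi_div_two_le_of_le
    (by linarith [(abs_le.mp hab).1]) (abs_le.mp hab).2
  rw [abs_of_nonneg hc]
  have h3 := Real.cos_le_one_sub_mul_cos_sq (x := θ) (by linarith)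
  have e : 2 / Real.pi ^ 2 * θ ^ 2 = 2 * nn x := by
    rw [hθ]
    unfold nn
    field_simp
  rw [e] at h3
  have h4 := Real.one_sub_le_exp_neg (2 * nn x)
  have h5 : -2 * nn x = -(2 * nn x) := by ring
  rw [h5]
  linarith

theorem re_ge {N : ℕ} [NeZero N] (x : ZMod N) :
    1 - 20 * nn x ≤ (ZMod.stdAddChar x : ℂ).re := by
  have hx : ZMod.stdAddChar x = Complex.exp (2 * Real.pi * Complex.I * (x.valMinAbs : ℂ) / N) := by
    rw [← ZMod.stdAddChar_coe, ZMod.coe_valMinAbs]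
  set θ : ℝ := 2 * Real.pi * (x.valMinAbs : ℝ) / N with hθ
  have e1 : (2 * (Real.pi : ℂ) * Complex.I * (x.valMinAbs : ℂ) / (N : ℂ)) =
      ((θ : ℂ) * Complex.I) := by
    rw [hθ]
    push_cast
    ring
  rw [hx, e1, Complex.exp_ofReal_mul_I_re]
  have h1 := Real.one_sub_sq_div_two_le_cos (x := θ)
  have e : θ ^ 2 / 2 = 2 * Real.pi ^ 2 * nn x := by
    rw [hθ]
    unfold nn
    ring
  rw [e] at h1
  have h2 : Real.pi ^ 2 ≤ 10 := by
    have := Real.pi_lt_d2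
    nlinarith [Real.pi_pos]
  have h3 := nn_nonneg x
  nlinarith

end Pool.Agent.H71.DG
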