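import Pool.Agent.H71.DG.Defs
import Pool.Agent.H71.DG.Nn

/-!
# DG-13: covering lemma (M8)

PROOF.  Let `T_i` be the set of sums of `i` elements of `T` (`∃ t : Fin i → H, (∀ l, t l ∈ T) ∧
∑ t = x`); `T_i ⊆ T_(i+1)` since `0 ∈ T`.  If `T_i = T_(i+1)` for some `i` then `T_i` is closed
under adding elements of `T`, contains `0`, so contains the additive submonoid generated by `T`, which is
the subgroup generated by `T` (as `T = -T`), i.e. everything.  Suppose
`T_(3J+2)` is not everything.  Then for `j = 0..J` pick `x_j ∈ T_(3j+3) \ T_(3j+2)`.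
The sets `x_j + T` are contained in `T_(3j+4)` and disjoint from `T_(3j+1)` (if `x_j + t ∈ T_(3j+1)`
then `x_j = (x_j + t) + (-t) ∈ T_(3j+2)`), so they are pairwise disjoint for different `j`:
`(J+1) card T ≤ card H`, a contradiction.
-/

set_option autoImplicit false

namespace Pool.Agent.H71.DG

open Matrix Classical Pool.Agent.H66.SP

/-- sums of `i` elements of `T` -/
def coverT {H : Type*} [AddCommGroup H] (T : Set H) (i : ℕ) : Set H :=
  {x | ∃ t : Fin i → H, (∀ l, t l ∈ T) ∧ ∑ l, t l = x}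

theorem coverT_succ {H : Type*} [AddCommGroup H] (T : Set H) (i : ℕ) (x y : H)
    (hx : x ∈ coverT T i) (hy : y ∈ T) : x + y ∈ coverT T (i + 1) := by
  obtain ⟨t, ht, rfl⟩ := hx
  refine ⟨Fin.snoc t y, ?_, ?_⟩
  · intro l
    refine Fin.lastCases ?_ (fun l => ?_) l
    · simpa using hy
    · simpa using ht l
  · rw [Fin.sum_univ_castSucc]
    simp

theorem coverT_mono {H : Type*} [AddCommGroup H] (T : Set H) (h0 : (0 : H) ∈ T) :
    Monotone (coverT T) := by
  apply monotone_nat_of_le_succ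
  intro i x hx
  have := coverT_succ T i x 0 hx h0
  rwa [add_zero] at this

theorem coverT_zero {H : Type*} [AddCommGroup H] (T : Set H) : (0 : H) ∈ coverT T 0 :=
  ⟨fun l => 0, fun l => l.elim0, by simp⟩

theorem coverT_pred {H : Type*} [AddCommGroup H] (T : Set H) (i : ℕ) (x : H)
    (hx : x ∈ coverT T (i + 1)) : ∃ y ∈ coverT T i, ∃ z ∈ T, x = y + z := by
  obtain ⟨t, ht, rfl⟩ := hx
  refine ⟨∑ l : Fin i, t l.castSucc, ⟨fun l => t l.castSucc, fun l => ht _, rfl⟩,
    t (Fin.last i), ht _, ?_⟩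
  rw [Fin.sum_univ_castSucc]

/-- if `T_(i+1) = T_i` then `T_i` is everything -/
theorem coverT_stab {H : Type*} [AddCommGroup H] (T : Set H) (h0 : (0 : H) ∈ T)
    (hs : ∀ x ∈ T, -x ∈ T) (hg : AddSubgroup.closure T = ⊤) (i : ℕ)
    (h : coverT T (i + 1) ⊆ coverT T i) (x : H) : x ∈ coverT T i := by
  have hclosed : ∀ y ∈ coverT T i, ∀ z ∈ T, y + z ∈ coverT T i := fun y hy z hz =>
    h (coverT_succ T i y z hy hz)
  have hx : x ∈ AddSubgroup.closure T := by rw [hg]; trivial
  have key : ∀ w ∈ AddSubgroup.closure T, (∀ y ∈ coverT T i, y + w ∈ coverT T i) ∧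
      (∀ y ∈ coverT T i, y + -w ∈ coverT T i) := by
    intro w hw
    induction hw using AddSubgroup.closure_induction with
    | mem z hz => exact ⟨fun y hy => hclosed y hy z hz, fun y hy => hclosed y hy (-z) (hs z hz)⟩
    | zero => exact ⟨fun y hy => by rwa [add_zero], fun y hy => by rwa [neg_zero, add_zero]⟩
    | add a b _ _ iha ihb =>
      refine ⟨fun y hy => ?_, fun y hy => ?_⟩
      · rw [← add_assoc]
        exact ihb.1 _ (iha.1 y hy)
      · rw [neg_add, ← add_assoc]
        exact ihb.2 _ (iha.2 y hy)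
    | neg a ha iha =>
      refine ⟨fun y hy => iha.2 y hy, fun y hy => ?_⟩
      rw [neg_neg]
      exact iha.1 y hy
  have hz := coverT_mono T h0 (Nat.zero_le i) (coverT_zero T)
  have := (key x hx).1 0 hz
  rwa [zero_add] at this

theorem cover {H : Type*} [AddCommGroup H] [Fintype H] (T : Set H) (h0 : (0 : H) ∈ T)
    (hs : ∀ x ∈ T, -x ∈ T) (hg : AddSubgroup.closure T = ⊤) (J : ℕ)
    (hJ : Fintype.card H < (J + 1) * ((Finset.univ : Finset H).filter (fun x => x ∈ T)).card)
    (x : H) : ∃ t : Fin (3 * J + 2) → H, (∀ l, t l ∈ T) ∧ ∑ l, t l = x := by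
  by_contra hcon
  have hx : x ∉ coverT T (3 * J + 2) := hcon
  have hstep : ∀ j : Fin (J + 1), ∃ y, y ∈ coverT T (3 * (j : ℕ) + 3) ∧
      y ∉ coverT T (3 * (j : ℕ) + 2) := by
    intro j
    by_contra hno
    push Not at hno
    have hall := coverT_stab T h0 hs hg (3 * (j : ℕ) + 2) (fun y hy => hno y hy) x
    exact hx (coverT_mono T h0 (by have := j.2; omega) hall)
  choose y hy1 hy2 using hstep
  have hinj : Function.Injective (fun p : Fin (J + 1) × {t : H // t ∈ T} => y p.1 + p.2.1) := by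
    have hne : ∀ (j j' : Fin (J + 1)) (t t' : {t : H // t ∈ T}), j < j' →
        y j + t.1 ≠ y j' + t'.1 := by
      intro j j' t t' hlt heq
      have h1 : y j + t.1 ∈ coverT T (3 * (j : ℕ) + 3 + 1) := coverT_succ T _ _ _ (hy1 j) t.2
      have hlt' : (j : ℕ) < (j' : ℕ) := hlt
      have h2 : y j + t.1 ∈ coverT T (3 * (j' : ℕ) + 1) :=
        coverT_mono T h0 (by omega) h1
      rw [heq] at h2
      have h3 := coverT_succ T _ _ _ h2 (hs _ t'.2)
      rw [add_neg_cancel_right] at h3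
      exact hy2 j' h3
    rintro ⟨j, t⟩ ⟨j', t'⟩ h
    simp only at h
    rcases lt_trichotomy j j' with hlt | heq | hgt
    · exact absurd h (hne j j' t t' hlt)
    · subst heq
      have : t.1 = t'.1 := add_left_cancel h
      rw [Subtype.ext this]
    · exact absurd h.symm (hne j' j t' t hgt)
  have hcard := Fintype.card_le_of_injective _ hinj
  rw [Fintype.card_prod, Fintype.card_fin, Fintype.card_subtype] at hcard
  exact absurd hcard (not_le.mpr hJ)

theorem Th_zero {N r : ℕ} {J : Type*} [Fintype J] (F be : Matrix J (Fin r) (ZMod N)) (m : ℝ)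
    (hm : 0 < m) : (0 : Fin r → ZMod N) ∈ Th F m be := by
  refine ⟨0, ?_⟩
  unfold cost
  have : ∑ j, nn ((0 : Fin r → ZMod N) ⬝ᵥ F j + be j ⬝ᵥ (0 : Fin r → ZMod N)) = 0 := by
    apply Finset.sum_eq_zero
    intro j _
    rw [zero_dotProduct, dotProduct_zero, add_zero, nn_zero]
  rw [this]
  exact hm

theorem Th_neg {N r : ℕ} [NeZero N] {J : Type*} [Fintype J] (F be : Matrix J (Fin r) (ZMod N))
    (m : ℝ) (x : Fin r → ZMod N) (hx : x ∈ Th F m be) : -x ∈ Th F m be := by
  obtain ⟨al, hal⟩ := hx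
  refine ⟨-al, ?_⟩
  unfold cost at hal ⊢
  have : ∑ j, nn ((-al) ⬝ᵥ F j + be j ⬝ᵥ (-x)) = ∑ j, nn (al ⬝ᵥ F j + be j ⬝ᵥ x) := by
    apply Finset.sum_congr rfl
    intro j _
    rw [neg_dotProduct, dotProduct_neg, ← neg_add, nn_neg]
  rw [this]
  exact hal

end Pool.Agent.H71.DG
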