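import Pool.Agent.H71.DG.Uniq

/-!
# DG-7: Theorem E, case 1

PROOF.  `∑_al ∏_i exp (-2 cost (FI i) (al i)) = ∏_i ∑_{a} exp (-2 cost (FI i) a)`
(`Finset.prod_univ_sum` / `Fintype.piFinset`), each factor is at most
`[FI i ∈ Th] + x`, `x = N^r exp (-2 m) ≤ 1/v ≤ 1` (`sum_exp_le`).  At least `E` of the factors are
at most `x`, the others at most `1 + x ≤ exp (1/v)`; the product is at most
`x^E (1 + x)^(card I) ≤ 3 x^E` since `(1 + 1/v)^v ≤ e ≤ 3` (`Real.add_one_le_exp`,
`Real.exp_one_lt_d9`).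
-/

set_option autoImplicit false

namespace Pool.Agent.H71.DG

open Matrix Classical Pool.Agent.H66.SP

theorem Cs1_pow {x : ℝ} (hx0 : 0 ≤ x) {v c : ℕ} (hv0 : 0 < v) (hc : c ≤ v) (hx : x ≤ 1 / v) :
    (1 + x) ^ c ≤ 3 := by
  have hv : (0 : ℝ) < v := by exact_mod_cast hv0
  calc (1 + x) ^ c ≤ (1 + x) ^ v := pow_le_pow_right₀ (by linarith) hc
    _ ≤ (Real.exp (1 / v)) ^ v := by
        apply pow_le_pow_left₀ (by linarith)
        have := Real.add_one_le_exp (1 / (v : ℝ))
        linarith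
    _ = Real.exp 1 := by
        rw [← Real.exp_nat_mul]
        congr 1
        field_simp
    _ ≤ 3 := by
        have := Real.exp_one_lt_d9
        linarith

theorem case1 {N r : ℕ} [NeZero N] {I J : Type*} [Fintype I] [Fintype J]
    (FI : Matrix I (Fin r) (ZMod N)) (F be : Matrix J (Fin r) (ZMod N)) (m M : ℝ)
    (hmM : 4 * m < M) (h1 : ∀ lam : Fin r → ZMod N, lam ≠ 0 → M ≤ ∑ j, nn (lam ⬝ᵥ F j))
    (v E : ℕ) (hv : Fintype.card I ≤ v) (hv0 : 0 < v)
    (hx : (N : ℝ) ^ r * Real.exp (-2 * m) ≤ 1 / v)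
    (hE : E ≤ ((Finset.univ : Finset I).filter (fun i => FI i ∉ Th F m be)).card) :
    ∑ al : Matrix I (Fin r) (ZMod N), ∏ i, Real.exp (-2 * cost F be (FI i) (al i)) ≤
      3 * ((N : ℝ) ^ r * Real.exp (-2 * m)) ^ E := by
  set x : ℝ := (N : ℝ) ^ r * Real.exp (-2 * m) with hxdef
  have hx0 : 0 ≤ x := by positivity
  have hv1 : (1 : ℝ) ≤ v := by exact_mod_cast hv0
  have hx1 : x ≤ 1 := by
    refine hx.trans ?_
    rw [div_le_one (by linarith)]
    exact hv1
  have hsum : ∑ al : Matrix I (Fin r) (ZMod N), ∏ i, Real.exp (-2 * cost F be (FI i) (al i)) =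
      ∏ i, ∑ a : Fin r → ZMod N, Real.exp (-2 * cost F be (FI i) a) := by
    rw [Finset.prod_univ_sum, Fintype.piFinset_univ]
    exact Fintype.sum_equiv (Equiv.refl (I → Fin r → ZMod N)) _ _ (fun _ => rfl)
  rw [hsum]
  set B := (Finset.univ : Finset I).filter (fun i => FI i ∉ Th F m be) with hB
  have hle : ∀ i, ∑ a : Fin r → ZMod N, Real.exp (-2 * cost F be (FI i) a) ≤
      if i ∈ B then x else 1 + x := by
    intro i
    have h2 := sum_exp_le F be m M hmM h1 (FI i)
    by_cases hi : FI i ∈ Th F m be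
    · rw [if_pos hi] at h2
      have : i ∉ B := by
        rw [hB, Finset.mem_filter]
        tauto
      rw [if_neg this]
      exact h2
    · rw [if_neg hi, zero_add] at h2
      have : i ∈ B := by
        rw [hB, Finset.mem_filter]
        exact ⟨Finset.mem_univ _, hi⟩
      rw [if_pos this]
      exact h2
  calc ∏ i, ∑ a : Fin r → ZMod N, Real.exp (-2 * cost F be (FI i) a)
      ≤ ∏ i, (if i ∈ B then x else 1 + x) :=
        Finset.prod_le_prod (fun i _ => Finset.sum_nonneg (fun a _ => (Real.exp_pos _).le))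
          (fun i _ => hle i)
    _ = x ^ B.card * (1 + x) ^ ((Finset.univ : Finset I).filter (fun i => i ∉ B)).card := by
        rw [Finset.prod_ite, Finset.prod_const, Finset.prod_const]
        congr 3
        ext i
        simp
    _ ≤ x ^ E * 3 := by
        refine mul_le_mul (pow_le_pow_of_le_one hx0 hx1 hE) ?_ (by positivity) (by positivity)
        exact Cs1_pow hx0 hv0 ((Finset.card_filter_le _ _).trans hv) hx
    _ = 3 * x ^ E := mul_comm _ _

end Pool.Agent.H71.DG
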