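import Pool.Agent.H71.DG.Uniq

/-!
# DG-9: Theorem E, case 2 with `be' ≠ 0`

Here `be j = be' j - Lᵀ *ᵥ F j`.  PROOF.  The sum is `∏_i ∑_a exp (-2 cost F be (FI i) a)`
(`Finset.prod_univ_sum`).  Fix `i`, substitute `a = L *ᵥ FI i + a'` (`Equiv.addLeft`):
`a . F_j + be_j . FI_i = a' . F_j + be'_j . FI_i` because
`(L *ᵥ x) ⬝ᵥ y = x ⬝ᵥ (Lᵀ *ᵥ y)`.  Let `be'_{j₀} ≠ 0`, `x_i = nn (be'_{j₀} . FI_i)`.  The term `a' = 0` is
at most `exp (-2 x_i)`; for `a' ≠ 0` the cost is at least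
`∑_{j, be'_j = 0} nn (a' . F_j) ≥ M - rho/4` (`h1`, `nn_le`).  So the factor is at most
`exp (-2 x_i) + N^r exp (-2M + rho/2) ≤ exp (-2 x_i) (1 + 2 N^r exp (-2 M + rho/2))`
(`x_i ≤ 1/4`, `exp (1/2) ≤ 2`), and the product over `i` is at most
`exp (-2 ∑ x_i) exp (2 v N^r exp (-2 M + rho)) ≤ exp (-2 M) e² ≤ 8 exp (-2 M)` by `h2`.
-/

set_option autoImplicit false

namespace Pool.Agent.H71.DG

open Matrix Classical Pool.Agent.H66.SP

/-- cost after the substitution `a = L th + a'` -/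
theorem cs2_cost {N r : ℕ} {J : Type*} [Fintype J] (F be' : Matrix J (Fin r) (ZMod N))
    (L : Matrix (Fin r) (Fin r) (ZMod N)) (th a' : Fin r → ZMod N) :
    cost F (fun j => be' j - Lᵀ *ᵥ F j) th (L *ᵥ th + a') =
      ∑ j, nn (a' ⬝ᵥ F j + be' j ⬝ᵥ th) := by
  unfold cost
  refine Finset.sum_congr rfl fun j _ => ?_
  congr 1
  have h : (L *ᵥ th) ⬝ᵥ F j = (Lᵀ *ᵥ F j) ⬝ᵥ th := by
    rw [Matrix.mulVec_transpose, ← Matrix.dotProduct_mulVec, dotProduct_comm]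
  rw [add_dotProduct, sub_dotProduct, h]
  ring

/-- `1/4` if `p` holds, else `0` -/
noncomputable def cs2_ind (p : Prop) : ℝ := if p then 1 / 4 else 0

theorem cs2_ite {J : Type*} [Fintype J] (p : J → Prop) [DecidablePred p] :
    ∑ j : J, cs2_ind (p j) = (((Finset.univ : Finset J).filter p).card : ℝ) * (1 / 4) := by
  have h : ∀ j : J, cs2_ind (p j) = if p j then (1 / 4 : ℝ) else 0 := by
    intro j
    unfold cs2_ind
    by_cases hj : p j
    · rw [if_pos hj, if_pos hj]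
    · rw [if_neg hj, if_neg hj]
  rw [Finset.sum_congr rfl fun j _ => h j, ← Finset.sum_filter, Finset.sum_const, nsmul_eq_mul]

theorem cs2_factor {N r : ℕ} [NeZero N] {J : Type*} [Fintype J]
    (F be' : Matrix J (Fin r) (ZMod N)) (M : ℝ)
    (h1 : ∀ lam : Fin r → ZMod N, lam ≠ 0 → M ≤ ∑ j, nn (lam ⬝ᵥ F j))
    (rho : ℕ) (L : Matrix (Fin r) (Fin r) (ZMod N)) (j₀ : J)
    (hs : ((Finset.univ : Finset J).filter (fun j => be' j ≠ 0)).card ≤ rho)
    (th : Fin r → ZMod N) :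
    ∑ a : Fin r → ZMod N, Real.exp (-2 * cost F (fun j => be' j - Lᵀ *ᵥ F j) th a) ≤
      Real.exp (-2 * nn (be' j₀ ⬝ᵥ th)) + (N : ℝ) ^ r * Real.exp (-2 * M + rho / 2) := by
  rw [← Equiv.sum_comp (Equiv.addLeft (L *ᵥ th))]
  have e1 : ∀ a' : Fin r → ZMod N,
      Real.exp (-2 * cost F (fun j => be' j - Lᵀ *ᵥ F j) th (Equiv.addLeft (L *ᵥ th) a')) ≤
      (if a' = 0 then Real.exp (-2 * nn (be' j₀ ⬝ᵥ th)) else 0) +
        Real.exp (-2 * M + rho / 2) := by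
    intro a'
    rw [Equiv.coe_addLeft, cs2_cost]
    split_ifs with h
    · have : nn (be' j₀ ⬝ᵥ th) ≤ ∑ j, nn (a' ⬝ᵥ F j + be' j ⬝ᵥ th) := by
        have e := Finset.single_le_sum (f := fun j => nn (a' ⬝ᵥ F j + be' j ⬝ᵥ th))
          (fun j _ => nn_nonneg _) (Finset.mem_univ j₀)
        simpa [h] using e
      have e2 : Real.exp (-2 * ∑ j, nn (a' ⬝ᵥ F j + be' j ⬝ᵥ th)) ≤
          Real.exp (-2 * nn (be' j₀ ⬝ᵥ th)) := Real.exp_le_exp.mpr (by linarith)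
      have := Real.exp_pos (-2 * M + rho / 2)
      linarith
    · rw [zero_add]
      apply Real.exp_le_exp.mpr
      have e2 := h1 a' h
      have e3 : ∑ j, nn (a' ⬝ᵥ F j) ≤ ∑ j, nn (a' ⬝ᵥ F j + be' j ⬝ᵥ th) +
          ∑ j, cs2_ind (be' j ≠ 0) := by
        rw [← Finset.sum_add_distrib]
        apply Finset.sum_le_sum
        intro j _
        by_cases hj : be' j ≠ 0
        · have := nn_le (a' ⬝ᵥ F j)
          have := nn_nonneg (a' ⬝ᵥ F j + be' j ⬝ᵥ th)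
          have e7 : cs2_ind (be' j ≠ 0) = 1 / 4 := if_pos hj
          linarith
        · have e7 : cs2_ind (be' j ≠ 0) = 0 := if_neg hj
          rw [not_not] at hj
          rw [e7, hj, zero_dotProduct, add_zero, add_zero]
      have e5 := cs2_ite (fun j : J => be' j ≠ 0)
      have e4 : (((Finset.univ : Finset J).filter (fun j => be' j ≠ 0)).card : ℝ) ≤ rho := by
        exact_mod_cast hs
      linarith
  refine (Finset.sum_le_sum fun a' _ => e1 a').trans ?_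
  rw [Finset.sum_add_distrib, Finset.sum_ite_eq' Finset.univ (0 : Fin r → ZMod N),
    if_pos (Finset.mem_univ _), Finset.sum_const, nsmul_eq_mul, Finset.card_univ,
    Fintype.card_fun, ZMod.card, Fintype.card_fin]
  push_cast
  exact le_rfl

theorem case2 {N r : ℕ} [NeZero N] {I J : Type*} [Fintype I] [Fintype J]
    (FI : Matrix I (Fin r) (ZMod N)) (F be' : Matrix J (Fin r) (ZMod N)) (M : ℝ)
    (h1 : ∀ lam : Fin r → ZMod N, lam ≠ 0 → M ≤ ∑ j, nn (lam ⬝ᵥ F j))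
    (h2 : ∀ lam : Fin r → ZMod N, lam ≠ 0 → M ≤ ∑ i, nn (lam ⬝ᵥ FI i))
    (v rho : ℕ) (hv : Fintype.card I ≤ v)
    (hx : (v : ℝ) * (N : ℝ) ^ r * Real.exp (-2 * M + rho) ≤ 1)
    (L : Matrix (Fin r) (Fin r) (ZMod N)) (hne : be' ≠ 0)
    (hs : ((Finset.univ : Finset J).filter (fun j => be' j ≠ 0)).card ≤ rho) :
    ∑ al : Matrix I (Fin r) (ZMod N),
        ∏ i, Real.exp (-2 * cost F (fun j => be' j - Lᵀ *ᵥ F j) (FI i) (al i)) ≤
      8 * Real.exp (-2 * M) := by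
  have hj : ∃ j₀, be' j₀ ≠ 0 := by
    by_contra hc
    push Not at hc
    exact hne (funext hc)
  obtain ⟨j₀, hj₀⟩ := hj
  have hprod : ∑ al : Matrix I (Fin r) (ZMod N),
      ∏ i, Real.exp (-2 * cost F (fun j => be' j - Lᵀ *ᵥ F j) (FI i) (al i)) =
      ∏ i, ∑ a : Fin r → ZMod N,
        Real.exp (-2 * cost F (fun j => be' j - Lᵀ *ᵥ F j) (FI i) a) := by
    rw [Finset.prod_univ_sum, Fintype.piFinset_univ]
    rfl
  rw [hprod]
  set δ : ℝ := (N : ℝ) ^ r * Real.exp (-2 * M + rho / 2) with hδ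
  have hδ0 : 0 ≤ δ := by positivity
  have hfac : ∀ i, ∑ a : Fin r → ZMod N,
      Real.exp (-2 * cost F (fun j => be' j - Lᵀ *ᵥ F j) (FI i) a) ≤
      Real.exp (-2 * nn (be' j₀ ⬝ᵥ FI i) + 2 * δ) := by
    intro i
    refine (cs2_factor F be' M h1 rho L j₀ hs (FI i)).trans ?_
    rw [← hδ, Real.exp_add (-2 * nn (be' j₀ ⬝ᵥ FI i)) (2 * δ)]
    have e1 : Real.exp (2 * δ) ≥ 1 + 2 * δ := by
      have := Real.add_one_le_exp (2 * δ)
      linarith
    have e2 : 1 / 2 ≤ Real.exp (-2 * nn (be' j₀ ⬝ᵥ FI i)) := by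
      have := Real.add_one_le_exp (-2 * nn (be' j₀ ⬝ᵥ FI i))
      have := nn_le (be' j₀ ⬝ᵥ FI i)
      linarith
    have e3 : Real.exp (-2 * nn (be' j₀ ⬝ᵥ FI i)) * Real.exp (2 * δ) ≥
        Real.exp (-2 * nn (be' j₀ ⬝ᵥ FI i)) * (1 + 2 * δ) :=
      mul_le_mul_of_nonneg_left e1 (Real.exp_pos _).le
    nlinarith
  have h3 : ∏ i, ∑ a : Fin r → ZMod N,
        Real.exp (-2 * cost F (fun j => be' j - Lᵀ *ᵥ F j) (FI i) a) ≤
      ∏ i, Real.exp (-2 * nn (be' j₀ ⬝ᵥ FI i) + 2 * δ) :=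
    Finset.prod_le_prod (fun i _ => Finset.sum_nonneg fun a _ => (Real.exp_pos _).le)
      (fun i _ => hfac i)
  refine h3.trans ?_
  rw [← Real.exp_sum, Finset.sum_add_distrib, ← Finset.mul_sum, Finset.sum_const, nsmul_eq_mul,
    Finset.card_univ]
  have h4 := h2 (be' j₀) hj₀
  have h5 : (Fintype.card I : ℝ) * (2 * δ) ≤ 2 := by
    have e1 : (Fintype.card I : ℝ) ≤ v := by exact_mod_cast hv
    have e2 : Real.exp (-2 * M + rho / 2) ≤ Real.exp (-2 * M + rho) := by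
      apply Real.exp_le_exp.mpr
      have : (0 : ℝ) ≤ rho := Nat.cast_nonneg _
      linarith
    have e3 : (v : ℝ) * δ ≤ 1 := by
      refine le_trans ?_ hx
      rw [hδ, ← mul_assoc]
      exact mul_le_mul_of_nonneg_left e2 (by positivity)
    have e4 : (Fintype.card I : ℝ) * δ ≤ v * δ := mul_le_mul_of_nonneg_right e1 hδ0
    linarith
  have h6 : Real.exp (-2 * ∑ i, nn (be' j₀ ⬝ᵥ FI i) + (Fintype.card I : ℝ) * (2 * δ)) ≤
      Real.exp (2 + -2 * M) := Real.exp_le_exp.mpr (by linarith)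
  refine h6.trans ?_
  rw [Real.exp_add]
  apply mul_le_mul_of_nonneg_right _ (Real.exp_pos _).le
  have h7 := Real.exp_one_lt_d9
  have h8 : Real.exp 2 = Real.exp 1 * Real.exp 1 := by
    rw [← Real.exp_add]
    norm_num
  rw [h8]
  have h9 := Real.exp_pos 1
  nlinarith

end Pool.Agent.H71.DG
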