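import Pool.Agent.H71.DG.Nn

/-!
# DG-6: uniqueness of the cheap `al`, and the sum over `al`

PROOFS.  `cost_sub`: `(al - al') . F_j = (al . F_j + be_j . th) - (al' . F_j + be_j . th)`, `nn_add_le`,
`nn_neg`, sum over `j`.  `cost_uniq`: if `al ≠ al'` then `M ≤ ∑ nn ((al - al') . F_j) ≤ 4 m < M`.
`sum_exp_le`: at most one `al` has cost `< m` (and none if `th ∉ Th`); its term is at most `1`, the
others (at most `N^r` many, `Fintype.card_fun`, `ZMod.card`) are at most `exp (-2 m)`.
`cost_add`: `cost (th + th') (al + al') ≤ 2 cost th al + 2 cost th' al'`.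
-/

set_option autoImplicit false

namespace Pool.Agent.H71.DG

open Matrix Classical Pool.Agent.H66.SP

theorem cost_nonneg {N r : ℕ} {J : Type*} [Fintype J] (F be : Matrix J (Fin r) (ZMod N))
    (th al : Fin r → ZMod N) : 0 ≤ cost F be th al :=
  Finset.sum_nonneg fun _ _ => nn_nonneg _

theorem cost_sub {N r : ℕ} [NeZero N] {J : Type*} [Fintype J] (F be : Matrix J (Fin r) (ZMod N))
    (th al al' : Fin r → ZMod N) :
    ∑ j, nn ((al - al') ⬝ᵥ F j) ≤ 2 * cost F be th al + 2 * cost F be th al' := by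
  unfold cost
  rw [Finset.mul_sum, Finset.mul_sum, ← Finset.sum_add_distrib]
  refine Finset.sum_le_sum fun j _ => ?_
  have h1 : (al - al') ⬝ᵥ F j = (al ⬝ᵥ F j + be j ⬝ᵥ th) + -(al' ⬝ᵥ F j + be j ⬝ᵥ th) := by
    rw [sub_dotProduct]
    ring
  rw [h1]
  refine (nn_add_le _ _).trans ?_
  rw [nn_neg]

theorem cost_uniq {N r : ℕ} [NeZero N] {J : Type*} [Fintype J]
    (F be : Matrix J (Fin r) (ZMod N)) (m M : ℝ) (hmM : 4 * m < M)
    (h1 : ∀ lam : Fin r → ZMod N, lam ≠ 0 → M ≤ ∑ j, nn (lam ⬝ᵥ F j))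
    (th al al' : Fin r → ZMod N) (h : cost F be th al ≤ m) (h' : cost F be th al' ≤ m) :
    al = al' := by
  by_contra hne
  have h2 := h1 (al - al') (sub_ne_zero.2 hne)
  have h3 := cost_sub F be th al al'
  linarith

theorem sum_exp_le {N r : ℕ} [NeZero N] {J : Type*} [Fintype J]
    (F be : Matrix J (Fin r) (ZMod N)) (m M : ℝ) (hmM : 4 * m < M)
    (h1 : ∀ lam : Fin r → ZMod N, lam ≠ 0 → M ≤ ∑ j, nn (lam ⬝ᵥ F j))
    (th : Fin r → ZMod N) :
    ∑ al : Fin r → ZMod N, Real.exp (-2 * cost F be th al) ≤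
      (if th ∈ Th F m be then 1 else 0) + (N : ℝ) ^ r * Real.exp (-2 * m) := by
  have hcard : ((Finset.univ : Finset (Fin r → ZMod N)).card : ℝ) = (N : ℝ) ^ r := by
    rw [Finset.card_univ, Fintype.card_fun, ZMod.card, Fintype.card_fin]
    push_cast
    rfl
  by_cases hth : th ∈ Th F m be
  · rw [if_pos hth]
    obtain ⟨al0, h0⟩ := hth
    rw [← Finset.add_sum_erase Finset.univ _ (Finset.mem_univ al0)]
    have e1 : Real.exp (-2 * cost F be th al0) ≤ 1 := by
      rw [Real.exp_le_one_iff]
      have := cost_nonneg F be th al0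
      linarith
    have e2 : ∑ al ∈ (Finset.univ : Finset (Fin r → ZMod N)).erase al0,
        Real.exp (-2 * cost F be th al) ≤ (N : ℝ) ^ r * Real.exp (-2 * m) := by
      have e3 : ∀ al ∈ (Finset.univ : Finset (Fin r → ZMod N)).erase al0,
          Real.exp (-2 * cost F be th al) ≤ Real.exp (-2 * m) := by
        intro al hal
        rw [Real.exp_le_exp]
        have hne := (Finset.mem_erase.1 hal).1
        have : m < cost F be th al := by
          by_contra hc
          exact hne (cost_uniq F be m M hmM h1 th al al0 (not_lt.1 hc) h0.le)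
        linarith
      refine (Finset.sum_le_card_nsmul _ _ _ e3).trans ?_
      rw [nsmul_eq_mul, ← hcard]
      refine mul_le_mul_of_nonneg_right ?_ (Real.exp_pos _).le
      exact_mod_cast Finset.card_le_card (Finset.erase_subset _ _)
    linarith
  · rw [if_neg hth, zero_add]
    have e3 : ∀ al ∈ (Finset.univ : Finset (Fin r → ZMod N)),
        Real.exp (-2 * cost F be th al) ≤ Real.exp (-2 * m) := by
      intro al _
      rw [Real.exp_le_exp]
      have : m ≤ cost F be th al := by
        by_contra hc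
        exact hth ⟨al, not_le.1 hc⟩
      linarith
    refine (Finset.sum_le_card_nsmul _ _ _ e3).trans ?_
    rw [nsmul_eq_mul, hcard]

end Pool.Agent.H71.DG
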