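import Pool.Agent.H71.DG.Rect
import Pool.Agent.H71.DG.Uniq

/-!
# DG-10: Theorem E, case 2 with `be' = 0`

Here `be j = -(Lᵀ *ᵥ F j)` (`Uniq` is imported too).  PROOF.  Substitute `al i = L *ᵥ FI i + al' i`.
Terms with `al' ≠ 0`: by `PP_le_rect` and
`al_i . F_j + be_j . FI_i = al'_i . F_j` they contribute at most
`∏_i (1 + N^r exp (-2 M)) - 1` (all `al'` minus `al' = 0`: the full sum of
`∏_i exp (-2 ∑_j nn (al'_i . F_j))` is `∏_i (∑_a ..) ≤ ∏_i (1 + N^r exp (-2M))` by `h1`, and the term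
`al' = 0` equals `1`), and `(1 + x)^(card I) - 1 ≤ 2 v x` if `v x ≤ 1` (`x = N^r exp (-2 M)`;
`exp u - 1 ≤ 2 u` on `[0,1]`).
Term `al' = 0`: `PP ≤ 1` if `L + Lᵀ = 0`.  Otherwise let `D = L + Lᵀ ≠ 0`; there is `i₀` with
`D *ᵥ FI i₀ ≠ 0` (else a nonzero row `lam` of `D` has `∑_i nn (lam . FI_i) = 0 < M`).  By
`PP_le_star` and `(L *ᵥ x) . y + (L *ᵥ y) . x = (D *ᵥ x) . y` (`D` symmetric) the term is at most
`exp (-2 ∑_{i ≠ i₀} nn (lam . FI_i)) ≤ exp (-2 (M - 1/4)) ≤ 3 exp (-2 M)`, `lam = D *ᵥ FI i₀`.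
-/

set_option autoImplicit false

namespace Pool.Agent.H71.DG

open Matrix Classical Pool.Agent.H66.SP

theorem cs3_cost {N r : ℕ} [NeZero N] {I J : Type*} [Fintype J]
    (FI : Matrix I (Fin r) (ZMod N)) (F : Matrix J (Fin r) (ZMod N))
    (L : Matrix (Fin r) (Fin r) (ZMod N)) (i : I) (a : Fin r → ZMod N) :
    cost F (fun j => -(Lᵀ *ᵥ F j)) (FI i) (L *ᵥ FI i + a) = ∑ j, nn (a ⬝ᵥ F j) := by
  unfold cost
  refine Finset.sum_congr rfl fun j _ => ?_
  congr 1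
  rw [add_dotProduct, neg_dotProduct, dotProduct_comm (L *ᵥ FI i) (F j), dotProduct_mulVec,
    mulVec_transpose]
  ring

theorem cs3_one {N r : ℕ} [NeZero N] {J : Type*} [Fintype J]
    (F : Matrix J (Fin r) (ZMod N)) (M : ℝ)
    (h1 : ∀ lam : Fin r → ZMod N, lam ≠ 0 → M ≤ ∑ j, nn (lam ⬝ᵥ F j)) :
    ∑ a : Fin r → ZMod N, Real.exp (-2 * ∑ j, nn (a ⬝ᵥ F j)) ≤
      1 + (N : ℝ) ^ r * Real.exp (-2 * M) := by
  rw [← Finset.add_sum_erase _ _ (Finset.mem_univ (0 : Fin r → ZMod N))]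
  refine add_le_add ?_ ?_
  · simp [nn_zero]
  · calc ∑ a ∈ Finset.univ.erase (0 : Fin r → ZMod N), Real.exp (-2 * ∑ j, nn (a ⬝ᵥ F j))
        ≤ ∑ a ∈ Finset.univ.erase (0 : Fin r → ZMod N), Real.exp (-2 * M) := by
          refine Finset.sum_le_sum fun a ha => Real.exp_le_exp.mpr ?_
          have := h1 a (Finset.ne_of_mem_erase ha)
          linarith
      _ = ((Finset.univ.erase (0 : Fin r → ZMod N)).card : ℝ) * Real.exp (-2 * M) := by
          rw [Finset.sum_const, nsmul_eq_mul]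
      _ ≤ (N : ℝ) ^ r * Real.exp (-2 * M) := by
          refine mul_le_mul_of_nonneg_right ?_ (Real.exp_pos _).le
          have h := Finset.card_le_card (Finset.erase_subset (0 : Fin r → ZMod N) Finset.univ)
          rw [Finset.card_univ, Fintype.card_fun, ZMod.card, Fintype.card_fin] at h
          exact_mod_cast h

theorem cs3_zero {N r : ℕ} [NeZero N] {I J : Type*} [Fintype I] [Fintype J] [DecidableEq I]
    (FI : Matrix I (Fin r) (ZMod N)) (F : Matrix J (Fin r) (ZMod N)) (M : ℝ) (hM : 0 < M)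
    (h2 : ∀ lam : Fin r → ZMod N, lam ≠ 0 → M ≤ ∑ i, nn (lam ⬝ᵥ FI i))
    (L : Matrix (Fin r) (Fin r) (ZMod N)) (be : Matrix J (Fin r) (ZMod N)) :
    PP FI F (fun i => L *ᵥ FI i) be ≤
      (if L + Lᵀ = 0 then 1 else 0) + 3 * Real.exp (-2 * M) := by
  have hE := Real.exp_pos (-2 * M)
  by_cases hL : L + Lᵀ = 0
  · rw [if_pos hL]
    have := PP_le_one FI F (fun i => L *ᵥ FI i) be
    linarith
  · rw [if_neg hL, zero_add]
    have hex : ∃ i₀ : I, (L + Lᵀ) *ᵥ FI i₀ ≠ 0 := by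
      by_contra hcon
      push Not at hcon
      apply hL
      ext a b
      by_contra hab
      have hne : (fun c => (L + Lᵀ) a c) ≠ 0 := by
        intro h
        exact hab (by simpa using congrFun h b)
      have h := h2 _ hne
      have h0 : ∑ i, nn ((fun c => (L + Lᵀ) a c) ⬝ᵥ FI i) = 0 := by
        refine Finset.sum_eq_zero fun i _ => ?_
        have h3 := congrFun (hcon i) a
        have h4 : (fun c => (L + Lᵀ) a c) ⬝ᵥ FI i = 0 := h3
        rw [h4, nn_zero]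
      rw [h0] at h
      linarith
    obtain ⟨i₀, hi₀⟩ := hex
    refine (PP_le_star FI F (fun i => L *ᵥ FI i) be i₀).trans ?_
    have hs : ∑ i ∈ Finset.univ.erase i₀,
        nn ((fun i => L *ᵥ FI i) i₀ ⬝ᵥ FI i + (fun i => L *ᵥ FI i) i ⬝ᵥ FI i₀) =
        ∑ i ∈ Finset.univ.erase i₀, nn (((L + Lᵀ) *ᵥ FI i₀) ⬝ᵥ FI i) := by
      refine Finset.sum_congr rfl fun i _ => ?_
      congr 1
      show (L *ᵥ FI i₀) ⬝ᵥ FI i + (L *ᵥ FI i) ⬝ᵥ FI i₀ = _
      rw [add_mulVec, add_dotProduct]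
      congr 1
      rw [dotProduct_comm (L *ᵥ FI i) (FI i₀), dotProduct_mulVec, mulVec_transpose]
    rw [hs]
    have h5 := h2 _ hi₀
    rw [← Finset.add_sum_erase _ _ (Finset.mem_univ i₀)] at h5
    have h6 := nn_le (((L + Lᵀ) *ᵥ FI i₀) ⬝ᵥ FI i₀)
    have h7 : -2 * ∑ i ∈ Finset.univ.erase i₀, nn (((L + Lᵀ) *ᵥ FI i₀) ⬝ᵥ FI i) ≤
        1 + (-2 * M) := by linarith
    refine (Real.exp_le_exp.mpr h7).trans ?_
    rw [Real.exp_add]
    have h8 := Real.exp_one_lt_d9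
    nlinarith

theorem case3 {N r : ℕ} [NeZero N] {I J : Type*} [Fintype I] [Fintype J] [DecidableEq I]
    [DecidableEq J]
    (FI : Matrix I (Fin r) (ZMod N)) (F : Matrix J (Fin r) (ZMod N)) (M : ℝ) (hM : 0 < M)
    (h1 : ∀ lam : Fin r → ZMod N, lam ≠ 0 → M ≤ ∑ j, nn (lam ⬝ᵥ F j))
    (h2 : ∀ lam : Fin r → ZMod N, lam ≠ 0 → M ≤ ∑ i, nn (lam ⬝ᵥ FI i))
    (v : ℕ) (hv : Fintype.card I ≤ v)
    (hx : (v : ℝ) * (N : ℝ) ^ r * Real.exp (-2 * M) ≤ 1)
    (L : Matrix (Fin r) (Fin r) (ZMod N)) :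
    ∑ al : Matrix I (Fin r) (ZMod N), PP FI F al (fun j => -(Lᵀ *ᵥ F j)) ≤
      (if L + Lᵀ = 0 then 1 else 0) +
        (2 * v * (N : ℝ) ^ r * Real.exp (-2 * M) + 3 * Real.exp (-2 * M)) := by
  set be : Matrix J (Fin r) (ZMod N) := fun j => -(Lᵀ *ᵥ F j) with hbe
  set al0 : Matrix I (Fin r) (ZMod N) := fun i => L *ᵥ FI i with hal0
  set c : (Fin r → ZMod N) → ℝ := fun a => Real.exp (-2 * ∑ j, nn (a ⬝ᵥ F j)) with hc
  have hsub : ∑ al : Matrix I (Fin r) (ZMod N), PP FI F al be =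
      ∑ al : Matrix I (Fin r) (ZMod N), PP FI F (al0 + al) be :=
    (Equiv.sum_comp (Equiv.addLeft al0) (fun al => PP FI F al be)).symm
  rw [hsub, ← Finset.add_sum_erase _ _ (Finset.mem_univ (0 : Matrix I (Fin r) (ZMod N))), add_zero]
  have hz := cs3_zero FI F M hM h2 L be
  have hterm : ∀ al : Matrix I (Fin r) (ZMod N), PP FI F (al0 + al) be ≤ ∏ i, c (al i) := by
    intro al
    refine (PP_le_rect FI F (al0 + al) be).trans (le_of_eq ?_)
    refine Finset.prod_congr rfl fun i _ => ?_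
    rw [hc]
    show Real.exp (-2 * cost F be (FI i) (L *ᵥ FI i + al i)) = _
    rw [hbe, cs3_cost]
  have hc0 : ∀ i : I, c ((0 : Matrix I (Fin r) (ZMod N)) i) = 1 := by
    intro i
    rw [hc]
    show Real.exp (-2 * ∑ j, nn ((0 : Fin r → ZMod N) ⬝ᵥ F j)) = 1
    simp [nn_zero]
  have hrest : ∑ al ∈ Finset.univ.erase (0 : Matrix I (Fin r) (ZMod N)), PP FI F (al0 + al) be ≤
      2 * v * (N : ℝ) ^ r * Real.exp (-2 * M) := by
    have e1 : ∑ al ∈ Finset.univ.erase (0 : Matrix I (Fin r) (ZMod N)), PP FI F (al0 + al) be ≤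
        ∑ al ∈ Finset.univ.erase (0 : Matrix I (Fin r) (ZMod N)), ∏ i, c (al i) :=
      Finset.sum_le_sum fun al _ => hterm al
    have e2 : ∏ i, c ((0 : Matrix I (Fin r) (ZMod N)) i) +
        ∑ al ∈ Finset.univ.erase (0 : Matrix I (Fin r) (ZMod N)), ∏ i, c (al i) =
        ∑ al : Matrix I (Fin r) (ZMod N), ∏ i, c (al i) :=
      Finset.add_sum_erase Finset.univ (fun al : Matrix I (Fin r) (ZMod N) => ∏ i, c (al i))
        (Finset.mem_univ (0 : Matrix I (Fin r) (ZMod N)))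
    have e3 : ∏ i, c ((0 : Matrix I (Fin r) (ZMod N)) i) = 1 :=
      Finset.prod_eq_one fun i _ => hc0 i
    have e4 : ∑ al : Matrix I (Fin r) (ZMod N), ∏ i, c (al i) =
        ∏ _i : I, ∑ a : Fin r → ZMod N, c a := by
      rw [Finset.prod_univ_sum, Fintype.piFinset_univ]
      rfl
    have e5 : ∏ _i : I, ∑ a : Fin r → ZMod N, c a ≤
        (1 + (N : ℝ) ^ r * Real.exp (-2 * M)) ^ v := by
      rw [Finset.prod_const, Finset.card_univ]
      have hx0 : 0 ≤ (N : ℝ) ^ r * Real.exp (-2 * M) := by positivity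
      calc (∑ a : Fin r → ZMod N, c a) ^ Fintype.card I
          ≤ (1 + (N : ℝ) ^ r * Real.exp (-2 * M)) ^ Fintype.card I := by
            refine pow_le_pow_left₀ (Finset.sum_nonneg fun a _ => (Real.exp_pos _).le) ?_ _
            exact cs3_one F M h1
        _ ≤ (1 + (N : ℝ) ^ r * Real.exp (-2 * M)) ^ v :=
            pow_le_pow_right₀ (by linarith) hv
    have e6 : (1 + (N : ℝ) ^ r * Real.exp (-2 * M)) ^ v ≤
        Real.exp ((v : ℝ) * ((N : ℝ) ^ r * Real.exp (-2 * M))) := by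
      rw [Real.exp_nat_mul]
      refine pow_le_pow_left₀ (by positivity) ?_ _
      rw [add_comm]
      exact Real.add_one_le_exp _
    have e7 : Real.exp ((v : ℝ) * ((N : ℝ) ^ r * Real.exp (-2 * M))) - 1 ≤
        2 * ((v : ℝ) * ((N : ℝ) ^ r * Real.exp (-2 * M))) := by
      have hp : 0 ≤ (v : ℝ) * ((N : ℝ) ^ r * Real.exp (-2 * M)) := by positivity
      have hle : |(v : ℝ) * ((N : ℝ) ^ r * Real.exp (-2 * M))| ≤ 1 := by
        rw [abs_of_nonneg hp]
        linarith [hx]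
      have h := Real.abs_exp_sub_one_le hle
      rw [abs_of_nonneg hp] at h
      exact (le_abs_self _).trans h
    have e8 : 2 * ((v : ℝ) * ((N : ℝ) ^ r * Real.exp (-2 * M))) =
        2 * v * (N : ℝ) ^ r * Real.exp (-2 * M) := by ring
    rw [← e8]
    linarith
  linarith

end Pool.Agent.H71.DG
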