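import Pool.Agent.H66.SP.Defs
import Pool.Agent.H95.SQ.Defs

/-!
# Almost all graphs are DGS: definitions for Theorem E and part M (note 1349)

`nn x = ‖x/N‖²` for `x : ZMod N`, `G = (Fin r → ZMod N)` with the dot product, `F : V → G` is a
matrix with rows `F v`; the graph equation is `adj (ZMod N) G * F = g`.
-/

set_option autoImplicit false

namespace Pool.Agent.H71.DG

open Matrix Classical Pool.Agent.H66.SP

/-- the square of the distance of `x / N` to the nearest integer -/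
noncomputable def nn {N : ℕ} (x : ZMod N) : ℝ := ((x.valMinAbs : ℝ) / N) ^ 2

/-- the number of graphs `G` with `A_G F = g` -/
noncomputable def cnt {N r : ℕ} {V : Type*} [Fintype V] (F g : Matrix V (Fin r) (ZMod N)) : ℕ :=
  ((Finset.univ : Finset (SimpleGraph V)).filter (fun G => adj (ZMod N) G * F = g)).card

/-- `y_u . F_v + y_v . F_u` as a function of the pair `{u, v}` -/
def pr {N r : ℕ} {V : Type*} (F y : Matrix V (Fin r) (ZMod N)) : Sym2 V → ZMod N :=
  Sym2.lift ⟨fun u v => y u ⬝ᵥ F v + y v ⬝ᵥ F u, fun _ _ => add_comm _ _⟩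

theorem pr_mk {N r : ℕ} {V : Type*} (F y : Matrix V (Fin r) (ZMod N)) (u v : V) :
    pr F y s(u, v) = y u ⬝ᵥ F v + y v ⬝ᵥ F u := rfl

/-- the cost of `al` against `be`, `th` : `∑_j nn (al . F_j + be_j . th)` -/
noncomputable def cost {N r : ℕ} {J : Type*} [Fintype J] (F be : Matrix J (Fin r) (ZMod N))
    (th al : Fin r → ZMod N) : ℝ :=
  ∑ j, nn (al ⬝ᵥ F j + be j ⬝ᵥ th)

/-- the set `Θ_β` -/
def Th {N r : ℕ} {J : Type*} [Fintype J] (F : Matrix J (Fin r) (ZMod N)) (m : ℝ)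
    (be : Matrix J (Fin r) (ZMod N)) : Set (Fin r → ZMod N) :=
  {th | ∃ al : Fin r → ZMod N, cost F be th al < m}

/-- the pairs of distinct vertices -/
noncomputable def nd (V : Type*) [Fintype V] : Finset (Sym2 V) :=
  (Finset.univ : Finset (Sym2 V)).filter (fun e => ¬ e.IsDiag)

/-- the product over all pairs, for a vertex set `I ⊕ J` -/
noncomputable def PP {N r : ℕ} {I J : Type*} [Fintype I] [Fintype J]
    (FI : Matrix I (Fin r) (ZMod N)) (FJ : Matrix J (Fin r) (ZMod N))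
    (al : Matrix I (Fin r) (ZMod N)) (be : Matrix J (Fin r) (ZMod N)) : ℝ :=
  ∏ e ∈ nd (I ⊕ J), Real.exp (-2 * nn (pr (V := I ⊕ J) (Sum.elim FI FJ) (Sum.elim al be) e))

/-- the number of matrices with `Λ + Λᵀ = 0` -/
noncomputable def anti (N r : ℕ) [NeZero N] : ℕ :=
  ((Finset.univ : Finset (Matrix (Fin r) (Fin r) (ZMod N))).filter (fun L => L + Lᵀ = 0)).card

/-- the error term of Theorem E; `v = card (I ⊕ J)`, `c = card J` -/
noncomputable def eta (N r v c E rho : ℕ) (m M : ℝ) : ℝ :=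
  3 * ((N : ℝ) ^ r) ^ c * ((N : ℝ) ^ r * Real.exp (-2 * m)) ^ E +
    (N : ℝ) ^ (r ^ 2) * ((c : ℝ) * (N : ℝ) ^ r + 1) ^ rho * (8 * Real.exp (-2 * M)) +
    (N : ℝ) ^ (r ^ 2) * (2 * v * (N : ℝ) ^ r * Real.exp (-2 * M) + 3 * Real.exp (-2 * M))

end Pool.Agent.H71.DG
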