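import Pool.Agent.H71.DG.Nn

/-!
# DG-3: sums over all graphs of products over the edges

PROOF.  A graph is the same as a set of pairs `t ⊆ nd V` (`SimpleGraph.fromEdgeSet`, `edgeFinset`);
`∏_{e ∈ nd V} (1 + w e) = ∑_{t ⊆ nd V} ∏_{e ∈ t} w e` (`Finset.prod_one_add` /
`Finset.prod_add`).  `card_graph` is the same bijection (`Finset.card_powerset`).
`edge_sum`: `∑_v y_v . (A F)_v = ∑_{(u,v), u ~ v} y_v . F_u`, every edge `{u,v}` occurs twice, with
`y_v . F_u` and `y_u . F_v` (sum over darts, or `Finset.sum_comm'`/`SimpleGraph.sum_darts...`; one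
way: both sides are additive in the set of edges, induct on the edge set, or use
`∑_u ∑_v [u ~ v] h u v = ∑_{e ∈ edgeFinset} Sym2.lift (h u v + h v u)`).
-/

set_option autoImplicit false

namespace Pool.Agent.H71.DG

open Matrix Classical Pool.Agent.H66.SP

/-- the edges of a graph, as a finset (all instances classical) -/
noncomputable def edg {V : Type*} [Fintype V] (G : SimpleGraph V) : Finset (Sym2 V) :=
  (nd V).filter (fun e => e ∈ G.edgeSet)

theorem GrSum_mem {V : Type*} [Fintype V] (G : SimpleGraph V) (e : Sym2 V) :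
    e ∈ edg G ↔ e ∈ G.edgeSet := by
  unfold edg nd
  rw [Finset.mem_filter, Finset.mem_filter]
  constructor
  · rintro ⟨-, h⟩
    exact h
  · intro h
    exact ⟨⟨Finset.mem_univ e, G.not_isDiag_of_mem_edgeSet h⟩, h⟩

theorem GrSum_left {V : Type*} [Fintype V] (G : SimpleGraph V) :
    SimpleGraph.fromEdgeSet (edg G : Set (Sym2 V)) = G := by
  have h : (edg G : Set (Sym2 V)) = G.edgeSet := by
    ext e
    rw [Finset.mem_coe, GrSum_mem]
  rw [h, SimpleGraph.fromEdgeSet_edgeSet]

theorem GrSum_right {V : Type*} [Fintype V] (t : Finset (Sym2 V)) (ht : t ⊆ nd V) :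
    edg (SimpleGraph.fromEdgeSet (t : Set (Sym2 V))) = t := by
  ext e
  rw [GrSum_mem, SimpleGraph.edgeSet_fromEdgeSet]
  constructor
  · rintro ⟨h, -⟩
    exact Finset.mem_coe.1 h
  · intro h
    refine ⟨Finset.mem_coe.2 h, ?_⟩
    have h1 := ht h
    unfold nd at h1
    exact (Finset.mem_filter.1 h1).2

theorem GrSum_sub {V : Type*} [Fintype V] (G : SimpleGraph V) : edg G ⊆ nd V :=
  Finset.filter_subset _ _

theorem GrSum_pairs {V : Type*} [Fintype V] {R : Type*} [AddCommMonoid R] (G : SimpleGraph V)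
    (h : V → V → R) (f : Sym2 V → R) (hf : ∀ u v, f s(u, v) = h u v + h v u) :
    ∑ p ∈ (Finset.univ : Finset (V × V)).filter (fun p => G.Adj p.1 p.2), h p.1 p.2 =
      ∑ e ∈ edg G, f e := by
  rw [← Finset.sum_fiberwise_of_maps_to (s := (Finset.univ : Finset (V × V)).filter
    (fun p => G.Adj p.1 p.2)) (t := edg G) (g := fun p => s(p.1, p.2))]
  · refine Finset.sum_congr rfl fun e he => ?_
    rw [GrSum_mem] at he
    induction e using Sym2.ind with
    | _ a b =>
      have hab : G.Adj a b := he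
      have hne : a ≠ b := hab.ne
      have h1 : ((Finset.univ : Finset (V × V)).filter (fun p => G.Adj p.1 p.2)).filter
          (fun p => s(p.1, p.2) = s(a, b)) = {(a, b), (b, a)} := by
        ext ⟨u, v⟩
        simp only [Finset.mem_filter, Finset.mem_univ, true_and, Finset.mem_insert,
          Finset.mem_singleton, Sym2.eq_iff, Prod.mk.injEq]
        constructor
        · rintro ⟨-, h2⟩
          exact h2
        · rintro (⟨rfl, rfl⟩ | ⟨rfl, rfl⟩)
          · exact ⟨hab, Or.inl ⟨rfl, rfl⟩⟩
          · exact ⟨hab.symm, Or.inr ⟨rfl, rfl⟩⟩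
      rw [h1, Finset.sum_pair, hf]
      intro h2
      exact hne (congrArg Prod.fst h2)
  · intro p hp
    rw [GrSum_mem]
    exact (Finset.mem_filter.1 hp).2

theorem sum_graph_prod {V : Type*} [Fintype V] [DecidableEq V] (w : Sym2 V → ℂ) :
    ∑ G : SimpleGraph V, ∏ e ∈ edg G, w e = ∏ e ∈ nd V, (1 + w e) := by
  rw [Finset.prod_one_add]
  refine Finset.sum_nbij' (fun G => edg G)
    (fun t => SimpleGraph.fromEdgeSet (t : Set (Sym2 V))) ?_ ?_ ?_ ?_ ?_
  · intro G _
    exact Finset.mem_powerset.2 (GrSum_sub G)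
  · intro t _
    exact Finset.mem_univ _
  · intro G _
    exact GrSum_left G
  · intro t ht
    exact GrSum_right t (Finset.mem_powerset.1 ht)
  · intro G _
    rfl

theorem card_graph {V : Type*} [Fintype V] [DecidableEq V] :
    Fintype.card (SimpleGraph V) = 2 ^ (nd V).card := by
  rw [← Finset.card_powerset, ← Finset.card_univ]
  refine Finset.card_nbij' (fun G => edg G)
    (fun t => SimpleGraph.fromEdgeSet (t : Set (Sym2 V))) ?_ ?_ ?_ ?_
  · intro G _
    exact Finset.mem_coe.2 (Finset.mem_powerset.2 (GrSum_sub G))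
  · intro t _
    exact Finset.mem_coe.2 (Finset.mem_univ _)
  · intro G _
    exact GrSum_left G
  · intro t ht
    exact GrSum_right t (Finset.mem_powerset.1 ht)

theorem edge_sum {N r : ℕ} {V : Type*} [Fintype V] [DecidableEq V] (G : SimpleGraph V)
    (F y : Matrix V (Fin r) (ZMod N)) :
    ∑ v, y v ⬝ᵥ (adj (ZMod N) G * F) v = ∑ e ∈ edg G, pr F y e := by
  rw [← GrSum_pairs G (fun v u => y v ⬝ᵥ F u) (pr F y) (fun u v => pr_mk F y u v)]
  rw [Finset.sum_filter, ← Finset.univ_product_univ, Finset.sum_product]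
  refine Finset.sum_congr rfl fun v _ => ?_
  have h1 : (adj (ZMod N) G * F) v = ∑ u, (if G.Adj v u then F u else 0) := by
    funext k
    rw [Matrix.mul_apply, Finset.sum_apply]
    refine Finset.sum_congr rfl fun u _ => ?_
    unfold adj
    rw [Matrix.of_apply]
    split_ifs with h
    · rw [one_mul]
    · rw [zero_mul]
      rfl
  rw [h1, dotProduct_sum]
  refine Finset.sum_congr rfl fun u _ => ?_
  split_ifs with h
  · rfl
  · exact dotProduct_zero _

end Pool.Agent.H71.DG
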