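import Pool.Agent.H71.DG.MDefs

/-!
# DG-18: growth lemma (M3)

PROOF.  `K = Fin d → ZMod p`.  For `b ≠ 0` and `x` let `f b x = #{c : ZMod p | x + c • b ∈ T}`.  Two
different points `x, y` of `T` give `f (y - x) x ≥ 2`, so the maximum `f₀` of `f b x` over `b ≠ 0`, `x` is
`≥ 2`; take `b, x` with `f b x = f₀` and `A = {c | x + c • b ∈ T} ⊆ ZMod p`, `|A| = f₀`.
`D = A - A`: for `c ∈ D`, `c • b = t - t' = t + (-t')` is a sum of two elements of `T`.  By
Cauchy-Davenport (`ZMod.cauchy_davenport`) `|D| ≥ min p (2 f₀ - 1)` and the `j`-fold sumset `jD` has at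
least `min p (j (|D| - 1) + 1)` elements; `c ∈ jD` implies `c • b` is a sum of `2 j` elements of `T`.
If `jD` were everything then `T'` contains `0 + c • b` for all `c` (pad by `0 ∈ T`), against `hline`.
So `|jD| ≥ j (2 f₀ - 2) + 1 ≥ j f₀` (also `|D| ≥ 2 f₀ - 1` because otherwise `|D| ≥ p`).
For every coset `Q` of the line `{c • b}` that meets `T` choose `y ∈ T ∩ Q`; `y + c • b ∈ T' ∩ Q` for
all `c ∈ jD`; so `|T' ∩ Q| ≥ j f₀ ≥ j |T ∩ Q|`.  Sum over the cosets.
-/

set_option autoImplicit false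

namespace Pool.Agent.H71.DG

open Matrix Classical Pool.Agent.H66.SP

theorem growth_sum {p d n : ℕ} {T : Finset (Fin d → ZMod p)} {y z : Fin d → ZMod p}
    (h : ∃ t : Fin n → Fin d → ZMod p, (∀ l, t l ∈ T) ∧ ∑ l, t l = y) (hz : z ∈ T) :
    ∃ t : Fin (n + 1) → Fin d → ZMod p, (∀ l, t l ∈ T) ∧ ∑ l, t l = y + z := by
  obtain ⟨t, h1, h2⟩ := h
  refine ⟨Fin.snoc t z, ?_, ?_⟩
  · intro l
    refine Fin.lastCases ?_ (fun i => ?_) l
    · rw [Fin.snoc_last]
      exact hz
    · rw [Fin.snoc_castSucc]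
      exact h1 i
  · rw [Fin.sum_univ_castSucc]
    simp [h2]

open Pointwise in
theorem growth_iter {p d : ℕ} [Fact p.Prime] {T : Finset (Fin d → ZMod p)}
    (hn : ∀ x ∈ T, -x ∈ T) (x b : Fin d → ZMod p) (A : Finset (ZMod p)) (hA0 : A.Nonempty)
    (hA : ∀ c ∈ A, x + c • b ∈ T) (j : ℕ) :
    ∃ S : Finset (ZMod p), min p (j * ((A - A).card - 1) + 1) ≤ S.card ∧
      ∀ c ∈ S, ∃ t : Fin (2 * j) → Fin d → ZMod p, (∀ l, t l ∈ T) ∧ ∑ l, t l = c • b := by
  have hp : p.Prime := Fact.out
  have hD0 : (A - A).Nonempty := hA0.sub hA0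
  have hD1 : 1 ≤ (A - A).card := hD0.card_pos
  induction j with
  | zero =>
    refine ⟨{0}, ?_, ?_⟩
    · rw [Finset.card_singleton]
      omega
    · intro c hc
      rw [Finset.mem_singleton] at hc
      refine ⟨fun l => l.elim0, fun l => l.elim0, ?_⟩
      rw [hc]
      simp
  | succ j ih =>
    obtain ⟨S, h1, h2⟩ := ih
    have hS : S.Nonempty := by
      rw [← Finset.card_pos]
      have := hp.pos
      omega
    refine ⟨S + (A - A), ?_, ?_⟩
    · have h3 := ZMod.cauchy_davenport hp hS hD0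
      have e : (j + 1) * ((A - A).card - 1) = j * ((A - A).card - 1) + ((A - A).card - 1) := by
        ring
      rw [e]
      generalize j * ((A - A).card - 1) = w at *
      omega
    · intro c hc
      rw [Finset.mem_add] at hc
      obtain ⟨c1, h3, a, ha, rfl⟩ := hc
      rw [Finset.mem_sub] at ha
      obtain ⟨a1, ha1, a2, ha2, rfl⟩ := ha
      obtain ⟨t, h4, h5⟩ := growth_sum (growth_sum (h2 c1 h3) (hA a1 ha1)) (hn _ (hA a2 ha2))
      refine ⟨t, h4, h5.trans ?_⟩
      rw [add_smul, sub_smul]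
      abel

open Pointwise in
theorem growth {p : ℕ} [Fact p.Prime] {d : ℕ} (T T' : Finset (Fin d → ZMod p))
    (h0 : (0 : Fin d → ZMod p) ∈ T) (hn : ∀ x ∈ T, -x ∈ T) (hT : 2 ≤ T.card) (j : ℕ)
    (hj : 1 ≤ j)
    (hT' : ∀ t : Fin (2 * j + 1) → Fin d → ZMod p, (∀ l, t l ∈ T) → ∑ l, t l ∈ T')
    (hline : ∀ x b : Fin d → ZMod p, b ≠ 0 → ∃ c : ZMod p, x + c • b ∉ T') :
    j * T.card ≤ T'.card := by
  have hp : p.Prime := Fact.out
  obtain ⟨f, hf⟩ : ∃ f : (Fin d → ZMod p) × (Fin d → ZMod p) → Finset (ZMod p),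
      ∀ w c, c ∈ f w ↔ w.2 + c • w.1 ∈ T :=
    ⟨fun w => Finset.univ.filter (fun c => w.2 + c • w.1 ∈ T), fun w c => by simp⟩
  obtain ⟨u, hu, v, hv, huv⟩ := Finset.one_lt_card.1 (show 1 < T.card by omega)
  have huv' : v - u ≠ 0 := sub_ne_zero.2 (Ne.symm huv)
  have h2 : 2 ≤ (f (v - u, u)).card := by
    have hsub : ({0, 1} : Finset (ZMod p)) ⊆ f (v - u, u) := by
      intro c hc
      rw [Finset.mem_insert, Finset.mem_singleton] at hc
      rw [hf]
      rcases hc with rfl | rfl
      · simpa using hu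
      · simpa using hv
    calc 2 = ({0, 1} : Finset (ZMod p)).card := by
            rw [Finset.card_pair zero_ne_one]
      _ ≤ _ := Finset.card_le_card hsub
  obtain ⟨⟨b, x⟩, hb, hmax⟩ := Finset.exists_max_image
    (Finset.univ.filter (fun w : (Fin d → ZMod p) × (Fin d → ZMod p) => w.1 ≠ 0))
    (fun w => (f w).card) ⟨(v - u, u), by simpa using huv'⟩
  have hb0 : b ≠ 0 := by simpa using hb
  have hmax' : ∀ y, (f (b, y)).card ≤ (f (b, x)).card := fun y => hmax (b, y) (by simpa using hb0)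
  have h22 : 2 ≤ (f (b, x)).card := h2.trans (hmax (v - u, u) (by simpa using huv'))
  have hA0 : (f (b, x)).Nonempty := by
    rw [← Finset.card_pos]
    omega
  obtain ⟨S, hS1, hS2⟩ := growth_iter hn x b (f (b, x)) hA0 (fun c hc => (hf _ c).1 hc) j
  have hST : ∀ y ∈ T, ∀ c ∈ S, y + c • b ∈ T' := by
    intro y hy c hc
    obtain ⟨t, h4, h5⟩ := growth_sum (hS2 c hc) hy
    rw [add_comm, ← h5]
    exact hT' t h4
  have hSp : S.card < p := by
    obtain ⟨c, hc⟩ := hline 0 b hb0
    have hcS : c ∉ S := fun h => hc (hST 0 h0 c h)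
    have : S.card < Fintype.card (ZMod p) := Finset.card_lt_univ_of_notMem hcS
    rwa [ZMod.card] at this
  have hD := ZMod.cauchy_davenport hp hA0 hA0.neg
  rw [← sub_eq_add_neg, Finset.card_neg] at hD
  have hSf : j * (f (b, x)).card ≤ S.card := by
    generalize hDc : (f (b, x) - f (b, x)).card = D at *
    generalize (f (b, x)).card = F at *
    have h5 : D - 1 ≤ j * (D - 1) := Nat.le_mul_of_pos_left _ hj
    have h6 : j * (D - 1) + 1 ≤ S.card := by omega
    have h7 : 2 * F - 1 ≤ D := by omega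
    have h8 : j * F ≤ j * (D - 1) := Nat.mul_le_mul_left j (by omega)
    omega
  obtain ⟨π, hπ⟩ : ∃ π : (Fin d → ZMod p) → ((Fin d → ZMod p) ⧸ (Submodule.span (ZMod p) {b})),
      ∀ y z, π y = π z ↔ ∃ c : ZMod p, z = y + c • b := by
    refine ⟨Submodule.Quotient.mk, fun y z => ?_⟩
    rw [eq_comm, Submodule.Quotient.eq, Submodule.mem_span_singleton]
    constructor
    · rintro ⟨c, hc⟩
      exact ⟨c, by rw [hc]; abel⟩
    · rintro ⟨c, hc⟩
      exact ⟨c, by rw [hc]; abel⟩
  have hfib : ∀ q ∈ T.image π, j * (T.filter (fun t => π t = q)).card ≤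
      (T'.filter (fun t => π t = q)).card := by
    intro q hq
    obtain ⟨y, hy, rfl⟩ := Finset.mem_image.1 hq
    have h7 : (T.filter (fun t => π t = π y)).card ≤ (f (b, y)).card := by
      have hsub : T.filter (fun t => π t = π y) ⊆ (f (b, y)).image (fun c => y + c • b) := by
        intro z hz
        rw [Finset.mem_filter] at hz
        obtain ⟨c, hc⟩ := (hπ y z).1 hz.2.symm
        rw [Finset.mem_image]
        exact ⟨c, (hf _ c).2 (by rw [← hc]; exact hz.1), hc.symm⟩
      exact (Finset.card_le_card hsub).trans Finset.card_image_le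
    have h8 : S.card ≤ (T'.filter (fun t => π t = π y)).card := by
      have hinj : Function.Injective (fun c : ZMod p => y + c • b) := by
        intro c c' hcc
        have h9 : c • b = c' • b := add_left_cancel hcc
        exact smul_left_injective _ hb0 h9
      rw [← Finset.card_image_of_injective S hinj]
      apply Finset.card_le_card
      intro z hz
      rw [Finset.mem_image] at hz
      obtain ⟨c, hc, rfl⟩ := hz
      rw [Finset.mem_filter]
      exact ⟨hST y hy c hc, ((hπ _ _).2 ⟨c, rfl⟩).symm⟩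
    calc j * (T.filter (fun t => π t = π y)).card ≤ j * (f (b, x)).card :=
          Nat.mul_le_mul_left j (h7.trans (hmax' y))
      _ ≤ S.card := hSf
      _ ≤ _ := h8
  have hc1 : T.card = ∑ q ∈ T.image π, (T.filter (fun t => π t = q)).card :=
    Finset.card_eq_sum_card_image π T
  have hc2 : ∑ q ∈ T.image π, (T'.filter (fun t => π t = q)).card ≤ T'.card := by
    rw [← Finset.card_biUnion]
    · apply Finset.card_le_card
      intro z hz
      rw [Finset.mem_biUnion] at hz
      obtain ⟨q, -, hq⟩ := hz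
      exact (Finset.mem_filter.1 hq).1
    · intro q _ q' _ hqq
      rw [Function.onFun, Finset.disjoint_left]
      intro z hz hz'
      rw [Finset.mem_filter] at hz hz'
      exact hqq (hz.2.symm.trans hz'.2)
  calc j * T.card = ∑ q ∈ T.image π, j * (T.filter (fun t => π t = q)).card := by
        rw [hc1, Finset.mul_sum]
    _ ≤ ∑ q ∈ T.image π, (T'.filter (fun t => π t = q)).card := Finset.sum_le_sum hfib
    _ ≤ T'.card := hc2

end Pool.Agent.H71.DG
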