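import Pool.Agent.H71.DG.MDefs
import Pool.Agent.H66.SP.Odl
import Pool.Agent.H66.SP.GEquiv
import Pool.Agent.H95.SQ.Desc2

/-!
# DG-27: Krylov lemma, linear algebra (M11)

PROOFS.  `card_affine_le`: the affine version of `card_orth_le`: `T` a set of `dim E` pivot coordinates
(`exists_pivots`); two solutions `b, b'` of `∀ x ∈ E, b . x = c x` that agree outside `T` are equal (their
difference is orthogonal to `E`; as in `orth_ext`).  `card_mulVec_le`: the solutions `b` of `M *ᵥ b = c`
(`M` square, symmetric is not needed): let `E` be the row space of `M`, `dim E = n - dim ker M`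
(rank-nullity, rank of the transpose).
`finrank_ker_aeval_le`: over an algebraically closed field `g = c ∏ (X - μ_i)`,
`dim ker (f ∘ h) ≤ dim ker f + dim ker h`, so `dim ker g(A) ≤ (natDegree g) * max mult`.  Then descend: the
rank of a matrix over `ZMod p` does not change over `KK p`.
-/

set_option autoImplicit false

namespace Pool.Agent.H71.DG

open Matrix Classical Pool.Agent.H66.SP

theorem Kry1_ext {K : Type*} [Field K] {V : Type*} [Fintype V] [DecidableEq V]
    (E : Submodule K (V → K)) (T : Finset V)
    (hT : LinearIndependent K (fun t : T => coordE E (t : V))) (b c : V → Bool)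
    (hb : ∀ x ∈ E, bv K b ⬝ᵥ x = bv K c ⬝ᵥ x)
    (hbc : ∀ v, v ∉ T → b v = c v) : b = c := by
  have h0 : ∑ t : T, (bv K b (t : V) - bv K c (t : V)) • coordE E (t : V) = 0 := by
    apply LinearMap.ext
    intro x
    rw [LinearMap.sum_apply, LinearMap.zero_apply]
    have h1 : (bv K b - bv K c) ⬝ᵥ (x : V → K) = 0 := by
      rw [sub_dotProduct, hb _ x.2, sub_self]
    rw [← h1, dotProduct]
    rw [← Finset.sum_subset (Finset.subset_univ T) (fun v _ hv => by
      rw [Pi.sub_apply, show bv K b v = bv K c v by unfold bv; rw [hbc v hv], sub_self, zero_mul])]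
    rw [← Finset.sum_coe_sort T (fun v => (bv K b - bv K c) v * (x : V → K) v)]
    apply Finset.sum_congr rfl
    intro t _
    rw [LinearMap.smul_apply, coordE_apply, smul_eq_mul, Pi.sub_apply]
  have h2 := Fintype.linearIndependent_iff.1 hT _ h0
  ext v
  by_cases hv : v ∈ T
  · have h3 := h2 ⟨v, hv⟩
    simp only [bv] at h3
    by_cases h4 : b v = true <;> by_cases h5 : c v = true
    · rw [h4, h5]
    · rw [if_pos h4, if_neg h5, sub_zero] at h3
      exact absurd h3 one_ne_zero
    · rw [if_neg h4, if_pos h5, zero_sub, neg_eq_zero] at h3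
      exact absurd h3 one_ne_zero
    · simp [h4, h5]
  · rw [hbc v hv]

theorem card_affine_le {K : Type*} [Field K] {V : Type*} [Fintype V] [DecidableEq V]
    (E : Submodule K (V → K)) (c : (V → K) → K) :
    ((Finset.univ : Finset (V → Bool)).filter (fun b => ∀ x ∈ E, bv K b ⬝ᵥ x = c x)).card
      * 2 ^ Module.finrank K E ≤ 2 ^ Fintype.card V := by
  obtain ⟨T, hTc, hT⟩ := exists_pivots E
  have h1 : (2 : ℕ) ^ Module.finrank K E = (Finset.univ : Finset (T → Bool)).card := by
    rw [← hTc]; simp
  have h2 : (2 : ℕ) ^ Fintype.card V = (Finset.univ : Finset (V → Bool)).card := by simp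
  rw [h1, h2, ← Finset.card_product]
  apply Finset.card_le_card_of_injOn
    (fun p : (V → Bool) × (T → Bool) => fun v => if h : v ∈ T then p.2 ⟨v, h⟩ else p.1 v)
  · intro p _; simp
  · rintro ⟨b, f⟩ hb ⟨d, g⟩ hd heq
    simp only [Finset.coe_product, Finset.coe_univ, Set.mem_prod, Finset.coe_filter,
      Finset.mem_univ, true_and, Set.mem_ofPred_eq, Set.mem_univ, and_true] at hb hd
    have hf : f = g := by
      ext t
      have := congrFun heq (t : V)
      simpa [t.2] using this
    have hbd : b = d := by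
      apply Kry1_ext E T hT b d (fun x hx => by rw [hb x hx, hd x hx])
      intro v hv
      have := congrFun heq v
      simpa [hv] using this
    rw [hf, hbd]

theorem card_mulVec_le {K : Type*} [Field K] {V : Type*} [Fintype V] [DecidableEq V]
    (M : Matrix V V K) (c : V → K) :
    ((Finset.univ : Finset (V → Bool)).filter (fun b => M *ᵥ bv K b = c)).card ≤
      2 ^ Module.finrank K (LinearMap.ker M.mulVecLin) := by
  have h1 := card_affine_le (LinearMap.range Mᵀ.mulVecLin)
    (fun x => if h : ∃ y, Mᵀ *ᵥ y = x then c ⬝ᵥ h.choose else 0)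
  have h2 : Module.finrank K (LinearMap.range Mᵀ.mulVecLin) = M.rank := by
    rw [← Matrix.rank_transpose M]
    rfl
  have h3 := LinearMap.finrank_range_add_finrank_ker M.mulVecLin
  rw [Module.finrank_fintype_fun_eq_card] at h3
  have h4 : Module.finrank K (LinearMap.range M.mulVecLin) = M.rank := rfl
  rw [h4] at h3
  rw [h2, ← h3, pow_add] at h1
  have h5 : ((Finset.univ : Finset (V → Bool)).filter (fun b => M *ᵥ bv K b = c)).card ≤
      ((Finset.univ : Finset (V → Bool)).filter
        (fun b => ∀ x ∈ LinearMap.range Mᵀ.mulVecLin, bv K b ⬝ᵥ x =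
          if h : ∃ y, Mᵀ *ᵥ y = x then c ⬝ᵥ h.choose else 0)).card := by
    apply Finset.card_le_card
    intro b hb
    rw [Finset.mem_filter] at hb ⊢
    refine ⟨Finset.mem_univ _, ?_⟩
    rintro x ⟨y, hy⟩
    rw [Matrix.mulVecLin_apply] at hy
    have hex : ∃ y, Mᵀ *ᵥ y = x := ⟨y, hy⟩
    rw [dif_pos hex]
    have h6 := hex.choose_spec
    rw [← hb.2]
    conv_lhs => rw [← h6]
    rw [Matrix.dotProduct_mulVec, Matrix.vecMul_transpose]
  have h7 : 0 < 2 ^ M.rank := by positivity
  refine h5.trans ?_
  by_contra hcon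
  push Not at hcon
  have h8 := Nat.mul_lt_mul_of_pos_right hcon h7
  rw [mul_comm (2 ^ M.rank)] at h1
  exact absurd h8 (not_lt.mpr h1)

theorem Kry1_ker_mul {K : Type*} [Field K] {V : Type*} [Fintype V] [DecidableEq V]
    (M N : Matrix V V K) :
    Module.finrank K (LinearMap.ker (M * N).mulVecLin) ≤
      Module.finrank K (LinearMap.ker M.mulVecLin) + Module.finrank K (LinearMap.ker N.mulVecLin) := by
  have h1 := LinearMap.finrank_range_add_finrank_ker
    (N.mulVecLin.domRestrict (LinearMap.ker (M * N).mulVecLin))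
  rw [← h1]
  apply add_le_add
  · apply Submodule.finrank_mono
    rintro x ⟨⟨y, hy⟩, rfl⟩
    rw [LinearMap.mem_ker, Matrix.mulVecLin_mul] at hy
    exact hy
  · apply LinearMap.finrank_le_finrank_of_injective
      (f := ((LinearMap.ker (M * N).mulVecLin).subtype.comp
        (LinearMap.ker (N.mulVecLin.domRestrict (LinearMap.ker (M * N).mulVecLin))).subtype).codRestrict
          (LinearMap.ker N.mulVecLin) (fun x => x.2))
    intro x y hxy
    have h2 := congrArg Subtype.val hxy
    exact Subtype.ext (Subtype.ext h2)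

theorem Kry1_alg {K : Type*} [Field K] [IsAlgClosed K] {V : Type*} [Fintype V] [DecidableEq V]
    (A : Matrix V V K) (s : ℕ) (hA : ∀ μ : K, mult A μ ≤ s) (n : ℕ) :
    ∀ g : Polynomial K, g ≠ 0 → g.natDegree = n →
      Module.finrank K (LinearMap.ker (Polynomial.aeval A g).mulVecLin) ≤ n * s := by
  induction n with
  | zero =>
    intro g hg hn
    rw [Polynomial.natDegree_eq_zero] at hn
    obtain ⟨a, rfl⟩ := hn
    have ha : a ≠ 0 := by
      rintro rfl
      exact hg (by simp)
    rw [Polynomial.aeval_C, zero_mul, Nat.le_zero]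
    have h1 : LinearMap.ker (algebraMap K (Matrix V V K) a).mulVecLin = ⊥ := by
      rw [LinearMap.ker_eq_bot']
      intro x hx
      rw [Matrix.mulVecLin_apply, Algebra.algebraMap_eq_smul_one, Matrix.smul_mulVec,
        Matrix.one_mulVec] at hx
      exact (smul_eq_zero.mp hx).resolve_left ha
    rw [h1, finrank_bot]
  | succ n ih =>
    intro g hg hn
    have hd : g.degree ≠ 0 := by
      intro h
      have h0 := Polynomial.natDegree_eq_of_degree_eq_some (n := 0) h
      omega
    obtain ⟨μ, hμ⟩ := IsAlgClosed.exists_root g hd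
    obtain ⟨h, rfl⟩ := Polynomial.dvd_iff_isRoot.mpr hμ
    have hh : h ≠ 0 := right_ne_zero_of_mul hg
    have hdeg : h.natDegree = n := by
      rw [Polynomial.natDegree_mul (Polynomial.X_sub_C_ne_zero μ) hh,
        Polynomial.natDegree_X_sub_C] at hn
      omega
    have h1 := ih h hh hdeg
    rw [map_mul]
    refine (Kry1_ker_mul _ _).trans ?_
    have h2 : Module.finrank K
        (LinearMap.ker (Polynomial.aeval A (Polynomial.X - Polynomial.C μ)).mulVecLin) ≤ s := by
      have h3 : LinearMap.ker (Polynomial.aeval A (Polynomial.X - Polynomial.C μ)).mulVecLin =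
          eig A μ := by
        ext x
        rw [mem_eig, LinearMap.mem_ker, Matrix.mulVecLin_apply, map_sub, Polynomial.aeval_X,
          Polynomial.aeval_C, Matrix.sub_mulVec, Algebra.algebraMap_eq_smul_one, Matrix.smul_mulVec,
          Matrix.one_mulVec, sub_eq_zero]
      rw [h3]
      exact hA μ
    rw [add_mul, one_mul, add_comm]
    exact add_le_add h1 h2

theorem Kry1_ker_map (F K : Type*) [Field F] [Field K] [Algebra F K] {V : Type*} [Fintype V]
    [DecidableEq V] (M : Matrix V V F) :
    Module.finrank F (LinearMap.ker M.mulVecLin) ≤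
      Module.finrank K (LinearMap.ker (M.map (algebraMap F K)).mulVecLin) := by
  obtain ⟨C, D, hCD, hC, -⟩ := Pool.Agent.H95.SQ.exists_basis_matrix (LinearMap.ker M.mulVecLin)
  have h1 : (C.map (algebraMap F K)) * (D.map (algebraMap F K)) = 1 := by
    rw [← Matrix.map_mul, hCD, Matrix.map_one _ (map_zero _) (map_one _)]
  have hM : ∀ y : Fin (Module.finrank F (LinearMap.ker M.mulVecLin)) → K,
      (C.map (algebraMap F K)).vecMulLinear y ∈ LinearMap.ker (M.map (algebraMap F K)).mulVecLin := by
    intro y
    rw [LinearMap.mem_ker, Matrix.mulVecLin_apply, Matrix.vecMulLinear_apply,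
      ← Matrix.mulVec_transpose, Matrix.mulVec_mulVec]
    have h2 : M * Cᵀ = 0 := by
      ext i j
      have h3 := hC j
      rw [LinearMap.mem_ker, Matrix.mulVecLin_apply] at h3
      exact congrFun h3 i
    rw [← Matrix.transpose_map, ← Matrix.map_mul, h2, Matrix.map_zero _ (map_zero _),
      Matrix.zero_mulVec]
  have h3 := LinearMap.finrank_le_finrank_of_injective
    (f := (C.map (algebraMap F K)).vecMulLinear.codRestrict
      (LinearMap.ker (M.map (algebraMap F K)).mulVecLin) hM) (by
      intro x y hxy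
      have h4 : x ᵥ* (C.map (algebraMap F K)) = y ᵥ* (C.map (algebraMap F K)) :=
        congrArg Subtype.val hxy
      have h5 := congrArg (fun z => z ᵥ* (D.map (algebraMap F K))) h4
      simp only [Matrix.vecMul_vecMul, h1, Matrix.vecMul_one] at h5
      exact h5)
  rw [Module.finrank_fin_fun] at h3
  exact h3

theorem finrank_ker_aeval_le (p : ℕ) [Fact p.Prime] {V : Type*} [Fintype V] [DecidableEq V]
    (G : SimpleGraph V) (s : ℕ) (hG : ∀ μ : KK p, mult (adj (KK p) G) μ ≤ s)
    (g : Polynomial (ZMod p)) (hg : g ≠ 0) :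
    Module.finrank (ZMod p)
      (LinearMap.ker (Polynomial.aeval (adj (ZMod p) G) g).mulVecLin) ≤ g.natDegree * s := by
  refine (Kry1_ker_map (ZMod p) (KK p) _).trans ?_
  have h1 : (Polynomial.aeval (adj (ZMod p) G) g).map (algebraMap (ZMod p) (KK p)) =
      Polynomial.aeval (adj (KK p) G) (g.map (algebraMap (ZMod p) (KK p))) := by
    have h2 : (adj (KK p) G) = (adj (ZMod p) G).map (algebraMap (ZMod p) (KK p)) := by
      ext i j
      simp only [adj, Matrix.of_apply, Matrix.map_apply]
      split_ifs
      · exact (map_one _).symm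
      · exact (map_zero _).symm
    rw [h2, Polynomial.aeval_map_algebraMap]
    have h3 := Polynomial.aeval_algHom_apply
      ((Algebra.ofId (ZMod p) (KK p)).mapMatrix (m := V)) (adj (ZMod p) G) g
    exact h3.symm
  rw [h1]
  have hg2 : g.map (algebraMap (ZMod p) (KK p)) ≠ 0 :=
    (Polynomial.map_ne_zero_iff (algebraMap (ZMod p) (KK p)).injective).mpr hg
  have h4 := Kry1_alg (adj (KK p) G) s hG _ _ hg2 rfl
  rw [Polynomial.natDegree_map] at h4
  exact h4

end Pool.Agent.H71.DG
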