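import Pool.Agent.H71.DG.Kry1

/-!
# DG-28: Krylov lemma for one vector (M11)

`G` on `W ⊕ Unit` is `ext G₀ b`; `v = (v', β)`, `β = v (inr ()) ≠ 0`.
PROOF `kry_ext`: let `h` be monic of degree `d' ≤ d` with `h(A) v = 0` (`d' ≥ 1`).  Put
`β_i = (A^i v)_(inr ())`, `z_i` = the restriction of `A^i v` to `W`, `x = bv b`.  Then `z_0 = v'`,
`z_{i+1} = A₀ z_i + β_i x`, so `z_i = A₀^i v' + ∑_{l<i} β_l A₀^(i-1-l) x`, and `h(A) v = 0` restricted to `W`
says `g(A₀) x = -h(A₀) v'`, with `g = ∑_{i=1}^{d'} h_i ∑_{l<i} β_l X^(i-1-l)`, of degree `d'-1` with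
leading coefficient `β_0 ≠ 0`.  `g` is determined by `h` (`p^d'` choices) and `β_1..β_{d'-1}`
(`p^(d'-1)` choices, `β_0 = β` fixed).  For each choice at most `2^(dim ker g(A₀)) ≤ 2^((d'-1) s)`
vectors `b` (`card_mulVec_le`, `finrank_ker_aeval_le`).  Sum over `d' = 1..d`:
`≤ d p^(2d) 2^((d-1) s)`.
-/

set_option autoImplicit false

namespace Pool.Agent.H71.DG

open Matrix Classical Pool.Agent.H66.SP

/-- the polynomial `g` -/
noncomputable def Kry2_g {K : Type*} [Field K] (h : Polynomial K) (β : ℕ → K) : Polynomial K :=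
  ∑ i ∈ Finset.range (h.natDegree + 1), Polynomial.C (h.coeff i) *
    ∑ l ∈ Finset.range i, Polynomial.C (β l) * Polynomial.X ^ (i - 1 - l)

theorem Kry2_deg {K : Type*} [Field K] (h : Polynomial K) (β : ℕ → K) :
    (Kry2_g h β).natDegree ≤ h.natDegree - 1 := by
  unfold Kry2_g
  refine Polynomial.natDegree_sum_le_of_forall_le _ _ fun i hi => ?_
  refine (Polynomial.natDegree_C_mul_le _ _).trans ?_
  refine Polynomial.natDegree_sum_le_of_forall_le _ _ fun l hl => ?_
  refine (Polynomial.natDegree_C_mul_X_pow_le _ _).trans ?_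
  have := Finset.mem_range.1 hi
  omega

theorem Kry2_coeff {K : Type*} [Field K] (h : Polynomial K) (β : ℕ → K) (hn : 1 ≤ h.natDegree) :
    (Kry2_g h β).coeff (h.natDegree - 1) = h.leadingCoeff * β 0 := by
  unfold Kry2_g
  rw [Polynomial.finsetSum_coeff, Finset.sum_eq_single h.natDegree]
  · rw [Polynomial.coeff_C_mul, Polynomial.finsetSum_coeff, Finset.sum_eq_single 0]
    · rw [Polynomial.coeff_C_mul_X_pow, if_pos (by omega)]
      rfl
    · intro l hl h0
      have := Finset.mem_range.1 hl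
      rw [Polynomial.coeff_C_mul_X_pow, if_neg (by omega)]
    · intro h0
      exact absurd (Finset.mem_range.2 (by omega)) h0
  · intro i hi h0
    have h1 := Finset.mem_range.1 hi
    rw [Polynomial.coeff_C_mul, Polynomial.finsetSum_coeff, Finset.sum_eq_zero, mul_zero]
    intro l hl
    have := Finset.mem_range.1 hl
    rw [Polynomial.coeff_C_mul_X_pow, if_neg (by omega)]
  · intro h0
    exact absurd (Finset.mem_range.2 (by omega)) h0

theorem Kry2_ne {K : Type*} [Field K] (h : Polynomial K) (β : ℕ → K) (hn : 1 ≤ h.natDegree)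
    (hβ : β 0 ≠ 0) : Kry2_g h β ≠ 0 := by
  intro h0
  have h1 := Kry2_coeff h β hn
  rw [h0, Polynomial.coeff_zero] at h1
  have h2 : h.leadingCoeff ≠ 0 := by
    intro h3
    rw [Polynomial.leadingCoeff_eq_zero] at h3
    rw [h3, Polynomial.natDegree_zero] at hn
    omega
  exact (mul_ne_zero h2 hβ) h1.symm

theorem Kry2_congr {K : Type*} [Field K] (h : Polynomial K) (β β' : ℕ → K)
    (H : ∀ l < h.natDegree, β l = β' l) : Kry2_g h β = Kry2_g h β' := by
  unfold Kry2_g
  refine Finset.sum_congr rfl fun i hi => ?_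
  have h1 := Finset.mem_range.1 hi
  congr 1
  refine Finset.sum_congr rfl fun l hl => ?_
  have := Finset.mem_range.1 hl
  rw [H l (by omega)]

theorem Kry2_mulVec {K : Type*} [Field K] {W : Type*} [Fintype W] [DecidableEq W]
    (A : Matrix W W K) (h : Polynomial K) (β : ℕ → K) (x : W → K) :
    Polynomial.aeval A (Kry2_g h β) *ᵥ x = ∑ i ∈ Finset.range (h.natDegree + 1), h.coeff i •
      ∑ l ∈ Finset.range i, β l • (A ^ (i - 1 - l) *ᵥ x) := by
  unfold Kry2_g
  rw [map_sum, Matrix.sum_mulVec]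
  refine Finset.sum_congr rfl fun i _ => ?_
  rw [map_mul, Polynomial.aeval_C, ← Algebra.smul_def, Matrix.smul_mulVec, map_sum,
    Matrix.sum_mulVec]
  congr 1
  refine Finset.sum_congr rfl fun l _ => ?_
  rw [map_mul, Polynomial.aeval_C, ← Algebra.smul_def, Matrix.smul_mulVec, map_pow,
    Polynomial.aeval_X]

theorem Kry2_aeval {K : Type*} [Field K] {W : Type*} [Fintype W] [DecidableEq W]
    (A : Matrix W W K) (h : Polynomial K) (x : W → K) :
    Polynomial.aeval A h *ᵥ x = ∑ i ∈ Finset.range (h.natDegree + 1), h.coeff i •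
      (A ^ i *ᵥ x) := by
  rw [Polynomial.aeval_eq_sum_range, Matrix.sum_mulVec]
  refine Finset.sum_congr rfl fun i _ => ?_
  rw [Matrix.smul_mulVec]

theorem Kry2_inl {K : Type*} [Field K] {W : Type*} [Fintype W]
    (G₀ : SimpleGraph W) (b : W → Bool) (u : W ⊕ Unit → K) (w : W) :
    (adj K (ext G₀ b) *ᵥ u) (Sum.inl w) =
      (adj K G₀ *ᵥ (fun w => u (Sum.inl w))) w + u (Sum.inr ()) * bv K b w := by
  unfold Matrix.mulVec dotProduct
  rw [Fintype.sum_sum_type]
  congr 1
  rw [Finset.univ_unique, Finset.sum_singleton]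
  show (if (ext G₀ b).Adj (Sum.inl w) (Sum.inr ()) then (1 : K) else 0) * u (Sum.inr ()) = _
  have h1 : (ext G₀ b).Adj (Sum.inl w) (Sum.inr ()) ↔ b w = true := Iff.rfl
  unfold bv
  by_cases hb : b w = true
  · rw [if_pos (h1.2 hb), if_pos hb]
    ring
  · rw [if_neg (fun h => hb (h1.1 h)), if_neg hb]
    ring

theorem Kry2_pow {K : Type*} [Field K] {W : Type*} [Fintype W] [DecidableEq W]
    (G₀ : SimpleGraph W) (b : W → Bool) (v : W ⊕ Unit → K) (i : ℕ) :
    (fun w => (adj K (ext G₀ b) ^ i *ᵥ v) (Sum.inl w)) =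
      adj K G₀ ^ i *ᵥ (fun w => v (Sum.inl w)) + ∑ l ∈ Finset.range i,
        ((adj K (ext G₀ b) ^ l *ᵥ v) (Sum.inr ())) • (adj K G₀ ^ (i - 1 - l) *ᵥ bv K b) := by
  induction i with
  | zero =>
    rw [pow_zero, pow_zero, Matrix.one_mulVec, Matrix.one_mulVec, Finset.range_zero,
      Finset.sum_empty, add_zero]
  | succ i ih =>
    have h1 : (fun w => (adj K (ext G₀ b) ^ (i + 1) *ᵥ v) (Sum.inl w)) =
        adj K G₀ *ᵥ (fun w => (adj K (ext G₀ b) ^ i *ᵥ v) (Sum.inl w)) +
          ((adj K (ext G₀ b) ^ i *ᵥ v) (Sum.inr ())) • bv K b := by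
      funext w
      rw [pow_succ', ← Matrix.mulVec_mulVec, Kry2_inl]
      rfl
    rw [h1, ih, Matrix.mulVec_add, Matrix.mulVec_mulVec, ← pow_succ', Matrix.mulVec_sum,
      Finset.sum_range_succ, add_assoc]
    congr 1
    congr 1
    · refine Finset.sum_congr rfl fun l hl => ?_
      have := Finset.mem_range.1 hl
      rw [Matrix.mulVec_smul, Matrix.mulVec_mulVec, ← pow_succ']
      congr 3
      omega
    · rw [show i + 1 - 1 - i = 0 by omega, pow_zero, Matrix.one_mulVec]

theorem Kry2_rel {K : Type*} [Field K] {W : Type*} [Fintype W] [DecidableEq W]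
    (G₀ : SimpleGraph W) (b : W → Bool) (v : W ⊕ Unit → K) (h : Polynomial K)
    (H : Polynomial.aeval (adj K (ext G₀ b)) h *ᵥ v = 0) :
    Polynomial.aeval (adj K G₀) (Kry2_g h (fun l => (adj K (ext G₀ b) ^ l *ᵥ v) (Sum.inr ()))) *ᵥ
      bv K b = -(Polynomial.aeval (adj K G₀) h *ᵥ (fun w => v (Sum.inl w))) := by
  rw [eq_neg_iff_add_eq_zero, add_comm, Kry2_mulVec, Kry2_aeval, ← Finset.sum_add_distrib]
  rw [Kry2_aeval] at H
  have h1 : (fun w => (∑ i ∈ Finset.range (h.natDegree + 1), h.coeff i •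
      (adj K (ext G₀ b) ^ i *ᵥ v)) (Sum.inl w)) = 0 := by
    rw [H]
    rfl
  rw [← h1]
  have h2 : (fun w => (∑ i ∈ Finset.range (h.natDegree + 1), h.coeff i •
      (adj K (ext G₀ b) ^ i *ᵥ v)) (Sum.inl w)) = ∑ i ∈ Finset.range (h.natDegree + 1),
        h.coeff i • (fun w => (adj K (ext G₀ b) ^ i *ᵥ v) (Sum.inl w)) := by
    funext w
    rw [Finset.sum_apply, Finset.sum_apply]
    rfl
  rw [h2]
  refine Finset.sum_congr rfl fun i _ => ?_
  rw [Kry2_pow, smul_add]

theorem kry_ext (p : ℕ) [Fact p.Prime] {W : Type*} [Fintype W] [DecidableEq W]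
    (G₀ : SimpleGraph W) (s d : ℕ) (hd : 1 ≤ d) (hG : ∀ μ : KK p, mult (adj (KK p) G₀) μ ≤ s)
    (v : W ⊕ Unit → ZMod p) (hv : v (Sum.inr ()) ≠ 0) :
    ((Finset.univ : Finset (W → Bool)).filter (fun b =>
      ∃ h : Polynomial (ZMod p), h.Monic ∧ h.natDegree ≤ d ∧
        Polynomial.aeval (adj (ZMod p) (ext G₀ b)) h *ᵥ v = 0)).card ≤
      d * p ^ (2 * d) * 2 ^ ((d - 1) * s) := by
  set S := (Finset.univ : Finset (W → Bool)).filter (fun b =>
      ∃ h : Polynomial (ZMod p), h.Monic ∧ h.natDegree ≤ d ∧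
        Polynomial.aeval (adj (ZMod p) (ext G₀ b)) h *ᵥ v = 0) with hS
  have hS1 : ∀ b ∈ S, ∃ h : Polynomial (ZMod p), h.Monic ∧ h.natDegree ≤ d ∧
      Polynomial.aeval (adj (ZMod p) (ext G₀ b)) h *ᵥ v = 0 := by
    intro b hb
    exact (Finset.mem_filter.1 hb).2
  choose! H H1 H2 H3 using hS1
  let β : (W → Bool) → ℕ → ZMod p := fun b l => (adj (ZMod p) (ext G₀ b) ^ l *ᵥ v) (Sum.inr ())
  have hβ0 : ∀ b, β b 0 = v (Sum.inr ()) := by
    intro b
    show (adj (ZMod p) (ext G₀ b) ^ 0 *ᵥ v) (Sum.inr ()) = _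
    rw [pow_zero, Matrix.one_mulVec]
  have Hpos : ∀ b ∈ S, 1 ≤ (H b).natDegree := by
    intro b hb
    by_contra hcon
    have h0 : (H b).natDegree = 0 := by omega
    have h1 : H b = 1 := (H1 b hb).natDegree_eq_zero.1 h0
    have h3 := H3 b hb
    rw [h1, map_one, Matrix.one_mulVec] at h3
    exact hv (congrFun h3 (Sum.inr ()))
  let code : (W → Bool) → ℕ × (Fin d → ZMod p) × (Fin d → ZMod p) := fun b =>
    ((H b).natDegree, fun j => (H b).coeff j, fun l => β b l)
  let t : Finset (ℕ × (Fin d → ZMod p) × (Fin d → ZMod p)) :=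
    Finset.Icc 1 d ×ˢ (Finset.univ ×ˢ Finset.univ)
  have hcode : ∀ b ∈ S, code b ∈ t := by
    intro b hb
    simp only [t, code, Finset.mem_product, Finset.mem_Icc, Finset.mem_univ, and_true]
    exact ⟨Hpos b hb, H2 b hb⟩
  have ht : t.card = d * p ^ (2 * d) := by
    simp only [t, Finset.card_product, Nat.card_Icc, Finset.card_univ, Fintype.card_fun,
      Fintype.card_fin, ZMod.card]
    rw [Nat.add_sub_cancel, ← pow_add, two_mul]
  have key : ∀ c ∈ t, (S.filter (fun b => code b = c)).card ≤ 2 ^ ((d - 1) * s) := by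
    intro c _
    rcases (S.filter (fun b => code b = c)).eq_empty_or_nonempty with h0 | ⟨b0, hb0⟩
    · rw [h0, Finset.card_empty]
      exact Nat.zero_le _
    · obtain ⟨hb0S, hb0c⟩ := Finset.mem_filter.1 hb0
      set g := Kry2_g (H b0) (β b0) with hg
      have hgne : g ≠ 0 := Kry2_ne _ _ (Hpos b0 hb0S) (by rw [hβ0]; exact hv)
      have hgd : g.natDegree ≤ d - 1 := by
        refine (Kry2_deg _ _).trans ?_
        have := H2 b0 hb0S
        omega
      have hsub : S.filter (fun b => code b = c) ⊆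
          (Finset.univ : Finset (W → Bool)).filter (fun b =>
            Polynomial.aeval (adj (ZMod p) G₀) g *ᵥ bv (ZMod p) b =
              -(Polynomial.aeval (adj (ZMod p) G₀) (H b0) *ᵥ (fun w => v (Sum.inl w)))) := by
        intro b hb
        obtain ⟨hbS, hbc⟩ := Finset.mem_filter.1 hb
        rw [← hb0c] at hbc
        have e1 : (H b).natDegree = (H b0).natDegree := congrArg Prod.fst hbc
        have e2 : ∀ j : Fin d, (H b).coeff j = (H b0).coeff j := fun j =>
          congrFun (congrArg (fun x => x.2.1) hbc) j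
        have e3 : ∀ j : Fin d, β b j = β b0 j := fun j =>
          congrFun (congrArg (fun x => x.2.2) hbc) j
        have eH : H b = H b0 := by
          ext j
          rcases lt_trichotomy j (H b0).natDegree with hj | hj | hj
          · exact e2 ⟨j, by have := H2 b0 hb0S; omega⟩
          · have h5 := H1 b hbS
            have h6 := H1 b0 hb0S
            rw [hj]
            rw [Polynomial.Monic, Polynomial.leadingCoeff] at h5 h6
            rw [h6, ← e1, h5]
          · rw [Polynomial.coeff_eq_zero_of_natDegree_lt hj,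
              Polynomial.coeff_eq_zero_of_natDegree_lt (by omega)]
        have eg : g = Kry2_g (H b) (β b) := by
          rw [hg, eH]
          refine Kry2_congr _ _ _ fun l hl => ?_
          exact (e3 ⟨l, by have := H2 b0 hb0S; omega⟩).symm
        rw [Finset.mem_filter]
        refine ⟨Finset.mem_univ _, ?_⟩
        rw [eg, ← eH]
        exact Kry2_rel G₀ b v (H b) (H3 b hbS)
      have h7 := card_mulVec_le (Polynomial.aeval (adj (ZMod p) G₀) g)
        (-(Polynomial.aeval (adj (ZMod p) G₀) (H b0) *ᵥ (fun w => v (Sum.inl w))))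
      have h8 : ((Finset.univ : Finset (W → Bool)).filter (fun b =>
            Polynomial.aeval (adj (ZMod p) G₀) g *ᵥ bv (ZMod p) b =
              -(Polynomial.aeval (adj (ZMod p) G₀) (H b0) *ᵥ
                (fun w => v (Sum.inl w))))).card ≤ 2 ^ ((d - 1) * s) := by
        have h9 : 2 ^ Module.finrank (ZMod p)
            (LinearMap.ker (Polynomial.aeval (adj (ZMod p) G₀) g).mulVecLin) ≤
              2 ^ ((d - 1) * s) := by
          refine Nat.pow_le_pow_right (by norm_num) ?_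
          exact (finrank_ker_aeval_le p G₀ s hG g hgne).trans (Nat.mul_le_mul_right _ hgd)
        refine le_trans (le_of_eq ?_) (h7.trans h9)
        congr
      exact (Finset.card_le_card hsub).trans h8
  have h1 := Finset.card_le_mul_card_image_of_maps_to hcode _ key
  rw [ht, mul_comm] at h1
  exact h1

end Pool.Agent.H71.DG
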