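import Pool.Agent.H71.DG.Mean
import Pool.Agent.H71.DG.Uniq

/-!
# DG-8: Theorem E, case 2: `be` is linear up to few coordinates

Here `Uniq` is also imported.  PROOF.  Let `m' = k₁² m`.  For every `th` there is `al` with
`cost F be th al ≤ m'`: write `th = ∑_l t_l`, `t_l ∈ Th`, `al_l` with `cost (t_l) (al_l) < m`,
`al = ∑ al_l`; `nn (∑_l (al_l . F_j + be_j . t_l)) ≤ k₁ ∑_l nn (..)` (`nn_sum_le`), sum over `j`.
Choose `A th`.  It is unique with that property (`cost_sub`: difference has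
`∑ nn ≤ 4 m' < M`).  Additive: `A (th + th') = A th + A th'`: the vector
`A th + A th' - A (th + th')` has `∑_j nn (· . F_j) ≤ 3 (m' + m' + m') = 9 m' < M` by `nn_sum_le` with
three terms.  So `A` is an additive map `(Fin r → ZMod N) → (Fin r → ZMod N)`, hence given by a matrix
`L` (`AddMonoidHom.toZModLinearMap`, `LinearMap.toMatrix'`): `A th = L *ᵥ th`.  Then
`A th . F_j + be_j . th = th . (Lᵀ *ᵥ F_j + be_j)` so for all `th`
`∑_j nn (th . (be_j + Lᵀ *ᵥ F_j)) ≤ m'`.  Sum over all `th` and exchange: for each `j` with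
`b_j := be_j + Lᵀ *ᵥ F_j ≠ 0` the map `th ↦ th . b_j` is a nonzero additive hom, so
`∑_th nn (th . b_j) ≥ N^r / 20` (`card_div_le_sum_nn`).  Hence `#{j : b_j ≠ 0} N^r/20 ≤ N^r m'`.
-/

set_option autoImplicit false

namespace Pool.Agent.H71.DG

open Matrix Classical Pool.Agent.H66.SP

theorem exists_cheap {N r : ℕ} [NeZero N] {J : Type*} [Fintype J]
    (F be : Matrix J (Fin r) (ZMod N)) (m : ℝ) (k₁ : ℕ)
    (h3 : ∀ th : Fin r → ZMod N, ∃ t : Fin k₁ → Fin r → ZMod N,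
      (∀ l, t l ∈ Th F m be) ∧ ∑ l, t l = th) (th : Fin r → ZMod N) :
    ∃ al : Fin r → ZMod N, cost F be th al ≤ (k₁ : ℝ) ^ 2 * m := by
  obtain ⟨t, ht, rfl⟩ := h3 th
  choose al hal using ht
  refine ⟨∑ l, al l, ?_⟩
  unfold cost
  have h : ∀ j, nn ((∑ l, al l) ⬝ᵥ F j + be j ⬝ᵥ ∑ l, t l) ≤
      (k₁ : ℝ) * ∑ l, nn (al l ⬝ᵥ F j + be j ⬝ᵥ t l) := by
    intro j
    have h2 := nn_sum_le (Finset.univ : Finset (Fin k₁)) (fun l => al l ⬝ᵥ F j + be j ⬝ᵥ t l)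
    rw [Finset.card_univ, Fintype.card_fin, Finset.sum_add_distrib, ← sum_dotProduct,
      ← dotProduct_sum] at h2
    exact h2
  calc ∑ j, nn ((∑ l, al l) ⬝ᵥ F j + be j ⬝ᵥ ∑ l, t l)
      ≤ ∑ j, (k₁ : ℝ) * ∑ l, nn (al l ⬝ᵥ F j + be j ⬝ᵥ t l) := Finset.sum_le_sum fun j _ => h j
    _ = (k₁ : ℝ) * ∑ l, cost F be (t l) (al l) := by
        rw [← Finset.mul_sum, Finset.sum_comm]
        rfl
    _ ≤ (k₁ : ℝ) * ∑ _l : Fin k₁, m := by
        refine mul_le_mul_of_nonneg_left (Finset.sum_le_sum fun l _ => (hal l).le) (Nat.cast_nonneg _)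
    _ = (k₁ : ℝ) ^ 2 * m := by
        rw [Finset.sum_const, Finset.card_univ, Fintype.card_fin, nsmul_eq_mul]
        ring

theorem nn_three {N : ℕ} [NeZero N] (x y z : ZMod N) :
    nn (x + y - z) ≤ 3 * (nn x + nn y + nn z) := by
  have h := nn_sum_le (Finset.univ : Finset (Fin 3)) ![x, y, -z]
  simp only [Fin.sum_univ_three, Finset.card_univ, Fintype.card_fin] at h
  have e : nn (x + y + -z) ≤ ((3 : ℕ) : ℝ) * (nn x + nn y + nn (-z)) := h
  rw [nn_neg] at e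
  rw [sub_eq_add_neg]
  exact_mod_cast e

theorem exists_linear {N r : ℕ} [NeZero N] {J : Type*} [Fintype J]
    (F be : Matrix J (Fin r) (ZMod N)) (m M : ℝ) (k₁ : ℕ) (hm : 0 ≤ m)
    (hmM : 9 * ((k₁ : ℝ) ^ 2 * m) < M)
    (h1 : ∀ lam : Fin r → ZMod N, lam ≠ 0 → M ≤ ∑ j, nn (lam ⬝ᵥ F j))
    (h3 : ∀ th : Fin r → ZMod N, ∃ t : Fin k₁ → Fin r → ZMod N,
      (∀ l, t l ∈ Th F m be) ∧ ∑ l, t l = th) :
    ∃ L : Matrix (Fin r) (Fin r) (ZMod N),
      (((Finset.univ : Finset J).filter (fun j => be j + Lᵀ *ᵥ F j ≠ 0)).card : ℝ) ≤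
        20 * ((k₁ : ℝ) ^ 2 * m) := by
  have hm' : 0 ≤ (k₁ : ℝ) ^ 2 * m := by positivity
  choose A hA using exists_cheap F be m k₁ h3
  have hadd : ∀ th th', A (th + th') = A th + A th' := by
    intro th th'
    by_contra hne
    have hlam : A th + A th' - A (th + th') ≠ 0 := fun h => hne (sub_eq_zero.mp h).symm
    have h4 := h1 _ hlam
    have h5 : ∑ j, nn ((A th + A th' - A (th + th')) ⬝ᵥ F j) ≤
        3 * (cost F be th (A th) + cost F be th' (A th') + cost F be (th + th') (A (th + th'))) := by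
      unfold cost
      rw [← Finset.sum_add_distrib, ← Finset.sum_add_distrib, Finset.mul_sum]
      refine Finset.sum_le_sum fun j _ => ?_
      refine (le_of_eq ?_).trans (nn_three _ _ _)
      congr 1
      rw [sub_dotProduct, add_dotProduct, dotProduct_add]
      ring
    have h6 := hA th
    have h7 := hA th'
    have h8 := hA (th + th')
    linarith
  let f : (Fin r → ZMod N) →+ (Fin r → ZMod N) := AddMonoidHom.mk' A hadd
  let fl : (Fin r → ZMod N) →ₗ[ZMod N] (Fin r → ZMod N) := AddMonoidHom.toZModLinearMap N f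
  let L : Matrix (Fin r) (Fin r) (ZMod N) := LinearMap.toMatrix' fl
  have hL : ∀ th, L *ᵥ th = A th := fun th => LinearMap.toMatrix'_mulVec fl th
  refine ⟨L, ?_⟩
  have hval : ∀ (th : Fin r → ZMod N) (j : J),
      A th ⬝ᵥ F j + be j ⬝ᵥ th = (be j + Lᵀ *ᵥ F j) ⬝ᵥ th := by
    intro th j
    rw [← hL th, add_dotProduct, Matrix.mulVec_transpose, ← Matrix.dotProduct_mulVec,
      dotProduct_comm (L *ᵥ th) (F j), add_comm]
  have hsum : ∀ th : Fin r → ZMod N, ∑ j, nn ((be j + Lᵀ *ᵥ F j) ⬝ᵥ th) ≤ (k₁ : ℝ) ^ 2 * m := by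
    intro th
    have := hA th
    unfold cost at this
    simp only [hval] at this
    exact this
  set S := (Finset.univ : Finset J).filter (fun j => be j + Lᵀ *ᵥ F j ≠ 0) with hS
  have hcard : (0 : ℝ) < (Fintype.card (Fin r → ZMod N) : ℝ) := by
    exact_mod_cast Fintype.card_pos
  have hlow : ∀ j ∈ S, (Fintype.card (Fin r → ZMod N) : ℝ) / 20 ≤
      ∑ th : Fin r → ZMod N, nn ((be j + Lᵀ *ᵥ F j) ⬝ᵥ th) := by
    intro j hj
    have hb : be j + Lᵀ *ᵥ F j ≠ 0 := (Finset.mem_filter.mp hj).2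
    let g : (Fin r → ZMod N) →+ ZMod N :=
      AddMonoidHom.mk' (fun th => (be j + Lᵀ *ᵥ F j) ⬝ᵥ th) (fun a b => dotProduct_add _ _ _)
    have hg : g ≠ 0 := by
      intro h0
      apply hb
      funext i
      have : g (Pi.single i 1) = 0 := by rw [h0]; rfl
      have h9 : g (Pi.single i 1) = (be j + Lᵀ *ᵥ F j) i := by
        show (be j + Lᵀ *ᵥ F j) ⬝ᵥ (Pi.single i 1) = _
        rw [dotProduct_single, mul_one]
      rw [← h9, this]
      rfl
    exact card_div_le_sum_nn g hg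
  have h10 : (S.card : ℝ) * ((Fintype.card (Fin r → ZMod N) : ℝ) / 20) ≤
      (Fintype.card (Fin r → ZMod N) : ℝ) * ((k₁ : ℝ) ^ 2 * m) := by
    calc (S.card : ℝ) * ((Fintype.card (Fin r → ZMod N) : ℝ) / 20)
        = ∑ _j ∈ S, (Fintype.card (Fin r → ZMod N) : ℝ) / 20 := by
          rw [Finset.sum_const, nsmul_eq_mul]
      _ ≤ ∑ j ∈ S, ∑ th : Fin r → ZMod N, nn ((be j + Lᵀ *ᵥ F j) ⬝ᵥ th) :=
          Finset.sum_le_sum hlow
      _ ≤ ∑ j, ∑ th : Fin r → ZMod N, nn ((be j + Lᵀ *ᵥ F j) ⬝ᵥ th) :=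
          Finset.sum_le_sum_of_subset_of_nonneg (Finset.subset_univ _)
            (fun j _ _ => Finset.sum_nonneg fun th _ => nn_nonneg _)
      _ = ∑ th : Fin r → ZMod N, ∑ j, nn ((be j + Lᵀ *ᵥ F j) ⬝ᵥ th) := Finset.sum_comm
      _ ≤ ∑ _th : Fin r → ZMod N, (k₁ : ℝ) ^ 2 * m := Finset.sum_le_sum fun th _ => hsum th
      _ = (Fintype.card (Fin r → ZMod N) : ℝ) * ((k₁ : ℝ) ^ 2 * m) := by
          rw [Finset.sum_const, Finset.card_univ, nsmul_eq_mul]
  have h11 : (Fintype.card (Fin r → ZMod N) : ℝ) * ((S.card : ℝ) / 20) ≤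
      (Fintype.card (Fin r → ZMod N) : ℝ) * ((k₁ : ℝ) ^ 2 * m) := by
    linarith
  have h12 := le_of_mul_le_mul_left h11 hcard
  linarith

end Pool.Agent.H71.DG
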