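import Pool.Agent.H71.DG.Nn

/-!
# DG-2: the mean of `nn` over a nonzero homomorphism (F4)

PROOF.  `χ h = e (f h)` is an additive character of `H`, nontrivial because `f ≠ 0` and `e` is
injective (`ZMod.injective_stdAddChar`); so `∑ χ h = 0` (`AddChar.sum_eq_zero_of_ne_one` or
`AddChar.sum_eq_ite`).  Taking real parts and `re_ge`: `0 ≥ ∑ (1 - 20 nn (f h))`.
-/

set_option autoImplicit false

namespace Pool.Agent.H71.DG

open Matrix Classical Pool.Agent.H66.SP

theorem card_div_le_sum_nn {N : ℕ} [NeZero N] {H : Type*} [AddCommGroup H] [Fintype H]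
    (f : H →+ ZMod N) (hf : f ≠ 0) : (Fintype.card H : ℝ) / 20 ≤ ∑ h, nn (f h) := by
  have h1 : ∃ h, f h ≠ 0 := by
    by_contra hc
    push Not at hc
    exact hf (AddMonoidHom.ext hc)
  obtain ⟨h0, hh0⟩ := h1
  set χ : AddChar H ℂ := (ZMod.stdAddChar (N := N)).compAddMonoidHom f with hχ
  have hχa : ∀ h, χ h = ZMod.stdAddChar (f h) := fun h => rfl
  have hχ1 : χ ≠ 1 := by
    intro hc
    have h2 : χ h0 = 1 := by rw [hc]; rfl
    rw [hχa] at h2
    apply hh0
    apply ZMod.injective_stdAddChar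
    rw [h2, AddChar.map_zero_eq_one]
  have hs : ∑ h, χ h = 0 := AddChar.sum_eq_zero_of_ne_one hχ1
  have hre : ∑ h, (χ h).re = 0 := by
    rw [← Complex.re_sum, hs, Complex.zero_re]
  have h3 : ∑ h : H, (1 - 20 * nn (f h)) ≤ 0 := by
    rw [← hre]
    exact Finset.sum_le_sum fun h _ => re_ge (f h)
  rw [Finset.sum_sub_distrib, ← Finset.mul_sum] at h3
  simp only [Finset.sum_const, Finset.card_univ, nsmul_eq_mul, mul_one] at h3
  linarith

end Pool.Agent.H71.DG
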