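import Pool.Agent.H71.DG.MFour
import Pool.Agent.H71.DG.Mean

/-!
# DG-19: lines are not contained in level sets

PROOF.  Suppose all `x + c • b ∈ TT F B M₀`.  Then for every `c`, `c • b = (x + c • b) - (x + 0 • b)` has
`∑_{j∈B} nn ((c • b) . F_j) ≤ 2 M₀ + 2 M₀` (`nn_add_le`, `nn_neg`).  Sum over `c : ZMod p` and
exchange: for `j` with `b . F_j ≠ 0` the map `c ↦ c * (b . F_j)` is a nonzero hom, so
`∑_c nn ≥ p / 20` (`card_div_le_sum_nn`).  Hence `N₁ p / 20 ≤ 4 M₀ p`.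
-/

set_option autoImplicit false

namespace Pool.Agent.H71.DG

open Matrix Classical Pool.Agent.H66.SP

theorem line_not_TT {p d : ℕ} [Fact p.Prime] {V : Type*} (F : Matrix V (Fin d) (ZMod p))
    (B : Finset V) (N₁ : ℕ) (M₀ : ℝ) (h80 : 80 * M₀ < N₁)
    (hB : ∀ lam : Fin d → ZMod p, lam ≠ 0 → N₁ ≤ (B.filter (fun j => lam ⬝ᵥ F j ≠ 0)).card)
    (x b : Fin d → ZMod p) (hb : b ≠ 0) : ∃ c : ZMod p, x + c • b ∉ TT F B M₀ := by
  by_contra hcon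
  push Not at hcon
  have hp : (0 : ℝ) < p := by exact_mod_cast (Fact.out : p.Prime).pos
  have h1 : ∀ c : ZMod p, ∑ j ∈ B, nn ((x + c • b) ⬝ᵥ F j) ≤ M₀ := by
    intro c
    have h := hcon c
    unfold TT at h
    exact (Finset.mem_filter.1 h).2
  have h0 : ∑ j ∈ B, nn (x ⬝ᵥ F j) ≤ M₀ := by
    have h := h1 0
    rwa [zero_smul, add_zero] at h
  have h2 : ∀ c : ZMod p, ∑ j ∈ B, nn (c * (b ⬝ᵥ F j)) ≤ 4 * M₀ := by
    intro c
    have h3 : ∀ j ∈ B, nn (c * (b ⬝ᵥ F j)) ≤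
        2 * nn ((x + c • b) ⬝ᵥ F j) + 2 * nn (x ⬝ᵥ F j) := by
      intro j _
      have e : c * (b ⬝ᵥ F j) = (x + c • b) ⬝ᵥ F j + -(x ⬝ᵥ F j) := by
        rw [add_dotProduct, smul_dotProduct, smul_eq_mul]
        ring
      rw [e]
      refine (nn_add_le _ _).trans ?_
      rw [nn_neg]
    refine (Finset.sum_le_sum h3).trans ?_
    rw [Finset.sum_add_distrib, ← Finset.mul_sum, ← Finset.mul_sum]
    linarith [h1 c]
  have h4 : ∑ c : ZMod p, ∑ j ∈ B, nn (c * (b ⬝ᵥ F j)) ≤ p * (4 * M₀) := by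
    refine (Finset.sum_le_sum fun c _ => h2 c).trans ?_
    rw [Finset.sum_const, Finset.card_univ, ZMod.card, nsmul_eq_mul]
  rw [Finset.sum_comm] at h4
  have h5 : ∀ j ∈ B.filter (fun j => b ⬝ᵥ F j ≠ 0),
      (p : ℝ) / 20 ≤ ∑ c : ZMod p, nn (c * (b ⬝ᵥ F j)) := by
    intro j hj
    have hj2 := (Finset.mem_filter.1 hj).2
    have hf : (AddMonoidHom.mulRight (b ⬝ᵥ F j) : ZMod p →+ ZMod p) ≠ 0 := by
      intro h
      have h6 : (1 : ZMod p) * (b ⬝ᵥ F j) = 0 := DFunLike.congr_fun h 1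
      rw [one_mul] at h6
      exact hj2 h6
    have h7 := card_div_le_sum_nn _ hf
    rw [ZMod.card] at h7
    exact h7
  have h8 : ((B.filter (fun j => b ⬝ᵥ F j ≠ 0)).card : ℝ) * ((p : ℝ) / 20) ≤
      ∑ j ∈ B, ∑ c : ZMod p, nn (c * (b ⬝ᵥ F j)) := by
    calc ((B.filter (fun j => b ⬝ᵥ F j ≠ 0)).card : ℝ) * ((p : ℝ) / 20)
        = ∑ _j ∈ B.filter (fun j => b ⬝ᵥ F j ≠ 0), ((p : ℝ) / 20) := by
          rw [Finset.sum_const, nsmul_eq_mul]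
      _ ≤ ∑ j ∈ B.filter (fun j => b ⬝ᵥ F j ≠ 0), ∑ c : ZMod p, nn (c * (b ⬝ᵥ F j)) :=
          Finset.sum_le_sum h5
      _ ≤ _ := Finset.sum_le_sum_of_subset_of_nonneg (Finset.filter_subset _ _)
          fun j _ _ => Finset.sum_nonneg fun c _ => nn_nonneg _
  have h9 : (N₁ : ℝ) ≤ ((B.filter (fun j => b ⬝ᵥ F j ≠ 0)).card : ℝ) := by
    exact_mod_cast hB b hb
  have h10 : (N₁ : ℝ) * ((p : ℝ) / 20) ≤ p * (4 * M₀) :=
    (mul_le_mul_of_nonneg_right h9 (by positivity)).trans (h8.trans h4)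
  have h11 : 80 * M₀ * p < N₁ * p := mul_lt_mul_of_pos_right h80 hp
  nlinarith

end Pool.Agent.H71.DG
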