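import Pool.Agent.H71.DG.MDefs
import Pool.Agent.H66.SP.GEquiv

/-!
# DG-15: number of graphs with `A F = g` when the rows outside `B` are spread

PROOF.  Only the pairs `{v, u}`, `v ∉ B`, `u ∈ B` matter.  For a graph `G` let
`ψ G v = {u ∈ B : G.Adj v u}` (`v ∉ B`) and `G' = ` `G` without the edges between `B` and its
complement.  `G ↦ (G', ψ G)` is injective, its image consists of all pairs with `ψ v ⊆ B` and `G'` in the
set `X` of graphs without such edges, so `card (SimpleGraph V) = card X * (2^|B|)^(n - |B|)`.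
For given `G' ∈ X`, `A F = g` says for `v ∉ B`: `∑_{u ∈ ψ v} F u = g v - (adj G' * F) v`, at most
`2^|B| c` choices for each `v ∉ B`.  (Alternatively use the equivalence `V ≃ B ⊕ Bᶜ`
and `Pool.Agent.H66.SP.card_filter_glue`, see `NsA_transport` in `Pool/Agent/H95/SQ/NsA.lean`.)
-/

set_option autoImplicit false

namespace Pool.Agent.H71.DG

open Matrix Classical Pool.Agent.H66.SP

theorem MRow_transport {V W : Type*} [Fintype V] [DecidableEq V] [Fintype W] [DecidableEq W]
    (e : W ≃ V) (P : SimpleGraph V → Prop) :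
    ((Finset.univ : Finset (SimpleGraph V)).filter P).card =
      ((Finset.univ : Finset (SimpleGraph W)).filter (fun K => P (e.simpleGraph K))).card := by
  rw [Finset.card_filter, Finset.card_filter,
    ← Equiv.sum_comp e.simpleGraph (fun G => if P G then 1 else 0)]

/-- the graph equation as a predicate -/
def MRow_P {N r : ℕ} {V : Type*} [Fintype V] (F g : Matrix V (Fin r) (ZMod N))
    (G : SimpleGraph V) : Prop := adj (ZMod N) G * F = g

theorem MRow_univ {α : Type*} (i j : Fintype α) (p q : α → Prop) (d : DecidablePred p)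
    (d' : DecidablePred q) (h : ∀ x, p x ↔ q x) :
    (@Finset.filter α p d (@Finset.univ α i)).card =
      (@Finset.filter α q d' (@Finset.univ α j)).card := by
  have h1 : i = j := Subsingleton.elim i j
  subst h1
  have h2 : p = q := funext fun x => propext (h x)
  subst h2
  have h3 : d = d' := Subsingleton.elim d d'
  subst h3
  rfl

theorem MRow_cnt {N r : ℕ} {V : Type*} [Fintype V] [DecidableEq V]
    (F g : Matrix V (Fin r) (ZMod N)) : cnt F g =
      ((Finset.univ : Finset (SimpleGraph V)).filter (MRow_P F g)).card := by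
  unfold cnt
  exact MRow_univ _ _ _ _ _ _ (fun _ => Iff.rfl)

/-- the number of 0/1 vectors on `B` with given sum -/
theorem MRow_bool {N r : ℕ} {V : Type*} [Fintype V] [DecidableEq V]
    (F : Matrix V (Fin r) (ZMod N)) (B : Finset V) (h : Fin r → ZMod N) :
    ((Finset.univ : Finset ({v // v ∈ B} → Bool)).filter
      (fun β => ∑ u : {v // v ∈ B}, (if β u = true then F u.1 else 0) = h)).card ≤
      (B.powerset.filter (fun T => ∑ j ∈ T, F j = h)).card := by
  refine Finset.card_le_card_of_injOn
    (fun β => ((Finset.univ : Finset {v // v ∈ B}).filter (fun u => β u = true)).map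
      ⟨Subtype.val, Subtype.val_injective⟩) ?_ ?_
  · intro β hβ
    have hβ' := (Finset.mem_filter.1 (Finset.mem_coe.1 hβ)).2
    refine Finset.mem_coe.2 (Finset.mem_filter.2 ⟨Finset.mem_powerset.2 ?_, ?_⟩)
    · intro v hv
      obtain ⟨u, -, hu⟩ := Finset.mem_map.1 hv
      rw [← hu]
      exact u.2
    · refine (Finset.sum_map _ _ _).trans ?_
      refine (Finset.sum_filter _ _).trans ?_
      exact hβ'
  · intro β _ β' _ hββ
    have h1 := Finset.map_injective _ hββ
    funext u
    have h2 : u ∈ (Finset.univ : Finset {v // v ∈ B}).filter (fun u => β u = true) ↔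
        u ∈ (Finset.univ : Finset {v // v ∈ B}).filter (fun u => β' u = true) := by
      rw [h1]
    simp only [Finset.mem_filter, Finset.mem_univ, true_and] at h2
    exact Bool.eq_iff_iff.2 h2

/-- the equation in the row `v ∉ B` -/
theorem MRow_row {N r : ℕ} {V : Type*} [Fintype V] [DecidableEq V]
    (F g : Matrix V (Fin r) (ZMod N)) (B : Finset V)
    (G : SimpleGraph {v // v ∈ B}) (b : {v // v ∉ B} → {v // v ∈ B} → Bool)
    (H : SimpleGraph {v // v ∉ B})
    (h : adj (ZMod N) ((Equiv.sumCompl (fun v => v ∈ B)).simpleGraph (glue G b H)) * F = g)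
    (v : {v // v ∉ B}) :
    ∑ u : {v // v ∈ B}, (if b v u = true then F u.1 else 0) =
      g v.1 - ∑ w : {v // v ∉ B}, (if H.Adj v w then F w.1 else 0) := by
  have e1 : (Equiv.sumCompl (fun v => v ∈ B)).symm v.1 = Sum.inr v :=
    Equiv.sumCompl_symm_apply_of_neg v.2
  have a1 : ∀ u : {v // v ∈ B},
      adj (ZMod N) ((Equiv.sumCompl (fun v => v ∈ B)).simpleGraph (glue G b H)) v.1
        ((Equiv.sumCompl (fun v => v ∈ B)) (Sum.inl u)) = if b v u = true then 1 else 0 := by
    intro u
    have h5 : ((Equiv.sumCompl (fun v => v ∈ B)).simpleGraph (glue G b H)).Adj v.1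
        ((Equiv.sumCompl (fun v => v ∈ B)) (Sum.inl u)) ↔ b v u = true := by
      show (glue G b H).Adj ((Equiv.sumCompl (fun v => v ∈ B)).symm v.1)
        ((Equiv.sumCompl (fun v => v ∈ B)).symm
          ((Equiv.sumCompl (fun v => v ∈ B)) (Sum.inl u))) ↔ _
      rw [Equiv.symm_apply_apply, e1]
      rfl
    unfold adj
    rw [Matrix.of_apply]
    exact if_congr h5 rfl rfl
  have a2 : ∀ w : {v // v ∉ B},
      adj (ZMod N) ((Equiv.sumCompl (fun v => v ∈ B)).simpleGraph (glue G b H)) v.1
        ((Equiv.sumCompl (fun v => v ∈ B)) (Sum.inr w)) = if H.Adj v w then 1 else 0 := by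
    intro w
    have h5 : ((Equiv.sumCompl (fun v => v ∈ B)).simpleGraph (glue G b H)).Adj v.1
        ((Equiv.sumCompl (fun v => v ∈ B)) (Sum.inr w)) ↔ H.Adj v w := by
      show (glue G b H).Adj ((Equiv.sumCompl (fun v => v ∈ B)).symm v.1)
        ((Equiv.sumCompl (fun v => v ∈ B)).symm
          ((Equiv.sumCompl (fun v => v ∈ B)) (Sum.inr w))) ↔ _
      rw [Equiv.symm_apply_apply, e1]
      rfl
    unfold adj
    rw [Matrix.of_apply]
    exact if_congr h5 rfl rfl
  rw [eq_sub_iff_add_eq]
  funext j
  have h1 : (adj (ZMod N) ((Equiv.sumCompl (fun v => v ∈ B)).simpleGraph (glue G b H)) * F) v.1 j =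
      g v.1 j := by rw [h]
  rw [Matrix.mul_apply, ← Equiv.sum_comp (Equiv.sumCompl (fun v => v ∈ B)),
    Fintype.sum_sum_type] at h1
  rw [← h1, Pi.add_apply, Finset.sum_apply, Finset.sum_apply]
  congr 1
  · refine Finset.sum_congr rfl fun u _ => ?_
    rw [a1 u]
    show (if b v u = true then F u.1 else 0) j = (if b v u = true then 1 else 0) * F u.1 j
    split_ifs
    · rw [one_mul]
    · rw [zero_mul]
      rfl
  · refine Finset.sum_congr rfl fun w _ => ?_
    rw [a2 w]
    show (if H.Adj v w then F w.1 else 0) j = (if H.Adj v w then 1 else 0) * F w.1 j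
    split_ifs
    · rw [one_mul]
    · rw [zero_mul]
      rfl

theorem cnt_le_of_RB {N r : ℕ} [NeZero N] {V : Type*} [Fintype V] [DecidableEq V]
    (F g : Matrix V (Fin r) (ZMod N)) (B : Finset V) (c : ℝ) (hc : 0 ≤ c) (h : RB F B c) :
    (cnt F g : ℝ) ≤ (Fintype.card (SimpleGraph V) : ℝ) * c ^ (Fintype.card V - B.card) := by
  have hcB : Fintype.card {v // v ∈ B} = B.card := Fintype.card_coe B
  have hcR : Fintype.card {v // v ∉ B} = Fintype.card V - B.card := by
    rw [Fintype.card_subtype_compl, Fintype.card_coe]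
  have key : ∀ (G : SimpleGraph {v // v ∈ B}) (H : SimpleGraph {v // v ∉ B}),
      (((Finset.univ : Finset ({v // v ∉ B} → {v // v ∈ B} → Bool)).filter (fun b =>
        MRow_P F g ((Equiv.sumCompl (fun v => v ∈ B)).simpleGraph (glue G b H)))).card : ℝ) ≤ (2 ^ B.card * c) ^ (Fintype.card V - B.card) := by
    intro G H
    have h1 : ((Finset.univ : Finset ({v // v ∉ B} → {v // v ∈ B} → Bool)).filter (fun b =>
        MRow_P F g ((Equiv.sumCompl (fun v => v ∈ B)).simpleGraph (glue G b H)))) ⊆
        Fintype.piFinset (fun v : {v // v ∉ B} =>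
          (Finset.univ : Finset ({v // v ∈ B} → Bool)).filter
            (fun β => ∑ u : {v // v ∈ B}, (if β u = true then F u.1 else 0) =
              g v.1 - ∑ w : {v // v ∉ B}, (if H.Adj v w then F w.1 else 0))) := by
      intro b hb
      rw [Fintype.mem_piFinset]
      intro v
      exact Finset.mem_filter.2 ⟨Finset.mem_univ _,
        MRow_row F g B G b H (Finset.mem_filter.1 hb).2 v⟩
    have h2 := Finset.card_le_card h1
    rw [Fintype.card_piFinset] at h2
    have h3 : ((∏ v : {v // v ∉ B}, ((Finset.univ : Finset ({v // v ∈ B} → Bool)).filter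
            (fun β => ∑ u : {v // v ∈ B}, (if β u = true then F u.1 else 0) =
              g v.1 - ∑ w : {v // v ∉ B}, (if H.Adj v w then F w.1 else 0))).card : ℕ) : ℝ) ≤
        ∏ _v : {v // v ∉ B}, (2 ^ B.card * c) := by
      rw [Nat.cast_prod]
      refine Finset.prod_le_prod (fun v _ => Nat.cast_nonneg _) fun v _ => ?_
      refine le_trans ?_ (h (g v.1 - ∑ w : {v // v ∉ B}, (if H.Adj v w then F w.1 else 0)))
      exact_mod_cast MRow_bool F B _
    rw [Finset.prod_const, Finset.card_univ, hcR] at h3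
    exact le_trans (by exact_mod_cast h2) h3
  rw [MRow_cnt, MRow_transport (Equiv.sumCompl (fun v => v ∈ B)) (MRow_P F g),
    card_filter_glue]
  push_cast
  refine (Finset.sum_le_sum fun G _ => Finset.sum_le_sum fun H _ => key G H).trans (le_of_eq ?_)
  rw [Finset.sum_const, Finset.sum_const, Finset.card_univ, Finset.card_univ, nsmul_eq_mul,
    nsmul_eq_mul]
  have h5 : Fintype.card (SimpleGraph V) =
      Fintype.card (SimpleGraph ({v // v ∈ B} ⊕ {v // v ∉ B})) :=
    Fintype.card_congr (Equiv.sumCompl (fun v => v ∈ B)).simpleGraph.symm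
  rw [h5, card_graph_sum, hcB, hcR]
  push_cast
  rw [mul_pow, pow_mul]
  ring

end Pool.Agent.H71.DG
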