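import Pool.Agent.H71.DG.MFour
import Pool.Agent.H71.DG.MRow

/-!
# DG-24: the confined `F` (M9)

PROOF.  `q = p^d`, `n = card V`.  Fix `J` (at most `2^n` choices), `I = Jᶜ`.  If
`M < ∑_{j∈J} nn (lam . F_j)` for all `lam ≠ 0` then `TT F J M ⊆ {0}`, so by `rb_TT`
`RB F J (1/q + exp (-2M))`, hence `RB F J (2/q)`, and `cnt ≤ card * (2/q)^(n - |J|)`
(`cnt_le_of_RB`).  Count the `F` with `Conf F J m δ E`: choose `F` on `J` (`q^|J|`), `be`
(`q^|J|`); then `T = Th ..` is determined, `t = #T < δ q`; choose the exceptional set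
`e ⊆ I`, `|e| < E` (`≤ 2^|I|` choices), the values of `F` on `e` (`q^|e|`) and on `I \ e` (`t^(|I|-|e|) ≤
(δ q)^(|I|-|e|)`): at most `q^(2|J|) 2^|I| δ^(|I| - E) q^|I|` (`δ ≤ 1`).  Product with `(2/q)^|I|`:
`q^(2|J|) 4^|I| δ^(|I|-E) ≤ q^(2w) 4^n δ^(n-w-E)`.
-/

set_option autoImplicit false

namespace Pool.Agent.H71.DG

open Matrix Classical Pool.Agent.H66.SP

theorem MConf_biUnion {ι α : Type*} [DecidableEq α] (s : Finset ι) (P : ι → Finset α)
    (f : α → ℝ) (hf : ∀ a, 0 ≤ f a) :
    ∑ a ∈ s.biUnion P, f a ≤ ∑ i ∈ s, ∑ a ∈ P i, f a := by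
  classical
  induction s using Finset.induction_on with
  | empty => simp
  | insert i s hi ih =>
    rw [Finset.biUnion_insert, Finset.sum_insert hi]
    have h1 := Finset.sum_union_inter (s₁ := P i) (s₂ := s.biUnion P) (f := f)
    have h2 : 0 ≤ ∑ a ∈ P i ∩ s.biUnion P, f a := Finset.sum_nonneg fun a _ => hf a
    linarith

theorem MConf_count {I A : Type*} [Fintype I] [DecidableEq I] [Fintype A] (T : A → Prop) (δ : ℝ)
    (hδ0 : 0 < δ) (hδ1 : δ ≤ 1)
    (ht : (((Finset.univ : Finset A).filter (fun a => T a)).card : ℝ) ≤ δ * Fintype.card A)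
    (E : ℕ) :
    (((Finset.univ : Finset (I → A)).filter (fun g =>
      ((Finset.univ : Finset I).filter (fun i => ¬ T (g i))).card < E)).card : ℝ) ≤
      2 ^ Fintype.card I * (δ ^ (Fintype.card I - E) * (Fintype.card A : ℝ) ^ Fintype.card I) := by
  have hsub : ((Finset.univ : Finset (I → A)).filter (fun g =>
      ((Finset.univ : Finset I).filter (fun i => ¬ T (g i))).card < E)) ⊆
      (((Finset.univ : Finset I).powerset).filter (fun e => e.card < E)).biUnion
        (fun e => Fintype.piFinset (fun i => if i ∈ e then (Finset.univ : Finset A) else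
          (Finset.univ : Finset A).filter (fun a => T a))) := by
    intro g hg
    have hg2 := (Finset.mem_filter.mp hg).2
    refine Finset.mem_biUnion.mpr ⟨(Finset.univ : Finset I).filter (fun i => ¬ T (g i)), ?_, ?_⟩
    · exact Finset.mem_filter.mpr ⟨Finset.mem_powerset.mpr (Finset.subset_univ _), hg2⟩
    · refine Fintype.mem_piFinset.mpr fun i => ?_
      by_cases hi : T (g i)
      · rw [if_neg (by simp [hi])]
        exact Finset.mem_filter.mpr ⟨Finset.mem_univ _, hi⟩
      · rw [if_pos (by simp [hi])]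
        exact Finset.mem_univ _
  have h1 := Finset.card_le_card hsub
  have h2 := h1.trans Finset.card_biUnion_le
  have h3 : ((∑ e ∈ (((Finset.univ : Finset I).powerset).filter (fun e => e.card < E)),
      (Fintype.piFinset (fun i => if i ∈ e then (Finset.univ : Finset A) else
          (Finset.univ : Finset A).filter (fun a => T a))).card : ℕ) : ℝ) ≤
      ∑ e ∈ (((Finset.univ : Finset I).powerset).filter (fun e => e.card < E)),
        (δ ^ (Fintype.card I - E) * (Fintype.card A : ℝ) ^ Fintype.card I) := by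
    rw [Nat.cast_sum]
    refine Finset.sum_le_sum fun e he => ?_
    have he2 := (Finset.mem_filter.mp he).2
    rw [Fintype.card_piFinset, Nat.cast_prod]
    calc ∏ i, (((if i ∈ e then (Finset.univ : Finset A) else
            (Finset.univ : Finset A).filter (fun a => T a)).card : ℕ) : ℝ)
        ≤ ∏ i : I, ((if i ∈ e then 1 else δ) * (Fintype.card A : ℝ)) := by
          refine Finset.prod_le_prod (fun i _ => Nat.cast_nonneg _) fun i _ => ?_
          by_cases hi : i ∈ e
          · rw [if_pos hi, if_pos hi, one_mul, Finset.card_univ]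
          · rw [if_neg hi, if_neg hi]
            exact ht
      _ = (∏ i : I, (if i ∈ e then 1 else δ)) * (Fintype.card A : ℝ) ^ Fintype.card I := by
          rw [Finset.prod_mul_distrib, Finset.prod_const, Finset.card_univ]
      _ ≤ _ := by
          refine mul_le_mul_of_nonneg_right ?_ (by positivity)
          rw [Finset.prod_ite, Finset.prod_const_one, one_mul, Finset.prod_const]
          refine pow_le_pow_of_le_one hδ0.le hδ1 ?_
          have h4 : ((Finset.univ : Finset I).filter (fun i => i ∉ e)).card =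
              Fintype.card I - e.card := by
            have h5 : ((Finset.univ : Finset I).filter (fun i => i ∉ e)) = eᶜ := by
              ext i
              simp
            rw [h5, Finset.card_compl]
          rw [h4]
          omega
  have h5 : ((((Finset.univ : Finset I).powerset).filter (fun e => e.card < E)).card : ℝ) ≤
      2 ^ Fintype.card I := by
    have h6 := Finset.card_filter_le ((Finset.univ : Finset I).powerset) (fun e => e.card < E)
    rw [Finset.card_powerset, Finset.card_univ] at h6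
    exact_mod_cast h6
  rw [Finset.sum_const, nsmul_eq_mul] at h3
  calc (((Finset.univ : Finset (I → A)).filter (fun g =>
      ((Finset.univ : Finset I).filter (fun i => ¬ T (g i))).card < E)).card : ℝ)
      ≤ ((∑ e ∈ (((Finset.univ : Finset I).powerset).filter (fun e => e.card < E)),
      (Fintype.piFinset (fun i => if i ∈ e then (Finset.univ : Finset A) else
          (Finset.univ : Finset A).filter (fun a => T a))).card : ℕ) : ℝ) := by exact_mod_cast h2
    _ ≤ _ := h3
    _ ≤ _ := mul_le_mul_of_nonneg_right h5 (by positivity)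

theorem MConf_cardRow {p d : ℕ} [Fact p.Prime] : Fintype.card (Fin d → ZMod p) = p ^ d := by
  rw [Fintype.card_fun, ZMod.card, Fintype.card_fin]

theorem MConf_cardMat {p d : ℕ} [Fact p.Prime] {J : Type*} [Fintype J] [DecidableEq J] :
    Fintype.card (Matrix J (Fin d) (ZMod p)) = (p ^ d) ^ Fintype.card J := by
  have e : Matrix J (Fin d) (ZMod p) ≃ (J → Fin d → ZMod p) := Equiv.refl _
  rw [Fintype.card_congr e, Fintype.card_fun, MConf_cardRow]

theorem MConf_card {p d : ℕ} [Fact p.Prime] {V : Type*} [Fintype V] [DecidableEq V]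
    (J : Finset V) (E : ℕ) (m δ : ℝ) (hδ0 : 0 < δ) (hδ1 : δ ≤ 1) :
    (((Finset.univ : Finset (Matrix V (Fin d) (ZMod p))).filter
      (fun F => Conf F J m δ E)).card : ℝ) ≤
      ((p : ℝ) ^ d) ^ (2 * J.card) * (2 ^ (Fintype.card V - J.card) *
        (δ ^ (Fintype.card V - J.card - E) * ((p : ℝ) ^ d) ^ (Fintype.card V - J.card))) := by
  let S : Matrix {x // x ∈ J} (Fin d) (ZMod p) × Matrix {x // x ∈ J} (Fin d) (ZMod p) →
      Finset (Matrix V (Fin d) (ZMod p)) := fun q =>
    (Finset.univ : Finset (Matrix V (Fin d) (ZMod p))).filter (fun F => res F J = q.1 ∧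
      (((Finset.univ : Finset (Fin d → ZMod p)).filter
        (fun th => th ∈ Th q.1 m q.2)).card : ℝ) < δ * (p : ℝ) ^ d ∧
      ((Finset.univ : Finset V).filter (fun i => i ∉ J ∧ F i ∉ Th q.1 m q.2)).card < E)
  have hsub : ((Finset.univ : Finset (Matrix V (Fin d) (ZMod p))).filter
      (fun F => Conf F J m δ E)) ⊆
      (Finset.univ : Finset (Matrix {x // x ∈ J} (Fin d) (ZMod p) ×
        Matrix {x // x ∈ J} (Fin d) (ZMod p))).biUnion S := by
    intro F hF
    obtain ⟨be, h1, h2⟩ := (Finset.mem_filter.mp hF).2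
    refine Finset.mem_biUnion.mpr ⟨(res F J, be), Finset.mem_univ _,
      Finset.mem_filter.mpr ⟨Finset.mem_univ _, rfl, h1, ?_⟩⟩
    convert h2
  have hcI : Fintype.card {x // x ∉ J} = Fintype.card V - J.card := by
    rw [Fintype.card_subtype_compl, Fintype.card_coe]
  have hS : ∀ q, ((S q).card : ℝ) ≤ 2 ^ (Fintype.card V - J.card) *
        (δ ^ (Fintype.card V - J.card - E) * ((p : ℝ) ^ d) ^ (Fintype.card V - J.card)) := by
    rintro ⟨R, be⟩
    by_cases hq : (((Finset.univ : Finset (Fin d → ZMod p)).filter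
        (fun th => th ∈ Th R m be)).card : ℝ) < δ * (p : ℝ) ^ d
    · have h1 := MConf_count (I := {x // x ∉ J}) (fun th : Fin d → ZMod p => th ∈ Th R m be)
        δ hδ0 hδ1 (by rw [MConf_cardRow]; push_cast; exact hq.le) E
      rw [hcI, MConf_cardRow] at h1
      push_cast at h1
      refine le_trans ?_ h1
      have h2 : (S (R, be)).card ≤ ((Finset.univ : Finset ({x // x ∉ J} → (Fin d → ZMod p))).filter
          (fun g => ((Finset.univ : Finset {x // x ∉ J}).filter
            (fun i => ¬ (g i ∈ Th R m be))).card < E)).card := by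
        refine Finset.card_le_card_of_injOn (fun F i => F i.1) ?_ ?_
        · intro F hF
          obtain ⟨h3, h4, h5⟩ := (Finset.mem_filter.mp (Finset.mem_coe.mp hF)).2
          refine Finset.mem_coe.mpr (Finset.mem_filter.mpr ⟨Finset.mem_univ _, ?_⟩)
          refine lt_of_le_of_lt ?_ h5
          refine Finset.card_le_card_of_injOn (fun i => i.1) ?_ (fun a _ b _ hab => Subtype.ext hab)
          intro i hi
          have hi2 := (Finset.mem_filter.mp (Finset.mem_coe.mp hi)).2
          exact Finset.mem_coe.mpr (Finset.mem_filter.mpr ⟨Finset.mem_univ _, i.2, hi2⟩)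
        · intro F hF F' hF' hFF
          obtain ⟨h3, -, -⟩ := (Finset.mem_filter.mp (Finset.mem_coe.mp hF)).2
          obtain ⟨h3', -, -⟩ := (Finset.mem_filter.mp (Finset.mem_coe.mp hF')).2
          have h4 : ∀ v, F v = F' v := by
            intro v
            by_cases hv : v ∈ J
            · have h5 := congrFun (h3.trans h3'.symm) ⟨v, hv⟩
              exact h5
            · exact congrFun hFF ⟨v, hv⟩
          exact funext h4
      exact_mod_cast h2
    · have h1 : S (R, be) = ∅ := by
        refine Finset.filter_eq_empty_iff.mpr fun F _ h => hq h.2.1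
      rw [h1]
      have hp0 : (0 : ℝ) ≤ (p : ℝ) := Nat.cast_nonneg p
      simp only [Finset.card_empty, Nat.cast_zero]
      positivity
  have h1 := (Finset.card_le_card hsub).trans Finset.card_biUnion_le
  have h2 : ((∑ q : Matrix {x // x ∈ J} (Fin d) (ZMod p) × Matrix {x // x ∈ J} (Fin d) (ZMod p),
      (S q).card : ℕ) : ℝ) ≤ ∑ q : Matrix {x // x ∈ J} (Fin d) (ZMod p) ×
        Matrix {x // x ∈ J} (Fin d) (ZMod p), 2 ^ (Fintype.card V - J.card) *
        (δ ^ (Fintype.card V - J.card - E) * ((p : ℝ) ^ d) ^ (Fintype.card V - J.card)) := by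
    rw [Nat.cast_sum]
    exact Finset.sum_le_sum fun q _ => hS q
  have h3 : ((Fintype.card (Matrix {x // x ∈ J} (Fin d) (ZMod p) ×
      Matrix {x // x ∈ J} (Fin d) (ZMod p)) : ℕ) : ℝ) = ((p : ℝ) ^ d) ^ (2 * J.card) := by
    rw [Fintype.card_prod, MConf_cardMat, Fintype.card_coe]
    push_cast
    rw [← pow_add, two_mul]
  rw [Finset.sum_const, nsmul_eq_mul, Finset.card_univ, h3] at h2
  refine le_trans ?_ h2
  exact_mod_cast h1

theorem sum_conf {p d : ℕ} [Fact p.Prime] {V : Type*} [Fintype V] [DecidableEq V]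
    (Θ : Matrix (Fin d) (Fin d) (ZMod p)) (w E : ℕ) (m M δ : ℝ) (hδ0 : 0 < δ) (hδ1 : δ ≤ 1)
    (hM : (p : ℝ) ^ d * Real.exp (-2 * M) ≤ 1) :
    ∑ F ∈ (Finset.univ : Finset (Matrix V (Fin d) (ZMod p))).filter
        (fun F => ∃ J : Finset V, J.card ≤ w ∧
          (∀ lam : Fin d → ZMod p, lam ≠ 0 → M < ∑ j ∈ J, nn (lam ⬝ᵥ F j)) ∧ Conf F J m δ E),
        (cnt F (F * Θ) : ℝ) ≤
      (Fintype.card (SimpleGraph V) : ℝ) *
        (8 ^ Fintype.card V * ((p : ℝ) ^ d) ^ (2 * w) * δ ^ (Fintype.card V - w - E)) := by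
  have hp1 : (1 : ℝ) ≤ (p : ℝ) := by exact_mod_cast (Fact.out : p.Prime).one_lt.le
  set q : ℝ := (p : ℝ) ^ d with hq
  have hq1 : 1 ≤ q := one_le_pow₀ hp1
  have hq0 : 0 < q := by linarith
  set n := Fintype.card V with hn
  set G : ℝ := (Fintype.card (SimpleGraph V) : ℝ) with hG
  have hG0 : 0 ≤ G := Nat.cast_nonneg _
  -- the bound for one `F`
  have key : ∀ (F : Matrix V (Fin d) (ZMod p)) (J : Finset V),
      (∀ lam : Fin d → ZMod p, lam ≠ 0 → M < ∑ j ∈ J, nn (lam ⬝ᵥ F j)) →
      (cnt F (F * Θ) : ℝ) ≤ G * (2 / q) ^ (n - J.card) := by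
    intro F J hJ
    refine cnt_le_of_RB F (F * Θ) J (2 / q) (by positivity) ?_
    refine (rb_TT F J M).mono ?_
    have h1 : TT F J M ⊆ {0} := by
      intro lam hlam
      rw [Finset.mem_singleton]
      by_contra h0
      have h2 := (Finset.mem_filter.mp hlam).2
      exact absurd h2 (not_le.mpr (hJ lam h0))
    have h2 : ((TT F J M).card : ℝ) ≤ 1 := by
      have := Finset.card_le_card h1
      rw [Finset.card_singleton] at this
      exact_mod_cast this
    have h3 : Real.exp (-2 * M) ≤ 1 / q := by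
      rw [le_div_iff₀ hq0]
      linarith
    calc ((TT F J M).card : ℝ) / (p : ℝ) ^ d + Real.exp (-2 * M) ≤ 1 / q + 1 / q := by
          refine add_le_add ?_ h3
          exact div_le_div_of_nonneg_right h2 hq0.le
      _ = 2 / q := by ring
  -- sum over `J`
  let P : Finset V → Finset (Matrix V (Fin d) (ZMod p)) := fun J =>
    (Finset.univ : Finset (Matrix V (Fin d) (ZMod p))).filter (fun F =>
      (∀ lam : Fin d → ZMod p, lam ≠ 0 → M < ∑ j ∈ J, nn (lam ⬝ᵥ F j)) ∧ Conf F J m δ E)
  have hsub : ((Finset.univ : Finset (Matrix V (Fin d) (ZMod p))).filter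
        (fun F => ∃ J : Finset V, J.card ≤ w ∧
          (∀ lam : Fin d → ZMod p, lam ≠ 0 → M < ∑ j ∈ J, nn (lam ⬝ᵥ F j)) ∧ Conf F J m δ E)) ⊆
      (((Finset.univ : Finset V).powerset).filter (fun J => J.card ≤ w)).biUnion P := by
    intro F hF
    obtain ⟨J, h1, h2, h3⟩ := (Finset.mem_filter.mp hF).2
    exact Finset.mem_biUnion.mpr ⟨J, Finset.mem_filter.mpr
      ⟨Finset.mem_powerset.mpr (Finset.subset_univ _), h1⟩,
      Finset.mem_filter.mpr ⟨Finset.mem_univ _, h2, h3⟩⟩
  have h1 : ∑ F ∈ (Finset.univ : Finset (Matrix V (Fin d) (ZMod p))).filter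
        (fun F => ∃ J : Finset V, J.card ≤ w ∧
          (∀ lam : Fin d → ZMod p, lam ≠ 0 → M < ∑ j ∈ J, nn (lam ⬝ᵥ F j)) ∧ Conf F J m δ E),
        (cnt F (F * Θ) : ℝ) ≤
      ∑ J ∈ ((Finset.univ : Finset V).powerset).filter (fun J => J.card ≤ w),
        ∑ F ∈ P J, (cnt F (F * Θ) : ℝ) := by
    refine (Finset.sum_le_sum_of_subset_of_nonneg hsub fun F _ _ => Nat.cast_nonneg _).trans ?_
    exact MConf_biUnion _ _ _ (fun F => Nat.cast_nonneg _)
  refine h1.trans ?_
  have h2 : ∀ J ∈ ((Finset.univ : Finset V).powerset).filter (fun J => J.card ≤ w),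
      ∑ F ∈ P J, (cnt F (F * Θ) : ℝ) ≤ G * (4 ^ n * q ^ (2 * w) * δ ^ (n - w - E)) := by
    intro J hJ
    have hJw := (Finset.mem_filter.mp hJ).2
    have hJn : J.card ≤ n := Finset.card_le_univ J
    have h3 : ∑ F ∈ P J, (cnt F (F * Θ) : ℝ) ≤ (P J).card * (G * (2 / q) ^ (n - J.card)) := by
      rw [← nsmul_eq_mul]
      refine Finset.sum_le_card_nsmul _ _ _ fun F hF => ?_
      exact key F J (Finset.mem_filter.mp hF).2.1
    have h4 : ((P J).card : ℝ) ≤ q ^ (2 * J.card) * (2 ^ (n - J.card) *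
        (δ ^ (n - J.card - E) * q ^ (n - J.card))) := by
      refine le_trans ?_ (MConf_card (p := p) (d := d) J E m δ hδ0 hδ1)
      have h5 : P J ⊆ (Finset.univ : Finset (Matrix V (Fin d) (ZMod p))).filter
          (fun F => Conf F J m δ E) := by
        intro F hF
        exact Finset.mem_filter.mpr ⟨Finset.mem_univ _, (Finset.mem_filter.mp hF).2.2⟩
      exact_mod_cast Finset.card_le_card h5
    refine h3.trans ?_
    calc ((P J).card : ℝ) * (G * (2 / q) ^ (n - J.card))
        ≤ (q ^ (2 * J.card) * (2 ^ (n - J.card) *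
          (δ ^ (n - J.card - E) * q ^ (n - J.card)))) * (G * (2 / q) ^ (n - J.card)) := by
          gcongr
      _ = G * ((2 * 2) ^ (n - J.card) * q ^ (2 * J.card) * δ ^ (n - J.card - E)) *
          (q * (1 / q)) ^ (n - J.card) := by
          rw [mul_pow, mul_pow, div_eq_mul_one_div 2 q, mul_pow]
          ring
      _ = G * (4 ^ (n - J.card) * q ^ (2 * J.card) * δ ^ (n - J.card - E)) := by
          rw [mul_one_div_cancel hq0.ne', one_pow, mul_one]
          norm_num
      _ ≤ G * (4 ^ n * q ^ (2 * w) * δ ^ (n - w - E)) := by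
          refine mul_le_mul_of_nonneg_left ?_ hG0
          have h6 : (4 : ℝ) ^ (n - J.card) ≤ 4 ^ n :=
            pow_le_pow_right₀ (by norm_num) (Nat.sub_le _ _)
          have h7 : q ^ (2 * J.card) ≤ q ^ (2 * w) := pow_le_pow_right₀ hq1 (by omega)
          have h8 : δ ^ (n - J.card - E) ≤ δ ^ (n - w - E) :=
            pow_le_pow_of_le_one hδ0.le hδ1 (by omega)
          gcongr
  have h3 := Finset.sum_le_card_nsmul _ _ _ h2
  refine h3.trans ?_
  rw [nsmul_eq_mul]
  have h5 : ((((Finset.univ : Finset V).powerset).filter (fun J => J.card ≤ w)).card : ℝ) ≤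
      2 ^ n := by
    have h6 := Finset.card_filter_le ((Finset.univ : Finset V).powerset) (fun J => J.card ≤ w)
    rw [Finset.card_powerset, Finset.card_univ] at h6
    exact_mod_cast h6
  calc ((((Finset.univ : Finset V).powerset).filter (fun J => J.card ≤ w)).card : ℝ) *
        (G * (4 ^ n * q ^ (2 * w) * δ ^ (n - w - E)))
      ≤ 2 ^ n * (G * (4 ^ n * q ^ (2 * w) * δ ^ (n - w - E))) := by gcongr
    _ = G * ((2 * 4) ^ n * q ^ (2 * w) * δ ^ (n - w - E)) := by
        rw [mul_pow]
        ring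
    _ = _ := by norm_num

end Pool.Agent.H71.DG
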