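import Pool.Agent.H71.DG.Defs

/-!
# DG-11: the number of functions with small support

PROOF.  Map `be` with support `{j_1, .., j_t}`, `t ≤ rho`, to a function
`Fin rho → Option (J × (Fin r → ZMod N))` listing the pairs `(j, be j)` (padded by `none`); it
determines `be`.  There are `(card J * N^r + 1)^rho` such functions.  Alternatively induct on `rho`:
every `be` with support `≤ rho + 1` is `Function.update be' j a` for a `be'` with support `≤ rho`,
so `c (rho + 1) ≤ c rho * (card J * N^r + 1)`.
-/

set_option autoImplicit false

namespace Pool.Agent.H71.DG

open Matrix Classical Pool.Agent.H66.SP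

theorem card_supp_aux {N r : ℕ} [NeZero N] {J : Type*} [Fintype J] (rho : ℕ) :
    ((Finset.univ : Finset (J → (Fin r → ZMod N))).filter (fun be =>
      ((Finset.univ : Finset J).filter (fun j => be j ≠ 0)).card ≤ rho)).card ≤
      (Fintype.card J * Fintype.card (Fin r → ZMod N) + 1) ^ rho := by
  induction rho with
  | zero =>
    rw [pow_zero]
    refine Finset.card_le_one.mpr fun a ha b hb => ?_
    have key : ∀ c : J → (Fin r → ZMod N), c ∈ ((Finset.univ : Finset (J → (Fin r → ZMod N))).filter (fun be =>
        ((Finset.univ : Finset J).filter (fun j => be j ≠ 0)).card ≤ 0)) → c = 0 := by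
      intro c hc
      rw [Finset.mem_filter] at hc
      have h1 := Finset.card_eq_zero.mp (Nat.le_zero.mp hc.2)
      funext j
      by_contra hj
      have h2 : j ∈ (Finset.univ : Finset J).filter (fun j => c j ≠ 0) :=
        Finset.mem_filter.mpr ⟨Finset.mem_univ _, hj⟩
      rw [h1] at h2
      exact absurd h2 (Finset.notMem_empty j)
    rw [key a ha, key b hb]
  | succ rho ih =>
    rw [pow_succ]
    let f : (J → (Fin r → ZMod N)) × Option (J × (Fin r → ZMod N)) → (J → (Fin r → ZMod N)) := fun q =>
      match q.2 with
      | none => q.1
      | some (j, a) => Function.update q.1 j a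
    have hsub : ((Finset.univ : Finset (J → (Fin r → ZMod N))).filter (fun be =>
        ((Finset.univ : Finset J).filter (fun j => be j ≠ 0)).card ≤ rho + 1)) ⊆
        ((((Finset.univ : Finset (J → (Fin r → ZMod N))).filter (fun be =>
          ((Finset.univ : Finset J).filter (fun j => be j ≠ 0)).card ≤ rho)) ×ˢ
          (Finset.univ : Finset (Option (J × (Fin r → ZMod N))))).image f) := by
      intro be hbe
      rw [Finset.mem_filter] at hbe
      rw [Finset.mem_image]
      by_cases h : ((Finset.univ : Finset J).filter (fun j => be j ≠ 0)).Nonempty
      · obtain ⟨j, hj⟩ := h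
        refine ⟨(Function.update be j 0, some (j, be j)), ?_, ?_⟩
        · rw [Finset.mem_product]
          refine ⟨?_, Finset.mem_univ _⟩
          rw [Finset.mem_filter]
          refine ⟨Finset.mem_univ _, ?_⟩
          show ((Finset.univ : Finset J).filter
              (fun i => (Function.update be j 0) i ≠ 0)).card ≤ rho
          have hs : ((Finset.univ : Finset J).filter
              (fun i => (Function.update be j 0) i ≠ 0)) ⊆
              ((Finset.univ : Finset J).filter (fun i => be i ≠ 0)).erase j := by
            intro i hi
            rw [Finset.mem_filter] at hi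
            have hij : i ≠ j := by
              rintro rfl
              exact hi.2 (Function.update_self _ _ _)
            rw [Finset.mem_erase, Finset.mem_filter]
            refine ⟨hij, Finset.mem_univ _, ?_⟩
            have := hi.2
            rwa [Function.update_of_ne hij] at this
          have h1 := Finset.card_le_card hs
          rw [Finset.card_erase_of_mem hj] at h1
          have h2 := hbe.2
          omega
        · show Function.update (Function.update be j 0) j (be j) = be
          rw [Function.update_idem, Function.update_eq_self]
      · refine ⟨(be, none), ?_, rfl⟩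
        rw [Finset.not_nonempty_iff_eq_empty] at h
        rw [Finset.mem_product]
        refine ⟨?_, Finset.mem_univ _⟩
        rw [Finset.mem_filter]
        refine ⟨Finset.mem_univ _, ?_⟩
        show ((Finset.univ : Finset J).filter (fun j => be j ≠ 0)).card ≤ rho
        rw [h]
        exact Nat.zero_le _
    refine (Finset.card_le_card hsub).trans ?_
    refine Finset.card_image_le.trans ?_
    rw [Finset.card_product, Finset.card_univ, Fintype.card_option, Fintype.card_prod]
    exact Nat.mul_le_mul_right _ ih

theorem card_supp_le {N r : ℕ} [NeZero N] {J : Type*} [Fintype J] (rho : ℕ) :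
    (((Finset.univ : Finset (Matrix J (Fin r) (ZMod N))).filter (fun be =>
      ((Finset.univ : Finset J).filter (fun j => be j ≠ 0)).card ≤ rho)).card : ℝ) ≤
      ((Fintype.card J : ℝ) * (N : ℝ) ^ r + 1) ^ rho := by
  have h := card_supp_aux (N := N) (r := r) (J := J) rho
  rw [Fintype.card_fun, ZMod.card, Fintype.card_fin] at h
  have h' : (((Finset.univ : Finset (Matrix J (Fin r) (ZMod N))).filter (fun be =>
      ((Finset.univ : Finset J).filter (fun j => be j ≠ 0)).card ≤ rho)).card) ≤
      (Fintype.card J * N ^ r + 1) ^ rho := by
    refine le_trans ?_ h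
    let e : Matrix J (Fin r) (ZMod N) ≃ (J → Fin r → ZMod N) := Equiv.refl _
    refine Finset.card_le_card_of_injOn e ?_ e.injective.injOn
    intro x hx
    have hx2 := (Finset.mem_filter.mp (Finset.mem_coe.mp hx)).2
    refine Finset.mem_coe.mpr (Finset.mem_filter.mpr ⟨Finset.mem_univ _, ?_⟩)
    refine le_trans (le_of_eq ?_) hx2
    refine congrArg Finset.card ?_
    ext j
    constructor
    · intro hj
      have hj2 := (Finset.mem_filter.mp hj).2
      exact Finset.mem_filter.mpr ⟨Finset.mem_univ _, hj2⟩
    · intro hj
      have hj2 := (Finset.mem_filter.mp hj).2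
      exact Finset.mem_filter.mpr ⟨Finset.mem_univ _, hj2⟩
  exact_mod_cast h'

end Pool.Agent.H71.DG
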