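import Pool.Agent.H71.DG.Cs1
import Pool.Agent.H71.DG.Cs2
import Pool.Agent.H71.DG.Cs3
import Pool.Agent.H71.DG.Lin
import Pool.Agent.H71.DG.Supp

/-!
# DG-12: THEOREM E

(imports all the previous files.)  PROOF.  By `four_sum` it suffices to bound
`∑_be ∑_al PP FI FJ al be` by `anti N r + eta ..`, `v = card I + card J`, `c = card J`.
Split the `be`.
(1) `E ≤ #{i : FI i ∉ Th FJ m be}`: by `PP_le_rect`, `case1` each contributes at most
`3 (N^r e^(-2m))^E`, there are at most `(N^r)^c` such `be`.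
(2) the other `be`: by `h3` and `exists_linear` there is `L` such that
`be' := fun j => be j + Lᵀ *ᵥ FJ j` has at most `rho` nonzero values
(`20 k₁² m ≤ rho`).  So the sum over these `be` is at most
`∑_L ∑_{be', supp ≤ rho} ∑_al PP FI FJ al (be' - Lᵀ F)`.  For `be' = 0` use `case3` (sum over `L` of
the indicator is `anti N r`, number of `L` is `N^(r^2)`), for `be' ≠ 0` use `PP_le_rect`, `case2`,
`card_supp_le`.
-/

set_option autoImplicit false

namespace Pool.Agent.H71.DG

open Matrix Classical Pool.Agent.H66.SP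

theorem thmE_card_mat {N r : ℕ} [NeZero N] {J : Type*} [Fintype J] [DecidableEq J] :
    (Fintype.card (Matrix J (Fin r) (ZMod N)) : ℝ) = ((N : ℝ) ^ r) ^ Fintype.card J := by
  have h : Fintype.card (Matrix J (Fin r) (ZMod N)) = (N ^ r) ^ Fintype.card J := by
    have e : Fintype.card (Matrix J (Fin r) (ZMod N)) =
        Fintype.card (J → Fin r → ZMod N) := Fintype.card_congr (Equiv.refl _)
    rw [e, Fintype.card_fun, Fintype.card_fun, ZMod.card, Fintype.card_fin]
  rw [h]
  push_cast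
  rfl

theorem thmE_sum_image {α β : Type*} [DecidableEq β] (P : Finset α) (φ : α → β) (f : β → ℝ)
    (hf : ∀ b, 0 ≤ f b) : ∑ b ∈ P.image φ, f b ≤ ∑ p ∈ P, f (φ p) :=
  Finset.sum_image_le_of_nonneg (fun _ _ => hf _)

theorem thmE {N r : ℕ} [NeZero N] {I J : Type*} [Fintype I] [Fintype J] [DecidableEq I]
    [DecidableEq J] (FI : Matrix I (Fin r) (ZMod N)) (FJ : Matrix J (Fin r) (ZMod N))
    (m M : ℝ) (E k₁ rho : ℕ) (hm : 0 < m) (hmM : 9 * ((k₁ : ℝ) ^ 2 * m) < M) (hk : 1 ≤ k₁)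
    (hrho : 20 * ((k₁ : ℝ) ^ 2 * m) ≤ rho)
    (h1 : ∀ lam : Fin r → ZMod N, lam ≠ 0 → M ≤ ∑ j, nn (lam ⬝ᵥ FJ j))
    (h2 : ∀ lam : Fin r → ZMod N, lam ≠ 0 → M ≤ ∑ i, nn (lam ⬝ᵥ FI i))
    (h3 : ∀ be : Matrix J (Fin r) (ZMod N),
      ((Finset.univ : Finset I).filter (fun i => FI i ∉ Th FJ m be)).card < E →
      ∀ th : Fin r → ZMod N, ∃ t : Fin k₁ → Fin r → ZMod N,
        (∀ l, t l ∈ Th FJ m be) ∧ ∑ l, t l = th)
    (hv0 : 0 < Fintype.card I + Fintype.card J)
    (hx : (N : ℝ) ^ r * Real.exp (-2 * m) ≤ 1 / (Fintype.card I + Fintype.card J : ℕ))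
    (hx' : ((Fintype.card I + Fintype.card J : ℕ) : ℝ) * (N : ℝ) ^ r *
      Real.exp (-2 * M + rho) ≤ 1)
    (g : Matrix (I ⊕ J) (Fin r) (ZMod N)) :
    (cnt (V := I ⊕ J) (Sum.elim FI FJ) g : ℝ) *
        ((N : ℝ) ^ r) ^ (Fintype.card I + Fintype.card J) ≤
      (Fintype.card (SimpleGraph (I ⊕ J)) : ℝ) * (anti N r +
        eta N r (Fintype.card I + Fintype.card J) (Fintype.card J) E rho m M) := by
  have hdI : (‹DecidableEq I› : DecidableEq I) = fun a b => Classical.propDecidable (a = b) :=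
    Subsingleton.elim _ _
  have hdJ : (‹DecidableEq J› : DecidableEq J) = fun a b => Classical.propDecidable (a = b) :=
    Subsingleton.elim _ _
  subst hdI
  subst hdJ
  set v : ℕ := Fintype.card I + Fintype.card J with hv
  set c : ℕ := Fintype.card J with hc
  set q : ℝ := (N : ℝ) ^ r with hq
  have hq0 : 0 ≤ q := by positivity
  refine (four_sum FI FJ g).trans ?_
  refine mul_le_mul_of_nonneg_left ?_ (by positivity)
  have hvI : Fintype.card I ≤ v := by omega
  -- basic numerical facts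
  have hk1 : (1 : ℝ) ≤ (k₁ : ℝ) ^ 2 := by
    have : (1 : ℝ) ≤ (k₁ : ℝ) := by exact_mod_cast hk
    nlinarith
  have hkm : m ≤ (k₁ : ℝ) ^ 2 * m := by nlinarith
  have h4 : 4 * m < M := by nlinarith
  have hM : 0 < M := by nlinarith
  have hxM : (v : ℝ) * q * Real.exp (-2 * M) ≤ 1 := by
    refine le_trans ?_ hx'
    refine mul_le_mul_of_nonneg_left ?_ (by positivity)
    apply Real.exp_le_exp.mpr
    have : (0 : ℝ) ≤ rho := by positivity
    linarith
  set f : Matrix J (Fin r) (ZMod N) → ℝ := fun be => ∑ al, PP FI FJ al be with hf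
  have hf0 : ∀ be, 0 ≤ f be := fun be => Finset.sum_nonneg (fun al _ => PP_nonneg _ _ _ _)
  have hrect : ∀ be, f be ≤ ∑ al : Matrix I (Fin r) (ZMod N),
      ∏ i, Real.exp (-2 * cost FJ be (FI i) (al i)) := fun be =>
    Finset.sum_le_sum (fun al _ => PP_le_rect FI FJ al be)
  set S2 : Finset (Matrix J (Fin r) (ZMod N)) := Finset.univ.filter (fun be =>
    ((Finset.univ : Finset I).filter (fun i => FI i ∉ Th FJ m be)).card < E) with hS2
  set S1 : Finset (Matrix J (Fin r) (ZMod N)) := Finset.univ.filter (fun be =>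
    ¬ ((Finset.univ : Finset I).filter (fun i => FI i ∉ Th FJ m be)).card < E) with hS1
  have hsplit : ∑ be, f be = ∑ be ∈ S2, f be + ∑ be ∈ S1, f be := by
    rw [hS1, hS2, Finset.sum_filter_add_sum_filter_not]
  have hpart1 : ∑ be ∈ S1, f be ≤ 3 * q ^ c * (q * Real.exp (-2 * m)) ^ E := by
    have hb : ∀ be ∈ S1, f be ≤ 3 * (q * Real.exp (-2 * m)) ^ E := by
      intro be hbe
      rw [hS1, Finset.mem_filter, not_lt] at hbe
      exact (hrect be).trans (case1 FI FJ be m M h4 h1 v E hvI hv0 hx hbe.2)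
    refine (Finset.sum_le_card_nsmul S1 f _ hb).trans ?_
    rw [nsmul_eq_mul]
    have hcard : (S1.card : ℝ) ≤ q ^ c := by
      have h := Finset.card_le_univ S1
      have h' : (S1.card : ℝ) ≤ (Fintype.card (Matrix J (Fin r) (ZMod N)) : ℝ) := by
        exact_mod_cast h
      rw [thmE_card_mat] at h'
      exact h'
    have h0 : (0 : ℝ) ≤ 3 * (q * Real.exp (-2 * m)) ^ E := by positivity
    calc (S1.card : ℝ) * (3 * (q * Real.exp (-2 * m)) ^ E)
        ≤ q ^ c * (3 * (q * Real.exp (-2 * m)) ^ E) := mul_le_mul_of_nonneg_right hcard h0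
      _ = _ := by ring
  -- part 2
  set Sup : Finset (Matrix J (Fin r) (ZMod N)) := Finset.univ.filter (fun be =>
      ((Finset.univ : Finset J).filter (fun j => be j ≠ 0)).card ≤ rho) with hSup
  let φ : Matrix (Fin r) (Fin r) (ZMod N) × Matrix J (Fin r) (ZMod N) →
      Matrix J (Fin r) (ZMod N) := fun p => fun j => p.2 j - p.1ᵀ *ᵥ FJ j
  have hsub : S2 ⊆ ((Finset.univ : Finset (Matrix (Fin r) (Fin r) (ZMod N))) ×ˢ Sup).image φ := by
    intro be hbe
    rw [hS2, Finset.mem_filter] at hbe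
    obtain ⟨L, hL⟩ := exists_linear FJ be m M k₁ hm.le hmM h1 (h3 be hbe.2)
    have hL' : ((Finset.univ : Finset J).filter (fun j => be j + Lᵀ *ᵥ FJ j ≠ 0)).card ≤ rho := by
      have := hL.trans hrho
      exact_mod_cast this
    rw [Finset.mem_image]
    refine ⟨(L, fun j => be j + Lᵀ *ᵥ FJ j), ?_, ?_⟩
    · rw [Finset.mem_product]
      refine ⟨Finset.mem_univ _, ?_⟩
      rw [hSup, Finset.mem_filter]
      exact ⟨Finset.mem_univ _, hL'⟩
    · funext j
      show be j + Lᵀ *ᵥ FJ j - Lᵀ *ᵥ FJ j = be j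
      rw [add_sub_cancel_right]
  have hpart2 : ∑ be ∈ S2, f be ≤ (anti N r : ℝ) +
      ((N : ℝ) ^ (r ^ 2) * ((c : ℝ) * q + 1) ^ rho * (8 * Real.exp (-2 * M)) +
        (N : ℝ) ^ (r ^ 2) * (2 * v * q * Real.exp (-2 * M) + 3 * Real.exp (-2 * M))) := by
    have s1 : ∑ be ∈ S2, f be ≤
        ∑ p ∈ (Finset.univ : Finset (Matrix (Fin r) (Fin r) (ZMod N))) ×ˢ Sup, f (φ p) :=
      (Finset.sum_le_sum_of_subset_of_nonneg hsub (fun _ _ _ => hf0 _)).trans
        (thmE_sum_image _ φ f hf0)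
    refine s1.trans ?_
    rw [Finset.sum_product]
    have hL : ∀ L : Matrix (Fin r) (Fin r) (ZMod N), ∑ be' ∈ Sup, f (φ (L, be')) ≤
        (if L + Lᵀ = 0 then 1 else 0) +
        ((2 * v * q * Real.exp (-2 * M) + 3 * Real.exp (-2 * M)) +
          ((c : ℝ) * q + 1) ^ rho * (8 * Real.exp (-2 * M))) := by
      intro L
      have h0mem : (0 : Matrix J (Fin r) (ZMod N)) ∈ Sup := by
        rw [hSup, Finset.mem_filter]
        refine ⟨Finset.mem_univ _, ?_⟩
        rw [Finset.filter_false_of_mem]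
        · simp
        · intro j _
          simp only [ne_eq, not_not]
          rfl
      rw [← Finset.add_sum_erase Sup _ h0mem]
      have hz : f (φ (L, 0)) ≤ (if L + Lᵀ = 0 then 1 else 0) +
          (2 * v * q * Real.exp (-2 * M) + 3 * Real.exp (-2 * M)) := by
        have h := case3 FI FJ M hM h1 h2 v hvI hxM L
        have e : φ (L, 0) = fun j => -(Lᵀ *ᵥ FJ j) := by
          funext j
          show (0 : Matrix J (Fin r) (ZMod N)) j - Lᵀ *ᵥ FJ j = -(Lᵀ *ᵥ FJ j)
          have e0 : (0 : Matrix J (Fin r) (ZMod N)) j = 0 := rfl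
          rw [e0, zero_sub]
        rw [e]
        exact h
      have hnz : ∑ be' ∈ Sup.erase 0, f (φ (L, be')) ≤
          ((c : ℝ) * q + 1) ^ rho * (8 * Real.exp (-2 * M)) := by
        have hb : ∀ be' ∈ Sup.erase 0, f (φ (L, be')) ≤ 8 * Real.exp (-2 * M) := by
          intro be' hbe'
          rw [Finset.mem_erase, hSup, Finset.mem_filter] at hbe'
          exact (hrect _).trans (case2 FI FJ be' M h1 h2 v rho hvI hx' L hbe'.1 hbe'.2.2)
        refine (Finset.sum_le_card_nsmul _ _ _ hb).trans ?_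
        rw [nsmul_eq_mul]
        refine mul_le_mul_of_nonneg_right ?_ (by positivity)
        have h := card_supp_le (N := N) (r := r) (J := J) rho
        refine le_trans ?_ h
        rw [Nat.cast_le]
        exact Finset.card_le_card (Finset.erase_subset _ _)
      linarith
    refine (Finset.sum_le_sum (fun L _ => hL L)).trans ?_
    rw [Finset.sum_add_distrib, Finset.sum_const, nsmul_eq_mul]
    have e1 : (∑ L : Matrix (Fin r) (Fin r) (ZMod N), (if L + Lᵀ = 0 then (1 : ℝ) else 0)) =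
        (anti N r : ℝ) := by
      rw [anti, Finset.sum_boole]
    have e2 : (((Finset.univ : Finset (Matrix (Fin r) (Fin r) (ZMod N))).card : ℕ) : ℝ) =
        (N : ℝ) ^ (r ^ 2) := by
      rw [Finset.card_univ, thmE_card_mat, Fintype.card_fin, ← pow_mul, pow_two]
    rw [e1, e2]
    apply le_of_eq
    ring
  rw [hsplit]
  unfold eta
  rw [← hq]
  linarith [hpart1, hpart2]

end Pool.Agent.H71.DG
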