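import Pool.Agent.H71.DG.MFour
import Pool.Agent.H71.DG.ThmE
import Pool.Agent.H71.DG.Cover

/-!
# DG-25: the good `F` (M9, application of Theorem E)

PROOF.  `cnt_equiv`: relabelling the vertices by `e : V ≃ W` (`Equiv.simpleGraph`).
`cnt_good`: use `V ≃ {x // x ∉ J} ⊕ {x // x ∈ J}` (`Equiv.sumCompl`), `FJ = res F J`, `FI` the rows outside
`J`.  `thmE` with `k₁ = 3 J₀ + 2`.  (h3): let `be` have fewer than `E` indices `i ∉ J` with
`F i ∉ T := Th FJ m be`.  As `¬ Conf`, `#T ≥ δ q`, so `q < (J₀ + 1) #T`.  `T` contains `0` and is closed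
under negation (`Th_zero`, `Th_neg`).  It generates: otherwise the `ZMod p`-span of `T` is a proper subspace
and there is `lam ≠ 0` with `lam . x = 0` for all `x ∈ T`; then `{v : lam . F v ≠ 0}` has fewer than
`E + |J| ≤ m₀` elements, against `Dir`.  So `cover` applies.
-/

set_option autoImplicit false

namespace Pool.Agent.H71.DG

open Matrix Classical Pool.Agent.H66.SP

theorem MGood_equiv_aux {N r : ℕ} {V W : Type*} [Fintype V] [Fintype W]
    (e : W ≃ V) (G : SimpleGraph W) (F : Matrix V (Fin r) (ZMod N))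
    (F' : Matrix W (Fin r) (ZMod N)) (hF' : ∀ w, F' w = F (e w)) (w : W) (k : Fin r) :
    (adj (ZMod N) (e.simpleGraph G) * F) (e w) k = (adj (ZMod N) G * F') w k := by
  rw [Matrix.mul_apply, Matrix.mul_apply, ← Equiv.sum_comp e]
  refine Finset.sum_congr rfl fun w' _ => ?_
  have h1 : (e.simpleGraph G).Adj (e w) (e w') ↔ G.Adj w w' := by
    show G.Adj (e.symm (e w)) (e.symm (e w')) ↔ _
    rw [e.symm_apply_apply, e.symm_apply_apply]
  have h2 : adj (ZMod N) (e.simpleGraph G) (e w) (e w') = adj (ZMod N) G w w' := by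
    unfold adj
    rw [Matrix.of_apply, Matrix.of_apply]
    exact if_congr h1 rfl rfl
  rw [h2, hF' w']

theorem MGood_natCard {N r : ℕ} {V : Type*} [Fintype V] (F g : Matrix V (Fin r) (ZMod N)) :
    cnt F g = Nat.card {G : SimpleGraph V // adj (ZMod N) G * F = g} :=
  (Nat.subtype_card _ (fun G => by
    simp only [Finset.mem_filter, Finset.mem_univ, true_and])).symm

theorem MGood_equiv {N r : ℕ} {V W : Type*} [Fintype V] [Fintype W]
    (e : W ≃ V) (F g : Matrix V (Fin r) (ZMod N)) (F' g' : Matrix W (Fin r) (ZMod N))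
    (hF' : ∀ w, F' w = F (e w)) (hg' : ∀ w, g' w = g (e w)) : cnt F' g' = cnt F g := by
  rw [MGood_natCard, MGood_natCard]
  refine Nat.card_congr (Equiv.subtypeEquiv e.simpleGraph fun G => ?_)
  constructor
  · intro h
    ext v k
    obtain ⟨w, rfl⟩ := e.surjective v
    rw [MGood_equiv_aux e G F F' hF', h, hg' w]
  · intro h
    ext w k
    rw [← MGood_equiv_aux e G F F' hF', h, hg' w]

theorem cnt_equiv {N r : ℕ} {V W : Type*} [Fintype V] [Fintype W] [DecidableEq V]
    [DecidableEq W] (e : W ≃ V) (F g : Matrix V (Fin r) (ZMod N)) :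
    cnt (V := W) (fun w => F (e w)) (fun w => g (e w)) = cnt F g := by
  exact MGood_equiv e F g _ _ (fun _ => rfl) (fun _ => rfl)

theorem MGood_closure {p d : ℕ} [Fact p.Prime] (T : Set (Fin d → ZMod p))
    (h : ∀ lam : Fin d → ZMod p, (∀ x ∈ T, lam ⬝ᵥ x = 0) → lam = 0) :
    AddSubgroup.closure T = ⊤ := by
  have h1 : Submodule.span (ZMod p) T = ⊤ := by
    by_contra hne
    obtain ⟨f, hf, hle⟩ := Submodule.exists_le_ker_of_lt_top _ (lt_top_iff_ne_top.2 hne)
    have hfx : ∀ x, f x = (fun i => f (Pi.single i 1)) ⬝ᵥ x := by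
      intro x
      rw [LinearMap.pi_apply_eq_sum_univ f x]
      unfold dotProduct
      refine Finset.sum_congr rfl fun i _ => ?_
      rw [smul_eq_mul, mul_comm]
      refine congrArg (· * x i) (congrArg f ?_)
      funext j
      rw [Pi.single_apply]
      exact if_congr eq_comm rfl rfl
    have h2 := h (fun i => f (Pi.single i 1)) (fun x hx => by
      rw [← hfx]
      exact LinearMap.mem_ker.1 (hle (Submodule.subset_span hx)))
    apply hf
    refine LinearMap.ext fun x => ?_
    rw [hfx, h2, zero_dotProduct]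
    rfl
  rw [eq_top_iff]
  intro x _
  have hx : x ∈ Submodule.span (ZMod p) T := by
    rw [h1]
    trivial
  induction hx using Submodule.span_induction with
  | mem x hx => exact AddSubgroup.subset_closure hx
  | zero => exact zero_mem _
  | add x y _ _ hx hy => exact add_mem (hx trivial) (hy trivial)
  | smul c x _ hx =>
    have h3 : c • x = c.val • x := by
      rw [← Nat.cast_smul_eq_nsmul (ZMod p), ZMod.natCast_zmod_val]
    rw [h3]
    exact nsmul_mem (hx trivial) _

theorem cnt_good {p d : ℕ} [Fact p.Prime] {V : Type*} [Fintype V] [DecidableEq V]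
    (F g : Matrix V (Fin d) (ZMod p)) (J : Finset V) (m M δ : ℝ) (E J₀ rho m₀ : ℕ)
    (hm : 0 < m) (hmM : 9 * (((3 * J₀ + 2 : ℕ) : ℝ) ^ 2 * m) < M)
    (hrho : 20 * (((3 * J₀ + 2 : ℕ) : ℝ) ^ 2 * m) ≤ rho)
    (hδ : 1 < (J₀ + 1) * δ) (hV : 0 < Fintype.card V)
    (h1 : ∀ lam : Fin d → ZMod p, lam ≠ 0 → M < ∑ j ∈ J, nn (lam ⬝ᵥ F j))
    (h2 : ∀ lam : Fin d → ZMod p, lam ≠ 0 → M < ∑ j ∈ Jᶜ, nn (lam ⬝ᵥ F j))
    (hc : ¬ Conf F J m δ E) (hF : Dir F m₀) (hm₀ : E + J.card ≤ m₀)
    (hx : (p : ℝ) ^ d * Real.exp (-2 * m) ≤ 1 / Fintype.card V)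
    (hx' : (Fintype.card V : ℝ) * (p : ℝ) ^ d * Real.exp (-2 * M + rho) ≤ 1) :
    (cnt F g : ℝ) * ((p : ℝ) ^ d) ^ Fintype.card V ≤
      (Fintype.card (SimpleGraph V) : ℝ) * (anti p d +
        eta p d (Fintype.card V) J.card E rho m M) := by
  have hdV : (‹DecidableEq V› : DecidableEq V) = fun a b => Classical.propDecidable (a = b) :=
    Subsingleton.elim _ _
  subst hdV
  let e : {x // x ∉ J} ⊕ {x // x ∈ J} ≃ V :=
    (Equiv.sumComm _ _).trans (Equiv.sumCompl (fun x => x ∈ J))
  let FI : Matrix {x // x ∉ J} (Fin d) (ZMod p) := fun i => F i.1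
  have hcard : Fintype.card V = Fintype.card {x // x ∉ J} + Fintype.card {x // x ∈ J} := by
    rw [← Fintype.card_sum]
    exact (Fintype.card_congr e).symm
  have hT : ∀ be : Matrix {x // x ∈ J} (Fin d) (ZMod p),
      ((Finset.univ : Finset {x // x ∉ J}).filter
        (fun i => FI i ∉ Th (res F J) m be)).card < E →
      ∀ th : Fin d → ZMod p, ∃ t : Fin (3 * J₀ + 2) → Fin d → ZMod p,
        (∀ l, t l ∈ Th (res F J) m be) ∧ ∑ l, t l = th := by
    intro be hbe
    have hcV : ∀ S : Finset V, (∀ i ∈ S, i ∉ J ∧ F i ∉ Th (res F J) m be) → S.card < E := by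
      intro S hS
      refine lt_of_le_of_lt ?_ hbe
      rw [← Finset.card_map (Function.Embedding.subtype (fun x => x ∉ J))]
      refine Finset.card_le_card fun v hv => ?_
      have h3 := hS v hv
      exact Finset.mem_map.2 ⟨⟨v, h3.1⟩, Finset.mem_filter.2 ⟨Finset.mem_univ _, h3.2⟩, rfl⟩
    have hbig : ¬ (((Finset.univ : Finset (Fin d → ZMod p)).filter
        (fun th => th ∈ Th (res F J) m be)).card : ℝ) < δ * (p : ℝ) ^ d :=
      fun h => hc ⟨be, h, hcV _ (fun i hi => ((@Finset.mem_filter V _ _ _ _).1 hi).2)⟩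
    rw [not_lt] at hbig
    have hp0 : (0 : ℝ) < (p : ℝ) := by exact_mod_cast (Fact.out : p.Prime).pos
    have hq : (0 : ℝ) < (p : ℝ) ^ d := pow_pos hp0 d
    have hJ' : Fintype.card (Fin d → ZMod p) < (J₀ + 1) *
        ((Finset.univ : Finset (Fin d → ZMod p)).filter
          (fun x => x ∈ Th (res F J) m be)).card := by
      have h4 : (p : ℝ) ^ d < (J₀ + 1) * (((Finset.univ : Finset (Fin d → ZMod p)).filter
          (fun x => x ∈ Th (res F J) m be)).card : ℝ) := by
        have h5 : (p : ℝ) ^ d < (J₀ + 1) * (δ * (p : ℝ) ^ d) := by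
          nlinarith
        have h6 : ((J₀ : ℝ) + 1) * (δ * (p : ℝ) ^ d) ≤ (J₀ + 1) *
            (((Finset.univ : Finset (Fin d → ZMod p)).filter
              (fun x => x ∈ Th (res F J) m be)).card : ℝ) :=
          mul_le_mul_of_nonneg_left hbig (by positivity)
        exact h5.trans_le h6
      rw [Fintype.card_fun, ZMod.card, Fintype.card_fin]
      exact_mod_cast h4
    have hg : AddSubgroup.closure (Th (res F J) m be) = ⊤ := by
      refine MGood_closure _ fun lam hlam => ?_
      by_contra hne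
      have h5 := hF lam hne
      have h6 : (Finset.univ : Finset V).filter (fun v => lam ⬝ᵥ F v ≠ 0) ⊆
          J ∪ (Finset.univ : Finset V).filter
            (fun i => i ∉ J ∧ F i ∉ Th (res F J) m be) := by
        intro v hv
        by_cases hvJ : v ∈ J
        · exact Finset.mem_union_left _ hvJ
        · refine Finset.mem_union_right _ (Finset.mem_filter.2 ⟨Finset.mem_univ _, hvJ, ?_⟩)
          intro hin
          exact (Finset.mem_filter.1 hv).2 (hlam _ hin)
      have h7 := (Finset.card_le_card h6).trans (Finset.card_union_le _ _)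
      have h8 := hcV ((Finset.univ : Finset V).filter
        (fun i => i ∉ J ∧ F i ∉ Th (res F J) m be)) (fun i hi => (Finset.mem_filter.1 hi).2)
      omega
    exact fun th => cover (Th (res F J) m be) (Th_zero _ _ m hm)
      (fun x hx => Th_neg _ _ m x hx) hg J₀ hJ' th
  have h1' : ∀ lam : Fin d → ZMod p, lam ≠ 0 → M ≤ ∑ j, nn (lam ⬝ᵥ res F J j) := by
    intro lam hl
    have h3 := Finset.sum_coe_sort J (fun j => nn (lam ⬝ᵥ F j))
    have h4 := (h1 lam hl).le
    rw [← h3] at h4
    exact h4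
  have h2' : ∀ lam : Fin d → ZMod p, lam ≠ 0 → M ≤ ∑ i, nn (lam ⬝ᵥ FI i) := by
    intro lam hl
    have h3 := Finset.sum_subtype (p := fun x => x ∉ J) (F := inferInstance) Jᶜ (fun x => Finset.mem_compl)
      (fun j => nn (lam ⬝ᵥ F j))
    have h4 := (h2 lam hl).le
    rw [h3] at h4
    exact h4
  have key := thmE FI (res F J) m M E (3 * J₀ + 2) rho hm hmM (by omega) hrho h1' h2' hT
    (by rw [← hcard]; exact hV) (by rw [← hcard]; exact hx) (by rw [← hcard]; exact hx')
    (fun w => g (e w))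
  have e1 : cnt (V := {x // x ∉ J} ⊕ {x // x ∈ J}) (Sum.elim FI (res F J))
      (fun w => g (e w)) = cnt F g := by
    have h := cnt_equiv e F g
    have h' : (fun w => F (e w) : Matrix ({x // x ∉ J} ⊕ {x // x ∈ J}) (Fin d) (ZMod p)) =
        Sum.elim FI (res F J) := by
      funext w
      rcases w with i | j <;> rfl
    rw [h'] at h
    exact h
  have e2 : Fintype.card (SimpleGraph ({x // x ∉ J} ⊕ {x // x ∈ J})) =
      Fintype.card (SimpleGraph V) := Fintype.card_congr e.simpleGraph
  rw [e1, e2, ← hcard, Fintype.card_coe] at key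
  exact key

end Pool.Agent.H71.DG
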