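import Pool.Agent.H71.DG.Kry3
import Pool.Agent.H10.DG.Defs

/-!
# DG-30: an obstruction gives many pairs (M12)

PROOF.  Let `b` be an ordered basis of `U` (`Fin d`), `F v a = b a v`.  `adj * F = F * Θ` for the matrix `Θ`
of the restriction, `Fᵀ * F = 0` and the column sums vanish by `Ob`, and `Dir F m₀` by `dir_of_kry`
(`F *ᵥ lam = ∑ lam_a b_a ≠ 0`).  Different bases give different `F`.  The number of ordered bases of `U` is
`card (GL (Fin d) (ZMod p)) = ∏_{i<d} (p^d - p^i)` (`Matrix.card_GL_field`; act on one basis; or count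
injectively `P ↦ F * P` for `P ∈ GL`), and `∏_{i<d} (p^d - p^i) = p^(d²) ∏_{i=1}^d (1 - p^(-i))`,
`∏ (1 - p^(-i)) ≥ 1 - ∑ 3^(-i) ≥ 1/2` for `p ≥ 3`.
So it is best to show: `P ↦ (F₀ * P, P⁻¹ * Θ₀ * P)` is injective on `GL` into the set.
-/

set_option autoImplicit false

namespace Pool.Agent.H71.DG

open Matrix Classical Pool.Agent.H66.SP Pool.Agent.H10.DG

/-- isotropic columns orthogonal to the all ones vector -/
def Quad {p d : ℕ} {V : Type*} [Fintype V] (F : Matrix V (Fin d) (ZMod p)) : Prop :=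
  Fᵀ * F = 0 ∧ ∀ a, ∑ v, F v a = 0

theorem MPairs_prod {p : ℕ} (hp3 : 3 ≤ p) (d : ℕ) :
    (1 : ℝ) / 2 + (1 / 2) * (1 / 3) ^ d ≤
      ∏ i ∈ Finset.range d, (1 - (1 / (p : ℝ)) ^ (i + 1)) := by
  induction d with
  | zero => norm_num
  | succ d ih =>
    rw [Finset.prod_range_succ]
    have hp0 : (0 : ℝ) < p := by positivity
    have h1 : (1 / (p : ℝ)) ^ (d + 1) ≤ (1 / 3 : ℝ) ^ (d + 1) := by
      apply pow_le_pow_left₀ (by positivity)
      apply one_div_le_one_div_of_le (by norm_num)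
      exact_mod_cast hp3
    have h2 : (1 / 3 : ℝ) ^ (d + 1) ≤ 1 / 3 := by
      calc (1 / 3 : ℝ) ^ (d + 1) ≤ (1 / 3 : ℝ) ^ 1 :=
            pow_le_pow_of_le_one (by norm_num) (by norm_num) (by omega)
        _ = 1 / 3 := by norm_num
    have h3 : (1 / 3 : ℝ) ^ d = 3 * (1 / 3 : ℝ) ^ (d + 1) := by
      rw [pow_succ]; ring
    rw [h3] at ih
    set t : ℝ := (1 / 3 : ℝ) ^ (d + 1) with ht
    have ht0 : 0 ≤ t := by positivity
    calc (1 : ℝ) / 2 + (1 / 2) * t ≤ (1 / 2 + 1 / 2 * (3 * t)) * (1 - t) := by nlinarith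
      _ ≤ (∏ i ∈ Finset.range d, (1 - (1 / (p : ℝ)) ^ (i + 1))) * (1 - t) :=
          mul_le_mul_of_nonneg_right ih (by linarith)
      _ ≤ _ := by
          apply mul_le_mul_of_nonneg_left (by linarith)
          have : (0 : ℝ) ≤ 1 / 2 + 1 / 2 * (3 * t) := by positivity
          linarith

theorem gl_ge {p : ℕ} [Fact p.Prime] (hp : p ≠ 2) (d : ℕ) :
    (p : ℝ) ^ (d * d) / 2 ≤ (Fintype.card (GL (Fin d) (ZMod p)) : ℝ) := by
  have hpp : p.Prime := Fact.out
  have hp3 : 3 ≤ p := by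
    have := hpp.two_le
    omega
  have hp0 : (0 : ℝ) < p := by
    have := hpp.pos
    exact_mod_cast this
  have h1 : Fintype.card (GL (Fin d) (ZMod p)) = ∏ i : Fin d, (p ^ d - p ^ (i : ℕ)) := by
    rw [← Nat.card_eq_fintype_card, card_GL_field, ZMod.card]
  rw [h1]
  push_cast
  have h2 : (∏ i : Fin d, (((p ^ d - p ^ (i : ℕ) : ℕ)) : ℝ)) =
      ∏ i ∈ Finset.range d, ((p : ℝ) ^ d * (1 - (1 / (p : ℝ)) ^ (d - 1 - i + 1))) := by
    rw [Finset.prod_range]
    refine Finset.prod_congr rfl fun i _ => ?_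
    have hi : (i : ℕ) < d := i.2
    rw [Nat.cast_sub (Nat.pow_le_pow_right hpp.pos hi.le)]
    push_cast
    rw [mul_sub, mul_one]
    congr 1
    have : d - 1 - (i : ℕ) + 1 = d - i := by omega
    rw [this, one_div, inv_pow]
    have hh : (p : ℝ) ^ d = (p : ℝ) ^ (i : ℕ) * (p : ℝ) ^ (d - i) := by
      rw [← pow_add]; congr 1; omega
    rw [hh]
    field_simp
  rw [h2, Finset.prod_mul_distrib, Finset.prod_const, Finset.card_range, ← pow_mul]
  rw [Finset.prod_range_reflect (fun i => (1 - (1 / (p : ℝ)) ^ (i + 1))) d]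
  have h3 := MPairs_prod hp3 d
  have h4 : (0 : ℝ) ≤ (1 / 2) * (1 / 3) ^ d := by positivity
  have h5 : (0 : ℝ) < (p : ℝ) ^ (d * d) := by positivity
  nlinarith

theorem pairs_ge {p d : ℕ} [Fact p.Prime] (hp : p ≠ 2) {V : Type*} [Fintype V] [DecidableEq V]
    (G : SimpleGraph V) (U : Submodule (ZMod p) (V → ZMod p)) (hU : Ob p G U)
    (hd : Module.finrank (ZMod p) U = d) (m₀ d₁ : ℕ) (hdd : d ≤ d₁) (hK : KryOK p G m₀ d₁) :
    (p : ℝ) ^ (d * d) / 2 ≤
      (((Finset.univ : Finset (Matrix V (Fin d) (ZMod p) × Matrix (Fin d) (Fin d) (ZMod p))).filter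
        (fun x => (Quad x.1 ∧ Dir x.1 m₀) ∧ adj (ZMod p) G * x.1 = x.1 * x.2)).card : ℝ) := by
  refine (gl_ge hp d).trans ?_
  obtain ⟨hU1, hU2, hU3⟩ := hU
  let b : Module.Basis (Fin d) (ZMod p) U := Module.finBasisOfFinrankEq (ZMod p) U hd
  let F₀ : Matrix V (Fin d) (ZMod p) := Matrix.of fun v a => ((b a : U) : V → ZMod p) v
  have hFv : ∀ lam : Fin d → ZMod p, F₀ *ᵥ lam = ((∑ a, lam a • b a : U) : V → ZMod p) := by
    intro lam
    ext v
    simp only [Matrix.mulVec, dotProduct, F₀, Matrix.of_apply, Submodule.coe_sum, Finset.sum_apply,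
      Submodule.coe_smul, Pi.smul_apply, smul_eq_mul]
    exact Finset.sum_congr rfl fun a _ => mul_comm _ _
  have hF0 : ∀ lam : Fin d → ZMod p, F₀ *ᵥ lam = 0 → lam = 0 := by
    intro lam h
    rw [hFv] at h
    have h' : (∑ a, lam a • b a : U) = 0 := by
      ext1
      simpa using h
    have := Fintype.linearIndependent_iff.1 b.linearIndependent lam h'
    exact funext this
  -- the matrix of the restriction
  have hT : ∀ a : Fin d, ∃ θ : Fin d → ZMod p, adj (ZMod p) G *ᵥ (b a : V → ZMod p) = F₀ *ᵥ θ := by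
    intro a
    refine ⟨fun c => b.repr ⟨_, hU1 _ (b a).2⟩ c, ?_⟩
    rw [hFv, b.sum_repr]
  choose θ hθ using hT
  let Θ₀ : Matrix (Fin d) (Fin d) (ZMod p) := Matrix.of fun c a => θ a c
  have hΘ : adj (ZMod p) G * F₀ = F₀ * Θ₀ := by
    ext v a
    have := congrFun (hθ a) v
    simpa [Matrix.mul_apply, Matrix.mulVec, dotProduct, F₀, Θ₀] using this
  have hQ1 : F₀ᵀ * F₀ = 0 := by
    ext a c
    have := hU2 _ (b a).2 _ (b c).2
    simpa [Matrix.mul_apply, dotProduct, F₀] using this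
  have hQ2 : ∀ a, ∑ v, F₀ v a = 0 := fun a => hU3 _ (b a).2
  rw [← Finset.card_univ]
  norm_cast
  refine Finset.card_le_card_of_injOn
    (fun P : GL (Fin d) (ZMod p) =>
      ((F₀ * (P : Matrix (Fin d) (Fin d) (ZMod p)),
        ((P⁻¹ : GL (Fin d) (ZMod p)) : Matrix (Fin d) (Fin d) (ZMod p)) * Θ₀ *
          (P : Matrix (Fin d) (Fin d) (ZMod p))) :
        Matrix V (Fin d) (ZMod p) × Matrix (Fin d) (Fin d) (ZMod p))) ?_ ?_
  · intro P _
    have hPP : (P : Matrix (Fin d) (Fin d) (ZMod p)) *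
        ((P⁻¹ : GL (Fin d) (ZMod p)) : Matrix (Fin d) (Fin d) (ZMod p)) = 1 := by
      rw [← Units.val_mul, mul_inv_cancel, Units.val_one]
    have hPP' : ((P⁻¹ : GL (Fin d) (ZMod p)) : Matrix (Fin d) (Fin d) (ZMod p)) *
        (P : Matrix (Fin d) (Fin d) (ZMod p)) = 1 := by
      rw [← Units.val_mul, inv_mul_cancel, Units.val_one]
    have hcomm : adj (ZMod p) G * (F₀ * (P : Matrix (Fin d) (Fin d) (ZMod p))) =
        (F₀ * (P : Matrix (Fin d) (Fin d) (ZMod p))) *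
        (((P⁻¹ : GL (Fin d) (ZMod p)) : Matrix (Fin d) (Fin d) (ZMod p)) * Θ₀ *
          (P : Matrix (Fin d) (Fin d) (ZMod p))) := by
      have e1 : F₀ * (P : Matrix (Fin d) (Fin d) (ZMod p)) *
          (((P⁻¹ : GL (Fin d) (ZMod p)) : Matrix (Fin d) (Fin d) (ZMod p)) * Θ₀ *
          (P : Matrix (Fin d) (Fin d) (ZMod p))) =
          F₀ * ((P : Matrix (Fin d) (Fin d) (ZMod p)) *
          ((P⁻¹ : GL (Fin d) (ZMod p)) : Matrix (Fin d) (Fin d) (ZMod p))) * Θ₀ *
          (P : Matrix (Fin d) (Fin d) (ZMod p)) := by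
        simp only [Matrix.mul_assoc]
      rw [e1, hPP, ← Matrix.mul_assoc, hΘ, Matrix.mul_one]
    have hne : ∀ lam : Fin d → ZMod p, lam ≠ 0 →
        (F₀ * (P : Matrix (Fin d) (Fin d) (ZMod p))) *ᵥ lam ≠ 0 := by
      intro lam hlam h
      rw [← Matrix.mulVec_mulVec] at h
      have h2 := hF0 _ h
      apply hlam
      have h3 := congrArg (fun x => ((P⁻¹ : GL (Fin d) (ZMod p)) :
        Matrix (Fin d) (Fin d) (ZMod p)) *ᵥ x) h2
      simp only [Matrix.mulVec_mulVec, hPP', Matrix.one_mulVec, Matrix.mulVec_zero] at h3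
      exact h3
    rw [Finset.mem_coe, Finset.mem_filter]
    refine ⟨Finset.mem_univ _, ⟨⟨?_, ?_⟩, ?_⟩, hcomm⟩
    · show (F₀ * (P : Matrix (Fin d) (Fin d) (ZMod p)))ᵀ *
        (F₀ * (P : Matrix (Fin d) (Fin d) (ZMod p))) = 0
      rw [Matrix.transpose_mul, Matrix.mul_assoc, ← Matrix.mul_assoc F₀ᵀ, hQ1, Matrix.zero_mul,
        Matrix.mul_zero]
    · intro a
      show ∑ v, (F₀ * (P : Matrix (Fin d) (Fin d) (ZMod p))) v a = 0
      simp only [Matrix.mul_apply]
      rw [Finset.sum_comm]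
      refine Finset.sum_eq_zero fun c _ => ?_
      rw [← Finset.sum_mul, hQ2, zero_mul]
    · exact dir_of_kry p G m₀ d₁ d hdd hK _ _ hne hcomm
  · intro P _ P' _ h
    simp only [Prod.mk.injEq] at h
    have h1 := h.1
    apply Units.ext
    ext c a
    have h2 : F₀ *ᵥ (fun c => (P : Matrix (Fin d) (Fin d) (ZMod p)) c a -
        (P' : Matrix (Fin d) (Fin d) (ZMod p)) c a) = 0 := by
      ext v
      have := congrFun (congrFun h1 v) a
      simp only [Matrix.mul_apply] at this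
      simp only [Matrix.mulVec, dotProduct, mul_sub, Finset.sum_sub_distrib, Pi.zero_apply]
      rw [this, sub_self]
    have h3 := congrFun (hF0 _ h2) c
    exact sub_eq_zero.1 h3

end Pool.Agent.H71.DG
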