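import Pool.Agent.H71.DG.MDefs

/-!
# DG-26: number of `F` with isotropic columns orthogonal to `1` (M10), `p` odd

PROOF.  Parameters: upper triangular `C` (a function on `{(a,b) : a ≤ b}`), `l : Fin d → ZMod p`;
`ψ(x) = ∑_{a≤b} C_ab x_a x_b + ∑ l_a x_a`.  Orthogonality: the number of `F` is
`p^(-(d(d+1)/2 + d)) ∑_{C,l} (∑_x e(ψ_{C,l}(x)))^n`.  `(C,l) = 0`: `q^n`.  `C = 0`, `l ≠ 0`: the inner sum
is `0`.  `C ≠ 0`: `|∑_x e(ψ(x))|² = ∑_h e(ψ(h)) ∑_x e(B(x,h))`, `B(x,h) = ∑_{a≤b} C_ab (x_a h_b + h_a x_b)`,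
is at most `q #{h : B(.,h) = 0}` and `B ≠ 0` (p odd: the symmetric matrix `C + Cᵀ` is nonzero), so
`#{h} ≤ q / p` and `|∑_x e(ψ)| ≤ q p^(-1/2)`.
-/

set_option autoImplicit false

namespace Pool.Agent.H71.DG

open Matrix Classical Pool.Agent.H66.SP

/-- sum of the standard character over a homomorphism -/
theorem mq_sum_hom {N : ℕ} [NeZero N] {H : Type*} [AddCommGroup H] [Fintype H]
    (f : H →+ ZMod N) :
    ∑ h, ZMod.stdAddChar (f h) = if (∀ h, f h = 0) then (Fintype.card H : ℂ) else 0 := by
  split_ifs with h1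
  · simp [h1, Finset.card_univ]
  · push Not at h1
    obtain ⟨h0, hh0⟩ := h1
    set χ : AddChar H ℂ := (ZMod.stdAddChar (N := N)).compAddMonoidHom f with hχ
    have hχa : ∀ h, χ h = ZMod.stdAddChar (f h) := fun h => rfl
    have hχ1 : χ ≠ 1 := by
      intro hc
      have h2 : χ h0 = 1 := by rw [hc]; rfl
      rw [hχa] at h2
      apply hh0
      apply ZMod.injective_stdAddChar
      rw [h2, AddChar.map_zero_eq_one]
    exact AddChar.sum_eq_zero_of_ne_one hχ1

theorem mq_map_sum {N : ℕ} [NeZero N] {V : Type*} (s : Finset V) (f : V → ZMod N) :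
    (ZMod.stdAddChar (∑ v ∈ s, f v) : ℂ) = ∏ v ∈ s, ZMod.stdAddChar (f v) := by
  induction s using Finset.induction_on with
  | empty => simp
  | insert a s ha ih => rw [Finset.sum_insert ha, Finset.prod_insert ha, AddChar.map_add_eq_mul, ih]

/-- the number of tuples with zero sum by characters -/
theorem mq_count {N : ℕ} [NeZero N] {V X K : Type*} [Fintype V] [Fintype X] [Fintype K]
    [DecidableEq K]
    (Φ : X → K → ZMod N) :
    (((Finset.univ : Finset (V → X)).filter (fun F => ∀ k, ∑ v, Φ (F v) k = 0)).card : ℂ) *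
      (N : ℂ) ^ Fintype.card K =
      ∑ c : K → ZMod N, (∑ x, ZMod.stdAddChar (∑ k, c k * Φ x k)) ^ Fintype.card V := by
  have h1 : ∀ c : K → ZMod N,
      (∑ x, ZMod.stdAddChar (∑ k, c k * Φ x k)) ^ Fintype.card V =
      ∑ F : V → X, ZMod.stdAddChar (∑ k, c k * ∑ v, Φ (F v) k) := by
    intro c
    have h2 : (∑ x, ZMod.stdAddChar (∑ k, c k * Φ x k)) ^ Fintype.card V =
        ∏ _v : V, ∑ x, ZMod.stdAddChar (∑ k, c k * Φ x k) := by
      rw [Finset.prod_const, Finset.card_univ]
    rw [h2, Finset.prod_univ_sum]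
    rw [Fintype.piFinset_univ]
    refine Finset.sum_congr rfl fun F _ => ?_
    rw [← mq_map_sum]
    congr 1
    rw [Finset.sum_comm]
    refine Finset.sum_congr rfl fun k _ => ?_
    rw [Finset.mul_sum]
  rw [Finset.sum_congr rfl fun c _ => h1 c, Finset.sum_comm]
  have h3 : ∀ F : V → X, ∑ c : K → ZMod N, ZMod.stdAddChar (∑ k, c k * ∑ v, Φ (F v) k) =
      if (∀ k, ∑ v, Φ (F v) k = 0) then (N : ℂ) ^ Fintype.card K else 0 := by
    intro F
    let f : (K → ZMod N) →+ ZMod N :=
      { toFun := fun c => ∑ k, c k * ∑ v, Φ (F v) k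
        map_zero' := by simp
        map_add' := fun c c' => by
          simp only [Pi.add_apply, add_mul, Finset.sum_add_distrib] }
    have hf : ∀ c, f c = ∑ k, c k * ∑ v, Φ (F v) k := fun c => rfl
    have h4 := mq_sum_hom f
    simp only [hf] at h4
    rw [h4]
    have h5 : (∀ c : K → ZMod N, ∑ k, c k * ∑ v, Φ (F v) k = 0) ↔
        (∀ k, ∑ v, Φ (F v) k = 0) := by
      constructor
      · intro h k
        have h6 := h (Pi.single k 1)
        rw [Finset.sum_eq_single k] at h6
        · simpa using h6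
        · intro b _ hb
          simp [hb]
        · intro hb
          exact absurd (Finset.mem_univ k) hb
      · intro h c
        simp [h]
    by_cases h7 : ∀ k, ∑ v, Φ (F v) k = 0
    · rw [if_pos h7, if_pos (h5.2 h7)]
      simp [ZMod.card]
    · rw [if_neg h7, if_neg (fun h8 => h7 (h5.1 h8))]
  rw [Finset.sum_congr rfl fun F _ => h3 F, ← Finset.sum_filter, Finset.sum_const, nsmul_eq_mul]

/-- `x_a x_b` as a function of `{a, b}` -/
def mqm {p d : ℕ} (x : Fin d → ZMod p) : Sym2 (Fin d) → ZMod p :=
  Sym2.lift ⟨fun a b => x a * x b, fun _ _ => mul_comm _ _⟩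

/-- the polarisation of `mqm` -/
def mqb {p d : ℕ} (y h : Fin d → ZMod p) : Sym2 (Fin d) → ZMod p :=
  Sym2.lift ⟨fun a b => y a * h b + y b * h a, fun _ _ => add_comm _ _⟩

theorem mqm_mk {p d : ℕ} (x : Fin d → ZMod p) (a b : Fin d) : mqm x s(a, b) = x a * x b := rfl

theorem mqb_mk {p d : ℕ} (y h : Fin d → ZMod p) (a b : Fin d) :
    mqb y h s(a, b) = y a * h b + y b * h a := rfl

theorem mqm_add {p d : ℕ} (y h : Fin d → ZMod p) (z : Sym2 (Fin d)) :
    mqm (y + h) z = mqm y z + mqm h z + mqb y h z := by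
  induction z using Sym2.ind with
  | _ a b =>
    simp only [mqm_mk, mqb_mk, Pi.add_apply]
    ring

theorem mqb_add_left {p d : ℕ} (y y' h : Fin d → ZMod p) (z : Sym2 (Fin d)) :
    mqb (y + y') h z = mqb y h z + mqb y' h z := by
  induction z using Sym2.ind with
  | _ a b =>
    simp only [mqb_mk, Pi.add_apply]
    ring

theorem mqb_zero_left {p d : ℕ} (h : Fin d → ZMod p) (z : Sym2 (Fin d)) :
    mqb 0 h z = 0 := by
  induction z using Sym2.ind with
  | _ a b =>
    simp only [mqb_mk, Pi.zero_apply]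
    ring

theorem mqb_add_smul {p d : ℕ} (y h h' : Fin d → ZMod p) (t : ZMod p) (z : Sym2 (Fin d)) :
    mqb y (h + t • h') z = mqb y h z + t * mqb y h' z := by
  induction z using Sym2.ind with
  | _ a b =>
    simp only [mqb_mk, Pi.add_apply, Pi.smul_apply, smul_eq_mul]
    ring

/-- `∑_z C z (y ⊗ h) z` -/
noncomputable def mqB {p d : ℕ} (C : Sym2 (Fin d) → ZMod p) (y h : Fin d → ZMod p) : ZMod p :=
  ∑ z, C z * mqb y h z

theorem mqB_single {p d : ℕ} (C : Sym2 (Fin d) → ZMod p) (a b : Fin d) :
    mqB C (Pi.single a 1) (Pi.single b 1) = if a = b then 2 * C s(a, b) else C s(a, b) := by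
  unfold mqB
  rw [Finset.sum_eq_single s(a, b)]
  · rw [mqb_mk]
    by_cases hab : a = b
    · subst hab
      simp
      ring
    · simp [hab, Ne.symm hab]
  · intro z _ hz
    induction z using Sym2.ind with
    | _ u v =>
      rw [mqb_mk]
      have h1 : ¬ (u = a ∧ v = b) := by
        rintro ⟨rfl, rfl⟩
        exact hz rfl
      have h2 : ¬ (v = a ∧ u = b) := by
        rintro ⟨rfl, rfl⟩
        exact hz Sym2.eq_swap
      have h3 : (Pi.single a 1 : Fin d → ZMod p) u * (Pi.single b 1 : Fin d → ZMod p) v = 0 := by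
        rw [Pi.single_apply, Pi.single_apply]
        by_cases hu : u = a
        · by_cases hv : v = b
          · exact absurd ⟨hu, hv⟩ h1
          · simp [hv]
        · simp [hu]
      have h4 : (Pi.single a 1 : Fin d → ZMod p) v * (Pi.single b 1 : Fin d → ZMod p) u = 0 := by
        rw [Pi.single_apply, Pi.single_apply]
        by_cases hu : v = a
        · by_cases hv : u = b
          · exact absurd ⟨hu, hv⟩ h2
          · simp [hv]
        · simp [hu]
      rw [h3, h4]
      ring
  · intro h
    exact absurd (Finset.mem_univ _) h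

/-- the radical of a nonzero form is at most a `1/p` fraction -/
theorem mq_rad {p d : ℕ} [Fact p.Prime] (hp : p ≠ 2) (C : Sym2 (Fin d) → ZMod p) (hC : C ≠ 0) :
    ((Finset.univ : Finset (Fin d → ZMod p)).filter (fun h => ∀ y, mqB C y h = 0)).card * p ≤
      p ^ d := by
  obtain ⟨z, hz⟩ : ∃ z, C z ≠ 0 := by
    by_contra hc
    push Not at hc
    exact hC (funext hc)
  induction z using Sym2.ind with
  | _ a b =>
    have h2 : (2 : ZMod p) ≠ 0 := by
      intro h
      have h3 : ((2 : ℕ) : ZMod p) = 0 := by exact_mod_cast h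
      rw [ZMod.natCast_eq_zero_iff] at h3
      have h4 := Nat.le_of_dvd (by norm_num) h3
      have h5 := (Fact.out : p.Prime).two_le
      omega
    have h6 : mqB C (Pi.single a 1) (Pi.single b 1) ≠ 0 := by
      rw [mqB_single]
      split_ifs with hab
      · exact mul_ne_zero h2 hz
      · exact hz
    set R := (Finset.univ : Finset (Fin d → ZMod p)).filter (fun h => ∀ y, mqB C y h = 0) with hR
    have h7 : (R ×ˢ (Finset.univ : Finset (ZMod p))).card ≤
        (Finset.univ : Finset (Fin d → ZMod p)).card := by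
      apply Finset.card_le_card_of_injOn (fun x => x.1 + x.2 • (Pi.single b 1 : Fin d → ZMod p))
      · intro x _
        exact Finset.mem_coe.2 (Finset.mem_univ _)
      · rintro ⟨x, t⟩ hx ⟨x', t'⟩ hx' he
        have hx1 : x ∈ R := (Finset.mem_product.1 (Finset.mem_coe.1 hx)).1
        have hx2 : x' ∈ R := (Finset.mem_product.1 (Finset.mem_coe.1 hx')).1
        simp only at he
        have h8 : ∀ (x : Fin d → ZMod p) (t : ZMod p), x ∈ R →
            mqB C (Pi.single a 1) (x + t • (Pi.single b 1 : Fin d → ZMod p)) =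
            t * mqB C (Pi.single a 1) (Pi.single b 1) := by
          intro x t hx
          have h9 := (Finset.mem_filter.1 hx).2 (Pi.single a 1)
          unfold mqB at h9 ⊢
          simp only [mqb_add_smul, mul_add, Finset.sum_add_distrib, h9, zero_add]
          rw [Finset.mul_sum]
          refine Finset.sum_congr rfl fun z _ => ?_
          ring
        have h10 : t = t' := by
          have h11 := h8 x t hx1
          rw [he, h8 x' t' hx2] at h11
          exact (mul_right_cancel₀ h6 h11).symm
        subst h10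
        have h12 : x = x' := add_right_cancel he
        rw [h12]
    rw [Finset.card_product, Finset.card_univ, Finset.card_univ, ZMod.card] at h7
    simpa [ZMod.card] using h7

/-- quadratic Gauss sums -/
theorem mq_gauss {p d : ℕ} [Fact p.Prime] (hp : p ≠ 2) (C : Sym2 (Fin d) → ZMod p) (hC : C ≠ 0)
    (l : Fin d → ZMod p) :
    ‖∑ x : Fin d → ZMod p, (ZMod.stdAddChar (∑ z, C z * mqm x z + ∑ a, l a * x a) : ℂ)‖ ≤
      (p : ℝ) ^ d / Real.sqrt p := by
  set ψ : (Fin d → ZMod p) → ZMod p := fun x => ∑ z, C z * mqm x z + ∑ a, l a * x a with hψ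
  have hψa : ∀ y h, ψ (y + h) = ψ y + ψ h + mqB C y h := by
    intro y h
    simp only [hψ, mqB, mqm_add, Pi.add_apply, mul_add, Finset.sum_add_distrib]
    ring
  set S : ℂ := ∑ x : Fin d → ZMod p, (ZMod.stdAddChar (ψ x) : ℂ) with hS
  have hp0 : (0 : ℝ) < p := by exact_mod_cast (Fact.out : p.Prime).pos
  -- the square
  have h1 : (starRingEnd ℂ) S * S = ∑ h, ZMod.stdAddChar (ψ h) *
      ∑ y, (ZMod.stdAddChar (mqB C y h) : ℂ) := by
    have h2 : (starRingEnd ℂ) S = ∑ y, ZMod.stdAddChar (-ψ y) := by
      rw [hS, map_sum]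
      refine Finset.sum_congr rfl fun y _ => ?_
      rw [AddChar.map_neg_eq_conj]
    rw [h2, Finset.sum_mul_sum]
    have h3 : ∀ y, ∑ x, (ZMod.stdAddChar (-ψ y) * ZMod.stdAddChar (ψ x) : ℂ) =
        ∑ h, ZMod.stdAddChar (ψ h) * ZMod.stdAddChar (mqB C y h) := by
      intro y
      rw [← Equiv.sum_comp (Equiv.addLeft y)]
      refine Finset.sum_congr rfl fun h _ => ?_
      rw [← AddChar.map_add_eq_mul, ← AddChar.map_add_eq_mul, Equiv.coe_addLeft, hψa]
      congr 1
      ring
    rw [Finset.sum_congr rfl fun y _ => h3 y, Finset.sum_comm]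
    refine Finset.sum_congr rfl fun h _ => ?_
    rw [Finset.mul_sum]
  have h4 : ∀ h, ∑ y, (ZMod.stdAddChar (mqB C y h) : ℂ) =
      if (∀ y, mqB C y h = 0) then ((p : ℂ) ^ d) else 0 := by
    intro h
    let f : (Fin d → ZMod p) →+ ZMod p :=
      { toFun := fun y => mqB C y h
        map_zero' := by simp [mqB, mqb_zero_left]
        map_add' := fun y y' => by
          simp only [mqB, mqb_add_left, mul_add, Finset.sum_add_distrib] }
    have hf : ∀ c, f c = mqB C c h := fun c => rfl
    have h5 := mq_sum_hom f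
    simp only [hf] at h5
    rw [h5]
    simp [ZMod.card]
  have h6 : ‖S‖ ^ 2 ≤ (p : ℝ) ^ d * ((p : ℝ) ^ d / p) := by
    have h7 : ‖S‖ ^ 2 = ‖(starRingEnd ℂ) S * S‖ := by
      rw [norm_mul, RCLike.norm_conj, sq]
    rw [h7, h1]
    refine (norm_sum_le _ _).trans ?_
    have h8 : ∀ h : Fin d → ZMod p, ‖ZMod.stdAddChar (ψ h) *
        ∑ y, (ZMod.stdAddChar (mqB C y h) : ℂ)‖ =
        if (∀ y, mqB C y h = 0) then ((p : ℝ) ^ d) else 0 := by
      intro h
      rw [norm_mul, AddChar.norm_apply, one_mul, h4]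
      split_ifs with h9
      · simp
      · simp
    rw [Finset.sum_congr rfl fun h _ => h8 h, ← Finset.sum_filter, Finset.sum_const, nsmul_eq_mul,
      mul_comm]
    have h10 := mq_rad hp C hC
    have h11 : ((((Finset.univ : Finset (Fin d → ZMod p)).filter
        (fun h => ∀ y, mqB C y h = 0)).card : ℕ) : ℝ) ≤ (p : ℝ) ^ d / p := by
      rw [le_div_iff₀ hp0]
      exact_mod_cast h10
    exact mul_le_mul_of_nonneg_left h11 (by positivity)
  have h12 : (p : ℝ) ^ d * ((p : ℝ) ^ d / p) = ((p : ℝ) ^ d / Real.sqrt p) ^ 2 := by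
    rw [div_pow, Real.sq_sqrt hp0.le]
    ring
  rw [h12] at h6
  exact (sq_le_sq₀ (norm_nonneg _) (by positivity)).1 h6

theorem card_quad {p d : ℕ} [Fact p.Prime] (hp : p ≠ 2) {V : Type*} [Fintype V] :
    (((Finset.univ : Finset (Matrix V (Fin d) (ZMod p))).filter (fun F =>
      Fᵀ * F = 0 ∧ ∀ a, ∑ v, F v a = 0)).card : ℝ) ≤
      ((p : ℝ) ^ d) ^ Fintype.card V *
        (1 / (p : ℝ) ^ (d * (d + 1) / 2 + d) + 1 / Real.sqrt p ^ Fintype.card V) := by
  have hp0 : (0 : ℝ) < p := by exact_mod_cast (Fact.out : p.Prime).pos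
  have hs0 : (0 : ℝ) < Real.sqrt p := Real.sqrt_pos.2 hp0
  set n := Fintype.card V with hn
  set cc := ((Finset.univ : Finset (Matrix V (Fin d) (ZMod p))).filter (fun F =>
      Fᵀ * F = 0 ∧ ∀ a, ∑ v, F v a = 0)).card with hcc
  by_cases hn0 : n = 0
  · have h1 : IsEmpty V := Fintype.card_eq_zero_iff.1 (by rw [← hn]; exact hn0)
    have h2 : cc ≤ 1 := by
      have h3 : cc ≤ (Finset.univ : Finset (Matrix V (Fin d) (ZMod p))).card :=
        Finset.card_le_card (Finset.filter_subset _ _)
      have h4 : (Finset.univ : Finset (Matrix V (Fin d) (ZMod p))).card ≤ 1 := by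
        apply Finset.card_le_one.2
        intro a _ b _
        exact Matrix.ext fun v _ => (h1.false v).elim
      omega
    rw [hn0]
    simp only [pow_zero, one_mul, div_one]
    have h5 : (0 : ℝ) ≤ 1 / (p : ℝ) ^ (d * (d + 1) / 2 + d) := by positivity
    have h6 : (cc : ℝ) ≤ 1 := by exact_mod_cast h2
    linarith
  · -- the character sum
    let Φ : (Fin d → ZMod p) → (Sym2 (Fin d) ⊕ Fin d) → ZMod p :=
      fun x k => Sum.elim (mqm x) x k
    have h1 := mq_count (V := V) Φ
    have h2 : ((Finset.univ : Finset (V → (Fin d → ZMod p))).filter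
        (fun F => ∀ k, ∑ v, Φ (F v) k = 0)).card = cc := by
      rw [hcc]
      have h3 : ∀ F : V → (Fin d → ZMod p), (∀ k, ∑ v, Φ (F v) k = 0) ↔
          ((Matrix.of F)ᵀ * (Matrix.of F) = 0 ∧ ∀ a, ∑ v, (Matrix.of F) v a = 0) := by
        intro F
        constructor
        · intro h
          constructor
          · ext a b
            have h4 := h (Sum.inl s(a, b))
            rw [Matrix.mul_apply]
            exact h4
          · intro a
            exact h (Sum.inr a)
        · rintro ⟨h4, h5⟩ k
          rcases k with z | a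
          · induction z using Sym2.ind with
            | _ a b =>
              have h6 := congrFun (congrFun h4 a) b
              rw [Matrix.mul_apply] at h6
              exact h6
          · exact h5 a
      apply Finset.card_bij (fun F _ => Matrix.of F)
      · intro F hF
        rw [Finset.mem_filter] at hF ⊢
        exact ⟨Finset.mem_univ _, (h3 F).1 hF.2⟩
      · intro F _ G _ h
        exact h
      · intro F hF
        rw [Finset.mem_filter] at hF
        refine ⟨fun v a => F v a, ?_, rfl⟩
        rw [Finset.mem_filter]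
        exact ⟨Finset.mem_univ _, (h3 _).2 hF.2⟩
    have hK : Fintype.card (Sym2 (Fin d) ⊕ Fin d) = d * (d + 1) / 2 + d := by
      rw [Fintype.card_sum, Sym2.card, Fintype.card_fin, Nat.choose_two_right, Nat.add_sub_cancel,
        mul_comm]
    rw [h2] at h1
    -- bound
    have hb : ∀ c : (Sym2 (Fin d) ⊕ Fin d) → ZMod p,
        ‖(∑ x, (ZMod.stdAddChar (∑ k, c k * Φ x k) : ℂ)) ^ n‖ ≤
        (if c = 0 then ((p : ℝ) ^ d) ^ n else 0) + ((p : ℝ) ^ d / Real.sqrt p) ^ n := by
      intro c
      have h4 : (0 : ℝ) ≤ ((p : ℝ) ^ d / Real.sqrt p) ^ n := by positivity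
      by_cases hc0 : c = 0
      · rw [if_pos hc0, hc0]
        simp only [Pi.zero_apply, zero_mul, Finset.sum_const_zero, AddChar.map_zero_eq_one,
          Finset.sum_const, Finset.card_univ, nsmul_eq_mul, mul_one]
        have h5 : ‖((Fintype.card (Fin d → ZMod p) : ℕ) : ℂ) ^ n‖ = ((p : ℝ) ^ d) ^ n := by
          simp [ZMod.card]
        rw [h5]
        linarith
      · rw [if_neg hc0, zero_add, norm_pow]
        have h6 : ∀ x, ∑ k, c k * Φ x k =
            ∑ z, (fun z => c (Sum.inl z)) z * mqm x z + ∑ a, (fun a => c (Sum.inr a)) a * x a := by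
          intro x
          rw [Fintype.sum_sum_type]
          rfl
        by_cases hC : (fun z => c (Sum.inl z)) = 0
        · have h7 : ∑ x, (ZMod.stdAddChar (∑ k, c k * Φ x k) : ℂ) = 0 := by
            have h8 : ∀ z, c (Sum.inl z) = 0 := fun z => congrFun hC z
            have h9 : ∀ x, ∑ k, c k * Φ x k = ∑ a, c (Sum.inr a) * x a := by
              intro x
              rw [h6]
              simp [h8]
            let f : (Fin d → ZMod p) →+ ZMod p :=
              { toFun := fun x => ∑ a, c (Sum.inr a) * x a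
                map_zero' := by simp
                map_add' := fun y y' => by
                  simp only [Pi.add_apply, mul_add, Finset.sum_add_distrib] }
            have hf : ∀ x, f x = ∑ a, c (Sum.inr a) * x a := fun c => rfl
            have h5 := mq_sum_hom f
            simp only [hf] at h5
            rw [Finset.sum_congr rfl fun x _ => by rw [h9 x], h5, if_neg]
            intro h10
            apply hc0
            funext k
            rcases k with z | a
            · exact h8 z
            · have h11 := h10 (Pi.single a 1)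
              rw [Finset.sum_eq_single a] at h11
              · simpa using h11
              · intro b _ hb
                simp [hb]
              · intro hb
                exact absurd (Finset.mem_univ a) hb
          rw [h7, norm_zero, zero_pow hn0]
          exact h4
        · have h7 := mq_gauss hp (fun z => c (Sum.inl z)) hC (fun a => c (Sum.inr a))
          rw [Finset.sum_congr rfl fun x _ => by rw [h6 x]]
          exact pow_le_pow_left₀ (norm_nonneg _) h7 n
    have h5 : (cc : ℝ) * (p : ℝ) ^ (d * (d + 1) / 2 + d) ≤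
        ((p : ℝ) ^ d) ^ n + (p : ℝ) ^ (d * (d + 1) / 2 + d) * ((p : ℝ) ^ d / Real.sqrt p) ^ n := by
      have h6 : ‖(cc : ℂ) * (p : ℂ) ^ Fintype.card (Sym2 (Fin d) ⊕ Fin d)‖ =
          (cc : ℝ) * (p : ℝ) ^ (d * (d + 1) / 2 + d) := by
        rw [hK]
        simp
      rw [← h6, h1]
      refine (norm_sum_le _ _).trans ?_
      refine (Finset.sum_le_sum fun c _ => hb c).trans ?_
      have h8 : ∑ c : (Sym2 (Fin d) ⊕ Fin d) → ZMod p, (if c = 0 then ((p : ℝ) ^ d) ^ n else 0) =
          ((p : ℝ) ^ d) ^ n := by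
        rw [Finset.sum_eq_single (0 : (Sym2 (Fin d) ⊕ Fin d) → ZMod p)]
        · rw [if_pos rfl]
        · intro b _ hb
          rw [if_neg hb]
        · intro hb
          exact absurd (Finset.mem_univ _) hb
      rw [Finset.sum_add_distrib, h8, Finset.sum_const, Finset.card_univ, nsmul_eq_mul]
      have h7 : ((Fintype.card ((Sym2 (Fin d) ⊕ Fin d) → ZMod p) : ℕ) : ℝ) =
          (p : ℝ) ^ (d * (d + 1) / 2 + d) := by
        rw [← hK]
        simp [ZMod.card]
      rw [h7]
    have h6 : (0 : ℝ) < (p : ℝ) ^ (d * (d + 1) / 2 + d) := by positivity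
    have h7 : (cc : ℝ) ≤ (((p : ℝ) ^ d) ^ n +
        (p : ℝ) ^ (d * (d + 1) / 2 + d) * ((p : ℝ) ^ d / Real.sqrt p) ^ n) /
        (p : ℝ) ^ (d * (d + 1) / 2 + d) := by
      rw [le_div_iff₀ h6]
      exact h5
    refine h7.trans (le_of_eq ?_)
    rw [div_pow]
    field_simp

theorem anti_le {p d : ℕ} [Fact p.Prime] (hp : p ≠ 2) :
    anti p d ≤ p ^ (d * (d - 1) / 2) := by
  have h2 : (2 : ZMod p) ≠ 0 := by
    intro h
    have h3 : ((2 : ℕ) : ZMod p) = 0 := by exact_mod_cast h
    rw [ZMod.natCast_eq_zero_iff] at h3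
    have h4 := Nat.le_of_dvd (by norm_num) h3
    have h5 := (Fact.out : p.Prime).two_le
    omega
  unfold anti
  have hc : ((Finset.univ : Finset (Matrix (Fin d) (Fin d) (ZMod p))).filter
      (fun L => L + Lᵀ = 0)).card ≤
      (Finset.univ : Finset ({z : Sym2 (Fin d) // ¬ z.IsDiag} → ZMod p)).card := by
    apply Finset.card_le_card_of_injOn (fun L z => L (Quot.out z.1).1 (Quot.out z.1).2)
    · intro x _
      exact Finset.mem_coe.2 (Finset.mem_univ _)
    · intro L hL M hM h
      have hL1 : L + Lᵀ = 0 := (Finset.mem_filter.1 (Finset.mem_coe.1 hL)).2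
      have hM1 : M + Mᵀ = 0 := (Finset.mem_filter.1 (Finset.mem_coe.1 hM)).2
      have hL2 : ∀ a b, L a b = - L b a := by
        intro a b
        have := congrFun (congrFun hL1 a) b
        simp only [Matrix.add_apply, Matrix.transpose_apply, Matrix.zero_apply] at this
        exact eq_neg_of_add_eq_zero_left this
      have hM2 : ∀ a b, M a b = - M b a := by
        intro a b
        have := congrFun (congrFun hM1 a) b
        simp only [Matrix.add_apply, Matrix.transpose_apply, Matrix.zero_apply] at this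
        exact eq_neg_of_add_eq_zero_left this
      have h0 : ∀ x : ZMod p, x = -x → x = 0 := by
        intro x hx
        have : 2 * x = 0 := by
          rw [two_mul]
          nth_rewrite 1 [hx]
          ring
        rcases mul_eq_zero.1 this with h | h
        · exact absurd h h2
        · exact h
      ext a b
      by_cases hab : a = b
      · subst hab
        rw [h0 _ (hL2 a a), h0 _ (hM2 a a)]
      · have hz : ¬ (s(a, b) : Sym2 (Fin d)).IsDiag := by
          rw [Sym2.mk_isDiag_iff]
          exact hab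
        have h5 := congrFun h ⟨s(a, b), hz⟩
        simp only at h5
        have h6 : (Quot.mk _ (Quot.out (s(a, b) : Sym2 (Fin d))) : Sym2 (Fin d)) = s(a, b) :=
          Quot.out_eq _
        have h7 : s((Quot.out (s(a, b) : Sym2 (Fin d))).1, (Quot.out (s(a, b) : Sym2 (Fin d))).2) =
            s(a, b) := h6
        rcases Sym2.eq_iff.1 h7 with ⟨h8, h9⟩ | ⟨h8, h9⟩
        · rw [h8, h9] at h5
          exact h5
        · rw [h8, h9] at h5
          rw [hL2 a b, hM2 a b, h5]
  refine hc.trans (le_of_eq ?_)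
  rw [Finset.card_univ, Fintype.card_fun, ZMod.card]
  congr 1
  have h3 := Sym2.card_subtype_not_diag (α := Fin d)
  rw [Fintype.card_fin, Nat.choose_two_right] at h3
  rw [← h3]

end Pool.Agent.H71.DG
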