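import Pool.Agent.H71.DG.RBmain
import Pool.Agent.H71.DG.MRow
import Pool.Agent.H71.DG.Bases
import Pool.Agent.H71.DG.Count

/-!
# DG-23: the structured `F` (M6)

PROOF.  Put `q = p^d`, `n = card V`.  `kap ≤ 1` always.  Let `F` be structured with `Z`, `|Z| ≤ s`, and
`Dir F m₀`.  Since `2 s ≤ n` there are sets `B` disjoint from `Z` with `|B| = s`; let `B₀` be one with
minimal `κ = kap F B₀ k`, `τ₀ < κ ≤ 1 ≤ τ₀ 2^D`; let `i < D` be least with `κ ≤ τ₀ 2^(i+1)`, so
`τ_i := τ₀ 2^i < κ ≤ 2 τ_i`.  So `F` belongs to the class `(Z, i)`: `F` restricted to `Zᶜ` (zero on `Z`) is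
counted by `count_hered` (`τ = τ_i`), `F` on `Z` has at most `q^s` values: the class has at most
`q^s q^s (1/τ_i)^(n - |Z| - s)` elements.  For `F` in the class let `R` be from `exists_R` (`U = ∅`) and
`B'' = B₀ ∪ R`, `|B''| ≤ w = s + N₁ d`; by `rb_main`, `hx`, `RB F B'' (x τ_i)`; by `cnt_le_of_RB`
`cnt F (F * Θ) ≤ card * (x τ_i)^(n - |B''|) ≤ card * (x τ_i)^(n - w)` as `x τ_i ≤ 1`.  The product of the
two bounds is at most `q^(2s) x^(n-w) τ_i^(n-w) (1/τ_i)^(n-|Z|-s) ≤ q^(2s) x^(n-w) q^w`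
(`1/τ_i ≤ q`, and `(n - |Z| - s) - (n - w) ≤ w`).  Sum over `i < D` and the at most `2^n` sets `Z`.
-/

set_option autoImplicit false

namespace Pool.Agent.H71.DG

open Matrix Classical Pool.Agent.H66.SP

theorem mem_fu {α : Type*} {inst : Fintype α} {P : α → Prop} {dP : DecidablePred P} {a : α}
    (h : P a) : a ∈ @Finset.filter α P dP (@Finset.univ α inst) :=
  (@Finset.mem_filter α P dP _ a).2 ⟨@Finset.mem_univ α inst a, h⟩

theorem kap_le_one {N r : ℕ} {V : Type*} [Fintype V] (F : Matrix V (Fin r) (ZMod N))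
    (B : Finset V) (k : ℕ) : kap F B k ≤ 1 := by
  unfold kap
  have h : relD F B k ≤ B.card.descFactorial (2 * k) * 2 ^ (2 * k) := by
    unfold relD
    let f : ((Fin (2 * k) ↪ {x // x ∈ B}) × (Fin (2 * k) → Bool)) →
        ((Fin (2 * k) → V) × (Fin (2 * k) → Bool)) := fun y => (fun i => (y.1 i : V), y.2)
    calc _ ≤ ((Finset.univ : Finset ((Fin (2 * k) ↪ {x // x ∈ B}) × (Fin (2 * k) → Bool))).image
          f).card := by
          apply Finset.card_le_card
          intro x hx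
          rw [Finset.mem_filter] at hx
          obtain ⟨-, hB, hinj, -⟩ := hx
          rw [Finset.mem_image]
          refine ⟨(⟨fun i => ⟨x.1 i, hB i⟩, fun i j hij => hinj (by simpa using hij)⟩, x.2),
            Finset.mem_univ _, ?_⟩
          rfl
      _ ≤ (Finset.univ : Finset ((Fin (2 * k) ↪ {x // x ∈ B}) × (Fin (2 * k) → Bool))).card :=
          Finset.card_image_le
      _ = _ := by
          rw [Finset.card_univ, Fintype.card_prod, Fintype.card_embedding_eq]
          simp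
  apply div_le_one_of_le₀
  · exact_mod_cast h
  · positivity

theorem RB_mono {N r : ℕ} {V : Type*} (F : Matrix V (Fin r) (ZMod N)) (B : Finset V)
    {c c' : ℝ} (h : RB F B c) (hc : c ≤ c') : RB F B c' := by
  intro g
  exact (h g).trans (mul_le_mul_of_nonneg_left hc (by positivity))

/-- the number of matrices vanishing outside `Z` -/
theorem card_supp {p d : ℕ} [NeZero p] {V : Type*} [Fintype V] [DecidableEq V] (Z : Finset V) :
    ((Finset.univ : Finset (Matrix V (Fin d) (ZMod p))).filter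
      (fun H => ∀ v, v ∉ Z → H v = 0)).card ≤ (p ^ d) ^ Z.card := by
  let f : ({x // x ∈ Z} → (Fin d → ZMod p)) → Matrix V (Fin d) (ZMod p) :=
    fun y v => if h : v ∈ Z then y ⟨v, h⟩ else 0
  calc _ ≤ ((Finset.univ : Finset ({x // x ∈ Z} → (Fin d → ZMod p))).image f).card := by
        apply Finset.card_le_card
        intro H hH
        rw [Finset.mem_filter] at hH
        rw [Finset.mem_image]
        refine ⟨fun z => H z, Finset.mem_univ _, ?_⟩
        funext v
        by_cases hv : v ∈ Z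
        · simp only [f, hv, dite_true]
        · simp only [f, hv, dite_false]
          exact (hH.2 v hv).symm
    _ ≤ (Finset.univ : Finset ({x // x ∈ Z} → (Fin d → ZMod p))).card := Finset.card_image_le
    _ = _ := by
        rw [Finset.card_univ, Fintype.card_fun, Fintype.card_fun]
        simp [ZMod.card]

theorem card_class {p d : ℕ} [NeZero p] {V : Type*} [Fintype V] [DecidableEq V] (Z : Finset V)
    (s k : ℕ) (hk : 1 ≤ k) (hks : 2 * k ≤ s) (hs : 2 * s ≤ Fintype.card V) (hZ : Z.card ≤ s)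
    (τ : ℝ) (hτ : 0 < τ) :
    (((Finset.univ : Finset (Matrix V (Fin d) (ZMod p))).filter (fun F =>
      ∀ B : Finset V, Disjoint B Z → B.card = s → τ ≤ kap F B k)).card : ℝ) ≤
      ((p : ℝ) ^ d) ^ s * (((p : ℝ) ^ d) ^ s * (1 / τ) ^ (Fintype.card V - Z.card - s)) := by
  have hp1 : (1 : ℝ) ≤ (p : ℝ) := by
    have := NeZero.pos p
    exact_mod_cast this
  have hq1 : (1 : ℝ) ≤ (p : ℝ) ^ d := one_le_pow₀ hp1
  have hc := count_hered (N := p) (r := d) (Zᶜ : Finset V) s k hk hks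
    (by rw [Finset.card_compl]; omega) τ hτ
  rw [Finset.card_compl] at hc
  obtain ⟨S2, hS2, hc2⟩ : ∃ S2 : Finset (Matrix V (Fin d) (ZMod p)),
      (∀ F : Matrix V (Fin d) (ZMod p), ((∀ v, v ∉ (Zᶜ : Finset V) → F v = 0) ∧
        ∀ B ⊆ (Zᶜ : Finset V), B.card = s → τ ≤ kap F B k) → F ∈ S2) ∧
      (S2.card : ℝ) ≤ ((p : ℝ) ^ d) ^ s * (1 / τ) ^ (Fintype.card V - Z.card - s) :=
    by
    refine ⟨_, ?_, hc⟩
    intro F hF
    exact mem_fu hF
  obtain ⟨S1, hS1, hc1⟩ : ∃ S1 : Finset (Matrix V (Fin d) (ZMod p)),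
      (∀ F : Matrix V (Fin d) (ZMod p), (∀ v, v ∉ Z → F v = 0) → F ∈ S1) ∧
      S1.card ≤ (p ^ d) ^ Z.card :=
    by
    have hcs := card_supp (p := p) (d := d) Z
    refine ⟨_, ?_, hcs⟩
    intro F hF
    exact mem_fu hF
  clear hc
  have h1 : (S1.card : ℝ) ≤ ((p : ℝ) ^ d) ^ s := by
    calc (S1.card : ℝ) ≤ (((p ^ d) ^ Z.card : ℕ) : ℝ) := by exact_mod_cast hc1
      _ = ((p : ℝ) ^ d) ^ Z.card := by push_cast; ring
      _ ≤ _ := pow_le_pow_right₀ hq1 hZ
  have h2 : ((Finset.univ : Finset (Matrix V (Fin d) (ZMod p))).filter (fun F =>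
      ∀ B : Finset V, Disjoint B Z → B.card = s → τ ≤ kap F B k)).card ≤ (S1 ×ˢ S2).card := by
    let f : Matrix V (Fin d) (ZMod p) → Matrix V (Fin d) (ZMod p) × Matrix V (Fin d) (ZMod p) :=
      fun F => ((fun v => if v ∈ Z then F v else 0), (fun v => if v ∈ Z then 0 else F v))
    apply Finset.card_le_card_of_injOn f
    · intro F hF
      have hF2 := (Finset.mem_filter.1 (Finset.mem_coe.1 hF)).2
      apply Finset.mem_coe.2
      apply Finset.mem_product.2
      constructor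
      · apply hS1
        intro v hv
        exact if_neg hv
      · apply hS2
        refine ⟨fun v hv => ?_, fun B hB hBs => ?_⟩
        · have hv' : v ∈ Z := by
            by_contra hcon
            exact hv (Finset.mem_compl.2 hcon)
          exact if_pos hv'
        · have hd : Disjoint B Z := by
            rw [Finset.disjoint_left]
            intro v hv hvZ
            exact (Finset.mem_compl.1 (hB hv)) hvZ
          refine (hF2 B hd hBs).trans_eq (kap_congr _ _ _ _ fun v hv => ?_)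
          have hvZ : v ∉ Z := Finset.disjoint_left.1 hd hv
          exact (if_neg hvZ).symm
    · intro F _ F' _ h
      have ha := congrArg Prod.fst h
      have hb := congrArg Prod.snd h
      funext v
      by_cases hv : v ∈ Z
      · have h3 := congrFun ha v
        have e1 : (f F).1 v = F v := if_pos hv
        have e2 : (f F').1 v = F' v := if_pos hv
        rw [e1, e2] at h3
        exact h3
      · have h3 := congrFun hb v
        have e1 : (f F).2 v = F v := if_neg hv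
        have e2 : (f F').2 v = F' v := if_neg hv
        rw [e1, e2] at h3
        exact h3
  calc _ ≤ ((S1 ×ˢ S2).card : ℝ) := by exact_mod_cast h2
    _ = (S1.card : ℝ) * S2.card := by rw [Finset.card_product]; push_cast; ring
    _ ≤ ((p : ℝ) ^ d) ^ s * (((p : ℝ) ^ d) ^ s * (1 / τ) ^ (Fintype.card V - Z.card - s)) :=
        mul_le_mul h1 hc2 (by positivity) (by positivity)

/-- the dyadic class of `κ` -/
theorem exists_dyadic (τ₀ κ : ℝ) (D : ℕ) (h : τ₀ < κ) (h1 : κ ≤ 1) (hD : 1 ≤ τ₀ * 2 ^ D) :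
    ∃ i, i < D ∧ τ₀ * 2 ^ i < κ ∧ κ ≤ 2 * (τ₀ * 2 ^ i) := by
  have hex : ∃ j : ℕ, κ ≤ τ₀ * 2 ^ j := ⟨D, h1.trans hD⟩
  have hf := Nat.find_spec hex
  have hle : Nat.find hex ≤ D := Nat.find_min' hex (h1.trans hD)
  have hne : Nat.find hex ≠ 0 := by
    intro h0
    rw [h0] at hf
    simp only [pow_zero, mul_one] at hf
    linarith
  obtain ⟨i, hi⟩ := Nat.exists_eq_succ_of_ne_zero hne
  refine ⟨i, by omega, ?_, ?_⟩
  · have := Nat.find_min hex (m := i) (by omega)
    exact not_le.1 this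
  · rw [hi, pow_succ] at hf
    linarith

theorem cnt_class {p d : ℕ} [Fact p.Prime] {V : Type*} [Fintype V] [DecidableEq V]
    (Θ : Matrix (Fin d) (Fin d) (ZMod p)) (s k j N₁ m₀ w : ℕ) (M M₀ τ₀ x : ℝ)
    (hk : 1 ≤ k) (hks : 2 * k ≤ s) (hj : 1 ≤ j) (hM : 0 ≤ M)
    (hM₀ : 100 * k * M₀ ≤ s) (hMM : (2 * (j : ℝ) + 1) ^ 2 * M ≤ M₀)
    (hq : (4 * (k : ℝ) ^ 2 / s) ^ k ≤ 1 / (p : ℝ) ^ d) (h80 : 80 * M₀ < N₁)
    (hm₀ : N₁ * d ≤ m₀) (hw : w = s + N₁ * d) (hx0 : 0 < x) (hx1 : x ≤ 1)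
    (hx : ∀ τ : ℝ, τ₀ ≤ τ → max (1 / (p : ℝ) ^ d) ((8 * τ + 2 / (p : ℝ) ^ d) / j) +
      Real.exp (-2 * M) ≤ x * τ)
    (F : Matrix V (Fin d) (ZMod p)) (hF : Dir F m₀) (B : Finset V) (hB : B.card = s)
    (τ : ℝ) (hτ0 : 0 < τ) (hτ1 : τ ≤ 1) (hτ : τ₀ ≤ τ) (hκ : kap F B k ≤ 2 * τ) :
    (cnt F (F * Θ) : ℝ) ≤
      (Fintype.card (SimpleGraph V) : ℝ) * (x * τ) ^ (Fintype.card V - w) := by
  obtain ⟨R, -, hR, hRd⟩ := exists_R F m₀ N₁ hF ∅ (by simpa using hm₀)
  have hjp : (0 : ℝ) < j := by exact_mod_cast hj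
  have hrb := rb_main F B (B ∪ R) Finset.subset_union_left k j N₁ M M₀ hk hj (by omega) hM
    (by rw [hB]; exact hM₀) hMM (by rw [hB]; exact hq) h80 (by
      intro lam hlam
      refine (hRd lam hlam).trans (Finset.card_le_card ?_)
      exact Finset.filter_subset_filter _ Finset.subset_union_right)
  have hrb2 : RB F (B ∪ R) (x * τ) := by
    refine RB_mono F _ hrb (le_trans ?_ (hx τ hτ))
    refine add_le_add (max_le_max le_rfl ?_) le_rfl
    apply div_le_div_of_nonneg_right _ hjp.le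
    linarith
  have hxt0 : 0 ≤ x * τ := by positivity
  have hxt1 : x * τ ≤ 1 := mul_le_one₀ hx1 hτ0.le hτ1
  refine (cnt_le_of_RB F (F * Θ) (B ∪ R) (x * τ) hxt0 hrb2).trans ?_
  apply mul_le_mul_of_nonneg_left _ (by positivity)
  apply pow_le_pow_of_le_one hxt0 hxt1
  have : (B ∪ R).card ≤ w := by
    refine (Finset.card_union_le _ _).trans ?_
    omega
  omega

theorem sum_strc {p d : ℕ} [Fact p.Prime] {V : Type*} [Fintype V] [DecidableEq V]
    (Θ : Matrix (Fin d) (Fin d) (ZMod p)) (s k j N₁ m₀ w D : ℕ) (M M₀ τ₀ x : ℝ)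
    (hk : 1 ≤ k) (hks : 2 * k ≤ s) (hs : 2 * s ≤ Fintype.card V) (hj : 1 ≤ j) (hM : 0 ≤ M)
    (hM₀ : 100 * k * M₀ ≤ s) (hMM : (2 * (j : ℝ) + 1) ^ 2 * M ≤ M₀)
    (hq : (4 * (k : ℝ) ^ 2 / s) ^ k ≤ 1 / (p : ℝ) ^ d) (h80 : 80 * M₀ < N₁)
    (hm₀ : N₁ * d ≤ m₀) (hw : w = s + N₁ * d) (hwn : w ≤ Fintype.card V)
    (hτ₀ : 1 / (p : ℝ) ^ d ≤ τ₀) (hD : 1 ≤ τ₀ * 2 ^ D) (hx0 : 0 < x) (hx1 : x ≤ 1)
    (hx : ∀ τ : ℝ, τ₀ ≤ τ → max (1 / (p : ℝ) ^ d) ((8 * τ + 2 / (p : ℝ) ^ d) / j) +
      Real.exp (-2 * M) ≤ x * τ) :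
    ∑ F ∈ (Finset.univ : Finset (Matrix V (Fin d) (ZMod p))).filter
        (fun F => Strc F s k τ₀ ∧ Dir F m₀), (cnt F (F * Θ) : ℝ) ≤
      (Fintype.card (SimpleGraph V) : ℝ) *
        (D * 2 ^ Fintype.card V * ((p : ℝ) ^ d) ^ (2 * s + w) * x ^ (Fintype.card V - w)) := by
  have hp2 : 2 ≤ p := (Fact.out : p.Prime).two_le
  have hp1 : (1 : ℝ) ≤ (p : ℝ) := by exact_mod_cast (by omega : 1 ≤ p)
  have hq1 : (1 : ℝ) ≤ (p : ℝ) ^ d := one_le_pow₀ hp1
  have hq0 : (0 : ℝ) < (p : ℝ) ^ d := by positivity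
  have hτpos : 0 < τ₀ := lt_of_lt_of_le (by positivity) hτ₀
  set S := (Finset.univ : Finset (Matrix V (Fin d) (ZMod p))).filter
        (fun F => Strc F s k τ₀ ∧ Dir F m₀) with hS
  have key : ∀ F : Matrix V (Fin d) (ZMod p), ∃ zi : Finset V × ℕ, F ∈ S →
      zi.1.card ≤ s ∧ zi.2 < D ∧
      (∀ B : Finset V, Disjoint B zi.1 → B.card = s → τ₀ * 2 ^ zi.2 ≤ kap F B k) ∧
      (∃ B : Finset V, B.card = s ∧ τ₀ * 2 ^ zi.2 < kap F B k ∧
        kap F B k ≤ 2 * (τ₀ * 2 ^ zi.2)) := by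
    intro F
    by_cases hF : F ∈ S
    · have hF' := hF
      rw [hS, Finset.mem_filter] at hF'
      obtain ⟨-, ⟨Z, hZ, hB⟩, -⟩ := hF'
      have hne : ((Finset.univ : Finset (Finset V)).filter
          (fun B => Disjoint B Z ∧ B.card = s)).Nonempty := by
        obtain ⟨B, hB1, hB2⟩ := Finset.exists_subset_card_eq (s := (Zᶜ : Finset V)) (n := s)
          (by rw [Finset.card_compl]; omega)
        refine ⟨B, ?_⟩
        rw [Finset.mem_filter]
        refine ⟨Finset.mem_univ _, ?_, hB2⟩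
        rw [Finset.disjoint_left]
        intro v hv hvZ
        have := hB1 hv
        simp [hvZ] at this
      obtain ⟨B₀, hB₀, hmin⟩ := Finset.exists_min_image _ (fun B => kap F B k) hne
      rw [Finset.mem_filter] at hB₀
      obtain ⟨i, hi, h1, h2⟩ := exists_dyadic τ₀ (kap F B₀ k) D (hB B₀ hB₀.2.1 hB₀.2.2)
        (kap_le_one F B₀ k) hD
      refine ⟨(Z, i), fun _ => ⟨hZ, hi, fun B hBZ hBs => ?_, B₀, hB₀.2.2, h1, h2⟩⟩
      refine h1.le.trans (hmin B ?_)
      rw [Finset.mem_filter]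
      exact ⟨Finset.mem_univ _, hBZ, hBs⟩
    · exact ⟨(∅, 0), fun h => absurd h hF⟩
  choose g hg using key
  have hmaps : ∀ F ∈ S, g F ∈ (Finset.univ : Finset (Finset V)) ×ˢ Finset.range D := by
    intro F hF
    rw [Finset.mem_product]
    exact ⟨Finset.mem_univ _, Finset.mem_range.2 (hg F hF).2.1⟩
  rw [← Finset.sum_fiberwise_of_maps_to hmaps]
  have hbound : ∀ zi ∈ (Finset.univ : Finset (Finset V)) ×ˢ Finset.range D,
      ∑ F ∈ S.filter (fun F => g F = zi), (cnt F (F * Θ) : ℝ) ≤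
        (Fintype.card (SimpleGraph V) : ℝ) *
          (((p : ℝ) ^ d) ^ (2 * s + w) * x ^ (Fintype.card V - w)) := by
    intro zi _
    rcases (S.filter (fun F => g F = zi)).eq_empty_or_nonempty with he | hne
    · rw [he, Finset.sum_empty]
      positivity
    · obtain ⟨F₀, hF₀⟩ := hne
      rw [Finset.mem_filter] at hF₀
      obtain ⟨hF₀S, hF₀g⟩ := hF₀
      have hz := hg F₀ hF₀S
      rw [hF₀g] at hz
      obtain ⟨hZ, hiD, -, B₁, hB₁, hB₁l, -⟩ := hz
      set τ := τ₀ * 2 ^ zi.2 with hτdef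
      have hτ0 : 0 < τ := by positivity
      have hτ1 : τ ≤ 1 := hB₁l.le.trans (kap_le_one F₀ B₁ k)
      have hττ : τ₀ ≤ τ := by
        rw [hτdef]
        exact le_mul_of_one_le_right hτpos.le (one_le_pow₀ (by norm_num))
      have hτq : 1 / τ ≤ (p : ℝ) ^ d := by
        rw [div_le_iff₀ hτ0]
        have : 1 / (p : ℝ) ^ d ≤ τ := hτ₀.trans hττ
        rw [div_le_iff₀ hq0] at this
        linarith
      have hc1 : ∀ F ∈ S.filter (fun F => g F = zi), (cnt F (F * Θ) : ℝ) ≤
          (Fintype.card (SimpleGraph V) : ℝ) * (x * τ) ^ (Fintype.card V - w) := by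
        intro F hF
        rw [Finset.mem_filter] at hF
        have hz' := hg F hF.1
        rw [hF.2] at hz'
        obtain ⟨-, -, -, B, hB, -, hBu⟩ := hz'
        have hDir : Dir F m₀ := by
          have := hF.1
          rw [hS, Finset.mem_filter] at this
          exact this.2.2
        exact cnt_class Θ s k j N₁ m₀ w M M₀ τ₀ x hk hks hj hM hM₀ hMM hq h80 hm₀ hw hx0 hx1 hx
          F hDir B hB τ hτ0 hτ1 hττ hBu
      have hc2 : ((S.filter (fun F => g F = zi)).card : ℝ) ≤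
          ((p : ℝ) ^ d) ^ s * (((p : ℝ) ^ d) ^ s *
            (1 / τ) ^ (Fintype.card V - zi.1.card - s)) := by
        refine le_trans ?_ (card_class (p := p) (d := d) zi.1 s k hk hks hs hZ τ hτ0)
        have : (S.filter (fun F => g F = zi)).card ≤
            ((Finset.univ : Finset (Matrix V (Fin d) (ZMod p))).filter (fun F =>
      ∀ B : Finset V, Disjoint B zi.1 → B.card = s → τ ≤ kap F B k)).card := by
          apply Finset.card_le_card
          intro F hF
          rw [Finset.mem_filter] at hF ⊢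
          have hz' := hg F hF.1
          rw [hF.2] at hz'
          exact ⟨Finset.mem_univ _, hz'.2.2.1⟩
        exact_mod_cast this
      have hτinv1 : 1 ≤ 1 / τ := by
        rw [le_div_iff₀ hτ0]
        linarith
      have hτpow : (1 / τ) ^ (Fintype.card V - zi.1.card - s) * τ ^ (Fintype.card V - w) ≤
          ((p : ℝ) ^ d) ^ w := by
        have h1 : (1 / τ) ^ (Fintype.card V - zi.1.card - s) ≤
            (1 / τ) ^ (Fintype.card V - w + w) :=
          pow_le_pow_right₀ hτinv1 (by omega)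
        calc _ ≤ (1 / τ) ^ (Fintype.card V - w + w) * τ ^ (Fintype.card V - w) :=
              mul_le_mul_of_nonneg_right h1 (by positivity)
          _ = (1 / τ) ^ w * ((1 / τ) * τ) ^ (Fintype.card V - w) := by
              rw [pow_add, mul_pow]; ring
          _ = (1 / τ) ^ w := by
              rw [one_div, inv_mul_cancel₀ hτ0.ne', one_pow, mul_one]
          _ ≤ _ := pow_le_pow_left₀ (by positivity) hτq _
      calc ∑ F ∈ S.filter (fun F => g F = zi), (cnt F (F * Θ) : ℝ)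
          ≤ (S.filter (fun F => g F = zi)).card •
            ((Fintype.card (SimpleGraph V) : ℝ) * (x * τ) ^ (Fintype.card V - w)) :=
            Finset.sum_le_card_nsmul _ _ _ hc1
        _ = ((S.filter (fun F => g F = zi)).card : ℝ) *
            ((Fintype.card (SimpleGraph V) : ℝ) * (x * τ) ^ (Fintype.card V - w)) := by
            rw [nsmul_eq_mul]
        _ ≤ (((p : ℝ) ^ d) ^ s * (((p : ℝ) ^ d) ^ s *
            (1 / τ) ^ (Fintype.card V - zi.1.card - s))) *
            ((Fintype.card (SimpleGraph V) : ℝ) * (x * τ) ^ (Fintype.card V - w)) :=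
            mul_le_mul_of_nonneg_right hc2 (by positivity)
        _ = (Fintype.card (SimpleGraph V) : ℝ) * (((p : ℝ) ^ d) ^ (2 * s) *
            x ^ (Fintype.card V - w) *
            ((1 / τ) ^ (Fintype.card V - zi.1.card - s) * τ ^ (Fintype.card V - w))) := by
            rw [mul_pow, two_mul s, pow_add]; ring
        _ ≤ (Fintype.card (SimpleGraph V) : ℝ) * (((p : ℝ) ^ d) ^ (2 * s) *
            x ^ (Fintype.card V - w) * ((p : ℝ) ^ d) ^ w) := by
            gcongr
        _ = _ := by rw [pow_add ((p : ℝ) ^ d) (2 * s) w]; ring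
  calc _ ≤ ∑ _zi ∈ (Finset.univ : Finset (Finset V)) ×ˢ Finset.range D,
        (Fintype.card (SimpleGraph V) : ℝ) *
          (((p : ℝ) ^ d) ^ (2 * s + w) * x ^ (Fintype.card V - w)) :=
        Finset.sum_le_sum hbound
    _ = _ := by
        rw [Finset.sum_const, Finset.card_product, Finset.card_range, Finset.card_univ,
          Fintype.card_finset, nsmul_eq_mul]
        push_cast
        ring

end Pool.Agent.H71.DG
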