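import Pool.Agent.H71.DG.Trich
import Pool.Agent.H71.DG.MStr
import Pool.Agent.H71.DG.MConf
import Pool.Agent.H71.DG.MGood
import Pool.Agent.H71.DG.MQuad
import Pool.Agent.H71.DG.MPairs

/-!
# DG-32: sum over all `F` (M12)

PROOF `eta_mono`: every term is monotone in `c` (`(N : ℝ) ^ r ≥ 1`).
PROOF `sum_all`: split the `F` with `Quad F ∧ Dir F m₀`: either `Strc F s k τ₀` (`sum_strc`), or by `trich`
there is `J`, `|J| ≤ w`, with the two conditions; if for such a `J` `Conf F J m δ E` holds, `F` is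
counted by `sum_conf`; otherwise `cnt_good` (with `J.card ≤ w`, `E + w ≤ m₀`, `eta_mono`, `anti_le`) gives
`cnt F (F * Θ) ≤ card * (p^(d(d-1)/2) + eta(w)) / q^n`, and the number of such `F` is bounded by
`card_quad`.
-/

set_option autoImplicit false

namespace Pool.Agent.H71.DG

open Matrix Classical Pool.Agent.H66.SP

theorem eta_mono (N r v c c' E rho : ℕ) (hN : 1 ≤ N) (m M : ℝ) (h : c ≤ c') :
    eta N r v c E rho m M ≤ eta N r v c' E rho m M := by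
  have hN' : (1 : ℝ) ≤ N := by exact_mod_cast hN
  have h1 : (1 : ℝ) ≤ (N : ℝ) ^ r := one_le_pow₀ hN'
  have hc : (c : ℝ) ≤ c' := by exact_mod_cast h
  have h2 : ((N : ℝ) ^ r) ^ c ≤ ((N : ℝ) ^ r) ^ c' := pow_le_pow_right₀ h1 h
  have h3 : ((c : ℝ) * (N : ℝ) ^ r + 1) ^ rho ≤ ((c' : ℝ) * (N : ℝ) ^ r + 1) ^ rho := by
    refine pow_le_pow_left₀ (by positivity) ?_ _
    have := mul_le_mul_of_nonneg_right hc (zero_le_one.trans h1)
    linarith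
  unfold eta
  have h4 : 3 * ((N : ℝ) ^ r) ^ c * ((N : ℝ) ^ r * Real.exp (-2 * m)) ^ E ≤
      3 * ((N : ℝ) ^ r) ^ c' * ((N : ℝ) ^ r * Real.exp (-2 * m)) ^ E :=
    mul_le_mul_of_nonneg_right (mul_le_mul_of_nonneg_left h2 (by norm_num)) (by positivity)
  have h5 : (N : ℝ) ^ (r ^ 2) * ((c : ℝ) * (N : ℝ) ^ r + 1) ^ rho * (8 * Real.exp (-2 * M)) ≤
      (N : ℝ) ^ (r ^ 2) * ((c' : ℝ) * (N : ℝ) ^ r + 1) ^ rho * (8 * Real.exp (-2 * M)) :=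
    mul_le_mul_of_nonneg_right (mul_le_mul_of_nonneg_left h3 (by positivity)) (by positivity)
  linarith

theorem sum_all {p d : ℕ} [Fact p.Prime] (hp : p ≠ 2) {V : Type*} [Fintype V] [DecidableEq V]
    (Θ : Matrix (Fin d) (Fin d) (ZMod p)) (s k j k₂ N₁ m₀ w D E J₀ rho : ℕ)
    (M₁ M₂ M₀ τ₀ x m δ : ℝ)
    (hk : 1 ≤ k) (hks : 2 * k ≤ s) (hs : 2 * s ≤ Fintype.card V) (hj : 1 ≤ j) (hM₁ : 0 ≤ M₁)
    (hM₂ : 0 ≤ M₂)
    (hM₀ : 100 * k * M₀ ≤ s) (hMM₁ : (2 * (j : ℝ) + 1) ^ 2 * M₁ ≤ M₀)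
    (hMM₂ : (k₂ : ℝ) ^ 2 * M₂ ≤ M₀)
    (hq : (4 * (k : ℝ) ^ 2 / s) ^ k ≤ 1 / (p : ℝ) ^ d) (h80 : 80 * M₀ < N₁)
    (hm₀ : 2 * s + N₁ * d ≤ m₀) (hw : w = s + N₁ * d) (hm₀' : N₁ + w ≤ m₀)
    (hm₀'' : E + w ≤ m₀) (hwn : w ≤ Fintype.card V)
    (hτ₀ : 1 / (p : ℝ) ^ d ≤ τ₀) (hD : 1 ≤ τ₀ * 2 ^ D) (hx0 : 0 < x) (hx1 : x ≤ 1)
    (hx : ∀ τ : ℝ, τ₀ ≤ τ → max (1 / (p : ℝ) ^ d) ((8 * τ + 2 / (p : ℝ) ^ d) / j) +
      Real.exp (-2 * M₁) ≤ x * τ)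
    (hk₂ : 4 * (p : ℝ) ^ d * τ₀ + 2 ≤ k₂)
    (hδ0 : 0 < δ) (hδ1 : δ ≤ 1) (hqM : (p : ℝ) ^ d * Real.exp (-2 * M₂) ≤ 1)
    (hm : 0 < m) (hmM : 9 * (((3 * J₀ + 2 : ℕ) : ℝ) ^ 2 * m) < M₂)
    (hrho : 20 * (((3 * J₀ + 2 : ℕ) : ℝ) ^ 2 * m) ≤ rho)
    (hδ : 1 < (J₀ + 1) * δ) (hV : 0 < Fintype.card V)
    (hxx : (p : ℝ) ^ d * Real.exp (-2 * m) ≤ 1 / Fintype.card V)
    (hxx' : (Fintype.card V : ℝ) * (p : ℝ) ^ d * Real.exp (-2 * M₂ + rho) ≤ 1) :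
    ∑ F ∈ (Finset.univ : Finset (Matrix V (Fin d) (ZMod p))).filter
        (fun F => Quad F ∧ Dir F m₀), (cnt F (F * Θ) : ℝ) ≤
      (Fintype.card (SimpleGraph V) : ℝ) *
        (D * 2 ^ Fintype.card V * ((p : ℝ) ^ d) ^ (2 * s + w) * x ^ (Fintype.card V - w) +
          8 ^ Fintype.card V * ((p : ℝ) ^ d) ^ (2 * w) * δ ^ (Fintype.card V - w - E) +
          (1 / (p : ℝ) ^ (d * (d + 1) / 2 + d) + 1 / Real.sqrt p ^ Fintype.card V) *
            ((p : ℝ) ^ (d * (d - 1) / 2) + eta p d (Fintype.card V) w E rho m M₂)) := by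
  obtain ⟨f, hf⟩ : ∃ f : Matrix V (Fin d) (ZMod p) → ℝ, ∀ F, f F = (cnt F (F * Θ) : ℝ) :=
    ⟨_, fun _ => rfl⟩
  have hf0 : ∀ F, 0 ≤ f F := fun F => by
    rw [hf]
    exact Nat.cast_nonneg _
  obtain ⟨W, hW⟩ : ∃ W : ℝ, W = (p : ℝ) ^ (d * (d - 1) / 2) +
      eta p d (Fintype.card V) w E rho m M₂ := ⟨_, rfl⟩
  have hp0 : (0 : ℝ) < p := by exact_mod_cast (Fact.out : p.Prime).pos
  have hqn : (0 : ℝ) < ((p : ℝ) ^ d) ^ Fintype.card V := by positivity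
  set A := (Finset.univ : Finset (Matrix V (Fin d) (ZMod p))).filter
    (fun F => Strc F s k τ₀ ∧ Dir F m₀) with hA
  set B := (Finset.univ : Finset (Matrix V (Fin d) (ZMod p))).filter
    (fun F => ∃ J : Finset V, J.card ≤ w ∧
      (∀ lam : Fin d → ZMod p, lam ≠ 0 → M₂ < ∑ j ∈ J, nn (lam ⬝ᵥ F j)) ∧ Conf F J m δ E) with hB
  set C := (Finset.univ : Finset (Matrix V (Fin d) (ZMod p))).filter
    (fun F => (Fᵀ * F = 0 ∧ ∀ a, ∑ v, F v a = 0) ∧ f F * ((p : ℝ) ^ d) ^ Fintype.card V ≤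
      (Fintype.card (SimpleGraph V) : ℝ) * W) with hC
  have hsub : (Finset.univ : Finset (Matrix V (Fin d) (ZMod p))).filter
      (fun F => Quad F ∧ Dir F m₀) ⊆ A ∪ (B ∪ C) := by
    intro F hF
    obtain ⟨-, hQ, hD'⟩ := Finset.mem_filter.mp hF
    rw [Finset.mem_union, Finset.mem_union]
    by_cases hS : Strc F s k τ₀
    · left
      exact Finset.mem_filter.mpr ⟨Finset.mem_univ _, hS, hD'⟩
    · right
      obtain ⟨J, hJ, h1, h2⟩ := trich F s k k₂ N₁ m₀ w M₂ M₀ τ₀ hk hks hM₂ hM₀ hMM₂ hq h80 hm₀ hw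
        hm₀' hk₂ hD' hS
      by_cases hc : Conf F J m δ E
      · left
        exact Finset.mem_filter.mpr ⟨Finset.mem_univ _, J, hJ, h1, hc⟩
      · right
        refine Finset.mem_filter.mpr ⟨Finset.mem_univ _, hQ, ?_⟩
        have h3 := cnt_good F (F * Θ) J m M₂ δ E J₀ rho m₀ hm hmM hrho hδ hV h1 h2 hc hD'
          (by omega) hxx hxx'
        rw [hf]
        refine h3.trans (mul_le_mul_of_nonneg_left ?_ (Nat.cast_nonneg _))
        rw [hW]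
        refine add_le_add ?_ (eta_mono _ _ _ _ _ _ _ (Fact.out : p.Prime).one_lt.le _ _ hJ)
        exact_mod_cast anti_le (d := d) hp
  have hAs : ∑ F ∈ A, f F ≤ (Fintype.card (SimpleGraph V) : ℝ) *
      (D * 2 ^ Fintype.card V * ((p : ℝ) ^ d) ^ (2 * s + w) * x ^ (Fintype.card V - w)) := by
    simp only [hf]
    exact sum_strc Θ s k j N₁ m₀ w D M₁ M₀ τ₀ x hk hks hs hj hM₁ hM₀ hMM₁ hq h80 (by omega) hw hwn
      hτ₀ hD hx0 hx1 hx
  have hBs : ∑ F ∈ B, f F ≤ (Fintype.card (SimpleGraph V) : ℝ) *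
      (8 ^ Fintype.card V * ((p : ℝ) ^ d) ^ (2 * w) * δ ^ (Fintype.card V - w - E)) := by
    simp only [hf]
    exact sum_conf Θ w E m M₂ δ hδ0 hδ1 hqM
  have hW0 : 0 ≤ W := by
    rw [hW]
    unfold eta
    positivity
  have hCs : ∑ F ∈ C, f F ≤ (Fintype.card (SimpleGraph V) : ℝ) *
      ((1 / (p : ℝ) ^ (d * (d + 1) / 2 + d) + 1 / Real.sqrt p ^ Fintype.card V) * W) := by
    have h1 : ∑ F ∈ C, f F ≤ ∑ _F ∈ C,
        (Fintype.card (SimpleGraph V) : ℝ) * W / ((p : ℝ) ^ d) ^ Fintype.card V := by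
      refine Finset.sum_le_sum fun F hF => ?_
      rw [le_div_iff₀ hqn]
      exact (Finset.mem_filter.mp hF).2.2
    have h2 : (C.card : ℝ) ≤ ((p : ℝ) ^ d) ^ Fintype.card V *
        (1 / (p : ℝ) ^ (d * (d + 1) / 2 + d) + 1 / Real.sqrt p ^ Fintype.card V) := by
      have h3 := card_quad (p := p) (d := d) (V := V) hp
      refine le_trans ?_ h3
      refine Nat.cast_le.mpr (Finset.card_le_card ?_)
      intro F hF
      have h4 := (Finset.mem_filter.mp hF).2.1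
      simp only [Finset.mem_filter, Finset.mem_univ, true_and]
      exact h4
    refine h1.trans ?_
    rw [Finset.sum_const, nsmul_eq_mul]
    refine (mul_le_mul_of_nonneg_right h2 (by positivity)).trans (le_of_eq ?_)
    field_simp
  calc ∑ F ∈ (Finset.univ : Finset (Matrix V (Fin d) (ZMod p))).filter
        (fun F => Quad F ∧ Dir F m₀), (cnt F (F * Θ) : ℝ)
      = ∑ F ∈ (Finset.univ : Finset (Matrix V (Fin d) (ZMod p))).filter
        (fun F => Quad F ∧ Dir F m₀), f F := by simp only [hf]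
    _ ≤ ∑ F ∈ A ∪ (B ∪ C), f F := Finset.sum_le_sum_of_subset_of_nonneg hsub fun F _ _ => hf0 F
    _ ≤ ∑ F ∈ A, f F + (∑ F ∈ B, f F + ∑ F ∈ C, f F) := by
        have e1 := Finset.sum_union_inter (s₁ := A) (s₂ := B ∪ C) (f := f)
        have e2 := Finset.sum_union_inter (s₁ := B) (s₂ := C) (f := f)
        have e3 : 0 ≤ ∑ F ∈ A ∩ (B ∪ C), f F := Finset.sum_nonneg fun F _ => hf0 F
        have e4 : 0 ≤ ∑ F ∈ B ∩ C, f F := Finset.sum_nonneg fun F _ => hf0 F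
        linarith
    _ ≤ _ := by
        rw [← hW]
        have e5 := add_le_add hAs (add_le_add hBs hCs)
        refine e5.trans (le_of_eq ?_)
        ring

end Pool.Agent.H71.DG
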