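import Pool.Agent.H71.DG.Nn

/-!
# Part M: definitions

`TT F B M` level sets, `RB F B c` row bound, `relI`/`relD` numbers of signed `2k`-term relations in `B`
(all tuples / injective tuples), `mom`, `kap` the corresponding probabilities, `Dir F m₀`: every nonzero
combination of the columns of `F` has more than `m₀` nonzero entries, `Strc` structured.
-/

set_option autoImplicit false

namespace Pool.Agent.H71.DG

open Matrix Classical Pool.Agent.H66.SP

/-- `{lam : ∑_{j ∈ B} nn (lam . F_j) ≤ M}` -/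
noncomputable def TT {N r : ℕ} [NeZero N] {V : Type*} (F : Matrix V (Fin r) (ZMod N))
    (B : Finset V) (M : ℝ) : Finset (Fin r → ZMod N) :=
  (Finset.univ : Finset (Fin r → ZMod N)).filter (fun lam => ∑ j ∈ B, nn (lam ⬝ᵥ F j) ≤ M)

/-- for every `g` at most `c 2^|B|` subsets of `B` have sum `g` -/
def RB {N r : ℕ} {V : Type*} (F : Matrix V (Fin r) (ZMod N)) (B : Finset V) (c : ℝ) : Prop :=
  ∀ g : Fin r → ZMod N,
    ((B.powerset.filter (fun T => ∑ j ∈ T, F j = g)).card : ℝ) ≤ 2 ^ B.card * c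

/-- the signed sum `∑ ± F (a i)` -/
def ssum {N r : ℕ} {V : Type*} {k : ℕ} (F : Matrix V (Fin r) (ZMod N)) (a : Fin k → V)
    (e : Fin k → Bool) : Fin r → ZMod N :=
  ∑ i, if e i then -F (a i) else F (a i)

/-- the number of signed relations with `2 k` terms in `B` -/
noncomputable def relI {N r : ℕ} {V : Type*} [Fintype V] (F : Matrix V (Fin r) (ZMod N))
    (B : Finset V) (k : ℕ) : ℕ :=
  ((Finset.univ : Finset ((Fin (2 * k) → V) × (Fin (2 * k) → Bool))).filter
    (fun x => (∀ i, x.1 i ∈ B) ∧ ssum F x.1 x.2 = 0)).card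

/-- the same with distinct elements -/
noncomputable def relD {N r : ℕ} {V : Type*} [Fintype V] (F : Matrix V (Fin r) (ZMod N))
    (B : Finset V) (k : ℕ) : ℕ :=
  ((Finset.univ : Finset ((Fin (2 * k) → V) × (Fin (2 * k) → Bool))).filter
    (fun x => (∀ i, x.1 i ∈ B) ∧ Function.Injective x.1 ∧ ssum F x.1 x.2 = 0)).card

/-- probability that a random signed `2k`-term sum in `B` vanishes -/
noncomputable def mom {N r : ℕ} {V : Type*} [Fintype V] (F : Matrix V (Fin r) (ZMod N))
    (B : Finset V) (k : ℕ) : ℝ :=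
  (relI F B k : ℝ) / ((B.card : ℝ) ^ (2 * k) * 2 ^ (2 * k))

/-- the same for random distinct elements -/
noncomputable def kap {N r : ℕ} {V : Type*} [Fintype V] (F : Matrix V (Fin r) (ZMod N))
    (B : Finset V) (k : ℕ) : ℝ :=
  (relD F B k : ℝ) / ((B.card.descFactorial (2 * k) : ℝ) * 2 ^ (2 * k))

/-- every nonzero combination of the columns has more than `m₀` nonzero entries -/
def Dir {N r : ℕ} {V : Type*} [Fintype V] (F : Matrix V (Fin r) (ZMod N)) (m₀ : ℕ) : Prop :=
  ∀ lam : Fin r → ZMod N, lam ≠ 0 →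
    m₀ < ((Finset.univ : Finset V).filter (fun v => lam ⬝ᵥ F v ≠ 0)).card

/-- structured -/
def Strc {N r : ℕ} {V : Type*} [Fintype V] (F : Matrix V (Fin r) (ZMod N)) (s k : ℕ) (τ : ℝ) :
    Prop :=
  ∃ Z : Finset V, Z.card ≤ s ∧ ∀ B : Finset V, Disjoint B Z → B.card = s → τ < kap F B k

/-- restriction of `F` to a finset of rows -/
def res {N r : ℕ} {V : Type*} (F : Matrix V (Fin r) (ZMod N)) (J : Finset V) :
    Matrix {x // x ∈ J} (Fin r) (ZMod N) :=
  fun j => F j

/-- confined -/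
def Conf {N r : ℕ} {V : Type*} [Fintype V] [NeZero N] (F : Matrix V (Fin r) (ZMod N))
    (J : Finset V) (m δ : ℝ) (E : ℕ) : Prop :=
  ∃ be : Matrix {x // x ∈ J} (Fin r) (ZMod N),
    (((Finset.univ : Finset (Fin r → ZMod N)).filter
      (fun th => th ∈ Th (res F J) m be)).card : ℝ) < δ * (N : ℝ) ^ r ∧
    ((Finset.univ : Finset V).filter (fun i => i ∉ J ∧ F i ∉ Th (res F J) m be)).card < E

end Pool.Agent.H71.DG
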