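import Pool.Agent.H71.DG.MDefs

/-!
# DG-14: row bound from the level sets (M1)

PROOF.  For `g`: `#{T ⊆ B : ∑_T F = g} * N^r = ∑_lam e(-lam . g) ∏_{j ∈ B} (1 + e(lam . F_j))`
(orthogonality over `lam`, `Finset.prod_one_add`), of absolute value at most
`2^|B| ∑_lam exp (-2 ∑_{j∈B} nn (lam . F_j))` (`norm_one_add_le`), and the `lam` outside `TT F B M`
contribute at most `N^r exp (-2M)`.  `TT_mono`, `zero_mem_TT`, `neg_mem_TT` trivial, `sum_mem_TT`:
`nn_sum_le` and exchange of sums.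
-/

set_option autoImplicit false

namespace Pool.Agent.H71.DG

open Matrix Classical Pool.Agent.H66.SP

theorem mfour_map_sum {N : ℕ} [NeZero N] {ι : Type*} (s : Finset ι) (f : ι → ZMod N) :
    (ZMod.stdAddChar (∑ i ∈ s, f i) : ℂ) = ∏ i ∈ s, (ZMod.stdAddChar (f i) : ℂ) := by
  induction s using Finset.induction_on with
  | empty => simp [AddChar.map_zero_eq_one]
  | insert a s ha ih =>
    rw [Finset.sum_insert ha, Finset.prod_insert ha, AddChar.map_add_eq_mul, ih]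

theorem mfour_orth {N r : ℕ} [NeZero N] (x : Fin r → ZMod N) :
    ∑ lam : Fin r → ZMod N, (ZMod.stdAddChar (lam ⬝ᵥ x) : ℂ) =
      if x = 0 then (N : ℂ) ^ r else 0 := by
  have h1 : ∀ lam : Fin r → ZMod N, (ZMod.stdAddChar (lam ⬝ᵥ x) : ℂ) =
      ∏ i, (ZMod.stdAddChar (lam i * x i) : ℂ) := by
    intro lam
    unfold dotProduct
    rw [mfour_map_sum]
  simp only [h1]
  have h2 := Finset.prod_univ_sum (fun _ : Fin r => (Finset.univ : Finset (ZMod N)))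
    (fun i a => (ZMod.stdAddChar (a * x i) : ℂ))
  rw [Fintype.piFinset_univ] at h2
  rw [← h2]
  have h3 : ∀ i, ∑ a : ZMod N, (ZMod.stdAddChar (a * x i) : ℂ) = if x i = 0 then (N : ℂ) else 0 := by
    intro i
    have h4 := AddChar.sum_mulShift (x i) (ZMod.isPrimitive_stdAddChar N)
    rw [ZMod.card] at h4
    rw [h4]
    split_ifs <;> simp
  simp only [h3]
  by_cases hx : x = 0
  · subst hx
    simp
  · rw [if_neg hx]
    have h5 : ∃ i, x i ≠ 0 := by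
      by_contra h6
      push Not at h6
      exact hx (funext h6)
    obtain ⟨i, hi⟩ := h5
    exact Finset.prod_eq_zero (Finset.mem_univ i) (if_neg hi)

theorem mfour_count {N r : ℕ} [NeZero N] {V : Type*} (F : Matrix V (Fin r) (ZMod N))
    (B : Finset V) (g : Fin r → ZMod N) :
    ((B.powerset.filter (fun T => ∑ j ∈ T, F j = g)).card : ℂ) * (N : ℂ) ^ r =
      ∑ lam : Fin r → ZMod N, (ZMod.stdAddChar (-(lam ⬝ᵥ g)) : ℂ) *
        ∏ j ∈ B, (1 + (ZMod.stdAddChar (lam ⬝ᵥ F j) : ℂ)) := by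
  have h1 : ∀ lam : Fin r → ZMod N, (ZMod.stdAddChar (-(lam ⬝ᵥ g)) : ℂ) *
      ∏ j ∈ B, (1 + (ZMod.stdAddChar (lam ⬝ᵥ F j) : ℂ)) =
      ∑ T ∈ B.powerset, (ZMod.stdAddChar (lam ⬝ᵥ (∑ j ∈ T, F j - g)) : ℂ) := by
    intro lam
    rw [Finset.prod_one_add, Finset.mul_sum]
    apply Finset.sum_congr rfl
    intro T _
    rw [dotProduct_sub, dotProduct_sum, sub_eq_neg_add, AddChar.map_add_eq_mul,
      mfour_map_sum]
  simp only [h1]
  rw [Finset.sum_comm]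
  simp only [mfour_orth, sub_eq_zero]
  rw [← Finset.sum_filter, Finset.sum_const, nsmul_eq_mul]

theorem rb_TT {N r : ℕ} [NeZero N] {V : Type*} [Fintype V] (F : Matrix V (Fin r) (ZMod N))
    (B : Finset V) (M : ℝ) :
    RB F B (((TT F B M).card : ℝ) / (N : ℝ) ^ r + Real.exp (-2 * M)) := by
  intro g
  obtain ⟨c, hc⟩ : ∃ c : ℕ, c = (B.powerset.filter (fun T => ∑ j ∈ T, F j = g)).card := ⟨_, rfl⟩
  have h0 := mfour_count F B g
  rw [← hc] at h0
  rw [← hc]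
  have hN : (0 : ℝ) < (N : ℝ) ^ r := by
    have : (0 : ℝ) < N := by exact_mod_cast Nat.pos_of_ne_zero (NeZero.ne N)
    positivity
  have h1 : (c : ℝ) * (N : ℝ) ^ r = ‖(c : ℂ) * (N : ℂ) ^ r‖ := by
    rw [norm_mul, norm_pow, Complex.norm_natCast, Complex.norm_natCast]
  have h2 : ∀ lam : Fin r → ZMod N, ‖(ZMod.stdAddChar (-(lam ⬝ᵥ g)) : ℂ) *
        ∏ j ∈ B, (1 + (ZMod.stdAddChar (lam ⬝ᵥ F j) : ℂ))‖ ≤
      2 ^ B.card * Real.exp (-2 * ∑ j ∈ B, nn (lam ⬝ᵥ F j)) := by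
    intro lam
    rw [norm_mul, AddChar.norm_apply, one_mul, norm_prod]
    calc ∏ j ∈ B, ‖1 + (ZMod.stdAddChar (lam ⬝ᵥ F j) : ℂ)‖
        ≤ ∏ j ∈ B, (2 * Real.exp (-2 * nn (lam ⬝ᵥ F j))) :=
          Finset.prod_le_prod (fun j _ => norm_nonneg _) (fun j _ => norm_one_add_le _)
      _ = _ := by
          rw [Finset.prod_mul_distrib, Finset.prod_const, Finset.mul_sum, Real.exp_sum]
  have h3 : (c : ℝ) * (N : ℝ) ^ r ≤
      ∑ lam : Fin r → ZMod N, 2 ^ B.card * Real.exp (-2 * ∑ j ∈ B, nn (lam ⬝ᵥ F j)) := by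
    rw [h1, h0]
    exact (norm_sum_le _ _).trans (Finset.sum_le_sum fun lam _ => h2 lam)
  have h4 : ∀ lam : Fin r → ZMod N, Real.exp (-2 * ∑ j ∈ B, nn (lam ⬝ᵥ F j)) ≤
      (if lam ∈ TT F B M then 1 else 0) + Real.exp (-2 * M) := by
    intro lam
    by_cases hl : lam ∈ TT F B M
    · rw [if_pos hl]
      have h5 : Real.exp (-2 * ∑ j ∈ B, nn (lam ⬝ᵥ F j)) ≤ 1 := by
        rw [Real.exp_le_one_iff]
        have := Finset.sum_nonneg (fun j (_ : j ∈ B) => nn_nonneg (lam ⬝ᵥ F j))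
        linarith
      have h6 := Real.exp_pos (-2 * M)
      linarith
    · rw [if_neg hl, zero_add, Real.exp_le_exp]
      have h5 : ¬ ∑ j ∈ B, nn (lam ⬝ᵥ F j) ≤ M := by
        intro h6
        exact hl (Finset.mem_filter.2 ⟨Finset.mem_univ _, h6⟩)
      linarith [not_le.1 h5]
  have h5 : ∑ lam : Fin r → ZMod N, 2 ^ B.card * Real.exp (-2 * ∑ j ∈ B, nn (lam ⬝ᵥ F j)) ≤
      2 ^ B.card * (((TT F B M).card : ℝ) + (N : ℝ) ^ r * Real.exp (-2 * M)) := by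
    rw [← Finset.mul_sum]
    apply mul_le_mul_of_nonneg_left _ (by positivity)
    refine (Finset.sum_le_sum fun lam _ => h4 lam).trans (le_of_eq ?_)
    rw [Finset.sum_add_distrib, Finset.sum_const, nsmul_eq_mul, ← Finset.sum_filter,
      Finset.sum_const, nsmul_eq_mul, mul_one, Finset.card_univ, Fintype.card_fun, ZMod.card,
      Fintype.card_fin]
    have h6 : (Finset.univ : Finset (Fin r → ZMod N)).filter (fun lam => lam ∈ TT F B M) =
        TT F B M := by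
      ext lam
      simp
    rw [h6]
    push_cast
    rfl
  have h6 := h3.trans h5
  have h7 : 2 ^ B.card * (((TT F B M).card : ℝ) / (N : ℝ) ^ r + Real.exp (-2 * M)) =
      (2 ^ B.card * (((TT F B M).card : ℝ) + (N : ℝ) ^ r * Real.exp (-2 * M))) / (N : ℝ) ^ r := by
    field_simp
  rw [h7, le_div_iff₀ hN]
  exact h6

theorem TT_mono {N r : ℕ} [NeZero N] {V : Type*} (F : Matrix V (Fin r) (ZMod N))
    {B B' : Finset V} (hB : B ⊆ B') {M M' : ℝ} (hM : M ≤ M') : TT F B' M ⊆ TT F B M' := by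
  intro lam hl
  unfold TT at hl ⊢
  rw [Finset.mem_filter] at hl ⊢
  refine ⟨Finset.mem_univ _, le_trans ?_ (hl.2.trans hM)⟩
  exact Finset.sum_le_sum_of_subset_of_nonneg hB (fun _ _ _ => nn_nonneg _)

theorem zero_mem_TT {N r : ℕ} [NeZero N] {V : Type*} (F : Matrix V (Fin r) (ZMod N))
    (B : Finset V) {M : ℝ} (hM : 0 ≤ M) : (0 : Fin r → ZMod N) ∈ TT F B M := by
  unfold TT
  rw [Finset.mem_filter]
  refine ⟨Finset.mem_univ _, ?_⟩
  rw [Finset.sum_eq_zero]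
  · exact hM
  · intro j _
    rw [zero_dotProduct, nn_zero]

theorem neg_mem_TT {N r : ℕ} [NeZero N] {V : Type*} (F : Matrix V (Fin r) (ZMod N))
    (B : Finset V) (M : ℝ) (x : Fin r → ZMod N) (hx : x ∈ TT F B M) : -x ∈ TT F B M := by
  unfold TT at hx ⊢
  rw [Finset.mem_filter] at hx ⊢
  refine ⟨Finset.mem_univ _, ?_⟩
  have h1 : ∀ j, nn (-x ⬝ᵥ F j) = nn (x ⬝ᵥ F j) := by
    intro j
    rw [neg_dotProduct, nn_neg]
  simp only [h1]
  exact hx.2

theorem sum_mem_TT {N r : ℕ} [NeZero N] {V : Type*} (F : Matrix V (Fin r) (ZMod N))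
    (B : Finset V) (M : ℝ) (k : ℕ) (t : Fin k → Fin r → ZMod N) (ht : ∀ l, t l ∈ TT F B M) :
    ∑ l, t l ∈ TT F B ((k : ℝ) ^ 2 * M) := by
  unfold TT at ht ⊢
  rw [Finset.mem_filter]
  refine ⟨Finset.mem_univ _, ?_⟩
  have h1 : ∀ j ∈ B, nn ((∑ l, t l) ⬝ᵥ F j) ≤ (k : ℝ) * ∑ l, nn (t l ⬝ᵥ F j) := by
    intro j _
    rw [sum_dotProduct]
    have h2 := nn_sum_le (Finset.univ : Finset (Fin k)) (fun l => t l ⬝ᵥ F j)
    rw [Finset.card_univ, Fintype.card_fin] at h2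
    exact h2
  calc ∑ j ∈ B, nn ((∑ l, t l) ⬝ᵥ F j) ≤ ∑ j ∈ B, (k : ℝ) * ∑ l, nn (t l ⬝ᵥ F j) :=
        Finset.sum_le_sum h1
    _ = (k : ℝ) * ∑ l, ∑ j ∈ B, nn (t l ⬝ᵥ F j) := by
        rw [← Finset.mul_sum, Finset.sum_comm]
    _ ≤ (k : ℝ) * ∑ _l : Fin k, M := by
        apply mul_le_mul_of_nonneg_left _ (Nat.cast_nonneg k)
        exact Finset.sum_le_sum fun l _ => (Finset.mem_filter.1 (ht l)).2
    _ = (k : ℝ) ^ 2 * M := by
        rw [Finset.sum_const, Finset.card_univ, Fintype.card_fin, nsmul_eq_mul]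
        ring

theorem RB.mono {N r : ℕ} {V : Type*} {F : Matrix V (Fin r) (ZMod N)} {B : Finset V}
    {c c' : ℝ} (h : RB F B c) (hc : c ≤ c') : RB F B c' := by
  intro g
  exact (h g).trans (mul_le_mul_of_nonneg_left hc (by positivity))

end Pool.Agent.H71.DG
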