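import Pool.Agent.H71.DG.MDefs

/-!
# DG-16: Fourier formula for the moments

PROOF.  `∑_{(a,e)} [ssum = 0] = N^(-r) ∑_lam ∑_{(a,e)} ∏_i e(± lam . F (a i)) =
N^(-r) ∑_lam (∑_{j ∈ B} (e(x_j) + e(-x_j)))^(2k)`, `x_j = lam . F_j`,
`e(x) + e(-x) = 2 re e(x)`.  `relI_pair`: the same with the two coordinates `i₀ ≠ i₁` tied together:
their factor is `∑_j (e(x_j) + e(-x_j))² = ∑_j (2 re e(x_j))² ∈ [0, 4 |B|]`, the remaining factor
`(2 ∑_j re e(x_j))^(2k)` is `≥ 0`.  (For the tied count, reorder the coordinates by an equivalence of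
`Fin (2 (k+1))`, or sum directly over functions `a` with `a i₀ = a i₁`:
`∑_{(a,e)} ∏_i f i (a i) (e i)` splits as a product over the coordinates `i ≠ i₀, i₁`.)
-/

set_option autoImplicit false

namespace Pool.Agent.H71.DG

open Matrix Classical Pool.Agent.H66.SP

/-- the mean of `re e(lam . F_j)` over `j ∈ B` -/
noncomputable def cc {N r : ℕ} [NeZero N] {V : Type*} (F : Matrix V (Fin r) (ZMod N))
    (B : Finset V) (lam : Fin r → ZMod N) : ℝ :=
  (∑ j ∈ B, (ZMod.stdAddChar (lam ⬝ᵥ F j) : ℂ).re) / B.card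

private theorem MMom_sum {N : ℕ} [NeZero N] {ι : Type*} (s : Finset ι) (f : ι → ZMod N) :
    (ZMod.stdAddChar (∑ i ∈ s, f i) : ℂ) = ∏ i ∈ s, (ZMod.stdAddChar (f i) : ℂ) := by
  induction s using Finset.induction_on with
  | empty => simp
  | insert a s ha ih =>
    rw [Finset.sum_insert ha, Finset.prod_insert ha, AddChar.map_add_eq_mul, ih]

private theorem MMom_orth {N r : ℕ} [NeZero N] (z : Fin r → ZMod N) :
    ∑ lam : Fin r → ZMod N, (ZMod.stdAddChar (lam ⬝ᵥ z) : ℂ) =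
      if z = 0 then (N : ℂ) ^ r else 0 := by
  have h1 : ∀ lam : Fin r → ZMod N, (ZMod.stdAddChar (lam ⬝ᵥ z) : ℂ) =
      ∏ i, (ZMod.stdAddChar (lam i * z i) : ℂ) := by
    intro lam
    rw [dotProduct, MMom_sum]
  have h2 : ∑ lam : Fin r → ZMod N, ∏ i, (ZMod.stdAddChar (lam i * z i) : ℂ) =
      ∏ i, ∑ x : ZMod N, (ZMod.stdAddChar (x * z i) : ℂ) := by
    rw [Finset.prod_univ_sum, Fintype.piFinset_univ]
  rw [Finset.sum_congr rfl fun lam _ => h1 lam, h2]
  have h3 : ∀ i, ∑ x : ZMod N, (ZMod.stdAddChar (x * z i) : ℂ) =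
      if z i = 0 then (N : ℂ) else 0 := by
    intro i
    rw [AddChar.sum_mulShift (z i) (ZMod.isPrimitive_stdAddChar N), ZMod.card]
    split_ifs <;> simp
  split_ifs with hz
  · subst hz
    rw [Finset.prod_congr rfl fun i _ => h3 i]
    simp
  · obtain ⟨i, hi⟩ := Function.ne_iff.1 hz
    exact Finset.prod_eq_zero (Finset.mem_univ i) (by rw [h3]; exact if_neg hi)

private theorem MMom_chi {N r : ℕ} [NeZero N] {V : Type*} {n : ℕ}
    (F : Matrix V (Fin r) (ZMod N)) (a : Fin n → V) (lam : Fin r → ZMod N) :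
    ((∏ i, (2 * (ZMod.stdAddChar (lam ⬝ᵥ F (a i)) : ℂ).re) : ℝ) : ℂ) =
    ∑ e : Fin n → Bool, (ZMod.stdAddChar (lam ⬝ᵥ ssum F a e) : ℂ) := by
  have h1 : ∀ e : Fin n → Bool, (ZMod.stdAddChar (lam ⬝ᵥ ssum F a e) : ℂ) =
      ∏ i, (if e i then (ZMod.stdAddChar (-(lam ⬝ᵥ F (a i))) : ℂ)
        else ZMod.stdAddChar (lam ⬝ᵥ F (a i))) := by
    intro e
    rw [ssum, dotProduct_sum, MMom_sum]
    refine Finset.prod_congr rfl fun i _ => ?_
    split_ifs
    · rw [dotProduct_neg]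
    · rfl
  have h2 : ∑ e : Fin n → Bool, ∏ i, (if e i then (ZMod.stdAddChar (-(lam ⬝ᵥ F (a i))) : ℂ)
        else ZMod.stdAddChar (lam ⬝ᵥ F (a i))) =
      ∏ i, ∑ b : Bool, (if b then (ZMod.stdAddChar (-(lam ⬝ᵥ F (a i))) : ℂ)
        else ZMod.stdAddChar (lam ⬝ᵥ F (a i))) := by
    rw [Finset.prod_univ_sum, Fintype.piFinset_univ]
  rw [Finset.sum_congr rfl fun e _ => h1 e, h2, Complex.ofReal_prod]
  refine Finset.prod_congr rfl fun i _ => ?_
  rw [Fintype.sum_bool, if_pos rfl, if_neg (by decide), AddChar.map_neg_eq_conj, add_comm,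
    Complex.add_conj]

private theorem MMom_key {N r : ℕ} [NeZero N] {V : Type*} [Fintype V] {n : ℕ}
    (F : Matrix V (Fin r) (ZMod N)) (P : (Fin n → V) → Prop) [DecidablePred P]
    [DecidablePred (fun x : (Fin n → V) × (Fin n → Bool) => P x.1 ∧ ssum F x.1 x.2 = 0)] :
    ((((Finset.univ : Finset ((Fin n → V) × (Fin n → Bool))).filter
      (fun x => P x.1 ∧ ssum F x.1 x.2 = 0)).card : ℕ) : ℝ) * (N : ℝ) ^ r =
      ∑ lam : Fin r → ZMod N, ∑ a ∈ (Finset.univ : Finset (Fin n → V)).filter P,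
        ∏ i, (2 * (ZMod.stdAddChar (lam ⬝ᵥ F (a i)) : ℂ).re) := by
  have h : ((((Finset.univ : Finset ((Fin n → V) × (Fin n → Bool))).filter
      (fun x => P x.1 ∧ ssum F x.1 x.2 = 0)).card : ℕ) : ℂ) * (N : ℂ) ^ r =
      ∑ lam : Fin r → ZMod N, ∑ a ∈ (Finset.univ : Finset (Fin n → V)).filter P,
        ((∏ i, (2 * (ZMod.stdAddChar (lam ⬝ᵥ F (a i)) : ℂ).re) : ℝ) : ℂ) := by
    have h0 : ∀ lam : Fin r → ZMod N, ∑ a ∈ (Finset.univ : Finset (Fin n → V)).filter P,
        ((∏ i, (2 * (ZMod.stdAddChar (lam ⬝ᵥ F (a i)) : ℂ).re) : ℝ) : ℂ) =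
        ∑ a ∈ (Finset.univ : Finset (Fin n → V)).filter P, 
          ∑ e : Fin n → Bool, (ZMod.stdAddChar (lam ⬝ᵥ ssum F a e) : ℂ) :=
      fun lam => Finset.sum_congr rfl fun a _ => MMom_chi F a lam
    rw [Finset.sum_congr rfl fun lam _ => h0 lam, Finset.sum_comm]
    have h1 : ∀ a : Fin n → V, ∑ lam : Fin r → ZMod N, ∑ e : Fin n → Bool,
        (ZMod.stdAddChar (lam ⬝ᵥ ssum F a e) : ℂ) =
        ∑ e : Fin n → Bool, if ssum F a e = 0 then (N : ℂ) ^ r else 0 := by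
      intro a
      rw [Finset.sum_comm]
      exact Finset.sum_congr rfl fun e _ => MMom_orth _
    rw [Finset.sum_congr rfl fun a _ => h1 a, Finset.card_filter, Nat.cast_sum, Finset.sum_mul,
      Fintype.sum_prod_type, Finset.sum_filter]
    refine Finset.sum_congr rfl fun a _ => ?_
    by_cases hP : P a
    · rw [if_pos hP]
      refine Finset.sum_congr rfl fun e _ => ?_
      by_cases hs : ssum F a e = 0
      · rw [if_pos hs, if_pos ⟨hP, hs⟩]
        simp
      · rw [if_neg hs, if_neg (fun h => hs h.2)]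
        simp
    · rw [if_neg hP]
      refine Finset.sum_eq_zero fun e _ => ?_
      rw [if_neg (fun h => hP h.1)]
      simp
  apply Complex.ofReal_injective
  rw [Complex.ofReal_mul, Complex.ofReal_natCast, Complex.ofReal_pow, Complex.ofReal_natCast, h,
    Complex.ofReal_sum]
  refine Finset.sum_congr rfl fun lam _ => ?_
  rw [Complex.ofReal_sum]

/-- the sum of the `2 re` -/
private noncomputable def MMom_S {N r : ℕ} [NeZero N] {V : Type*} (F : Matrix V (Fin r) (ZMod N))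
    (B : Finset V) (lam : Fin r → ZMod N) : ℝ :=
  ∑ j ∈ B, (2 * (ZMod.stdAddChar (lam ⬝ᵥ F j) : ℂ).re)

private theorem MMom_relI {N r : ℕ} [NeZero N] {V : Type*} [Fintype V]
    (F : Matrix V (Fin r) (ZMod N)) (B : Finset V) (k : ℕ) :
    (relI F B k : ℝ) * (N : ℝ) ^ r = ∑ lam : Fin r → ZMod N, MMom_S F B lam ^ (2 * k) := by
  rw [relI, MMom_key F (fun a : Fin (2 * k) → V => ∀ i, a i ∈ B)]
  refine Finset.sum_congr rfl fun lam _ => ?_
  have h1 : (Finset.univ : Finset (Fin (2 * k) → V)).filter (fun a => ∀ i, a i ∈ B) =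
      Fintype.piFinset (fun _ => B) := by
    ext a
    simp [Fintype.mem_piFinset]
  rw [h1, ← Finset.prod_univ_sum (fun _ => B)
    (fun _ j => (2 * (ZMod.stdAddChar (lam ⬝ᵥ F j) : ℂ).re)), Finset.prod_const,
    Finset.card_univ, Fintype.card_fin]
  rfl

theorem mom_eq {N r : ℕ} [NeZero N] {V : Type*} [Fintype V] (F : Matrix V (Fin r) (ZMod N))
    (B : Finset V) (hB : B.Nonempty) (k : ℕ) :
    mom F B k = (∑ lam : Fin r → ZMod N, cc F B lam ^ (2 * k)) / (N : ℝ) ^ r := by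
  have hB' : (B.card : ℝ) ≠ 0 := by
    have := Finset.card_pos.2 hB
    positivity
  have hN : (N : ℝ) ^ r ≠ 0 := pow_ne_zero _ (by exact_mod_cast (NeZero.ne N))
  have h1 := MMom_relI F B k
  have h2 : ∀ lam : Fin r → ZMod N, MMom_S F B lam ^ (2 * k) =
      ((B.card : ℝ) ^ (2 * k) * 2 ^ (2 * k)) * cc F B lam ^ (2 * k) := by
    intro lam
    rw [← mul_pow, ← mul_pow]
    congr 1
    unfold MMom_S cc
    rw [← Finset.mul_sum]
    field_simp
  rw [Finset.sum_congr rfl fun lam _ => h2 lam, ← Finset.mul_sum] at h1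
  have hD : ((B.card : ℝ) ^ (2 * k) * 2 ^ (2 * k)) ≠ 0 := by positivity
  unfold mom
  rw [div_eq_div_iff hD hN, h1]
  ring

theorem relI_pair {N r : ℕ} [NeZero N] {V : Type*} [Fintype V] (F : Matrix V (Fin r) (ZMod N))
    (B : Finset V) (k : ℕ) (i₀ i₁ : Fin (2 * (k + 1))) (hi : i₀ ≠ i₁) :
    ((((Finset.univ : Finset ((Fin (2 * (k + 1)) → V) × (Fin (2 * (k + 1)) → Bool))).filter
      (fun x => (∀ i, x.1 i ∈ B) ∧ x.1 i₀ = x.1 i₁ ∧ ssum F x.1 x.2 = 0)).card : ℕ) : ℝ) ≤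
      4 * B.card * relI F B k := by
  have hN : 0 < (N : ℝ) ^ r := pow_pos (by exact_mod_cast (NeZero.pos N)) _
  have e0 : (Finset.univ : Finset ((Fin (2 * (k + 1)) → V) × (Fin (2 * (k + 1)) → Bool))).filter
      (fun x => (∀ i, x.1 i ∈ B) ∧ x.1 i₀ = x.1 i₁ ∧ ssum F x.1 x.2 = 0) =
      (Finset.univ : Finset ((Fin (2 * (k + 1)) → V) × (Fin (2 * (k + 1)) → Bool))).filter
      (fun x => ((∀ i, x.1 i ∈ B) ∧ x.1 i₀ = x.1 i₁) ∧ ssum F x.1 x.2 = 0) := by
    ext x
    simp only [Finset.mem_filter, and_assoc]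
  rw [e0]
  refine le_of_mul_le_mul_right ?_ hN
  rw [MMom_key F (fun a : Fin (2 * (k + 1)) → V => (∀ i, a i ∈ B) ∧ a i₀ = a i₁), mul_assoc,
    MMom_relI F B k, Finset.mul_sum]
  refine Finset.sum_le_sum fun lam _ => ?_
  set h : V → ℝ := fun j => 2 * (ZMod.stdAddChar (lam ⬝ᵥ F j) : ℂ).re with hh
  have hle : ∀ j, h j ^ 2 ≤ 4 := by
    intro j
    have h1 : |(ZMod.stdAddChar (lam ⬝ᵥ F j) : ℂ).re| ≤ 1 :=
      le_trans (Complex.abs_re_le_norm _) (le_of_eq (AddChar.norm_apply _ _))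
    have h2 : (ZMod.stdAddChar (lam ⬝ᵥ F j) : ℂ).re ^ 2 ≤ 1 := by
      rw [← sq_abs]
      nlinarith [abs_nonneg (ZMod.stdAddChar (lam ⬝ᵥ F j) : ℂ).re]
    rw [hh]
    nlinarith
  have hmap : ∀ a ∈ (Finset.univ : Finset (Fin (2 * (k + 1)) → V)).filter
      (fun a => (∀ i, a i ∈ B) ∧ a i₀ = a i₁), a i₀ ∈ B := by
    intro a ha
    exact (Finset.mem_filter.1 ha).2.1 i₀
  show ∑ a ∈ (Finset.univ : Finset (Fin (2 * (k + 1)) → V)).filter
      (fun a => (∀ i, a i ∈ B) ∧ a i₀ = a i₁), ∏ i, h (a i) ≤ _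
  rw [← Finset.sum_fiberwise_of_maps_to hmap]
  have hfib : ∀ v ∈ B, ∑ a ∈ ((Finset.univ : Finset (Fin (2 * (k + 1)) → V)).filter
      (fun a => (∀ i, a i ∈ B) ∧ a i₀ = a i₁)).filter (fun a => a i₀ = v), ∏ i, h (a i) ≤
      4 * MMom_S F B lam ^ (2 * k) := by
    intro v hv
    have e1 : ((Finset.univ : Finset (Fin (2 * (k + 1)) → V)).filter
      (fun a => (∀ i, a i ∈ B) ∧ a i₀ = a i₁)).filter (fun a => a i₀ = v) =
      Fintype.piFinset (fun i => if i = i₀ ∨ i = i₁ then ({v} : Finset V) else B) := by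
      ext a
      simp only [Finset.mem_filter, Finset.mem_univ, true_and, Fintype.mem_piFinset]
      constructor
      · rintro ⟨⟨h1, h2⟩, h3⟩ i
        split_ifs with hi2
        · rw [Finset.mem_singleton]
          rcases hi2 with rfl | rfl
          · exact h3
          · rw [← h2, h3]
        · exact h1 i
      · intro h1
        have h2 := h1 i₀
        have h3 := h1 i₁
        rw [if_pos (Or.inl rfl), Finset.mem_singleton] at h2
        rw [if_pos (Or.inr rfl), Finset.mem_singleton] at h3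
        refine ⟨⟨fun i => ?_, by rw [h2, h3]⟩, h2⟩
        have h4 := h1 i
        split_ifs at h4 with hi2
        · rw [Finset.mem_singleton] at h4
          rw [h4]; exact hv
        · exact h4
    rw [e1, ← Finset.prod_univ_sum (fun i => if i = i₀ ∨ i = i₁ then ({v} : Finset V) else B)
      (fun _ j => h j)]
    have e2 : ∀ i, ∑ j ∈ (if i = i₀ ∨ i = i₁ then ({v} : Finset V) else B), h j =
        if i = i₀ ∨ i = i₁ then h v else MMom_S F B lam := by
      intro i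
      split_ifs
      · rw [Finset.sum_singleton]
      · rfl
    rw [Finset.prod_congr rfl fun i _ => e2 i, Finset.prod_ite, Finset.prod_const,
      Finset.prod_const]
    have e3 : (Finset.univ : Finset (Fin (2 * (k + 1)))).filter (fun i => i = i₀ ∨ i = i₁) =
        {i₀, i₁} := by
      ext i
      simp
    have e4 : ((Finset.univ : Finset (Fin (2 * (k + 1)))).filter
        (fun i => i = i₀ ∨ i = i₁)).card = 2 := by
      rw [e3, Finset.card_pair hi]
    have e5 : ((Finset.univ : Finset (Fin (2 * (k + 1)))).filter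
        (fun i => ¬ (i = i₀ ∨ i = i₁))).card = 2 * k := by
      have := Finset.card_filter_add_card_filter_not (s := (Finset.univ : Finset (Fin (2 * (k + 1)))))
        (fun i => i = i₀ ∨ i = i₁)
      rw [e4, Finset.card_univ, Fintype.card_fin] at this
      omega
    rw [e4, e5]
    have h5 : 0 ≤ MMom_S F B lam ^ (2 * k) := by
      rw [pow_mul]
      positivity
    exact mul_le_mul_of_nonneg_right (hle v) h5
  refine le_trans (Finset.sum_le_sum hfib) (le_of_eq ?_)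
  rw [Finset.sum_const, nsmul_eq_mul]
  ring

end Pool.Agent.H71.DG
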