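import Pool.Agent.H71.DG.MMom

/-!
# DG-17: moments of distinct tuples (M2)

PROOF.  `kap`-part: `relI F B (k+1) ≤ relD F B (k+1) + ∑_{i₀ < i₁} (tied count)` and by `relI_pair`
each of the `(k+1)(2k+1) ≤ 2 (k+1)²` tied counts is at most `4 |B| relI F B k`; divide by
`|B|^(2k+2) 2^(2k+2)`: `mom (k+1) ≤ kap (k+1) + (2 (k+1)² / |B|) mom k` (the falling
factorial is at most the power).  By `mom_eq` and Jensen (`Real.rpow_arith_mean_le_arith_mean_rpow` with
weights `N^(-r)`, values `cc²ᵏ`, exponent `(k+1)/k`): `mom k ≤ (mom (k+1))^(k/(k+1))`.  If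
`mom (k+1) > 2 kap (k+1)` then `mom/2 ≤ (2 (k+1)²/|B|) mom^(k/(k+1))`, so
`mom^(1/(k+1)) ≤ 4 (k+1)²/|B|`.  (Case `k = 0`: `mom 0 = 1`.)
`card_TT_le`: for `lam ∈ TT F B M₀`, `cc ≥ 1 - 20 M₀/|B| ≥ 1 - 1/(5k)` (`re_ge`), so
`cc^(2k) ≥ 1 - 2/5 ≥ 1/2` (`one_add_mul_le_pow`); all terms of `mom_eq` are `≥ 0`.
-/

set_option autoImplicit false

namespace Pool.Agent.H71.DG

open Matrix Classical Pool.Agent.H66.SP

/-- Lyapunov: `(E Z^(k-1))^k ≤ (E Z^k)^(k-1)` -/
theorem mm2_mean {ι : Type*} [Fintype ι] [Nonempty ι] (Z : ι → ℝ) (hZ : ∀ i, 0 ≤ Z i) (k : ℕ) :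
    ((∑ i, Z i ^ k) / Fintype.card ι) ^ (k + 1) ≤
      ((∑ i, Z i ^ (k + 1)) / Fintype.card ι) ^ k := by
  have hn : (0 : ℝ) < Fintype.card ι := by exact_mod_cast Fintype.card_pos
  rcases Nat.eq_zero_or_pos k with rfl | hk
  · simp only [pow_zero, zero_add, pow_one, Finset.sum_const, Finset.card_univ, nsmul_eq_mul,
      mul_one]
    rw [div_self hn.ne']
  have hk' : (0 : ℝ) < k := by exact_mod_cast hk
  set p : ℝ := (k + 1 : ℝ) / k with hp
  have hp1 : 1 ≤ p := by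
    rw [hp, le_div_iff₀ hk']
    linarith
  have hw : ∑ _i : ι, (1 / (Fintype.card ι : ℝ)) = 1 := by
    rw [Finset.sum_const, Finset.card_univ, nsmul_eq_mul, mul_one_div_cancel hn.ne']
  have h1 := Real.rpow_arith_mean_le_arith_mean_rpow Finset.univ
    (fun _ : ι => 1 / (Fintype.card ι : ℝ)) (fun i => Z i ^ k) (fun _ _ => by positivity) hw
    (fun i _ => pow_nonneg (hZ i) k) hp1
  simp only [← Finset.mul_sum] at h1
  have e1 : ∀ i, (Z i ^ k : ℝ) ^ p = Z i ^ (k + 1) := by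
    intro i
    rw [← Real.rpow_natCast (Z i) k, ← Real.rpow_mul (hZ i), hp, mul_div_cancel₀ _ hk'.ne',
      ← Real.rpow_natCast (Z i) (k + 1)]
    push_cast
    rfl
  simp only [e1] at h1
  have e2 : (∑ i, Z i ^ k) / (Fintype.card ι : ℝ) = 1 / Fintype.card ι * ∑ i, Z i ^ k := by ring
  have e3 : (∑ i, Z i ^ (k + 1)) / (Fintype.card ι : ℝ) =
      1 / Fintype.card ι * ∑ i, Z i ^ (k + 1) := by ring
  rw [e2, e3]
  set x : ℝ := 1 / (Fintype.card ι : ℝ) * ∑ i, Z i ^ k with hx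
  have hx0 : 0 ≤ x := mul_nonneg (by positivity)
    (Finset.sum_nonneg fun i _ => pow_nonneg (hZ i) k)
  have e4 : x ^ (k + 1) = (x ^ p) ^ k := by
    rw [← Real.rpow_natCast (x ^ p) k, ← Real.rpow_mul hx0, hp, div_mul_cancel₀ _ hk'.ne',
      ← Real.rpow_natCast x (k + 1)]
    push_cast
    rfl
  rw [e4]
  exact pow_le_pow_left₀ (Real.rpow_nonneg hx0 _) h1 k

theorem mm2_pairs (n : ℕ) :
    2 * ((Finset.univ : Finset (Fin n × Fin n)).filter (fun q => q.1 < q.2)).card ≤ n * n := by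
  have h1 : ((Finset.univ : Finset (Fin n × Fin n)).filter (fun q => q.1 < q.2)).card =
      ((Finset.univ : Finset (Fin n × Fin n)).filter (fun q => q.2 < q.1)).card := by
    apply Finset.card_bij (fun q _ => (q.2, q.1))
    · intro q hq
      rw [Finset.mem_filter] at hq ⊢
      exact ⟨Finset.mem_univ _, hq.2⟩
    · intro q _ q' _ h
      rw [Prod.mk.injEq] at h
      exact Prod.ext h.2 h.1
    · intro q hq
      rw [Finset.mem_filter] at hq
      exact ⟨(q.2, q.1), by rw [Finset.mem_filter]; exact ⟨Finset.mem_univ _, hq.2⟩, rfl⟩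
  have h2 : Disjoint ((Finset.univ : Finset (Fin n × Fin n)).filter (fun q => q.1 < q.2))
      ((Finset.univ : Finset (Fin n × Fin n)).filter (fun q => q.2 < q.1)) := by
    rw [Finset.disjoint_left]
    intro q hq hq'
    rw [Finset.mem_filter] at hq hq'
    exact absurd hq.2 (not_lt.2 hq'.2.le)
  have h3 := Finset.card_le_card (Finset.subset_univ
    (((Finset.univ : Finset (Fin n × Fin n)).filter (fun q => q.1 < q.2)) ∪
    ((Finset.univ : Finset (Fin n × Fin n)).filter (fun q => q.2 < q.1))))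
  rw [Finset.card_union_of_disjoint h2, Finset.card_univ, Fintype.card_prod, Fintype.card_fin] at h3
  omega

theorem mm2_rel {N r : ℕ} [NeZero N] {V : Type*} [Fintype V] (F : Matrix V (Fin r) (ZMod N))
    (B : Finset V) (k : ℕ) :
    (relI F B (k + 1) : ℝ) ≤ relD F B (k + 1) +
      2 * ((k : ℝ) + 1) ^ 2 * (4 * B.card * relI F B k) := by
  set P := (Finset.univ : Finset (Fin (2 * (k + 1)) × Fin (2 * (k + 1)))).filter
    (fun q => q.1 < q.2) with hP
  set T : Fin (2 * (k + 1)) × Fin (2 * (k + 1)) →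
      Finset ((Fin (2 * (k + 1)) → V) × (Fin (2 * (k + 1)) → Bool)) := fun q =>
    (Finset.univ : Finset ((Fin (2 * (k + 1)) → V) × (Fin (2 * (k + 1)) → Bool))).filter
      (fun x => (∀ i, x.1 i ∈ B) ∧ x.1 q.1 = x.1 q.2 ∧ ssum F x.1 x.2 = 0) with hT
  have hsub : ((Finset.univ : Finset ((Fin (2 * (k + 1)) → V) × (Fin (2 * (k + 1)) → Bool))).filter
      (fun x => (∀ i, x.1 i ∈ B) ∧ ssum F x.1 x.2 = 0)) ⊆
      ((Finset.univ : Finset ((Fin (2 * (k + 1)) → V) × (Fin (2 * (k + 1)) → Bool))).filter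
      (fun x => (∀ i, x.1 i ∈ B) ∧ Function.Injective x.1 ∧ ssum F x.1 x.2 = 0)) ∪
      P.biUnion T := by
    intro x hx
    rw [Finset.mem_filter] at hx
    rw [Finset.mem_union, Finset.mem_filter, Finset.mem_biUnion]
    by_cases hinj : Function.Injective x.1
    · left
      exact ⟨Finset.mem_univ _, hx.2.1, hinj, hx.2.2⟩
    · right
      rw [Function.Injective] at hinj
      push Not at hinj
      obtain ⟨i, j, hij, hne⟩ := hinj
      rcases lt_or_gt_of_ne hne with h | h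
      · refine ⟨(i, j), ?_, ?_⟩
        · rw [hP, Finset.mem_filter]
          exact ⟨Finset.mem_univ _, h⟩
        · rw [hT, Finset.mem_filter]
          exact ⟨Finset.mem_univ _, hx.2.1, hij, hx.2.2⟩
      · refine ⟨(j, i), ?_, ?_⟩
        · rw [hP, Finset.mem_filter]
          exact ⟨Finset.mem_univ _, h⟩
        · rw [hT, Finset.mem_filter]
          exact ⟨Finset.mem_univ _, hx.2.1, hij.symm, hx.2.2⟩
  have h1 := (Finset.card_le_card hsub).trans (Finset.card_union_le _ _)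
  have h2 : (relI F B (k + 1) : ℝ) ≤ relD F B (k + 1) + (P.biUnion T).card := by
    exact_mod_cast h1
  have h3 : ((P.biUnion T).card : ℝ) ≤ ∑ q ∈ P, ((T q).card : ℝ) := by
    exact_mod_cast Finset.card_biUnion_le
  have h4 : ∑ q ∈ P, ((T q).card : ℝ) ≤ ∑ _q ∈ P, (4 * (B.card : ℝ) * relI F B k) := by
    apply Finset.sum_le_sum
    intro q hq
    rw [hP, Finset.mem_filter] at hq
    exact relI_pair F B k q.1 q.2 hq.2.ne
  rw [Finset.sum_const, nsmul_eq_mul] at h4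
  have h5 : (P.card : ℝ) ≤ 2 * ((k : ℝ) + 1) ^ 2 := by
    have h6 := mm2_pairs (2 * (k + 1))
    have h7 : ((2 * P.card : ℕ) : ℝ) ≤ ((2 * (k + 1) * (2 * (k + 1)) : ℕ) : ℝ) := by
      exact_mod_cast h6
    push_cast at h7
    nlinarith
  have h8 : (P.card : ℝ) * (4 * (B.card : ℝ) * relI F B k) ≤
      2 * ((k : ℝ) + 1) ^ 2 * (4 * B.card * relI F B k) :=
    mul_le_mul_of_nonneg_right h5 (by positivity)
  linarith

theorem mm2_step {N r : ℕ} [NeZero N] {V : Type*} [Fintype V] (F : Matrix V (Fin r) (ZMod N))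
    (B : Finset V) (k : ℕ) (hB : 2 * (k + 1) ≤ B.card) :
    mom F B (k + 1) ≤ kap F B (k + 1) + 2 * ((k : ℝ) + 1) ^ 2 / B.card * mom F B k := by
  have hb : (0 : ℝ) < B.card := by
    have : 0 < B.card := by omega
    exact_mod_cast this
  have h1 := mm2_rel F B k
  have hd : (0 : ℝ) < (B.card.descFactorial (2 * (k + 1)) : ℝ) := by
    have : 0 < B.card.descFactorial (2 * (k + 1)) := Nat.descFactorial_pos.2 hB
    exact_mod_cast this
  have hd2 : (B.card.descFactorial (2 * (k + 1)) : ℝ) ≤ (B.card : ℝ) ^ (2 * (k + 1)) := by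
    exact_mod_cast Nat.descFactorial_le_pow B.card (2 * (k + 1))
  have h2 : (relD F B (k + 1) : ℝ) / ((B.card : ℝ) ^ (2 * (k + 1)) * 2 ^ (2 * (k + 1))) ≤
      kap F B (k + 1) := by
    unfold kap
    apply div_le_div_of_nonneg_left (Nat.cast_nonneg _) (by positivity)
    exact mul_le_mul_of_nonneg_right hd2 (by positivity)
  have h3 : mom F B (k + 1) ≤
      (relD F B (k + 1) + 2 * ((k : ℝ) + 1) ^ 2 * (4 * B.card * relI F B k)) /
        ((B.card : ℝ) ^ (2 * (k + 1)) * 2 ^ (2 * (k + 1))) := by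
    unfold mom
    exact div_le_div_of_nonneg_right h1 (by positivity)
  have h4 : (2 * ((k : ℝ) + 1) ^ 2 * (4 * B.card * relI F B k)) /
      ((B.card : ℝ) ^ (2 * (k + 1)) * 2 ^ (2 * (k + 1))) =
      2 * ((k : ℝ) + 1) ^ 2 / B.card * mom F B k := by
    unfold mom
    rw [show 2 * (k + 1) = 2 * k + 2 by ring, pow_add, pow_add]
    field_simp
    ring
  rw [add_div, h4] at h3
  linarith

theorem mom_le {N r : ℕ} [NeZero N] {V : Type*} [Fintype V] (F : Matrix V (Fin r) (ZMod N))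
    (B : Finset V) (k : ℕ) (hk : 1 ≤ k) (hB : 2 * k ≤ B.card) :
    mom F B k ≤ max (2 * kap F B k) ((4 * (k : ℝ) ^ 2 / B.card) ^ k) := by
  obtain ⟨k, rfl⟩ : ∃ l, k = l + 1 := ⟨k - 1, by omega⟩
  have hb : (0 : ℝ) < B.card := by
    have : 0 < B.card := by omega
    exact_mod_cast this
  have hBne : B.Nonempty := Finset.card_pos.1 (by omega)
  by_cases h : mom F B (k + 1) ≤ 2 * kap F B (k + 1)
  · exact h.trans (le_max_left _ _)
  rw [not_le] at h
  refine le_trans ?_ (le_max_right _ _)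
  have h1 := mm2_step F B k hB
  have hcardG : (Fintype.card (Fin r → ZMod N) : ℝ) = (N : ℝ) ^ r := by
    rw [Fintype.card_fun, ZMod.card, Fintype.card_fin]
    push_cast
    rfl
  have e1 : ∀ l : ℕ, mom F B l =
      (∑ lam : Fin r → ZMod N, (cc F B lam ^ 2) ^ l) / Fintype.card (Fin r → ZMod N) := by
    intro l
    rw [mom_eq F B hBne l, hcardG]
    simp only [pow_mul]
  have h2 : mom F B k ^ (k + 1) ≤ mom F B (k + 1) ^ k := by
    rw [e1 k, e1 (k + 1)]
    exact mm2_mean (fun lam => cc F B lam ^ 2) (fun _ => sq_nonneg _) k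
  have hm0 : ∀ l : ℕ, 0 ≤ mom F B l := by
    intro l
    unfold mom
    positivity
  have hk0 : 0 ≤ kap F B (k + 1) := by
    unfold kap
    positivity
  set y := mom F B (k + 1) with hy
  set x := mom F B k with hx
  have hy0 : 0 < y := by linarith
  set a : ℝ := 4 * ((k : ℝ) + 1) ^ 2 / B.card with ha
  have ha2 : 2 * (2 * ((k : ℝ) + 1) ^ 2 / B.card * x) = a * x := by
    rw [ha]
    ring
  have h3 : y ≤ a * x := by linarith
  have h4 : y ^ (k + 1) ≤ a ^ (k + 1) * y ^ k := by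
    calc y ^ (k + 1) ≤ (a * x) ^ (k + 1) := pow_le_pow_left₀ hy0.le h3 _
      _ = a ^ (k + 1) * x ^ (k + 1) := mul_pow _ _ _
      _ ≤ a ^ (k + 1) * y ^ k := mul_le_mul_of_nonneg_left h2 (by positivity)
  have h5 : y * y ^ k ≤ a ^ (k + 1) * y ^ k := by
    rw [← pow_succ']
    exact h4
  have h6 := le_of_mul_le_mul_right h5 (pow_pos hy0 k)
  push_cast
  exact h6

theorem card_TT_le {N r : ℕ} [NeZero N] {V : Type*} [Fintype V] (F : Matrix V (Fin r) (ZMod N))
    (B : Finset V) (hB : B.Nonempty) (k : ℕ) (hk : 1 ≤ k) (M₀ : ℝ)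
    (hM : 100 * k * M₀ ≤ B.card) :
    ((TT F B M₀).card : ℝ) ≤ 2 * (N : ℝ) ^ r * mom F B k := by
  have hN : (0 : ℝ) < N := by exact_mod_cast Nat.pos_of_ne_zero (NeZero.ne N)
  have hb : (0 : ℝ) < B.card := by exact_mod_cast Finset.card_pos.2 hB
  have hk' : (1 : ℝ) ≤ k := by exact_mod_cast hk
  have h1 : ∀ lam ∈ TT F B M₀, (1 / 2 : ℝ) ≤ cc F B lam ^ (2 * k) := by
    intro lam hlam
    unfold TT at hlam
    rw [Finset.mem_filter] at hlam
    have e1 : (B.card : ℝ) - 20 * M₀ ≤ ∑ j ∈ B, (ZMod.stdAddChar (lam ⬝ᵥ F j) : ℂ).re := by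
      calc (B.card : ℝ) - 20 * M₀ ≤ B.card - 20 * ∑ j ∈ B, nn (lam ⬝ᵥ F j) := by
            linarith [hlam.2]
        _ = ∑ j ∈ B, (1 - 20 * nn (lam ⬝ᵥ F j)) := by
            rw [Finset.sum_sub_distrib, Finset.sum_const, nsmul_eq_mul, mul_one, Finset.mul_sum]
        _ ≤ _ := Finset.sum_le_sum fun j _ => re_ge _
    have e2 : 1 + -(1 / (5 * (k : ℝ))) ≤ cc F B lam := by
      unfold cc
      rw [le_div_iff₀ hb]
      have e3 : 20 * M₀ ≤ 1 / (5 * (k : ℝ)) * B.card := by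
        rw [div_mul_eq_mul_div, one_mul, le_div_iff₀ (by positivity)]
        linarith
      linarith
    have e4 : (0 : ℝ) ≤ 1 + -(1 / (5 * (k : ℝ))) := by
      have : 1 / (5 * (k : ℝ)) ≤ 1 := by
        rw [div_le_one (by positivity)]
        linarith
      linarith
    have e5 : (1 + -(1 / (5 * (k : ℝ)))) ^ (2 * k) ≤ cc F B lam ^ (2 * k) :=
      pow_le_pow_left₀ e4 e2 _
    have e6 := one_add_mul_le_pow (a := -(1 / (5 * (k : ℝ)))) (by linarith) (2 * k)
    have e7 : (1 : ℝ) + ((2 * k : ℕ) : ℝ) * -(1 / (5 * (k : ℝ))) = 3 / 5 := by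
      push_cast
      field_simp
      norm_num
    rw [e7] at e6
    linarith
  rw [mom_eq F B hB k]
  have h2 : (TT F B M₀).card * (1 / 2 : ℝ) ≤ ∑ lam : Fin r → ZMod N, cc F B lam ^ (2 * k) := by
    calc (TT F B M₀).card * (1 / 2 : ℝ) = ∑ _lam ∈ TT F B M₀, (1 / 2 : ℝ) := by
          rw [Finset.sum_const, nsmul_eq_mul]
      _ ≤ ∑ lam ∈ TT F B M₀, cc F B lam ^ (2 * k) := Finset.sum_le_sum h1
      _ ≤ _ := Finset.sum_le_sum_of_subset_of_nonneg (Finset.subset_univ _)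
          (fun lam _ _ => by rw [pow_mul]; positivity)
  have h3 : 2 * (N : ℝ) ^ r * ((∑ lam : Fin r → ZMod N, cc F B lam ^ (2 * k)) / (N : ℝ) ^ r) =
      2 * ∑ lam : Fin r → ZMod N, cc F B lam ^ (2 * k) := by
    field_simp
  rw [h3]
  linarith

end Pool.Agent.H71.DG
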