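import Pool.Agent.H71.DG.MDefs

/-!
# DG-34: numerics for part M, polynomial conditions

All parameters are powers of `t`, `n ~ t^100`.  `Par t n p d` collects what is used.
Everything here is elementary.
-/

set_option autoImplicit false

namespace Pool.Agent.H71.DG

/-- the parameter relations -/
structure Par (t n p d : ℕ) : Prop where
  ht : 1000000 ≤ t
  hn1 : t ^ 100 ≤ n
  hn2 : n ≤ 2 * t ^ 100
  hp : 2 ≤ p
  hd : 1 ≤ d
  hd2 : 100 * d ≤ t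
  hnn : (n : ℝ) ≤ Real.exp ((t : ℝ) / 100)
  hpd : (p : ℝ) ^ (d * d) ≤ Real.exp ((t : ℝ) / 100)

/-- the size `w` -/
def ww (t d : ℕ) : ℕ := t ^ 80 + t ^ 85 * d

theorem Par.q_le {t n p d : ℕ} (h : Par t n p d) : (p : ℝ) ^ d ≤ Real.exp ((t : ℝ) / 100) := by
  refine le_trans ?_ h.hpd
  apply pow_le_pow_right₀
  · have := h.hp
    exact_mod_cast (show 1 ≤ p by omega)
  · have := h.hd
    nlinarith

theorem Par.p_le {t n p d : ℕ} (h : Par t n p d) : (p : ℝ) ≤ Real.exp ((t : ℝ) / 100) := by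
  refine le_trans ?_ h.hpd
  have h1 : (p : ℝ) = (p : ℝ) ^ 1 := (pow_one _).symm
  conv_lhs => rw [h1]
  apply pow_le_pow_right₀
  · have := h.hp
    exact_mod_cast (show 1 ≤ p by omega)
  · have := h.hd
    nlinarith

theorem Par.tR {t n p d : ℕ} (h : Par t n p d) : (1000000 : ℝ) ≤ (t : ℝ) := by
  exact_mod_cast h.ht

/-- the elementary comparison: `c * t ^ a ≤ t ^ b` if `a < b` and `c ≤ 10 ^ 6` (naturals) -/
theorem Par.powN {t n p d : ℕ} (h : Par t n p d) {a b c : ℕ} (hab : a < b) (hc : c ≤ 1000000) :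
    c * t ^ a ≤ t ^ b := by
  have ht := h.ht
  calc c * t ^ a ≤ t * t ^ a := Nat.mul_le_mul_right _ (le_trans hc ht)
    _ = t ^ (a + 1) := by rw [pow_succ]; ring
    _ ≤ t ^ b := Nat.pow_le_pow_right (by omega) hab

/-- the elementary comparison: `c * t ^ a ≤ t ^ b` if `a < b` and `c ≤ 10 ^ 6` (reals) -/
theorem Par.powR {t n p d : ℕ} (h : Par t n p d) {a b : ℕ} {c : ℝ} (hab : a < b)
    (hc : c ≤ 1000000) : c * (t : ℝ) ^ a ≤ (t : ℝ) ^ b := by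
  have ht := h.tR
  calc c * (t : ℝ) ^ a ≤ (t : ℝ) * (t : ℝ) ^ a :=
        mul_le_mul_of_nonneg_right (le_trans hc ht) (by positivity)
    _ = (t : ℝ) ^ (a + 1) := by rw [pow_succ]; ring
    _ ≤ (t : ℝ) ^ b := pow_le_pow_right₀ (by linarith) hab

theorem Par.ww_le {t n p d : ℕ} (h : Par t n p d) : ww t d ≤ t ^ 86 := by
  unfold ww
  have h1 : t ^ 80 ≤ t ^ 85 := Nat.pow_le_pow_right (by have := h.ht; omega) (by norm_num)
  have h2 : 1 + d ≤ t := by have := h.hd2; have := h.ht; omega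
  calc t ^ 80 + t ^ 85 * d ≤ t ^ 85 + t ^ 85 * d := Nat.add_le_add_right h1 _
    _ = t ^ 85 * (1 + d) := by ring
    _ ≤ t ^ 85 * t := Nat.mul_le_mul_left _ h2
    _ = t ^ 86 := by rw [pow_succ t 85]

theorem Par.hks {t n p d : ℕ} (h : Par t n p d) : 2 * t ≤ t ^ 80 := by
  have := h.powN (a := 1) (b := 80) (c := 2) (by norm_num) (by norm_num)
  rwa [pow_one] at this

theorem Par.hs {t n p d : ℕ} (h : Par t n p d) : 2 * t ^ 80 ≤ n :=
  le_trans (h.powN (a := 80) (b := 100) (c := 2) (by norm_num) (by norm_num)) h.hn1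

theorem Par.hM₀ {t n p d : ℕ} (h : Par t n p d) :
    100 * (t : ℝ) * (t : ℝ) ^ 78 ≤ ((t ^ 80 : ℕ) : ℝ) := by
  have := h.powR (a := 79) (b := 80) (c := 100) (by norm_num) (by norm_num)
  push_cast
  calc 100 * (t : ℝ) * (t : ℝ) ^ 78 = 100 * (t : ℝ) ^ 79 := by rw [pow_succ (t : ℝ) 78]; ring
    _ ≤ _ := this

theorem Par.hMM₁ {t n p d : ℕ} (h : Par t n p d) :
    (2 * ((t ^ 30 : ℕ) : ℝ) + 1) ^ 2 * (t : ℝ) ≤ (t : ℝ) ^ 78 := by
  have ht := h.tR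
  have h1 : (1 : ℝ) ≤ (t : ℝ) ^ 30 := one_le_pow₀ (by linarith)
  have h2 : (2 * ((t ^ 30 : ℕ) : ℝ) + 1) ^ 2 ≤ (3 * (t : ℝ) ^ 30) ^ 2 := by
    push_cast
    apply pow_le_pow_left₀ (by positivity)
    linarith
  have h3 := h.powR (a := 61) (b := 78) (c := 9) (by norm_num) (by norm_num)
  calc (2 * ((t ^ 30 : ℕ) : ℝ) + 1) ^ 2 * (t : ℝ) ≤ (3 * (t : ℝ) ^ 30) ^ 2 * (t : ℝ) :=
        mul_le_mul_of_nonneg_right h2 (by linarith)
    _ = 9 * (t : ℝ) ^ 61 := by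
        rw [mul_pow, ← pow_mul, pow_succ (t : ℝ) 60]
        norm_num
        ring
    _ ≤ _ := h3

theorem Par.hMM₂ {t n p d : ℕ} (h : Par t n p d) :
    ((5 * t ^ 10 : ℕ) : ℝ) ^ 2 * (t : ℝ) ^ 30 ≤ (t : ℝ) ^ 78 := by
  have h3 := h.powR (a := 50) (b := 78) (c := 25) (by norm_num) (by norm_num)
  calc ((5 * t ^ 10 : ℕ) : ℝ) ^ 2 * (t : ℝ) ^ 30 = 25 * (t : ℝ) ^ 50 := by
        push_cast
        rw [mul_pow, ← pow_mul, mul_assoc, ← pow_add]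
        norm_num
    _ ≤ _ := h3

theorem Par.h80 {t n p d : ℕ} (h : Par t n p d) : 80 * (t : ℝ) ^ 78 < ((t ^ 85 : ℕ) : ℝ) := by
  have ht := h.tR
  have h3 := h.powR (a := 78) (b := 85) (c := 100) (by norm_num) (by norm_num)
  have h4 : (0 : ℝ) < (t : ℝ) ^ 78 := by positivity
  push_cast
  linarith

theorem Par.hm₀ {t n p d : ℕ} (h : Par t n p d) : 2 * t ^ 80 + t ^ 85 * d ≤ t ^ 99 := by
  have h1 := h.ww_le
  have h2 := h.powN (a := 86) (b := 99) (c := 2) (by norm_num) (by norm_num)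
  unfold ww at h1
  have h3 : t ^ 80 ≤ t ^ 86 := Nat.pow_le_pow_right (by have := h.ht; omega) (by norm_num)
  omega

theorem Par.hm₀' {t n p d : ℕ} (h : Par t n p d) : t ^ 85 + ww t d ≤ t ^ 99 := by
  have h1 := h.ww_le
  have h2 := h.powN (a := 86) (b := 99) (c := 2) (by norm_num) (by norm_num)
  have h3 : t ^ 85 ≤ t ^ 86 := Nat.pow_le_pow_right (by have := h.ht; omega) (by norm_num)
  omega

theorem Par.hm₀'' {t n p d : ℕ} (h : Par t n p d) : t ^ 95 + ww t d ≤ t ^ 99 := by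
  have h1 := h.ww_le
  have h2 := h.powN (a := 95) (b := 99) (c := 2) (by norm_num) (by norm_num)
  have h3 : t ^ 86 ≤ t ^ 95 := Nat.pow_le_pow_right (by have := h.ht; omega) (by norm_num)
  omega

theorem Par.hwn {t n p d : ℕ} (h : Par t n p d) : ww t d ≤ n := by
  refine le_trans h.ww_le (le_trans ?_ h.hn1)
  exact Nat.pow_le_pow_right (by have := h.ht; omega) (by norm_num)

theorem Par.sq_le {t n p d : ℕ} (h : Par t n p d) :
    ((3 * t ^ 4 + 2 : ℕ) : ℝ) ^ 2 * (t : ℝ) ≤ 16 * (t : ℝ) ^ 9 := by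
  have ht := h.tR
  have h1 : (2 : ℝ) ≤ (t : ℝ) ^ 4 := by
    have := h.powR (a := 0) (b := 4) (c := 2) (by norm_num) (by norm_num)
    simpa using this
  have h2 : ((3 * t ^ 4 + 2 : ℕ) : ℝ) ^ 2 ≤ (4 * (t : ℝ) ^ 4) ^ 2 := by
    apply pow_le_pow_left₀ (by positivity)
    push_cast
    linarith
  calc ((3 * t ^ 4 + 2 : ℕ) : ℝ) ^ 2 * (t : ℝ) ≤ (4 * (t : ℝ) ^ 4) ^ 2 * (t : ℝ) :=
        mul_le_mul_of_nonneg_right h2 (by linarith)
    _ = 16 * (t : ℝ) ^ 9 := by ring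

theorem Par.hmM {t n p d : ℕ} (h : Par t n p d) :
    9 * (((3 * t ^ 4 + 2 : ℕ) : ℝ) ^ 2 * (t : ℝ)) < (t : ℝ) ^ 30 := by
  have ht := h.tR
  have h1 := h.sq_le
  have h2 := h.powR (a := 9) (b := 30) (c := 1000) (by norm_num) (by norm_num)
  have h4 : (0 : ℝ) < (t : ℝ) ^ 9 := by positivity
  linarith

theorem Par.hrho {t n p d : ℕ} (h : Par t n p d) :
    20 * (((3 * t ^ 4 + 2 : ℕ) : ℝ) ^ 2 * (t : ℝ)) ≤ ((t ^ 10 : ℕ) : ℝ) := by
  have ht := h.tR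
  have h1 := h.sq_le
  have h2 := h.powR (a := 9) (b := 10) (c := 1000) (by norm_num) (by norm_num)
  have h4 : (0 : ℝ) < (t : ℝ) ^ 9 := by positivity
  push_cast at h1 ⊢
  linarith

theorem Par.hδ {t n p d : ℕ} (h : Par t n p d) :
    1 < (((t ^ 4 : ℕ) : ℝ) + 1) * (1 / (t : ℝ) ^ 4) := by
  have ht := h.tR
  have h4 : (0 : ℝ) < (t : ℝ) ^ 4 := by positivity
  push_cast
  rw [mul_one_div, lt_div_iff₀ h4]
  linarith

theorem Par.hδ1 {t n p d : ℕ} (h : Par t n p d) : 1 / (t : ℝ) ^ 4 ≤ 1 := by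
  have ht := h.tR
  have h1 : (1 : ℝ) ≤ (t : ℝ) ^ 4 := one_le_pow₀ (by linarith)
  rw [div_le_one (by linarith)]
  exact h1

theorem Par.hx1 {t n p d : ℕ} (h : Par t n p d) : 1 / (t : ℝ) ^ 9 ≤ 1 := by
  have ht := h.tR
  have h1 : (1 : ℝ) ≤ (t : ℝ) ^ 9 := one_le_pow₀ (by linarith)
  rw [div_le_one (by linarith)]
  exact h1

theorem Par.q_pos {t n p d : ℕ} (h : Par t n p d) : (0 : ℝ) < (p : ℝ) ^ d := by
  have := h.hp
  have : (0 : ℝ) < (p : ℝ) := by exact_mod_cast (show 0 < p by omega)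
  positivity

theorem Par.hk₂ {t n p d : ℕ} (h : Par t n p d) :
    4 * (p : ℝ) ^ d * ((t : ℝ) ^ 10 / (p : ℝ) ^ d) + 2 ≤ ((5 * t ^ 10 : ℕ) : ℝ) := by
  have ht := h.tR
  have hq := h.q_pos
  have h1 : (2 : ℝ) ≤ (t : ℝ) ^ 10 := by
    have := h.powR (a := 0) (b := 10) (c := 2) (by norm_num) (by norm_num)
    simpa using this
  have h2 : 4 * (p : ℝ) ^ d * ((t : ℝ) ^ 10 / (p : ℝ) ^ d) = 4 * (t : ℝ) ^ 10 := by
    field_simp
  rw [h2]
  push_cast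
  linarith

theorem Par.hτ₀ {t n p d : ℕ} (h : Par t n p d) :
    1 / (p : ℝ) ^ d ≤ (t : ℝ) ^ 10 / (p : ℝ) ^ d := by
  have ht := h.tR
  have hq := h.q_pos
  have h1 : (1 : ℝ) ≤ (t : ℝ) ^ 10 := one_le_pow₀ (by linarith)
  exact div_le_div_of_nonneg_right h1 hq.le

end Pool.Agent.H71.DG
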