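import Pool.Agent.H71.DG.MMom2
import Pool.Agent.H71.DG.Growth
import Pool.Agent.H71.DG.Line

/-!
# DG-20: the row bound for `B'' ⊇ B` (M4) and triviality of level sets (M9)

PROOF `rb_main`: `rb_TT` for `B''`; `T = TT F B'' M`, `T' = TT F B'' M₀`.  If `|T| ≤ 1` the bound is
`1/q + exp (-2M)`.  Else `growth` (`zero_mem_TT`, `neg_mem_TT`, `sum_mem_TT` with `2j+1` terms,
`TT_mono`, `line_not_TT`): `j |T| ≤ |T'| ≤ |TT F B M₀| ≤ 2 q mom F B k ≤
2 q max (2 kap) ((4k²/|B|)^k) ≤ 4 q kap + 2`.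
PROOF `TT_trivial`: let `t ≠ 0`, `∑_{j∈B''} nn (t . F_j) ≤ M`.  The multiples `i • t`,
`i = 0..k₂`, lie in `TT F B'' (k₂² M) ⊆ TT F B'' M₀` (`nn (i x) ≤ i² nn x`, from `nn_sum_le`).  If they are
distinct then `k₂ + 1 ≤ |TT F B'' M₀| ≤ |TT F B M₀| ≤ 4 q kap + 2 ≤ k₂`, contradiction.  Otherwise
`p ≤ k₂` and all `c • t`, `c : ZMod p`, are among them, against `line_not_TT` with `x = 0`.
-/

set_option autoImplicit false

namespace Pool.Agent.H71.DG

open Matrix Classical Pool.Agent.H66.SP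

theorem RBmain_card {p d : ℕ} [Fact p.Prime] {V : Type*} [Fintype V]
    (F : Matrix V (Fin d) (ZMod p)) (B B'' : Finset V) (hBB : B ⊆ B'') (k : ℕ) (M₀ : ℝ)
    (hk : 1 ≤ k) (hB : 2 * k ≤ B.card) (hM₀ : 100 * k * M₀ ≤ B.card)
    (hq : (4 * (k : ℝ) ^ 2 / B.card) ^ k ≤ 1 / (p : ℝ) ^ d) :
    ((TT F B'' M₀).card : ℝ) ≤ 4 * (p : ℝ) ^ d * kap F B k + 2 := by
  have hp : (0 : ℝ) < p := by exact_mod_cast (Fact.out : p.Prime).pos
  have hpd : (0 : ℝ) < (p : ℝ) ^ d := pow_pos hp d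
  have hne : B.Nonempty := by
    rw [← Finset.card_pos]
    omega
  have h1 : (TT F B'' M₀).card ≤ (TT F B M₀).card := Finset.card_le_card (TT_mono F hBB le_rfl)
  have h2 : ((TT F B'' M₀).card : ℝ) ≤ ((TT F B M₀).card : ℝ) := by exact_mod_cast h1
  have h3 := card_TT_le F B hne k hk M₀ hM₀
  have h4 := mom_le F B k hk hB
  have hkap : 0 ≤ kap F B k := by
    unfold kap
    positivity
  have h5 : max (2 * kap F B k) ((4 * (k : ℝ) ^ 2 / B.card) ^ k) ≤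
      2 * kap F B k + 1 / (p : ℝ) ^ d := by
    apply max_le
    · have : 0 ≤ 1 / (p : ℝ) ^ d := by positivity
      linarith
    · linarith
  calc ((TT F B'' M₀).card : ℝ) ≤ 2 * (p : ℝ) ^ d * mom F B k := h2.trans h3
    _ ≤ 2 * (p : ℝ) ^ d * (2 * kap F B k + 1 / (p : ℝ) ^ d) := by
        apply mul_le_mul_of_nonneg_left (h4.trans h5)
        positivity
    _ = 4 * (p : ℝ) ^ d * kap F B k + 2 := by
        field_simp
        ring

theorem rb_main {p d : ℕ} [Fact p.Prime] {V : Type*} [Fintype V]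
    (F : Matrix V (Fin d) (ZMod p)) (B B'' : Finset V) (hBB : B ⊆ B'') (k j N₁ : ℕ) (M M₀ : ℝ)
    (hk : 1 ≤ k) (hj : 1 ≤ j) (hB : 2 * k ≤ B.card) (hM : 0 ≤ M)
    (hM₀ : 100 * k * M₀ ≤ B.card) (hMM : (2 * (j : ℝ) + 1) ^ 2 * M ≤ M₀)
    (hq : (4 * (k : ℝ) ^ 2 / B.card) ^ k ≤ 1 / (p : ℝ) ^ d) (h80 : 80 * M₀ < N₁)
    (hD : ∀ lam : Fin d → ZMod p, lam ≠ 0 → N₁ ≤ (B''.filter (fun j => lam ⬝ᵥ F j ≠ 0)).card) :
    RB F B'' (max (1 / (p : ℝ) ^ d) ((4 * kap F B k + 2 / (p : ℝ) ^ d) / j) +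
      Real.exp (-2 * M)) := by
  have hp : (0 : ℝ) < p := by exact_mod_cast (Fact.out : p.Prime).pos
  have hpd : (0 : ℝ) < (p : ℝ) ^ d := pow_pos hp d
  refine (rb_TT F B'' M).mono (add_le_add ?_ le_rfl)
  by_cases hT : 2 ≤ (TT F B'' M).card
  · refine le_trans ?_ (le_max_right _ _)
    have h1 := growth (TT F B'' M) (TT F B'' M₀) (zero_mem_TT F B'' hM)
      (fun x hx => neg_mem_TT F B'' M x hx) hT j hj
      (fun t ht => TT_mono F (Finset.Subset.refl B'') (by push_cast; exact hMM)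
        (sum_mem_TT F B'' M (2 * j + 1) t ht))
      (fun x b hb => line_not_TT F B'' N₁ M₀ h80 hD x b hb)
    have h2 := RBmain_card F B B'' hBB k M₀ hk hB hM₀ hq
    have h3 : (j : ℝ) * (TT F B'' M).card ≤ ((TT F B'' M₀).card : ℝ) := by exact_mod_cast h1
    have hj0 : (0 : ℝ) < j := by exact_mod_cast (by omega : 0 < j)
    rw [le_div_iff₀ hj0, div_mul_eq_mul_div, div_le_iff₀ hpd]
    have e : (4 * kap F B k + 2 / (p : ℝ) ^ d) * (p : ℝ) ^ d =
        4 * (p : ℝ) ^ d * kap F B k + 2 := by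
      field_simp
    rw [e]
    linarith
  · refine le_trans ?_ (le_max_left _ _)
    have h1 : (TT F B'' M).card ≤ 1 := by omega
    have h2 : ((TT F B'' M).card : ℝ) ≤ 1 := by exact_mod_cast h1
    gcongr

theorem TT_trivial {p d : ℕ} [Fact p.Prime] {V : Type*} [Fintype V]
    (F : Matrix V (Fin d) (ZMod p)) (B B'' : Finset V) (hBB : B ⊆ B'') (k k₂ N₁ : ℕ) (M M₀ : ℝ)
    (hk : 1 ≤ k) (hB : 2 * k ≤ B.card) (hM : 0 ≤ M)
    (hM₀ : 100 * k * M₀ ≤ B.card) (hMM : (k₂ : ℝ) ^ 2 * M ≤ M₀)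
    (hq : (4 * (k : ℝ) ^ 2 / B.card) ^ k ≤ 1 / (p : ℝ) ^ d) (h80 : 80 * M₀ < N₁)
    (hD : ∀ lam : Fin d → ZMod p, lam ≠ 0 → N₁ ≤ (B''.filter (fun j => lam ⬝ᵥ F j ≠ 0)).card)
    (hk₂ : 4 * (p : ℝ) ^ d * kap F B k + 2 ≤ k₂) (lam : Fin d → ZMod p) (hlam : lam ≠ 0) :
    M < ∑ j ∈ B'', nn (lam ⬝ᵥ F j) := by
  by_contra hc
  push Not at hc
  have hpp : p.Prime := Fact.out
  have hmem : ∀ i : ℕ, i ≤ k₂ → (i • lam) ∈ TT F B'' M₀ := by
    intro i hi
    have h1 := sum_mem_TT F B'' M i (fun _ => lam) (fun _ => by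
      rw [TT, Finset.mem_filter]
      exact ⟨Finset.mem_univ _, hc⟩)
    rw [Finset.sum_const, Finset.card_univ, Fintype.card_fin] at h1
    refine TT_mono F (Finset.Subset.refl B'') ?_ h1
    refine le_trans ?_ hMM
    have h2 : (i : ℝ) ≤ k₂ := by exact_mod_cast hi
    gcongr
  by_cases hpk : p ≤ k₂
  · obtain ⟨c, hc2⟩ := line_not_TT F B'' N₁ M₀ h80 hD 0 lam hlam
    apply hc2
    rw [zero_add]
    have h1 := hmem c.val ((ZMod.val_lt c).le.trans hpk)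
    have h2 : c.val • lam = c • lam := by
      rw [← Nat.cast_smul_eq_nsmul (ZMod p), ZMod.natCast_val, ZMod.cast_id]
    rw [← h2]
    exact h1
  · push Not at hpk
    have h1 : (Finset.range (k₂ + 1)).card ≤ (TT F B'' M₀).card := by
      apply Finset.card_le_card_of_injOn (fun i => i • lam)
      · intro i hi
        have := Finset.mem_range.1 hi
        exact hmem i (by omega)
      · intro i hi i' hi' h
        have hi1 : i < k₂ + 1 := Finset.mem_range.1 hi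
        have hi2 : i' < k₂ + 1 := Finset.mem_range.1 hi'
        have h2 : i • lam = i' • lam := h
        rw [← Nat.cast_smul_eq_nsmul (ZMod p) i, ← Nat.cast_smul_eq_nsmul (ZMod p) i'] at h2
        obtain ⟨v, hv⟩ := Function.ne_iff.1 hlam
        have h3 := congrFun h2 v
        rw [Pi.smul_apply, Pi.smul_apply, smul_eq_mul, smul_eq_mul] at h3
        have h4 := mul_right_cancel₀ hv h3
        have h5 := (ZMod.natCast_eq_natCast_iff' i i' p).1 h4
        rwa [Nat.mod_eq_of_lt (by omega), Nat.mod_eq_of_lt (by omega)] at h5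
    rw [Finset.card_range] at h1
    have h2 := RBmain_card F B B'' hBB k M₀ hk hB hM₀ hq
    have h3 : ((k₂ + 1 : ℕ) : ℝ) ≤ ((TT F B'' M₀).card : ℝ) := by exact_mod_cast h1
    push_cast at h3
    linarith

end Pool.Agent.H71.DG
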