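import Pool.Agent.H71.DG.Four

/-!
# DG-5: vertex set `I ⊕ J`: the Fourier bound and estimates of `PP`

PROOFS.  `four_sum`: `four_le` for `V = I ⊕ J`; the `y` correspond to pairs `(al, be)` by
`Sum.elim` (`Equiv.sumArrowEquivProdArrow`), `Fintype.sum_prod_type_right`.
`PP_le_rect`: all factors are in `[0, 1]` (`nn_nonneg`); the map `(i, j) ↦ s(inl i, inr j)` is
injective into `nd (I ⊕ J)`; keep only these factors (`Finset.prod_le_prod_of_subset_of_le_one'` is for
monoids, for reals use `Finset.prod_image` and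
`Finset.prod_le_one`/splitting `nd = image ∪ rest`); the factor is
`exp (-2 nn (al_i . FJ_j + be_j . FI_i))`, the product over `j` is `exp (-2 cost ..)`.
`PP_le_star`: keep the factors `s(inl i0, inl i)`, `i ≠ i0`.
-/

set_option autoImplicit false

namespace Pool.Agent.H71.DG

open Matrix Classical Pool.Agent.H66.SP

theorem prod_sub_le {ι : Type*} [DecidableEq ι] {s t : Finset ι} (h : s ⊆ t) (f : ι → ℝ)
    (h0 : ∀ i, 0 ≤ f i) (h1 : ∀ i, f i ≤ 1) : ∏ i ∈ t, f i ≤ ∏ i ∈ s, f i := by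
  rw [← Finset.prod_sdiff h]
  exact mul_le_of_le_one_left (Finset.prod_nonneg fun i _ => h0 i)
    (Finset.prod_le_one (fun i _ => h0 i) (fun i _ => h1 i))

theorem exp_nn_le_one {N : ℕ} (x : ZMod N) : Real.exp (-2 * nn x) ≤ 1 := by
  rw [Real.exp_le_one_iff]
  have := nn_nonneg x
  linarith

theorem four_sum {N r : ℕ} [NeZero N] {I J : Type*} [Fintype I] [Fintype J] [DecidableEq I]
    [DecidableEq J] (FI : Matrix I (Fin r) (ZMod N)) (FJ : Matrix J (Fin r) (ZMod N))
    (g : Matrix (I ⊕ J) (Fin r) (ZMod N)) :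
    (cnt (V := I ⊕ J) (Sum.elim FI FJ) g : ℝ) *
        ((N : ℝ) ^ r) ^ (Fintype.card I + Fintype.card J) ≤
      (Fintype.card (SimpleGraph (I ⊕ J)) : ℝ) *
        ∑ be : Matrix J (Fin r) (ZMod N), ∑ al : Matrix I (Fin r) (ZMod N), PP FI FJ al be := by
  have h := four_le (V := I ⊕ J) (Sum.elim FI FJ) g
  rw [Fintype.card_sum] at h
  refine h.trans (le_of_eq ?_)
  congr 1
  have e := Fintype.sum_equiv (Equiv.sumArrowEquivProdArrow I J (Fin r → ZMod N))
    (fun y : Matrix (I ⊕ J) (Fin r) (ZMod N) =>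
      ∏ e ∈ nd (I ⊕ J), Real.exp (-2 * nn (pr (V := I ⊕ J) (Sum.elim FI FJ) y e)))
    (fun p => PP FI FJ p.1 p.2) (fun y => by
      unfold PP
      have : y = Sum.elim (fun i => y (Sum.inl i)) (fun j => y (Sum.inr j)) := by
        funext x
        rcases x with x | x <;> rfl
      refine Finset.prod_congr rfl fun e _ => ?_
      conv_lhs => rw [this]
      rfl)
  refine e.trans ?_
  exact Fintype.sum_prod_type_right _

theorem PP_nonneg {N r : ℕ} {I J : Type*} [Fintype I] [Fintype J]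
    (FI : Matrix I (Fin r) (ZMod N)) (FJ : Matrix J (Fin r) (ZMod N))
    (al : Matrix I (Fin r) (ZMod N)) (be : Matrix J (Fin r) (ZMod N)) : 0 ≤ PP FI FJ al be := by
  exact Finset.prod_nonneg fun _ _ => (Real.exp_pos _).le

theorem PP_le_one {N r : ℕ} {I J : Type*} [Fintype I] [Fintype J]
    (FI : Matrix I (Fin r) (ZMod N)) (FJ : Matrix J (Fin r) (ZMod N))
    (al : Matrix I (Fin r) (ZMod N)) (be : Matrix J (Fin r) (ZMod N)) : PP FI FJ al be ≤ 1 := by
  exact Finset.prod_le_one (fun _ _ => (Real.exp_pos _).le) (fun _ _ => exp_nn_le_one _)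

theorem PP_le_rect {N r : ℕ} {I J : Type*} [Fintype I] [Fintype J]
    (FI : Matrix I (Fin r) (ZMod N)) (FJ : Matrix J (Fin r) (ZMod N))
    (al : Matrix I (Fin r) (ZMod N)) (be : Matrix J (Fin r) (ZMod N)) :
    PP FI FJ al be ≤ ∏ i, Real.exp (-2 * cost FJ be (FI i) (al i)) := by
  unfold PP
  set g : Sym2 (I ⊕ J) → ℝ :=
    fun e => Real.exp (-2 * nn (pr (V := I ⊕ J) (Sum.elim FI FJ) (Sum.elim al be) e)) with hg
  let φ : I × J → Sym2 (I ⊕ J) := fun p => s(Sum.inl p.1, Sum.inr p.2)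
  have hφ : Function.Injective φ := by
    rintro ⟨i, j⟩ ⟨i', j'⟩ h
    simp only [φ, Sym2.eq_iff] at h
    rcases h with ⟨h1, h2⟩ | ⟨h1, h2⟩
    · rw [Sum.inl.inj h1, Sum.inr.inj h2]
    · exact absurd h1 (by simp)
  have hsub : (Finset.univ : Finset (I × J)).image φ ⊆ nd (I ⊕ J) := by
    intro e he
    rw [Finset.mem_image] at he
    obtain ⟨p, -, rfl⟩ := he
    simp [nd, φ]
  refine (prod_sub_le hsub g (fun _ => (Real.exp_pos _).le) (fun _ => exp_nn_le_one _)).trans
    (le_of_eq ?_)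
  rw [Finset.prod_image (fun x _ y _ h => hφ h), Fintype.prod_prod_type]
  refine Finset.prod_congr rfl fun i _ => ?_
  unfold cost
  rw [Finset.mul_sum, Real.exp_sum]
  refine Finset.prod_congr rfl fun j _ => ?_
  rfl

theorem PP_le_star {N r : ℕ} {I J : Type*} [Fintype I] [Fintype J] [DecidableEq I]
    (FI : Matrix I (Fin r) (ZMod N)) (FJ : Matrix J (Fin r) (ZMod N))
    (al : Matrix I (Fin r) (ZMod N)) (be : Matrix J (Fin r) (ZMod N)) (i₀ : I) :
    PP FI FJ al be ≤ Real.exp (-2 * ∑ i ∈ Finset.univ.erase i₀,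
      nn (al i₀ ⬝ᵥ FI i + al i ⬝ᵥ FI i₀)) := by
  unfold PP
  set g : Sym2 (I ⊕ J) → ℝ :=
    fun e => Real.exp (-2 * nn (pr (V := I ⊕ J) (Sum.elim FI FJ) (Sum.elim al be) e)) with hg
  let φ : I → Sym2 (I ⊕ J) := fun i => s(Sum.inl i₀, Sum.inl i)
  have hφ : Function.Injective φ := by
    intro i i' h
    simp only [φ, Sym2.eq_iff] at h
    rcases h with ⟨-, h2⟩ | ⟨h1, h2⟩
    · exact Sum.inl.inj h2
    · rw [Sum.inl.inj h2, ← Sum.inl.inj h1]
  have hsub : (Finset.univ.erase i₀).image φ ⊆ nd (I ⊕ J) := by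
    intro e he
    rw [Finset.mem_image] at he
    obtain ⟨p, hp, rfl⟩ := he
    have := Finset.ne_of_mem_erase hp
    simp only [nd, φ, Finset.mem_filter, Finset.mem_univ, true_and, Sym2.mk_isDiag_iff]
    exact fun h => this (Sum.inl.inj h).symm
  refine (prod_sub_le hsub g (fun _ => (Real.exp_pos _).le) (fun _ => exp_nn_le_one _)).trans
    (le_of_eq ?_)
  rw [Finset.prod_image (fun x _ y _ h => hφ h), Finset.mul_sum, Real.exp_sum]
  refine Finset.prod_congr rfl fun j _ => ?_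
  rfl

end Pool.Agent.H71.DG
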