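import Pool.Agent.H71.DG.RBmain
import Pool.Agent.H71.DG.Bases

/-!
# DG-31: unstructured `F` (M9)

PROOF.  `¬ Strc` with `Z = ∅`: `B₁`, `|B₁| = s`, `kap F B₁ k ≤ τ₀`.  `¬ Strc` with `Z = B₁`: `B₂` disjoint
from `B₁`, `|B₂| = s`, `kap F B₂ k ≤ τ₀`.  `exists_R` with `U = B₁ ∪ B₂` gives `R`;
`J = B₂ ∪ R`.  First condition: `TT_trivial` with `B = B₂`, `B'' = J` (`R ⊆ J`).  Second: `TT_trivial` with
`B = B₁`, `B'' = Jᶜ`; for `lam ≠ 0` more than `m₀` rows have `lam . F_v ≠ 0` and at most `w` of them are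
in `J`, so at least `N₁` are in `Jᶜ`.
-/

set_option autoImplicit false

namespace Pool.Agent.H71.DG

open Matrix Classical Pool.Agent.H66.SP

theorem trich {p d : ℕ} [Fact p.Prime] {V : Type*} [Fintype V] [DecidableEq V]
    (F : Matrix V (Fin d) (ZMod p)) (s k k₂ N₁ m₀ w : ℕ) (M M₀ τ₀ : ℝ)
    (hk : 1 ≤ k) (hks : 2 * k ≤ s) (hM : 0 ≤ M)
    (hM₀ : 100 * k * M₀ ≤ s) (hMM : (k₂ : ℝ) ^ 2 * M ≤ M₀)
    (hq : (4 * (k : ℝ) ^ 2 / s) ^ k ≤ 1 / (p : ℝ) ^ d) (h80 : 80 * M₀ < N₁)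
    (hm₀ : 2 * s + N₁ * d ≤ m₀) (hw : w = s + N₁ * d) (hm₀' : N₁ + w ≤ m₀)
    (hk₂ : 4 * (p : ℝ) ^ d * τ₀ + 2 ≤ k₂) (hF : Dir F m₀) (hS : ¬ Strc F s k τ₀) :
    ∃ J : Finset V, J.card ≤ w ∧
      (∀ lam : Fin d → ZMod p, lam ≠ 0 → M < ∑ j ∈ J, nn (lam ⬝ᵥ F j)) ∧
      (∀ lam : Fin d → ZMod p, lam ≠ 0 → M < ∑ j ∈ Jᶜ, nn (lam ⬝ᵥ F j)) := by
  have hex : ∀ Z : Finset V, Z.card ≤ s →
      ∃ B : Finset V, Disjoint B Z ∧ B.card = s ∧ kap F B k ≤ τ₀ := by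
    intro Z hZ
    by_contra hcon
    push Not at hcon
    exact hS ⟨Z, hZ, fun B hB hBs => hcon B hB hBs⟩
  obtain ⟨B₁, -, hB₁s, hB₁k⟩ := hex ∅ (by rw [Finset.card_empty]; exact Nat.zero_le s)
  obtain ⟨B₂, hB₂d, hB₂s, hB₂k⟩ := hex B₁ hB₁s.le
  have hUc : (B₁ ∪ B₂).card ≤ 2 * s := by
    have := Finset.card_union_le B₁ B₂
    omega
  obtain ⟨R, hRU, hRc, hRD⟩ := exists_R F m₀ N₁ hF (B₁ ∪ B₂) (by omega)
  have hkap : ∀ B : Finset V, kap F B k ≤ τ₀ → 4 * (p : ℝ) ^ d * kap F B k + 2 ≤ k₂ := by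
    intro B hB
    refine le_trans ?_ hk₂
    have hp0 : (0 : ℝ) ≤ 4 * (p : ℝ) ^ d := by positivity
    have := mul_le_mul_of_nonneg_left hB hp0
    linarith
  refine ⟨B₂ ∪ R, ?_, ?_, ?_⟩
  · have := Finset.card_union_le B₂ R
    omega
  · intro lam hlam
    refine TT_trivial F B₂ (B₂ ∪ R) Finset.subset_union_left k k₂ N₁ M M₀ hk (by omega) hM
      (by rw [hB₂s]; exact hM₀) hMM (by rw [hB₂s]; exact hq) h80 ?_ (hkap B₂ hB₂k) lam hlam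
    intro l hl
    refine (hRD l hl).trans (Finset.card_le_card ?_)
    exact Finset.filter_subset_filter _ Finset.subset_union_right
  · intro lam hlam
    have hsub : B₁ ⊆ (B₂ ∪ R)ᶜ := by
      intro v hv
      rw [Finset.mem_compl, Finset.mem_union, not_or]
      constructor
      · intro hv2
        exact (Finset.disjoint_left.1 hB₂d hv2) hv
      · intro hvR
        exact (Finset.disjoint_left.1 hRU hvR) (Finset.mem_union_left _ hv)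
    refine TT_trivial F B₁ (B₂ ∪ R)ᶜ hsub k k₂ N₁ M M₀ hk (by omega) hM
      (by rw [hB₁s]; exact hM₀) hMM (by rw [hB₁s]; exact hq) h80 ?_ (hkap B₁ hB₁k) lam hlam
    intro l hl
    have h1 := hF l hl
    have h2 : ((Finset.univ : Finset V).filter (fun v => l ⬝ᵥ F v ≠ 0)) ⊆
        (B₂ ∪ R) ∪ ((B₂ ∪ R)ᶜ.filter (fun v => l ⬝ᵥ F v ≠ 0)) := by
      intro v hv
      rw [Finset.mem_union]
      by_cases hvJ : v ∈ B₂ ∪ R
      · exact Or.inl hvJ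
      · exact Or.inr (Finset.mem_filter.2 ⟨Finset.mem_compl.2 hvJ, (Finset.mem_filter.1 hv).2⟩)
    have h3 := (Finset.card_le_card h2).trans (Finset.card_union_le _ _)
    have h4 := Finset.card_union_le B₂ R
    omega

end Pool.Agent.H71.DG
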